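import Pool.Agent.H273.FAN.Base

/-! Basic API for `J`, `Den`, `Fan`. -/

set_option autoImplicit false

namespace Pool.Agent.H273.FAN

open Set Filter Topology Metric

section top
variable {X : Type} [TopologicalSpace X] {t : X}

theorem J_min {x : X} {K : Set X} (h1 : IsClosed K) (h2 : IsConnected K) (h3 : t ∈ K)
    (h4 : x ∈ K) : J t x ⊆ K := sInter_subset_of_mem ⟨h1, h2, h3, h4⟩

theorem img (h : X ≃ₜ X) (ht : h t = t) (x : X) : h '' J t x = J t (h x) := by
  have key : ∀ (g : X ≃ₜ X), g t = t → ∀ y, g '' J t y ⊆ J t (g y) := by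
    intro g hg y z hz K hK
    obtain ⟨u, hu, rfl⟩ := hz
    have : u ∈ g ⁻¹' K := by
      refine hu _ ⟨hK.1.preimage g.continuous, ?_, ?_, hK.2.2.2⟩
      · have := hK.2.1.image g.symm g.symm.continuous.continuousOn
        rwa [g.symm.image_eq_preimage_symm, Homeomorph.symm_symm] at this
      · show g t ∈ K
        rw [hg]; exact hK.2.2.1
    exact this
  apply Subset.antisymm (key h ht x)
  intro z hz
  have h2 := key h.symm (by rw [Homeomorph.symm_apply_eq, ht]) (h x)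
  rw [Homeomorph.symm_apply_apply] at h2
  exact ⟨h.symm z, h2 ⟨z, hz, rfl⟩, by simp⟩

theorem mem_img (h : X ≃ₜ X) (ht : h t = t) {x y : X} : h y ∈ J t (h x) ↔ y ∈ J t x := by
  rw [← img h ht x]
  constructor
  · rintro ⟨z, hz, hzy⟩
    rwa [← h.injective hzy]
  · intro hy; exact ⟨y, hy, rfl⟩

end top

section den
variable {X : Type} [MetricSpace X] [CompactSpace X] {t : X} {s : X → ℝ}

namespace Den
variable (D : Den X t s)
include D

theorem sub {x y : X} (h : y ∈ J t x) : J t y ⊆ J t x :=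
  J_min (D.closed x) (D.conn x) (D.memt x) h

theorem trans {x y z : X} (h : x ∈ J t y) (h' : y ∈ J t z) : x ∈ J t z := D.sub h' h

theorem compact (x : X) : IsCompact (J t x) := (D.closed x).isCompact

theorem J_t : J t t = {t} := by
  apply Subset.antisymm
  · exact J_min isClosed_singleton isConnected_singleton rfl rfl
  · rintro _ rfl; exact D.memt _

theorem eq_t {x : X} (h : x ∈ J t t) : x = t := by rw [D.J_t] at h; exact h

theorem s_mono {x y : X} (h : x ∈ J t y) : s x ≤ s y :=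
  (D.s_le y x y h (D.memx y)).1 h

theorem s_inj {x y y' : X} (h : y ∈ J t x) (h' : y' ∈ J t x) (hs : s y = s y') : y = y' :=
  D.anti _ _ ((D.s_le x y y' h h').2 hs.le) ((D.s_le x y' y h' h).2 hs.ge)

theorem total {x y y' : X} (h : y ∈ J t x) (h' : y' ∈ J t x) : y ∈ J t y' ∨ y' ∈ J t y := by
  rcases le_total (s y) (s y') with h1 | h1
  · exact Or.inl ((D.s_le x y y' h h').2 h1)
  · exact Or.inr ((D.s_le x y' y h' h).2 h1)

theorem s_pos {x : X} (h : x ≠ t) : 0 < s x := by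
  rcases (D.s_nonneg x).lt_or_eq with h1 | h1
  · exact h1
  · exact absurd (D.s_inj (D.memx x) (D.memt x) (by rw [← h1, D.s_t])) h

theorem s_lt {x y : X} (h : x ∈ J t y) (hne : x ≠ y) : s x < s y :=
  lt_of_le_of_ne (D.s_mono h) fun h1 => hne (D.s_inj h (D.memx y) h1)

theorem ne_t_of_mem {x y : X} (h : x ∈ J t y) (hx : x ≠ t) : y ≠ t := by
  rintro rfl; exact hx (D.eq_t h)

theorem level (x : X) {r : ℝ} (h0 : 0 ≤ r) (h1 : r ≤ s x) : ∃ y ∈ J t x, s y = r := by
  have := (D.conn x).isPreconnected.intermediate_value (D.memt x) (D.memx x) (D.s_cont x)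
  exact this ⟨by rw [D.s_t]; exact h0, h1⟩

/-- arc parametrisation by height -/
theorem arc (x : X) : ∃ a : ℝ → X, Continuous a ∧ (∀ r ∈ Icc 0 (s x), a r ∈ J t x ∧ s (a r) = r) ∧
    a 0 = t ∧ a (s x) = x := by
  classical
  have hcomp : CompactSpace (J t x) := isCompact_iff_compactSpace.1 (D.compact x)
  let f : J t x → Icc (0:ℝ) (s x) := fun y => ⟨s y, D.s_nonneg _, D.s_mono y.2⟩
  have hf : Continuous f :=
    Continuous.subtype_mk (continuousOn_iff_continuous_restrict.1 (D.s_cont x)) _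
  have hbij : Function.Bijective f := by
    constructor
    · intro a b hab
      exact Subtype.ext (D.s_inj a.2 b.2 (congrArg Subtype.val hab))
    · rintro ⟨r, hr0, hr1⟩
      obtain ⟨y, hy, hys⟩ := D.level x hr0 hr1
      exact ⟨⟨y, hy⟩, Subtype.ext hys⟩
  let g : J t x ≃ₜ Icc (0:ℝ) (s x) := Continuous.homeoOfEquivCompactToT2
    (f := Equiv.ofBijective f hbij) hf
  have hgf : ∀ y, g y = f y := fun y => rfl
  let pr : ℝ → Icc (0:ℝ) (s x) := Set.projIcc 0 (s x) (D.s_nonneg x)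
  refine ⟨fun r => (g.symm (pr r) : X), ?_, ?_, ?_, ?_⟩
  · exact continuous_subtype_val.comp (g.symm.continuous.comp continuous_projIcc)
  · intro r hr
    refine ⟨(g.symm (pr r)).2, ?_⟩
    have h1 : f (g.symm (pr r)) = pr r := by rw [← hgf, g.apply_symm_apply]
    have h2 := congrArg Subtype.val h1
    have h3 : ((pr r : Icc (0:ℝ) (s x)) : ℝ) = r := by
      simp only [pr, Set.projIcc_of_mem (D.s_nonneg x) hr]
    simpa [f, h3] using h2
  · have h1 : pr 0 = f ⟨t, D.memt x⟩ := by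
      apply Subtype.ext
      simp only [pr, f]
      rw [Set.projIcc_of_mem (D.s_nonneg x) ⟨le_refl _, D.s_nonneg x⟩]
      simp [D.s_t]
    show (g.symm (pr 0) : X) = t
    rw [h1, ← hgf, g.symm_apply_apply]
  · have h1 : pr (s x) = f ⟨x, D.memx x⟩ := by
      apply Subtype.ext
      simp only [pr, f]
      rw [Set.projIcc_of_mem (D.s_nonneg x) ⟨D.s_nonneg x, le_refl _⟩]
    show (g.symm (pr (s x)) : X) = x
    rw [h1, ← hgf, g.symm_apply_apply]

theorem arc_image {x : X} {a : ℝ → X}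
    (ha : ∀ r ∈ Icc 0 (s x), a r ∈ J t x ∧ s (a r) = r) : a '' Icc 0 (s x) = J t x := by
  apply Subset.antisymm
  · rintro _ ⟨r, hr, rfl⟩; exact (ha r hr).1
  · intro y hy
    have hr : s y ∈ Icc 0 (s x) := ⟨D.s_nonneg y, D.s_mono hy⟩
    exact ⟨s y, hr, D.s_inj (ha _ hr).1 hy (ha _ hr).2⟩

theorem Ic_closed (x y : X) (h : x ∈ J t y) : IsClosed (Ic t x y) := by
  have : Ic t x y = J t y ∩ s ⁻¹' Ici (s x) := by
    ext v
    constructor
    · rintro ⟨h1, h2⟩; exact ⟨h2, D.s_mono h1⟩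
    · rintro ⟨h1, h2⟩; exact ⟨(D.s_le y x v h h1).2 h2, h1⟩
  rw [this]
  exact (D.s_cont y).preimage_isClosed_of_isClosed (D.closed y) isClosed_Ici

theorem Ic_conn (x y : X) (h : x ∈ J t y) : IsConnected (Ic t x y) := by
  obtain ⟨a, hac, ha, -, -⟩ := D.arc y
  have : Ic t x y = a '' Icc (s x) (s y) := by
    ext v
    constructor
    · rintro ⟨h1, h2⟩
      have hr : s v ∈ Icc 0 (s y) := ⟨D.s_nonneg v, D.s_mono h2⟩
      exact ⟨s v, ⟨D.s_mono h1, D.s_mono h2⟩, D.s_inj (ha _ hr).1 h2 (ha _ hr).2⟩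
    · rintro ⟨r, ⟨hr1, hr2⟩, rfl⟩
      have hr : r ∈ Icc 0 (s y) := ⟨(D.s_nonneg x).trans hr1, hr2⟩
      refine ⟨(D.s_le y x _ h (ha r hr).1).2 ?_, (ha r hr).1⟩
      rw [(ha r hr).2]; exact hr1
  rw [this]
  exact (isConnected_Icc (D.s_mono h)).image _ hac.continuousOn

theorem left_mem_Ic {x y : X} (h : x ∈ J t y) : x ∈ Ic t x y := ⟨D.memx x, h⟩
theorem right_mem_Ic {x y : X} (h : x ∈ J t y) : y ∈ Ic t x y := ⟨h, D.memx y⟩

end Den
end den

section limsup
variable {X : Type} [MetricSpace X] [CompactSpace X]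

/-- the superior limit of a sequence of sets -/
def Ls (C : ℕ → Set X) : Set X := ⋂ n, closure (⋃ m ≥ n, C m)

theorem Ls_closed (C : ℕ → Set X) : IsClosed (Ls C) := isClosed_iInter fun _ => isClosed_closure

theorem mem_Ls_of_tendsto {C : ℕ → Set X} {u : ℕ → X} {x : X} (hu : ∀ n, u n ∈ C n)
    (hx : Tendsto u atTop (𝓝 x)) : x ∈ Ls C := by
  rw [Ls, mem_iInter]
  intro n
  apply mem_closure_of_tendsto hx
  filter_upwards [eventually_ge_atTop n] with m hm
  exact mem_iUnion₂.2 ⟨m, hm, hu m⟩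

/-- a neighbourhood of the superior limit eventually contains the sets -/
theorem Ls_eventually {C : ℕ → Set X} {U : Set X} (hU : IsOpen U) (h : Ls C ⊆ U) :
    ∀ᶠ n in atTop, C n ⊆ U := by
  have hdir : Directed (· ⊇ ·) (fun n => closure (⋃ m ≥ n, C m)) := by
    intro a b
    refine ⟨max a b, closure_mono ?_, closure_mono ?_⟩
    · exact biUnion_subset_biUnion_left fun m hm => (le_max_left a b).trans hm
    · exact biUnion_subset_biUnion_left fun m hm => (le_max_right a b).trans hm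
  obtain ⟨n, hn⟩ := exists_subset_nhds_of_isCompact' hdir
    (fun n => isClosed_closure.isCompact) (fun n => isClosed_closure)
    (U := U) (fun x hx => hU.mem_nhds (h hx))
  filter_upwards [eventually_ge_atTop n] with m hm
  exact (subset_biUnion_of_mem (u := fun m => C m) hm).trans (subset_closure.trans hn)

/-- the superior limit of connected sets with convergent points is connected -/
theorem Ls_conn {C : ℕ → Set X} (hC : ∀ n, IsConnected (C n)) {u : ℕ → X} {x : X}
    (hu : ∀ n, u n ∈ C n) (hx : Tendsto u atTop (𝓝 x)) : IsConnected (Ls C) := by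
  refine ⟨⟨x, mem_Ls_of_tendsto hu hx⟩, ?_⟩
  rw [isPreconnected_closed_iff]
  by_contra hcon
  push Not at hcon
  obtain ⟨A, B, hA, hB, hAB, hA', hB', hne⟩ := hcon
  have hdis : Disjoint (Ls C ∩ A) (Ls C ∩ B) := by
    rw [Set.disjoint_left]
    rintro y ⟨h1, h2⟩ ⟨_, h3⟩
    exact (hne.subset (show y ∈ Ls C ∩ (A ∩ B) from ⟨h1, h2, h3⟩))
  obtain ⟨U, V, hU, hV, hAU, hBV, hUV⟩ := normal_separation
    ((Ls_closed C).inter hA) ((Ls_closed C).inter hB) hdis
  have hsub : Ls C ⊆ U ∪ V := by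
    intro y hy
    rcases hAB hy with h | h
    · exact Or.inl (hAU ⟨hy, h⟩)
    · exact Or.inr (hBV ⟨hy, h⟩)
  have hev := Ls_eventually (hU.union hV) hsub
  have key : ∀ (P Q : Set X), IsOpen P → IsOpen Q → Disjoint P Q → (∀ᶠ n in atTop, C n ⊆ P ∪ Q) →
      x ∈ P → (Ls C ∩ Q).Nonempty → False := by
    intro P Q hP hQ hPQ hev hxP ⟨z, hz, hzQ⟩
    have h1 : ∀ᶠ n in atTop, C n ⊆ P := by
      filter_upwards [hev, hx.eventually (hP.mem_nhds hxP)] with n hn hn2
      exact (hC n).isPreconnected.subset_left_of_subset_union hP hQ hPQ hn ⟨u n, hu n, hn2⟩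
    obtain ⟨n, hn⟩ := eventually_atTop.1 h1
    have h2 : z ∈ closure (⋃ m ≥ n, C m) := mem_iInter.1 hz n
    have h3 : (⋃ m ≥ n, C m) ⊆ P := iUnion₂_subset fun m hm => hn m hm
    obtain ⟨v, hvQ, hvP⟩ := mem_closure_iff.1 h2 Q hQ hzQ
    exact (Set.disjoint_left.1 hPQ) (h3 hvP) hvQ
  rcases hsub (mem_Ls_of_tendsto hu hx) with hxU | hxV
  · exact key U V hU hV hUV hev hxU (by
      obtain ⟨z, hz1, hz2⟩ := hB'
      exact ⟨z, hz1, hBV ⟨hz1, hz2⟩⟩)
  · refine key V U hV hU hUV.symm ?_ hxV (by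
      obtain ⟨z, hz1, hz2⟩ := hA'
      exact ⟨z, hz1, hAU ⟨hz1, hz2⟩⟩)
    filter_upwards [hev] with n hn
    rwa [union_comm]

end limsup

end Pool.Agent.H273.FAN
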