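import Pool.Agent.H273.FAN.Api

/-! API for fans: semicontinuity, intervals, ends, the relation `N`. -/

set_option autoImplicit false

namespace Pool.Agent.H273.FAN

open Set Filter Topology Metric

section gen
variable {X : Type} [MetricSpace X] [CompactSpace X]

/-- If `C n` are continua with `α n, β n ∈ C n`, `α n → a`, `β n → b`, and `y` lies in every continuum
through `a` and `b`, then `y` is a limit of points of `C n`. -/
theorem seq_of_forall {C : ℕ → Set X} (hC : ∀ n, IsConnected (C n)) (hcl : ∀ n, IsClosed (C n))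
    {a b : X} {α β : ℕ → X} (hα : ∀ n, α n ∈ C n) (hα' : Tendsto α atTop (𝓝 a))
    (hβ : ∀ n, β n ∈ C n) (hβ' : Tendsto β atTop (𝓝 b)) {y : X}
    (hy : ∀ K : Set X, IsClosed K → IsConnected K → a ∈ K → b ∈ K → y ∈ K) :
    ∃ u : ℕ → X, (∀ n, u n ∈ C n) ∧ Tendsto u atTop (𝓝 y) := by
  have hex : ∀ n, ∃ u ∈ C n, infDist y (C n) = dist y u :=
    fun n => (hcl n).isCompact.exists_infDist_eq_dist ⟨α n, hα n⟩ y
  choose u hu hud using hex
  refine ⟨u, hu, ?_⟩
  rw [Metric.tendsto_atTop]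
  by_contra hcon
  push Not at hcon
  obtain ⟨ε, hε, hN⟩ := hcon
  obtain ⟨φ, hφ, hφ2⟩ := extraction_of_frequently_atTop
    (P := fun n => ε ≤ dist (u n) y)
    (frequently_atTop.2 fun n => (hN n).imp fun m hm => ⟨hm.1, hm.2⟩)
  have hL : y ∈ Ls (fun k => C (φ k)) := by
    apply hy _ (Ls_closed _)
      (Ls_conn (fun n => hC _) (fun n => hα (φ n)) (hα'.comp hφ.tendsto_atTop))
    · exact mem_Ls_of_tendsto (fun n => hα (φ n)) (hα'.comp hφ.tendsto_atTop)
    · exact mem_Ls_of_tendsto (fun n => hβ (φ n)) (hβ'.comp hφ.tendsto_atTop)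
  have h0 : y ∈ closure (⋃ m ≥ 0, C (φ m)) := mem_iInter.1 hL 0
  rw [Metric.mem_closure_iff] at h0
  obtain ⟨z, hz, hzd⟩ := h0 ε hε
  obtain ⟨m, -, hm⟩ := mem_iUnion₂.1 hz
  have h1 : infDist y (C (φ m)) ≤ dist y z := infDist_le_dist_of_mem hm
  have h2 := hφ2 m
  rw [dist_comm, ← hud] at h2
  linarith

/-- every sequence has a convergent subsequence -/
theorem sub_conv (u : ℕ → X) : ∃ (x : X) (φ : ℕ → ℕ), StrictMono φ ∧
    Tendsto (fun n => u (φ n)) atTop (𝓝 x) := by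
  obtain ⟨x, -, φ, hφ, h⟩ := isCompact_univ.tendsto_subseq (x := u) (fun n => mem_univ _)
  exact ⟨x, φ, hφ, h⟩

/-- a sequence converges to `x` as soon as all convergent subsequences converge to `x` -/
theorem tendsto_of_sub {u : ℕ → X} {x : X}
    (h : ∀ (φ : ℕ → ℕ) (y : X), StrictMono φ → Tendsto (fun n => u (φ n)) atTop (𝓝 y) → y = x) :
    Tendsto u atTop (𝓝 x) := by
  rw [Metric.tendsto_atTop]
  by_contra hcon
  push Not at hcon
  obtain ⟨ε, hε, hN⟩ := hcon
  obtain ⟨φ, hφ, hφ2⟩ := extraction_of_frequently_atTop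
    (P := fun n => ε ≤ dist (u n) x)
    (frequently_atTop.2 fun n => (hN n).imp fun m hm => ⟨hm.1, hm.2⟩)
  obtain ⟨y, ψ, hψ, hy⟩ := sub_conv (fun n => u (φ n))
  have hyx := h (φ ∘ ψ) y (hφ.comp hψ) hy
  rw [hyx, Metric.tendsto_atTop] at hy
  obtain ⟨n, hn⟩ := hy ε hε
  have := hn n le_rfl
  have := hφ2 (ψ n)
  linarith

end gen

section den
variable {X : Type} [MetricSpace X] [CompactSpace X] {t : X} {s : X → ℝ}

namespace Den
variable (D : Den X t s)
include D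

/-- lower semicontinuity of `x ↦ [t,x]` -/
theorem lsc {x : ℕ → X} {x0 y : X} (hx : Tendsto x atTop (𝓝 x0)) (hy : y ∈ J t x0) :
    ∃ u : ℕ → X, (∀ n, u n ∈ J t (x n)) ∧ Tendsto u atTop (𝓝 y) :=
  seq_of_forall (fun n => D.conn (x n)) (fun n => D.closed (x n)) (α := fun _ => t) (β := x)
    (fun n => D.memt _) tendsto_const_nhds (fun n => D.memx _) hx
    (fun _ h1 h2 h3 h4 => J_min h1 h2 h3 h4 hy)

theorem union_conn {K : Set X} (h2 : IsConnected K) {w : X} (hw : w ∈ K) :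
    IsConnected (K ∪ J t w) :=
  IsConnected.union ⟨w, hw, D.memx w⟩ h2 (D.conn w)

/-- every continuum through `w ≤ x` contains the interval -/
theorem Ic_sub {K : Set X} (h1 : IsClosed K) (h2 : IsConnected K) {w x v : X} (hw : w ∈ K)
    (hx : x ∈ K) (hv : v ∈ Ic t w x) : v ∈ K := by
  have h3 : v ∈ K ∪ J t w := J_min (h1.union (D.closed w)) (D.union_conn h2 hw)
    (Or.inr (D.memt w)) (Or.inl hx) hv.2
  rcases h3 with h | h
  · exact h
  · rwa [D.anti v w h hv.1]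

/-- intervals `[w n, x n]` with `w n → w`, `x n → x`, `w ≤ x` accumulate at all of `[w,x]` -/
theorem btw {w x : ℕ → X} {w0 x0 y : X} (hwx : ∀ n, w n ∈ J t (x n))
    (hw : Tendsto w atTop (𝓝 w0)) (hx : Tendsto x atTop (𝓝 x0)) (hy : y ∈ Ic t w0 x0) :
    ∃ u : ℕ → X, (∀ n, u n ∈ Ic t (w n) (x n)) ∧ Tendsto u atTop (𝓝 y) :=
  seq_of_forall (fun n => D.Ic_conn _ _ (hwx n)) (fun n => D.Ic_closed _ _ (hwx n))
    (fun n => D.left_mem_Ic (hwx n)) hw (fun n => D.right_mem_Ic (hwx n)) hx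
    (fun _ h1 h2 h3 h4 => D.Ic_sub h1 h2 h3 h4 hy)

/-- same with `x ≤ w` in the limit (a fold) -/
theorem btw' {w x : ℕ → X} {w0 x0 y : X} (hwx : ∀ n, w n ∈ J t (x n))
    (hw : Tendsto w atTop (𝓝 w0)) (hx : Tendsto x atTop (𝓝 x0)) (hy : y ∈ Ic t x0 w0) :
    ∃ u : ℕ → X, (∀ n, u n ∈ Ic t (w n) (x n)) ∧ Tendsto u atTop (𝓝 y) :=
  seq_of_forall (fun n => D.Ic_conn _ _ (hwx n)) (fun n => D.Ic_closed _ _ (hwx n))
    (fun n => D.left_mem_Ic (hwx n)) hw (fun n => D.right_mem_Ic (hwx n)) hx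
    (fun _ h1 h2 h3 h4 => D.Ic_sub h1 h2 h4 h3 hy)

/-- every continuum through points `w, x` with `J t w ∩ J t x = {t}` contains `t` -/
theorem t_mem_of {K : Set X} (h1 : IsClosed K) (h2 : IsConnected K) {w x : X} (hw : w ∈ K)
    (hx : x ∈ K) (hwx : J t w ∩ J t x ⊆ {t}) : t ∈ K := by
  by_cases hwt : w = t
  · rwa [← hwt]
  have h3 : J t w ⊆ K ∪ J t x := J_min (h1.union (D.closed x)) (D.union_conn h2 hx)
    (Or.inr (D.memt x)) (Or.inl hw)
  have h4 : J t w \ {t} ⊆ K := by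
    rintro v ⟨hv, hvt⟩
    rcases h3 hv with h | h
    · exact h
    · exact absurd (hwx ⟨hv, h⟩) hvt
  have h5 : t ∈ closure (J t w \ {t}) := by
    have hpre : IsPreconnected (J t w) := (D.conn w).isPreconnected
    by_contra hcon
    obtain ⟨a, hac, ha, ha0, ha1⟩ := D.arc w
    apply hcon
    have hpos : 0 < s w := D.s_pos hwt
    rw [← ha0]
    have hmem : (0:ℝ) ∈ closure (Ioc 0 (s w)) := by
      rw [closure_Ioc hpos.ne]
      exact ⟨le_rfl, hpos.le⟩
    have := mem_closure_image (f := a) hac.continuousAt hmem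
    rw [ha0] at this ⊢
    refine closure_mono ?_ this
    rintro _ ⟨r, hr, rfl⟩
    refine ⟨(ha r ⟨hr.1.le, hr.2⟩).1, ?_⟩
    intro h
    have h6 := (ha r ⟨hr.1.le, hr.2⟩).2
    rw [mem_singleton_iff.1 h, D.s_t] at h6
    exact absurd h6 hr.1.ne
  exact closure_minimal h4 h1 h5

/-- `w n ≤ x n`, limits on different legs: the intervals accumulate at `t` -/
theorem btw_t {w x : ℕ → X} {w0 x0 : X} (hwx : ∀ n, w n ∈ J t (x n))
    (hw : Tendsto w atTop (𝓝 w0)) (hx : Tendsto x atTop (𝓝 x0)) (h : J t w0 ∩ J t x0 ⊆ {t}) :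
    ∃ u : ℕ → X, (∀ n, u n ∈ Ic t (w n) (x n)) ∧ Tendsto u atTop (𝓝 t) :=
  seq_of_forall (fun n => D.Ic_conn _ _ (hwx n)) (fun n => D.Ic_closed _ _ (hwx n))
    (fun n => D.left_mem_Ic (hwx n)) hw (fun n => D.right_mem_Ic (hwx n)) hx
    (fun _ h1 h2 h3 h4 => D.t_mem_of h1 h2 h3 h4 h)

/-! ### the relation `N` -/

theorem J_sub_N (x : X) : J t x ⊆ N t x := fun _ hw => subset_closure hw

theorem mem_N_iff {x w : X} : w ∈ N t x ↔ ∃ u v : ℕ → X, (∀ n, v n ∈ J t (u n)) ∧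
    Tendsto u atTop (𝓝 x) ∧ Tendsto v atTop (𝓝 w) := by
  rw [N, mem_setOf_eq, mem_closure_iff_seq_limit]
  constructor
  · rintro ⟨p, hp, hlim⟩
    exact ⟨fun n => (p n).1, fun n => (p n).2, hp,
      (continuous_fst.tendsto _).comp hlim, (continuous_snd.tendsto _).comp hlim⟩
  · rintro ⟨u, v, h, hu, hv⟩
    exact ⟨fun n => (u n, v n), h, hu.prodMk_nhds hv⟩

theorem N_lim {u v : ℕ → X} {x w : X} (h : ∀ n, v n ∈ N t (u n)) (hu : Tendsto u atTop (𝓝 x))
    (hv : Tendsto v atTop (𝓝 w)) : w ∈ N t x :=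
  isClosed_closure.mem_of_tendsto (hu.prodMk_nhds hv) (Eventually.of_forall h)

theorem N_closed (x : X) : IsClosed (N t x) := by
  have : N t x = (fun w => (x, w)) ⁻¹' closure {p : X × X | p.2 ∈ J t p.1} := rfl
  rw [this]
  exact isClosed_closure.preimage (by fun_prop)

theorem N_down {x w v : X} (hw : w ∈ N t x) (hv : v ∈ J t w) : v ∈ N t x := by
  obtain ⟨u, w', h, hu, hw'⟩ := D.mem_N_iff.1 hw
  obtain ⟨v', h1, h2⟩ := D.lsc hw' hv
  exact D.mem_N_iff.2 ⟨u, v', fun n => D.trans (h1 n) (h n), hu, h2⟩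

end Den

/-- `N` is equivariant -/
theorem N_img (h : X ≃ₜ X) (ht : h t = t) {x w : X} (hw : w ∈ N t x) : h w ∈ N t (h x) := by
  have hc : Continuous (fun p : X × X => (h p.1, h p.2)) := by fun_prop
  have h1 := mem_closure_image (f := fun p : X × X => (h p.1, h p.2)) hc.continuousAt hw
  refine closure_mono ?_ h1
  rintro _ ⟨p, hp, rfl⟩
  exact (mem_img h ht).2 hp

theorem N_img_iff (h : X ≃ₜ X) (ht : h t = t) {x w : X} : h w ∈ N t (h x) ↔ w ∈ N t x := by
  refine ⟨fun hw => ?_, N_img h ht⟩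
  have := N_img h.symm (by rw [Homeomorph.symm_apply_eq, ht]) hw
  simpa using this

end den

section fan
variable {X : Type} [MetricSpace X] [CompactSpace X] {t : X} {s : X → ℝ} {e : X → X}

namespace Fan
variable (F : Fan X t s e)
include F

theorem fix' (h : X ≃ₜ X) : h.symm t = t := F.fix h.symm

theorem e_ne {x : X} (hx : x ≠ t) : e x ≠ t := F.toDen.ne_t_of_mem (F.le_e x) hx

theorem ne_of_e {x : X} (hx : e x ≠ t) : x ≠ t := by
  rintro rfl; exact hx F.e_t

theorem e_mem {x y : X} (hy : y ∈ J t x) (hyt : y ≠ t) : e y = e x := by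
  have hx := F.toDen.ne_t_of_mem hy hyt
  rcases F.comp y (e y) (e x) hyt (F.le_e y) (F.toDen.trans hy (F.le_e x)) with h | h
  · exact (F.e_max y (e x) hyt h).symm
  · exact F.e_max x (e y) hx h

theorem e_e (x : X) : e (e x) = e x := by
  by_cases hx : x = t
  · rw [hx, F.e_t, F.e_t]
  · exact (F.e_mem (F.le_e x) hx).symm

/-- two points of the same leg are comparable -/
theorem same {x y : X} (h : e x = e y) : x ∈ J t y ∨ y ∈ J t x :=
  F.toDen.total (F.le_e x) (h ▸ F.le_e y)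

theorem e_eq_of_mem_leg {x y : X} (hy : y ∈ J t (e x)) (hyt : y ≠ t) : e y = e x := by
  rw [F.e_mem hy hyt, F.e_e]

theorem mem_leg_iff {x y : X} (hyt : y ≠ t) : y ∈ J t (e x) ↔ e y = e x :=
  ⟨fun h => F.e_eq_of_mem_leg h hyt, fun h => h ▸ F.le_e y⟩

/-- points on different legs have only `t` below both -/
theorem diff {x y : X} (h : e x ≠ e y) : J t x ∩ J t y ⊆ {t} := by
  rintro v ⟨h1, h2⟩
  by_contra hv
  exact h ((F.e_mem h1 hv).symm.trans (F.e_mem h2 hv))

theorem eq_of_e_eq_self {x y : X} (hx : e x = x) (hxt : x ≠ t) (hxy : x ∈ J t y) : x = y := by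
  rw [← hx] at hxy
  rw [F.e_max x y hxt hxy, hx]

theorem e_homeo (h : X ≃ₜ X) (x : X) : h (e x) = e (h x) := by
  by_cases hx : x = t
  · rw [hx, F.e_t, F.fix, F.e_t]
  have hhx : h x ≠ t := by
    intro h1; apply hx
    apply h.injective; rw [h1, F.fix]
  have h1 : h x ∈ J t (h (e x)) := (mem_img h (F.fix h)).2 (F.le_e x)
  rcases F.comp (h x) _ _ hhx h1 (F.le_e (h x)) with h2 | h2
  · have h3 : h.symm (h (e x)) ∈ J t (h.symm (e (h x))) :=
      (mem_img h.symm (F.fix h.symm)).2 h2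
    rw [Homeomorph.symm_apply_apply] at h3
    have h4 := F.e_max x _ hx h3
    rw [← h4, Homeomorph.apply_symm_apply]
  · exact F.e_max (h x) _ hhx h2

theorem homeo_ne {x : X} (h : X ≃ₜ X) (hx : x ≠ t) : h x ≠ t := fun h1 =>
  hx (h.injective (by rw [h1, F.fix]))

/-- comparison by height inside a leg -/
theorem le_iff {x y : X} (h : e x = e y) : x ∈ J t y ↔ s x ≤ s y :=
  F.s_le (e x) x y (F.le_e x) (h ▸ F.le_e y)

theorem eq_of_s {x y : X} (h : e x = e y) (hs : s x = s y) : x = y :=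
  F.toDen.s_inj (F.le_e x) (h ▸ F.le_e y) hs

end Fan
end fan

section near
variable {X : Type} [MetricSpace X]

theorem near_refl {ε : ℝ} (h : 0 < ε) : near (Homeomorph.refl X) ε := fun x => by
  simp [h]

theorem near.symm {g : X ≃ₜ X} {ε : ℝ} (h : near g ε) : near g.symm ε := fun x =>
  ⟨(h x).2, (h x).1⟩

theorem near.mono {g : X ≃ₜ X} {ε ε' : ℝ} (h : near g ε) (hε : ε ≤ ε') : near g ε' := fun x =>
  ⟨(h x).1.trans_le hε, (h x).2.trans_le hε⟩

theorem near.trans {g h : X ≃ₜ X} {ε ε' : ℝ} (hg : near g ε) (hh : near h ε') :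
    near (g.trans h) (ε + ε') := fun x => by
  constructor
  · have h1 := (hh (g x)).1
    have h2 := (hg x).1
    calc dist ((g.trans h) x) x ≤ dist (h (g x)) (g x) + dist (g x) x := dist_triangle _ _ _
      _ < ε + ε' := by linarith
  · have h1 := (hg (h.symm x)).2
    have h2 := (hh x).2
    calc dist ((g.trans h).symm x) x ≤ dist (g.symm (h.symm x)) (h.symm x) + dist (h.symm x) x :=
          dist_triangle _ _ _
      _ < ε + ε' := by linarith

end near

end Pool.Agent.H273.FAN
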