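import Pool.Agent.H273.FAN.Stm2

/-! Clopen leg-saturated sets of a fan minus its top, heights, labellings (for the smooth case). -/

set_option autoImplicit false

namespace Pool.Agent.H273.FAN

open Set Filter Topology Metric

/-- `O` is clopen in `X \ {t}` -/
structure CS {X : Type} [TopologicalSpace X] (t : X) (O : Set X) : Prop where
  nt : t ∉ O
  op : IsOpen O
  cl : IsClosed (O ∪ {t})

/-- a height function: continuous, zero at `t`, strictly increasing along the legs -/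
structure Ht {X : Type} [TopologicalSpace X] (t : X) (f : X → ℝ) : Prop where
  cont : Continuous f
  at_t : f t = 0
  mono : ∀ x y, x ∈ J t y → x ≠ y → f x < f y

/-- a finite labelling of `X \ {t}` with clopen classes (the value at `t` is irrelevant) -/
structure Lab {X : Type} [TopologicalSpace X] (t : X) (P : X → ℕ) : Prop where
  cs : ∀ i, CS t (P ⁻¹' {i} \ {t})
  fin : (P '' {t}ᶜ).Finite

/-- logarithm of the ratio of the heights of the classes with label `i` -/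
noncomputable def lam {X : Type} (t : X) (f₁ f₂ : X → ℝ) (P Q : X → ℕ) (i : ℕ) : ℝ :=
  Real.log (sSup (f₂ '' (Q ⁻¹' {i} \ {t}))) - Real.log (sSup (f₁ '' (P ⁻¹' {i} \ {t})))

/-- two matched labellings, with base point `b` -/
structure Good {X : Type} [TopologicalSpace X] (t b : X) (P Q : X → ℕ) : Prop where
  labP : Lab t P
  labQ : Lab t Q
  rng : P '' {t}ᶜ = Q '' {t}ᶜ
  base : P b = Q b

section
variable {X : Type} [TopologicalSpace X] {t : X} {O O' : Set X}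

theorem CS.empty [T1Space X] : CS t (∅ : Set X) := ⟨by simp, isOpen_empty, by simp⟩

theorem CS.whole [T1Space X] : CS t ({t}ᶜ : Set X) :=
  ⟨by simp, isOpen_compl_singleton, by rw [compl_union_self]; exact isClosed_univ⟩

theorem CS.inter (h : CS t O) (h' : CS t O') : CS t (O ∩ O') :=
  ⟨fun h1 => h.nt h1.1, h.op.inter h'.op, by
    rw [inter_union_distrib_right]; exact h.cl.inter h'.cl⟩

theorem CS.union (h : CS t O) (h' : CS t O') : CS t (O ∪ O') :=
  ⟨fun h1 => h1.elim h.nt h'.nt, h.op.union h'.op, by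
    have : O ∪ O' ∪ {t} = (O ∪ {t}) ∪ (O' ∪ {t}) := by
      ext x; simp only [mem_union, mem_singleton_iff]; tauto
    rw [this]; exact h.cl.union h'.cl⟩

theorem CS.diff (h : CS t O) (h' : CS t O') : CS t (O \ O') := by
  refine ⟨fun h1 => h.nt h1.1, ?_, ?_⟩
  · have : O \ O' = O ∩ (O' ∪ {t})ᶜ := by
      ext x
      simp only [Set.mem_sdiff, mem_inter_iff, mem_compl_iff, mem_union, mem_singleton_iff, not_or]
      constructor
      · rintro ⟨h1, h2⟩
        exact ⟨h1, h2, fun h3 => h.nt (h3 ▸ h1)⟩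
      · rintro ⟨h1, h2, -⟩; exact ⟨h1, h2⟩
    rw [this]; exact h.op.inter h'.cl.isOpen_compl
  · have : O \ O' ∪ {t} = (O ∪ {t}) ∩ O'ᶜ := by
      ext x
      simp only [Set.mem_sdiff, mem_inter_iff, mem_compl_iff, mem_union, mem_singleton_iff]
      constructor
      · rintro (⟨h1, h2⟩ | rfl)
        · exact ⟨Or.inl h1, h2⟩
        · exact ⟨Or.inr rfl, h'.nt⟩
      · rintro ⟨h1 | h1, h2⟩
        · exact Or.inl ⟨h1, h2⟩
        · exact Or.inr h1
    rw [this]; exact h.cl.inter h'.op.isClosed_compl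

theorem CS.compl [T1Space X] (h : CS t O) : CS t ({t}ᶜ \ O) := CS.whole.diff h

end

section
variable {X : Type} [MetricSpace X] [CompactSpace X] {t : X} {s : X → ℝ} {e : X → X}

theorem Ht.pos {f : X → ℝ} (D : Den X t s) (h : Ht t f) {x : X} (hx : x ≠ t) : 0 < f x := by
  have := h.mono t x (D.memt x) (Ne.symm hx)
  rwa [h.at_t] at this

theorem Ht.nonneg {f : X → ℝ} (D : Den X t s) (h : Ht t f) (x : X) : 0 ≤ f x := by
  by_cases hx : x = t
  · rw [hx, h.at_t]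
  · exact (h.pos D hx).le

theorem Ht.le {f : X → ℝ} (h : Ht t f) {x y : X} (hxy : x ∈ J t y) : f x ≤ f y := by
  by_cases hx : x = y
  · rw [hx]
  · exact (h.mono x y hxy hx).le

/-- intermediate values of a height on a leg -/
theorem Ht.ivt {f : X → ℝ} (D : Den X t s) (h : Ht t f) (x : X) {r : ℝ} (h0 : 0 ≤ r)
    (h1 : r ≤ f x) : ∃ y ∈ J t x, f y = r :=
  (D.conn x).isPreconnected.intermediate_value (D.memt x) (D.memx x) h.cont.continuousOn
    ⟨by rw [h.at_t]; exact h0, h1⟩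

/-- clopen sets are saturated: they contain whole legs (minus `t`) -/
theorem CS.sat {O : Set X} (F : Fan X t s e) (h : CS t O) {x y : X} (hx : x ∈ O) (hy : y ≠ t)
    (hxy : e y = e x) : y ∈ O := by
  have hxt : x ≠ t := fun h1 => h.nt (h1 ▸ hx)
  set p := e x with hp
  have hpt : p ≠ t := F.e_ne hxt
  obtain ⟨a, hac, ha, ha0, ha1⟩ := F.toDen.arc p
  have key : ∀ v, v ∈ J t p → v ≠ t → ∃ r ∈ Ioc 0 (s p), a r = v := by
    intro v hv hvt
    refine ⟨s v, ⟨F.toDen.s_pos hvt, F.toDen.s_mono hv⟩, ?_⟩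
    have hr : s v ∈ Icc 0 (s p) := ⟨F.s_nonneg v, F.toDen.s_mono hv⟩
    exact F.toDen.s_inj (ha _ hr).1 hv (ha _ hr).2
  obtain ⟨rx, hrx, hax⟩ := key x (F.le_e x) hxt
  obtain ⟨ry, hry, hay⟩ := key y (hxy ▸ F.le_e y) hy
  have hconn : IsPreconnected (a '' Ioc 0 (s p)) :=
    (isPreconnected_Ioc).image _ hac.continuousOn
  have hsub : a '' Ioc 0 (s p) ⊆ O ∪ (O ∪ {t})ᶜ := by
    rintro _ ⟨r, hr, rfl⟩
    have h1 : a r ≠ t := by
      intro h2
      have h3 := (ha r ⟨hr.1.le, hr.2⟩).2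
      rw [h2, F.s_t] at h3
      exact hr.1.ne h3
    by_cases h4 : a r ∈ O
    · exact Or.inl h4
    · exact Or.inr (by simp only [mem_compl_iff, mem_union, mem_singleton_iff]; tauto)
  have hdis : Disjoint O (O ∪ {t})ᶜ :=
    disjoint_compl_right.mono_left subset_union_left
  have := hconn.subset_left_of_subset_union h.op h.cl.isOpen_compl hdis hsub
    ⟨x, ⟨rx, hrx, hax⟩, hx⟩
  exact this ⟨ry, hry, hay⟩

/-- the height of a nonempty clopen set is attained at an end -/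
theorem CS.max {O : Set X} (F : Fan X t s e) (h : CS t O) (hne : O.Nonempty) {f : X → ℝ}
    (hf : Ht t f) : ∃ q ∈ O, q ∈ Ends t e ∧ (∀ x ∈ O, f x ≤ f q) ∧ sSup (f '' O) = f q := by
  obtain ⟨q', hq', hmax⟩ := h.cl.isCompact.exists_isMaxOn ⟨t, Or.inr rfl⟩ hf.cont.continuousOn
  obtain ⟨x0, hx0⟩ := hne
  have hx0t : x0 ≠ t := fun h1 => h.nt (h1 ▸ hx0)
  have hq't : q' ≠ t := by
    rintro rfl
    have h1 : f x0 ≤ f q' := hmax (Or.inl hx0)
    rw [hf.at_t] at h1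
    exact absurd (hf.pos F.toDen hx0t) (not_lt.2 h1)
  have hq'O : q' ∈ O := hq'.resolve_right hq't
  have hO : e q' ∈ O := h.sat F hq'O (F.e_ne hq't) (F.e_e q')
  have hle : ∀ x ∈ O, f x ≤ f (e q') := fun x hx => (hmax (Or.inl hx)).trans (hf.le (F.le_e q'))
  refine ⟨e q', hO, ⟨F.e_ne hq't, F.e_e q'⟩, hle, ?_⟩
  apply le_antisymm
  · exact csSup_le ⟨_, ⟨_, hO, rfl⟩⟩ (by rintro _ ⟨x, hx, rfl⟩; exact hle x hx)
  · exact le_csSup ⟨f (e q'), by rintro _ ⟨x, hx, rfl⟩; exact hle x hx⟩ ⟨_, hO, rfl⟩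

theorem Good.symm {b : X} {P Q : X → ℕ} (h : Good t b P Q) : Good t b Q P :=
  ⟨h.labQ, h.labP, h.rng.symm, h.base.symm⟩

theorem lam_symm (f₁ f₂ : X → ℝ) (P Q : X → ℕ) (i : ℕ) :
    lam t f₂ f₁ Q P i = - lam t f₁ f₂ P Q i := by
  unfold lam; ring

end

/-! ### Statements, part 3 (the smooth case: the Lelek fan) -/

/-- SEP1: legs are separated by clopen sets. Let `r_0 = min (s x) (s y) > 0`, `r_k = r_0 / 2^k`,
`K_k = {v | r_k ≤ s v}`, compact, `t ∉ K_k`. 
(A) If `C, D ⊆ K_k` are closed, disjoint and saturated in `K_k` (`v ∈ C`, `v' ∈ K_k`, `e v' = e v` imply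
`v' ∈ C`, same for `D`), then there is `Q ⊆ K_k` with `Q` and `K_k \ Q` closed, `C ⊆ Q`, `D ∩ Q = ∅`.
Proof: the connected component of `v` in `K_k` is contained in the leg of `v`: it is closed (in `K_k`, so in
`X`) and connected, does not contain `t`; two of its points on different legs would put `t` in it by
`Den.t_mem_of` and `Fan.diff`. In the compact Hausdorff space `K_k` components are intersections of clopen
sets (`connectedComponent_eq_iInter_isClopen`), so for `v ∈ C`, `v' ∈ D` (different legs) there is a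
clopen subset of `K_k` containing `v` and not `v'`; by compactness of `D`, then of `C`, finite
intersections/unions give `Q`. 
(B) Any `Q` with `Q` and `K_k \ Q` closed is saturated in `K_k`: `K_k ∩ J t p` is connected (image of
`Icc (r_k) (s p)` under the arc parametrisation).
(C) Recursion: `Q_0 ⊆ K_0` clopen in `K_0` with `x ∈ Q_0`, `y ∉ Q_0` (apply (A) to `C` = the part of the leg of
`x` in `K_0`, `D` = that of `y`). Given `Q_k`, let
`C = {v ∈ K_{k+1} | ∃ v' ∈ Q_k, e v' = e v}`, `D = {v ∈ K_{k+1} | ∃ v' ∈ K_k \ Q_k, e v' = e v}`. They are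
closed: `v_n → v`, `v'_n ∈ Q_k`, subsequence `v'_n → v' ∈ Q_k`, `v' ≠ t`, `v_n ∈ J t (e v'_n)`, so
`v ∈ J t (e v')` by `LegUsc`, `e v = e v'` (`v ≠ t`). They are disjoint (saturation of `Q_k`) and saturated.
(A) gives `Q_{k+1}` with `Q_{k+1} ∩ K_k = Q_k`.
(D) `O = ⋃ k, Q_k` is open (near a point `v ∈ Q_k` we have `s > r_{k+1}`, and
`O ∩ {s > r_{k+1}} = Q_{k+1} ∩ {s > r_{k+1}} = {s > r_{k+1}} \ (K_{k+1} \ Q_{k+1})` is open), and similarly
`⋃ k, (K_k \ Q_k) = X \ (O ∪ {t})` is open. -/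
def S_SEP1 : Prop :=
  ∀ (X : Type) [MetricSpace X] [CompactSpace X] (t : X) (s : X → ℝ) (e : X → X), Fan X t s e →
    LegUsc t e → Continuous s → ∀ x y, x ≠ t → y ≠ t → e x ≠ e y → ∃ O, CS t O ∧ x ∈ O ∧ y ∉ O

/-- SEP: countably many clopen sets separate the legs. The open sets `O ×ˢ (O ∪ {t})ᶜ` (`CS t O`) cover
`W = {(x,y) | x ≠ t, y ≠ t, e x ≠ e y}` by `S_SEP1`; `X × X` is second countable, so countably many of them
have the same union (`TopologicalSpace.isOpen_iUnion_countable`); enumerate by `ℕ`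
(use `CS.empty` if there are none). -/
def S_SEP : Prop :=
  ∀ (X : Type) [MetricSpace X] [CompactSpace X] (t : X) (s : X → ℝ) (e : X → X), Fan X t s e →
    LegUsc t e → Continuous s → ∃ O : ℕ → Set X, (∀ n, CS t (O n)) ∧
      ∀ x y, x ≠ t → y ≠ t → e x ≠ e y → ∃ n, x ∈ O n ∧ y ∉ O n

/-- PICK: small clopen sets of prescribed height. Choose `r' ∈ (0, f q₀)` with
`|log r' - log r| < δ/4` (`r' = r` or slightly smaller). `Ht.ivt`: `u ∈ J t q₀`, `f u = r'`, `u ≠ t, q₀`,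
`u ∈ O` (`CS.sat`). As the ends are dense and `f` is continuous there is an end `q ∈ O`, `q ≠ q₀`,
close to `u`, with `|log (f q) - log r'| < δ/4`. Let `c = f q * exp (δ/4) > f q` and
`K = {v ∈ O ∪ {t} | c ≤ f v}`, compact, `t ∉ K`. For `v ∈ K ∪ {q₀}` we have `e v ≠ q = e q` (if `e v = q`
then `v ≤ q`, `f v ≤ f q < c`; and `e q₀ = q₀ ≠ q`). `S_SEP1`: `O_v` clopen with `q ∈ O_v`, `v ∉ O_v`; the
open sets `(O_v ∪ {t})ᶜ ∋ v` cover the compact `K ∪ {q₀}`; take a finite subcover and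
`D = O ∩ ⋂ O_{v_i}` (finite intersection, `CS.inter`). `q ∈ D`, `D ∩ K = ∅`, `q₀ ∉ D`. The height
`sSup (f '' D)` is attained (`CS.max`), is `≥ f q` and `< c`. -/
def S_PICK : Prop :=
  ∀ (X : Type) [MetricSpace X] [CompactSpace X] (t : X) (s : X → ℝ) (e : X → X), Fan X t s e →
    LegUsc t e → Continuous s → closure (Ends t e) = Set.univ → ∀ f, Ht t f → ∀ O, CS t O →
    ∀ q₀ ∈ O, q₀ ∈ Ends t e → ∀ r, 0 < r → r ≤ f q₀ → ∀ δ > 0, ∃ D, CS t D ∧ D ⊆ O ∧ D.Nonempty ∧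
      q₀ ∉ D ∧ |Real.log (sSup (f '' D)) - Real.log r| < δ

/-- STEP (one refinement). `P, Q` are matched labellings, `b` an end of maximal height for `f₁` and `f₂`, `O` a
clopen set. For each label `i ∈ P '' {t}ᶜ` let `C = P⁻¹{i} \ {t}`, `D = Q⁻¹{i} \ {t}` (nonempty, CS). Split
`C = C⁰ ⊔ C¹` into `C ∩ O` and `C \ O` (both CS), where `C⁰` is the one of the two which contains `b` if
`b ∈ C`, and otherwise one with `sSup (f₁ '' C⁰) = sSup (f₁ '' C)` (the one containing an end `q` of `C` of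
maximal `f₁`-height, `CS.max`; if `b ∈ C` then `b` itself is such a point, so one may always take: `C⁰`
is the part containing `q_C`, where `q_C = b` if `b ∈ C`). If `C¹` is empty put `D¹ = ∅`, `D⁰ = D`. If not:
let `q_D` be an end in `D` of maximal `f₂`-height, `q_D = b` if `b ∈ D` (note `b ∈ C ↔ b ∈ D` because
`P b = Q b`, `b ≠ t`), `r = exp (lam i) * sSup (f₁ '' C¹) ≤ exp (lam i) * sSup (f₁ '' C) = sSup (f₂ '' D) =
f₂ q_D`, `r > 0`; `S_PICK` (for `f₂`, `D`, `q_D`, `r`, `δ`) gives `D¹ ⊆ D`, nonempty CS, `q_D ∉ D¹`,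
`|log (sSup (f₂ '' D¹)) - log r| < δ`; `D⁰ = D \ D¹ ∋ q_D`, so `sSup (f₂ '' D⁰) = f₂ q_D`. New labels
(for `x ≠ t`, `i = P x`): `P' x = 2 i` if `x ∈ C⁰_i`, `2 i + 1` if `x ∈ C¹_i`; `Q'` likewise with `D⁰_i`,
`D¹_i`; `π j = j / 2`. At `t` put `P' t = Q' t = 0`. Classes: `P'⁻¹{2i} \ {t} = C⁰_i` etc. (CS; empty for
labels that do not occur: `CS.empty`); ranges agree since `C⁰, D⁰ ≠ ∅` and `C¹ = ∅ ↔ D¹ = ∅`;
`P' b = 2 (P b) = Q' b`. `lam' (2i) = lam i` exactly; `lam' (2i+1) = log (sSup f₂ '' D¹) - log (sSup f₁ ''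
C¹)`, within `δ` of `log r - log (sSup f₁ '' C¹) = lam i`. -/
def S_STEP : Prop :=
  ∀ (X : Type) [MetricSpace X] [CompactSpace X] (t : X) (s : X → ℝ) (e : X → X), Fan X t s e →
    LegUsc t e → Continuous s → closure (Ends t e) = Set.univ → ∀ f₁ f₂, Ht t f₁ → Ht t f₂ →
    ∀ b ∈ Ends t e, (∀ x, f₁ x ≤ f₁ b) → (∀ x, f₂ x ≤ f₂ b) → ∀ P Q, Good t b P Q →
    ∀ O, CS t O → ∀ δ > 0, ∃ (P' Q' : X → ℕ) (π : ℕ → ℕ), Good t b P' Q' ∧
      (∀ x, x ≠ t → π (P' x) = P x) ∧ (∀ x, x ≠ t → π (Q' x) = Q x) ∧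
      (∀ x y, x ≠ t → y ≠ t → P' x = P' y → (x ∈ O ↔ y ∈ O)) ∧
      ∀ i ∈ P' '' {t}ᶜ, |lam t f₁ f₂ P' Q' i - lam t f₁ f₂ P Q (π i)| < δ

/-- a back-and-forth system of labellings -/
structure System {X : Type} [TopologicalSpace X] (t b : X) (e : X → X) (f₁ f₂ : X → ℝ)
    (P Q : ℕ → X → ℕ) (π : ℕ → ℕ → ℕ) : Prop where
  good : ∀ n, Good t b (P n) (Q n)
  compP : ∀ n x, x ≠ t → π n (P (n+1) x) = P n x
  compQ : ∀ n x, x ≠ t → π n (Q (n+1) x) = Q n x
  sepP : ∀ x y, x ≠ t → y ≠ t → e x ≠ e y → ∃ n, P n x ≠ P n y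
  sepQ : ∀ x y, x ≠ t → y ≠ t → e x ≠ e y → ∃ n, Q n x ≠ Q n y
  ratio : ∀ n, ∀ i ∈ P (n+1) '' {t}ᶜ,
    |lam t f₁ f₂ (P (n+1)) (Q (n+1)) i - lam t f₁ f₂ (P n) (Q n) (π n i)| ≤ (1/2:ℝ)^n

/-- SEQ: start with `P 0 = Q 0 = 0` (constant; one class `{t}ᶜ`, `CS.whole`). With `O n` from `S_SEP`: from
`(P n, Q n)` apply `S_STEP` with `O n` and `δ = (1/2)^(n+2)`, giving `(P', Q', π')`; then apply `S_STEP` to
`(f₂, f₁, Q', P')` (`Good.symm`) with `O n` and the same `δ`, giving `(Q (n+1), P (n+1), π'')`;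
`π n = π' ∘ π''`; use `lam_symm`. Dependent choice: define the step as a relation on pairs
`(P,Q)` satisfying `Good` (a subtype) for each `n`, using `Classical.choose`, and recursion on `n`. sepP: if
`e x ≠ e y`, some `O n` contains `x` and not `y`, so `P' x ≠ P' y` for the first step at stage `n`, hence
`P (n+1) x ≠ P (n+1) y` (as `π'' (P (n+1) x) = P' x`). sepQ: from the second step at stage `n`. -/
def S_SEQ : Prop :=
  ∀ (X : Type) [MetricSpace X] [CompactSpace X] (t : X) (s : X → ℝ) (e : X → X), Fan X t s e →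
    LegUsc t e → Continuous s → closure (Ends t e) = Set.univ → ∀ f₁ f₂, Ht t f₁ → Ht t f₂ →
    ∀ b ∈ Ends t e, (∀ x, f₁ x ≤ f₁ b) → (∀ x, f₂ x ≤ f₂ b) →
    ∃ (P Q : ℕ → X → ℕ) (π : ℕ → ℕ → ℕ), System t b e f₁ f₂ P Q π

/-- LIM: a back-and-forth system gives a homeomorphism. For `x ≠ t` let `Φ_n x = lam_n (P n x)`; by `compP`
and `ratio` `|Φ_{n+1} x - Φ_n x| ≤ 2^{-n}`; `Φ = lim Φ_n` exists, uniformly on `{t}ᶜ`, is bounded there, and
is continuous there (each `Φ_n` is locally constant on `{t}ᶜ`: the classes are open). Similarly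
`Φ'_n y = lam_n (Q n y)`, `Φ'`.
(1) For `x ≠ t` there is exactly one `y ≠ t` with `Q n y = P n x` for all `n` and
`f₂ y = exp (Φ x) * f₁ x`. Existence: `i_n = P n x`, `D_n = (Q n)⁻¹{i_n} \ {t}` is nonempty (`rng`), CS,
decreasing (`compQ`, `compP`). `CS.max`: `q_n ∈ D_n` with `f₂ q_n = sSup (f₂ '' D_n) = exp (lam_n i_n) *
sSup (f₁ '' C_n) ≥ exp (Φ_n x) * f₁ (e x)`, where `C_n = (P n)⁻¹{i_n} \ {t} ∋ x, e x` (`CS.sat`). A
subsequence of `q_n` converges to `q`, `f₂ q ≥ exp (Φ x) * f₁ (e x) > 0`, so `q ≠ t`, and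
`q ∈ D_n ∪ {t}` (closed) so `q ∈ D_n` for all `n`. `Ht.ivt` gives `y ∈ J t q` with
`f₂ y = exp (Φ x) * f₁ x > 0`, so `y ≠ t`, `e y = e q`, and `y ∈ D_n` (`CS.sat`). Uniqueness: equal
`Q`-labels force `e y = e y'` (`sepQ`), then `y, y'` are comparable (`Fan.same`) and `f₂` is strictly
increasing.
(2) Let `H x` be this `y`, `H t = t`. Symmetrically (system with `P, Q` exchanged, `lam_symm`) `K y` is the
unique `x ≠ t` with `P n x = Q n y` for all `n` and `f₁ x = exp (-Φ' y) * f₂ y`. If `y = H x` then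
`Φ' y = lim lam_n (Q n y) = lim lam_n (P n x) = Φ x`, so `K (H x) = x`; similarly `H (K y) = y`.
(3) `H` is continuous. At `x ≠ t`: `x_k → x`, `H (x_{φ k}) → y` (`tendsto_of_sub`): `f₂ y =
lim exp (Φ x_{φ k}) f₁ (x_{φ k}) = exp (Φ x) f₁ x > 0`, so `y ≠ t`, and for every `n`, for large `k`,
`Q n y = Q n (H x_{φ k}) = P n (x_{φ k}) = P n x` (classes are open), so `y = H x`. At `t`: `x_k → t`,
`H (x_{φ k}) → y`, `f₂ (H x) ≤ exp (C) f₁ x` for all `x` (`C` a bound of `Φ`), so `f₂ y = 0`, `y = t`.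
A continuous bijection of a compact Hausdorff space is a homeomorphism
(`Continuous.homeoOfEquivCompactToT2`).
(4) Base: `sSup (f₁ '' C) = f₁ b` for the class `C` of `b` (maximality of `b`), similarly `f₂`, so
`Φ b = log (f₂ b) - log (f₁ b)` and `y = b` satisfies the conditions for `x = b` (`base`): `H b = b`. For
`x ∈ J t b`, `x ≠ t`: `e x = b`, `P n x = P n b` (`CS.sat`), so `Φ x = Φ b` and
`f₂ (H x) = (f₂ b / f₁ b) f₁ x`. For `x = t` both sides are `0`. -/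
def S_LIM : Prop :=
  ∀ (X : Type) [MetricSpace X] [CompactSpace X] (t : X) (s : X → ℝ) (e : X → X), Fan X t s e →
    ∀ f₁ f₂, Ht t f₁ → Ht t f₂ →
    ∀ b ∈ Ends t e, (∀ x, f₁ x ≤ f₁ b) → (∀ x, f₂ x ≤ f₂ b) →
    ∀ (P Q : ℕ → X → ℕ) (π : ℕ → ℕ → ℕ), System t b e f₁ f₂ P Q π →
    ∃ H : X ≃ₜ X, H b = b ∧ ∀ x ∈ J t b, f₂ (H x) * f₁ b = f₂ b * f₁ x

/-- LEL: in a fan with continuous height and dense ends, the interior points of the longest leg are all
equivalent. `s` attains its maximum on the compact `X` at a point, wlog an end `b` (`s x ≤ s (e x)`;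
`exists_ne`, `s_pos`). Let `x, y` be interior points of `J t b`: `0 < s x, s y < s b`. Let
`κ = log (s x / s b) / log (s y / s b) > 0`, `f₁ = s`, `f₂ v = (s v)^κ` (`Real.rpow`; continuous, `0` at `t`,
strictly increasing along legs). `S_SEQ`, `S_LIM`: `H b = b`, `(s (H x))^κ * s b = (s b)^κ * s x`, i.e.
`(s (H x) / s b)^κ = s x / s b = (s y / s b)^κ`, so `s (H x) = s y`; `H x ∈ H '' J t b = J t b` (`img`), so
`H x = y` (`s_inj`). -/
def S_LEL : Prop :=
  ∀ (X : Type) [MetricSpace X] [CompactSpace X] (t : X) (s : X → ℝ) (e : X → X), Fan X t s e →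
    LegUsc t e → Continuous s → closure (Ends t e) = Set.univ →
    ∃ b ∈ Ends t e, ∀ x ∈ J t b, ∀ y ∈ J t b, x ≠ t → x ≠ b → y ≠ t → y ≠ b →
      ∃ H : X ≃ₜ X, H x = y

end Pool.Agent.H273.FAN
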