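import Mathlib

/-!
# Fans with exactly four homeomorphism orbits do not exist (MP_64e39e_gt, S13290): definitions

`X` is a compact metric space, `t` its root (the top of the fan), `J t x` the arc from `t` to `x`,
`s` the (Whitney) height function, `e x` the end of the leg of `x` (and `e t = t`).
-/

set_option autoImplicit false

namespace Pool.Agent.H273.FAN

open Set Filter Topology Metric

/-- hereditarily unicoherent -/
def HU (X : Type) [TopologicalSpace X] : Prop :=
  ∀ A B : Set X, IsClosed A → IsConnected A → IsClosed B → IsConnected B →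
    IsPreconnected (A ∩ B)

/-- `t` is the vertex of a simple triod -/
def Vertex (X : Type) [TopologicalSpace X] (t : X) : Prop :=
  ∃ γ : Fin 3 → unitInterval → X,
    (∀ i, Continuous (γ i) ∧ Function.Injective (γ i) ∧ γ i 0 = t) ∧
      ∀ i j, i ≠ j → Set.range (γ i) ∩ Set.range (γ j) = {t}

/-- the smallest closed connected set through `t` and `x` (the arc `[t,x]`) -/
def J {X : Type} [TopologicalSpace X] (t x : X) : Set X :=
  ⋂₀ {K | IsClosed K ∧ IsConnected K ∧ t ∈ K ∧ x ∈ K}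

/-- rooted dendroid with a Whitney height function. `x ∈ J t y` is the order x is below y. -/
structure Den (X : Type) [MetricSpace X] [CompactSpace X] (t : X) (s : X → ℝ) : Prop where
  closed : ∀ x, IsClosed (J t x)
  conn : ∀ x, IsConnected (J t x)
  memt : ∀ x, t ∈ J t x
  memx : ∀ x, x ∈ J t x
  anti : ∀ x y, x ∈ J t y → y ∈ J t x → x = y
  s_t : s t = 0
  s_nonneg : ∀ x, 0 ≤ s x
  s_cont : ∀ x, ContinuousOn s (J t x)
  s_le : ∀ x y y', y ∈ J t x → y' ∈ J t x → (y ∈ J t y' ↔ s y ≤ s y')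
  s_unif : ∀ ε > 0, ∃ δ > 0, ∀ x y, J t x ⊆ Metric.thickening δ (J t y) → s x ≤ s y + ε

/-- a fan with top `t`, height `s`, and end map `e` (`e x` = end of the leg of `x`, `e t = t`) -/
structure Fan (X : Type) [MetricSpace X] [CompactSpace X] (t : X) (s : X → ℝ) (e : X → X) : Prop
    extends Den X t s where
  comp : ∀ x y y', x ≠ t → x ∈ J t y → x ∈ J t y' → y ∈ J t y' ∨ y' ∈ J t y
  fix : ∀ h : X ≃ₜ X, h t = t
  e_t : e t = t
  le_e : ∀ x, x ∈ J t (e x)
  e_max : ∀ x y, x ≠ t → e x ∈ J t y → y = e x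
  exists_ne : ∃ x, x ≠ t

/-- the set of ends -/
def Ends {X : Type} (t : X) (e : X → X) : Set X := {x | x ≠ t ∧ e x = x}

/-- the interior points of the legs -/
def Int {X : Type} (t : X) (e : X → X) : Set X := {x | x ≠ t ∧ e x ≠ x}

/-- the situation of a hypothetical fan with four orbits `{t}`, `Ends`, `A`, `B` -/
structure Setup (X : Type) [MetricSpace X] [CompactSpace X] (t : X) (s : X → ℝ) (e : X → X)
    (A B : Set X) : Prop extends Fan X t s e where
  Eorb : ∀ x y, x ≠ t → y ≠ t → ∃ h : X ≃ₜ X, h (e x) = e y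
  Ane : A.Nonempty
  Bne : B.Nonempty
  cover : A ∪ B = Int t e
  disj : Disjoint A B
  Aorb : ∀ x ∈ A, ∀ y ∈ A, ∃ h : X ≃ₜ X, h x = y
  Borb : ∀ x ∈ B, ∀ y ∈ B, ∃ h : X ≃ₜ X, h x = y
  Ainv : ∀ h : X ≃ₜ X, ∀ x ∈ A, h x ∈ A
  Binv : ∀ h : X ≃ₜ X, ∀ x ∈ B, h x ∈ B

/-- `N t x`: all limits of points `w n ∈ J t (x n)` with `x n → x`. -/
def N {X : Type} [TopologicalSpace X] (t x : X) : Set X :=
  {w | (x, w) ∈ closure {p : X × X | p.2 ∈ J t p.1}}

/-- `h` moves no point by `ε` or more, and neither does its inverse -/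
def near {X : Type} [MetricSpace X] (h : X ≃ₜ X) (ε : ℝ) : Prop :=
  ∀ x, dist (h x) x < ε ∧ dist (h.symm x) x < ε

/-- pointwise stabiliser of `P` -/
def Stab {X : Type} [TopologicalSpace X] (P : Set X) : Set (X ≃ₜ X) := {g | ∀ p ∈ P, g p = p}

/-- the orbit of `x` under `Stab P` -/
def Orb {X : Type} [TopologicalSpace X] (P : Set X) (x : X) : Set X :=
  {y | ∃ g ∈ Stab P, g x = y}

/-- the Effros property (micro-transitivity) of the orbit of `x` under `Stab P`, at `x` -/
def Eff {X : Type} [MetricSpace X] (P : Set X) (x : X) : Prop :=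
  ∀ ε > 0, ∃ δ > 0, ∀ y ∈ Orb P x, dist y x < δ → ∃ g ∈ Stab P, g x = y ∧ near g ε

/-- Hausdorff convergence of a sequence of sets -/
def HC {X : Type} [MetricSpace X] (K : ℕ → Set X) (L : Set X) : Prop :=
  ∀ ε > 0, ∀ᶠ n in atTop, K n ⊆ Metric.thickening ε L ∧ L ⊆ Metric.thickening ε (K n)

/-- the interval `[x,y]` of the order -/
def Ic {X : Type} [TopologicalSpace X] (t x y : X) : Set X := {v | x ∈ J t v ∧ v ∈ J t y}

end Pool.Agent.H273.FAN
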