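import Pool.Agent.H273.FAN.Stm1
import Pool.Agent.H273.FAN.Api

/-! ANTI: in a path connected hereditarily unicoherent space `J t x` determines `x`. -/

set_option autoImplicit false

namespace Pool.Agent.H273.FAN

open Set Filter Topology Metric

namespace PANTI

variable {X : Type} [TopologicalSpace X] {t : X}

theorem clo (x : X) : IsClosed (J t x) := isClosed_sInter fun _ hK => hK.1

theorem mt (x : X) : t ∈ J t x := mem_sInter.2 fun _ hK => hK.2.2.1

theorem mx (x : X) : x ∈ J t x := mem_sInter.2 fun _ hK => hK.2.2.2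

/-- moving the end point along a connected closed set -/
theorem mv (hc : ∀ x, IsConnected (J t x)) {C : Set X} (h1 : IsClosed C) (h2 : IsConnected C)
    {x y : X} (hx : x ∈ C) (hy : y ∈ C) : J t x ⊆ J t y ∪ C := by
  refine J_min ((clo y).union h1) ?_ (Or.inl (mt y)) (Or.inr hx)
  exact (hc y).union ⟨y, mx y, hy⟩ h2

theorem path [T2Space X] (hc : ∀ x, IsConnected (J t x)) {σ : unitInterval → X}
    (hσ : Continuous σ) (a b : unitInterval) : J t (σ a) ⊆ J t (σ b) ∪ σ '' uIcc a b := by
  have h1 : IsCompact (σ '' uIcc a b) := isCompact_uIcc.image hσ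
  have h2 : IsConnected (σ '' uIcc a b) := by
    refine IsConnected.image ?_ σ hσ.continuousOn
    exact ⟨nonempty_uIcc, isPreconnected_uIcc⟩
  exact mv hc h1.isClosed h2 ⟨a, left_mem_uIcc, rfl⟩ ⟨b, right_mem_uIcc, rfl⟩

theorem small {σ : unitInterval → X} (hσ : Continuous σ) (a : unitInterval) {U : Set X}
    (hU : IsOpen U) (ha : σ a ∈ U) : ∀ᶠ b in 𝓝 a, σ '' uIcc a b ⊆ U := by
  have h1 : σ ⁻¹' U ∈ 𝓝 a := hσ.continuousAt.preimage_mem_nhds (hU.mem_nhds ha)
  have h2 : Tendsto (fun b => uIcc a b) (𝓝 a) (𝓝 a).smallSets :=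
    tendsto_const_nhds.uIcc tendsto_id
  filter_upwards [h2.eventually (eventually_smallSets_subset.2 h1)] with b hb
  exact image_subset_iff.2 hb

end PANTI

open PANTI in
theorem t_ANTI (h1 : S_JC) : S_ANTI := by
  intro X _ _ _ hHU t x y hxy
  have hc : ∀ u : X, IsConnected (J t u) := fun u => h1 X hHU t u
  by_contra hne
  let σ : Path x t := PathConnectedSpace.somePath x t
  have hσ : Continuous σ := σ.continuous
  let T : Set unitInterval := {τ | J t x ⊆ J t (σ τ)}
  have hclosed : IsClosed T := by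
    rw [← isOpen_compl_iff, isOpen_iff_mem_nhds]
    intro τ hτ
    have hτ' : ¬ J t x ⊆ J t (σ τ) := hτ
    obtain ⟨z, hz, hz'⟩ := not_subset.1 hτ'
    have h2 : σ τ ∈ ({z}ᶜ : Set X) := by
      intro h3
      have h4 : σ τ = z := h3
      exact hz' (h4 ▸ mx (σ τ))
    filter_upwards [small hσ τ isOpen_compl_singleton h2] with b hb hbT
    have h3 : z ∈ J t (σ b) := (show J t x ⊆ J t (σ b) from hbT) hz
    rcases path hc hσ b τ h3 with h4 | h4
    · exact hz' h4
    · rw [uIcc_comm] at h4
      exact hb h4 rfl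
  have hopen : IsOpen T := by
    rw [isOpen_iff_mem_nhds]
    intro τ hτ
    have hτ' : J t x ⊆ J t (σ τ) := hτ
    have key : ∀ z : X, J t z = J t x → z ≠ σ τ → T ∈ 𝓝 τ := by
      intro z hz hzne
      have h2 : σ τ ∈ ({z}ᶜ : Set X) := fun h3 => hzne (show σ τ = z from h3).symm
      filter_upwards [small hσ τ isOpen_compl_singleton h2] with b hb
      have h3 : z ∈ J t (σ τ) := hτ' (hz ▸ mx z)
      show J t x ⊆ J t (σ b)
      rcases path hc hσ τ b h3 with h4 | h4
      · rw [← hz]
        exact J_min (clo _) (hc _) (mt _) h4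
      · exact absurd rfl (hb h4)
    by_cases hx : x = σ τ
    · exact key y hxy.symm (fun h => hne (hx.trans h.symm))
    · exact key x rfl hx
  have hT : T = univ := IsClopen.eq_univ ⟨hclosed, hopen⟩ ⟨0, by
    show J t x ⊆ J t (σ 0)
    rw [σ.source]⟩
  have h1T : (1 : unitInterval) ∈ T := by rw [hT]; trivial
  have h2 : J t x ⊆ J t (σ 1) := h1T
  rw [σ.target] at h2
  have h3 : J t t ⊆ {t} := J_min isClosed_singleton isConnected_singleton rfl rfl
  have h4 : x = t := h3 (h2 (mx x))
  have h5 : y = t := h3 (h2 (hxy ▸ mx y))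
  exact hne (h4.trans h5.symm)

end Pool.Agent.H273.FAN
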