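import Pool.Agent.H273.FAN.Stm1
import Pool.Agent.H273.FAN.Api

/-! # `J t x` is an arc parametrised by height (subtask FAN-ARC of MP_64e39e_gt, by helper94) -/

set_option autoImplicit false

namespace Pool.Agent.H273.FAN

open Set Filter Topology Metric

namespace PARC

section top
variable {X : Type} [TopologicalSpace X]

theorem memt (t x : X) : t ∈ J t x := fun _ hK => hK.2.2.1
theorem memx (t x : X) : x ∈ J t x := fun _ hK => hK.2.2.2
theorem closedJ (t x : X) : IsClosed (J t x) := isClosed_sInter fun _ hK => hK.1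

end top

theorem J_self {X : Type} [MetricSpace X] (t : X) : J t t = {t} :=
  Subset.antisymm (J_min isClosed_singleton isConnected_singleton rfl rfl)
    (singleton_subset_iff.2 (memt t t))

/-- the situation: `γ` a path from `t` to `x`, `f` the height along `γ`, `S = f 1` -/
structure Sit (X : Type) [MetricSpace X] (μ : Set X → ℝ) (t x : X) (γ : ℝ → X) (S : ℝ) : Prop where
  whit : Whit X μ
  cont : Continuous γ
  f_cont : Continuous fun τ => μ (J t (γ τ))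
  γ0 : γ 0 = t
  γ1 : γ 1 = x
  hS : μ (J t x) = S
  last : ∀ (τ₀ r : ℝ), τ₀ ≤ 1 →
      0 < r → μ (J t (γ τ₀)) = r → (∀ τ, τ₀ < τ → τ ≤ 1 → r < μ (J t (γ τ))) →
      ∀ τ, τ₀ ≤ τ → τ ≤ 1 → J t (γ τ₀) ⊆ J t (γ τ)
  anti : ∀ u v : X, J t u = J t v → u = v
  conn : ∀ u : X, IsConnected (J t u)

/-- clamp to `[0,S]` -/
noncomputable def cl (S s : ℝ) : ℝ := max 0 (min s S)

theorem cl_cont (S : ℝ) : Continuous (cl S) := by
  unfold cl; fun_prop

theorem cl_mono (S : ℝ) : Monotone (cl S) := by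
  intro a b h
  unfold cl
  exact max_le_max le_rfl (min_le_min h le_rfl)

theorem cl_mem {S : ℝ} (hS : 0 ≤ S) (s : ℝ) : cl S s ∈ Icc 0 S := by
  unfold cl
  exact ⟨le_max_left _ _, max_le hS (min_le_right _ _)⟩

theorem cl_of_mem {S s : ℝ} (h : s ∈ Icc 0 S) : cl S s = s := by
  unfold cl
  rw [min_eq_left h.2, max_eq_right h.1]

/-- the last time at height `cl S s` -/
noncomputable def T {X : Type} [MetricSpace X] (μ : Set X → ℝ) (t : X) (γ : ℝ → X) (S s : ℝ) : ℝ :=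
  sSup {τ | τ ∈ Icc (0:ℝ) 1 ∧ μ (J t (γ τ)) = cl S s}

namespace Sit

variable {X : Type} [MetricSpace X] {μ : Set X → ℝ} {t x : X} {γ : ℝ → X} {S : ℝ}
variable (H : Sit X μ t x γ S)
include H

theorem nonneg (y : X) : 0 ≤ μ (J t y) := by
  rw [← H.whit.single y]
  exact H.whit.mono _ _ (singleton_nonempty y) (singleton_subset_iff.2 (memx t y))

theorem S_nonneg : 0 ≤ S := by
  rw [← H.hS]; exact H.nonneg x

theorem f0 : μ (J t (γ 0)) = 0 := by
  rw [H.γ0, J_self, H.whit.single]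

theorem f1 : μ (J t (γ 1)) = S := by
  rw [H.γ1, H.hS]

theorem eq_t_of_zero {y : X} (h : μ (J t y) = 0) : J t y = {t} := by
  by_contra hne
  have := H.whit.strict {t} (J t y) (singleton_nonempty t) isClosed_singleton
    (singleton_subset_iff.2 (memt t y)) (fun h' => hne h'.symm)
  rw [H.whit.single, h] at this
  exact lt_irrefl _ this

theorem level_compact (s : ℝ) :
    IsCompact {τ | τ ∈ Icc (0:ℝ) 1 ∧ μ (J t (γ τ)) = cl S s} := by
  have : {τ | τ ∈ Icc (0:ℝ) 1 ∧ μ (J t (γ τ)) = cl S s} =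
      Icc (0:ℝ) 1 ∩ (fun τ => μ (J t (γ τ))) ⁻¹' {cl S s} := by
    ext τ; simp
  rw [this]
  exact isCompact_Icc.inter_right (isClosed_singleton.preimage H.f_cont)

theorem ivt {τ : ℝ} (hτ : τ ≤ 1) {r : ℝ} (h1 : μ (J t (γ τ)) ≤ r) (h2 : r ≤ S) :
    ∃ τ' ∈ Icc τ 1, μ (J t (γ τ')) = r := by
  have := intermediate_value_Icc hτ (f := fun τ => μ (J t (γ τ))) H.f_cont.continuousOn
  have h3 : r ∈ Icc (μ (J t (γ τ))) (μ (J t (γ 1))) := ⟨h1, by rw [H.f1]; exact h2⟩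
  exact this h3

theorem level_nonempty (s : ℝ) :
    {τ | τ ∈ Icc (0:ℝ) 1 ∧ μ (J t (γ τ)) = cl S s}.Nonempty := by
  have h := cl_mem H.S_nonneg s
  obtain ⟨τ, hτ, h2⟩ := H.ivt (τ := 0) zero_le_one (r := cl S s) (by rw [H.f0]; exact h.1) h.2
  exact ⟨τ, hτ, h2⟩

theorem T_mem (s : ℝ) : T μ t γ S s ∈ Icc (0:ℝ) 1 ∧ μ (J t (γ (T μ t γ S s))) = cl S s :=
  (H.level_compact s).sSup_mem (H.level_nonempty s)

theorem le_T {s τ : ℝ} (h : τ ∈ Icc (0:ℝ) 1) (h2 : μ (J t (γ τ)) = cl S s) : τ ≤ T μ t γ S s :=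
  le_csSup (H.level_compact s).bddAbove ⟨h, h2⟩

theorem lt_of_T_lt {s τ : ℝ} (h : T μ t γ S s < τ) (h1 : τ ≤ 1) : cl S s < μ (J t (γ τ)) := by
  by_contra hcon
  push Not at hcon
  obtain ⟨τ', hτ', h2⟩ := H.ivt h1 hcon (cl_mem H.S_nonneg s).2
  have h3 : τ' ∈ Icc (0:ℝ) 1 := ⟨((H.T_mem s).1.1.trans h.le).trans hτ'.1, hτ'.2⟩
  have h4 := H.le_T h3 h2
  linarith [hτ'.1]

theorem T_sub {s τ : ℝ} (h : T μ t γ S s ≤ τ) (h1 : τ ≤ 1) :
    J t (γ (T μ t γ S s)) ⊆ J t (γ τ) := by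
  obtain ⟨h2, h3⟩ := H.T_mem s
  rcases (cl_mem H.S_nonneg s).1.lt_or_eq with h4 | h4
  · exact H.last _ _ h2.2 h4 h3 (fun τ' h5 h6 => H.lt_of_T_lt h5 h6) τ h h1
  · rw [← h4] at h3
    rw [H.eq_t_of_zero h3]
    exact singleton_subset_iff.2 (memt t _)

theorem T_mono : Monotone (T μ t γ S) := by
  intro r r' hr
  by_contra hcon
  push Not at hcon
  have h1 := H.lt_of_T_lt hcon (H.T_mem r).1.2
  rw [(H.T_mem r).2] at h1
  exact absurd (cl_mono S hr) (not_le.2 h1)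

theorem right (r : ℝ) : Tendsto (fun s => γ (T μ t γ S s)) (𝓝[>] r) (𝓝 (γ (T μ t γ S r))) := by
  have h1 := H.T_mono.tendsto_nhdsGT r
  set τ := sInf (T μ t γ S '' Ioi r) with hτ
  have h2 : T μ t γ S r ≤ τ := by
    refine ge_of_tendsto h1 ?_
    filter_upwards [self_mem_nhdsWithin] with s hs
    exact H.T_mono (le_of_lt hs)
  have h3 : τ ≤ 1 := le_of_tendsto h1 (Eventually.of_forall fun s => (H.T_mem s).1.2)
  have h4 : μ (J t (γ τ)) = cl S r := by
    have h5 : Tendsto (fun s => μ (J t (γ (T μ t γ S s)))) (𝓝[>] r) (𝓝 (μ (J t (γ τ)))) :=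
      (H.f_cont.tendsto τ).comp h1
    have h6 : Tendsto (cl S) (𝓝[>] r) (𝓝 (cl S r)) :=
      ((cl_cont S).tendsto r).mono_left nhdsWithin_le_nhds
    have h7 : (fun s => μ (J t (γ (T μ t γ S s)))) = cl S := funext fun s => (H.T_mem s).2
    rw [h7] at h5
    exact tendsto_nhds_unique h5 h6
  have h5 : τ = T μ t γ S r := by
    by_contra hne
    have h6 : T μ t γ S r < τ := lt_of_le_of_ne h2 (Ne.symm hne)
    have h7 := H.lt_of_T_lt h6 h3
    rw [h4] at h7
    exact lt_irrefl _ h7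
  rw [← h5]
  exact (H.cont.tendsto τ).comp h1

theorem left (r : ℝ) : Tendsto (fun s => γ (T μ t γ S s)) (𝓝[<] r) (𝓝 (γ (T μ t γ S r))) := by
  have h1 := H.T_mono.tendsto_nhdsLT r
  set τ := sSup (T μ t γ S '' Iio r) with hτ
  have h2 : τ ≤ T μ t γ S r := by
    refine le_of_tendsto h1 ?_
    filter_upwards [self_mem_nhdsWithin] with s hs
    exact H.T_mono (le_of_lt hs)
  have h3 : τ ≤ 1 := h2.trans (H.T_mem r).1.2
  have h4 : μ (J t (γ τ)) = cl S r := by
    have h5 : Tendsto (fun s => μ (J t (γ (T μ t γ S s)))) (𝓝[<] r) (𝓝 (μ (J t (γ τ)))) :=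
      (H.f_cont.tendsto τ).comp h1
    have h6 : Tendsto (cl S) (𝓝[<] r) (𝓝 (cl S r)) :=
      ((cl_cont S).tendsto r).mono_left nhdsWithin_le_nhds
    have h7 : (fun s => μ (J t (γ (T μ t γ S s)))) = cl S := funext fun s => (H.T_mem s).2
    rw [h7] at h5
    exact tendsto_nhds_unique h5 h6
  obtain ⟨u, hu, hur, hut⟩ := exists_seq_strictMono_tendsto r
  have hle : ∀ n, T μ t γ S (u n) ≤ τ := by
    intro n
    refine le_csSup ⟨1, ?_⟩ ⟨u n, hur n, rfl⟩
    rintro _ ⟨s, -, rfl⟩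
    exact (H.T_mem s).1.2
  let K : Set X := closure (⋃ n, J t (γ (T μ t γ S (u n))))
  have hKn : K.Nonempty := ⟨t, subset_closure (mem_iUnion.2 ⟨0, memt t _⟩)⟩
  have hK1 : K ⊆ J t (γ τ) :=
    closure_minimal (iUnion_subset fun n => H.T_sub (hle n) h3) (closedJ _ _)
  have hK2 : K ⊆ J t (γ (T μ t γ S r)) :=
    closure_minimal (iUnion_subset fun n => H.T_sub (H.T_mono (hur n).le) (H.T_mem r).1.2)
      (closedJ _ _)
  have hKμ : cl S r ≤ μ K := by
    refine le_of_tendsto (((cl_cont S).tendsto r).comp hut) (Eventually.of_forall fun n => ?_)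
    show cl S (u n) ≤ μ K
    rw [← (H.T_mem (u n)).2]
    exact H.whit.mono _ _ ⟨t, memt t _⟩
      ((subset_iUnion (fun n => J t (γ (T μ t γ S (u n)))) n).trans subset_closure)
  have hE1 : K = J t (γ τ) := by
    by_contra hne
    have := H.whit.strict _ _ hKn isClosed_closure hK1 hne
    rw [h4] at this
    exact absurd hKμ (not_le.2 this)
  have hE2 : K = J t (γ (T μ t γ S r)) := by
    by_contra hne
    have := H.whit.strict _ _ hKn isClosed_closure hK2 hne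
    rw [(H.T_mem r).2] at this
    exact absurd hKμ (not_le.2 this)
  have h5 : γ τ = γ (T μ t γ S r) := H.anti _ _ (hE1.symm.trans hE2)
  rw [← h5]
  exact (H.cont.tendsto τ).comp h1

theorem a_cont : Continuous fun s => γ (T μ t γ S s) := by
  rw [continuous_iff_continuousAt]
  intro r
  rw [continuousAt_iff_continuous_left'_right']
  exact ⟨H.left r, H.right r⟩

theorem a_zero : γ (T μ t γ S 0) = t := by
  have h1 : μ (J t (γ (T μ t γ S 0))) = 0 := by
    rw [(H.T_mem 0).2, cl_of_mem ⟨le_rfl, H.S_nonneg⟩]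
  have h2 := memx t (γ (T μ t γ S 0))
  rw [H.eq_t_of_zero h1] at h2
  exact h2

theorem a_S : γ (T μ t γ S S) = x := by
  have h1 : (1:ℝ) ≤ T μ t γ S S :=
    H.le_T ⟨zero_le_one, le_rfl⟩ (by rw [H.f1, cl_of_mem ⟨H.S_nonneg, le_rfl⟩])
  rw [le_antisymm (H.T_mem S).1.2 h1, H.γ1]

theorem a_image : (fun s => γ (T μ t γ S s)) '' Icc 0 S = J t x := by
  apply Subset.antisymm
  · rintro _ ⟨s, -, rfl⟩
    have h := H.T_sub (s := s) (H.T_mem s).1.2 le_rfl
    rw [H.γ1] at h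
    exact h (memx t _)
  · refine J_min ((isCompact_Icc.image H.a_cont).isClosed)
      ((isConnected_Icc H.S_nonneg).image _ H.a_cont.continuousOn)
      ⟨0, ⟨le_rfl, H.S_nonneg⟩, H.a_zero⟩ ⟨S, ⟨H.S_nonneg, le_rfl⟩, H.a_S⟩

end Sit

end PARC

theorem t_ARC (h1 : S_JC) (h2 : S_ANTI) (h3 : S_PC) (h4 : S_LAST) : S_ARC := by
  intro X _ _ _ hX μ hμ t x
  obtain ⟨p⟩ : Joined t x := PathConnectedSpace.joined t x
  have hp : Continuous (p.extend : ℝ → X) := p.continuous_extend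
  have H : PARC.Sit X μ t x (p.extend : ℝ → X) (μ (J t x)) :=
    { whit := hμ
      cont := hp
      f_cont := h3 X hX μ hμ t _ hp
      γ0 := p.extend_zero
      γ1 := p.extend_one
      hS := rfl
      last := h4 X hX μ hμ t _ hp
      anti := h2 X hX t
      conn := h1 X hX t }
  refine ⟨fun s => (p.extend : ℝ → X) (PARC.T μ t (p.extend : ℝ → X) (μ (J t x)) s),
    H.a_cont.continuousOn, H.a_image, ?_, ?_⟩
  · intro r hr
    rw [(H.T_mem r).2, PARC.cl_of_mem hr]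
  · intro r _ r' _ hrr
    exact H.T_sub (H.T_mono hrr) (H.T_mem r').1.2

end Pool.Agent.H273.FAN
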