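import Pool.Agent.H273.FAN.Stm2

/-! C1A: in case 1 the height and the end map are continuous (helper707). -/

set_option autoImplicit false

namespace Pool.Agent.H273.FAN.PC1A

open Set Filter Topology Metric

section
variable {X : Type} [MetricSpace X] [CompactSpace X] {t : X} {s : X → ℝ} {e : X → X} {A B : Set X}

/-- the end map is continuous off `t` -/
theorem e_cont (H : Basic X t s e A B) (hc : Case1 t e) {x : X} (hx : x ≠ t) :
    ContinuousAt e x := by
  rw [ContinuousAt, tendsto_iff_seq_tendsto]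
  intro u hu
  refine tendsto_of_sub fun φ v hφ hv => ?_
  have hu' : Tendsto (fun n => u (φ n)) atTop (𝓝 x) := hu.comp hφ.tendsto_atTop
  have hne : ∀ᶠ n in atTop, u (φ n) ≠ t := hu'.eventually (isOpen_ne.mem_nhds hx)
  have hcl : v ∈ closure (Ends t e) := by
    refine mem_closure_of_tendsto hv ?_
    filter_upwards [hne] with n hn
    exact ⟨H.toFan.e_ne hn, H.toFan.e_e _⟩
  rcases hc v hcl with h | h
  · exfalso
    rw [h] at hv
    exact hx (H.ntriv x (H.toFan.toDen.mem_N_iff.2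
      ⟨fun n => e (u (φ n)), fun n => u (φ n), fun n => H.toFan.le_e _, hv, hu'⟩))
  · have h1 : v ∈ J t (e x) := H.usc (fun n => u (φ n)) (fun n => e (u (φ n))) x v hx hu' hv
      (fun n => H.toFan.toDen.memx _)
    exact H.toFan.eq_of_e_eq_self h.2 h.1 h1

/-- a homeomorphism near the identity changes heights by little -/
theorem s_near (F : Fan X t s e) {ε : ℝ} (hε : 0 < ε) : ∃ δ > 0, ∀ (g : X ≃ₜ X) (y : X),
    near g δ → |s (g y) - s y| ≤ ε := by
  obtain ⟨δ, hδ, h⟩ := F.toDen.s_unif ε hε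
  refine ⟨δ, hδ, fun g y hg => ?_⟩
  have h1 : J t (g y) ⊆ Metric.thickening δ (J t y) := by
    rw [← img g (F.fix g) y]
    rintro _ ⟨z, hz, rfl⟩
    rw [Metric.mem_thickening_iff]
    exact ⟨z, hz, (hg z).1⟩
  have h2 : J t y ⊆ Metric.thickening δ (J t (g y)) := by
    intro z hz
    rw [Metric.mem_thickening_iff]
    refine ⟨g z, (mem_img g (F.fix g)).2 hz, ?_⟩
    rw [dist_comm]
    exact (hg z).1
  have h3 := h _ _ h1
  have h4 := h _ _ h2
  rw [abs_le]
  constructor <;> linarith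

/-- the height is continuous off `t` -/
theorem s_cont_ne (H : Basic X t s e A B) (hc : Case1 t e) {x : X} (hx : x ≠ t) :
    ContinuousAt s x := by
  have hec := e_cont H hc hx
  rw [Metric.continuousAt_iff']
  intro ε hε
  obtain ⟨δ₁, hδ₁, h1⟩ := s_near H.toFan (ε := ε / 3) (by positivity)
  have hs := H.toFan.toDen.s_cont (e x) x (H.toFan.le_e x)
  rw [Metric.continuousWithinAt_iff] at hs
  obtain ⟨δ₂, hδ₂, h2⟩ := hs (ε / 3) (by positivity)
  have hmin : 0 < min δ₁ (δ₂ / 2) := lt_min hδ₁ (by positivity)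
  have hend : e x ∈ Ends t e := ⟨H.toFan.e_ne hx, H.toFan.e_e x⟩
  obtain ⟨δ₃, hδ₃, h3⟩ := H.effE (e x) hend (min δ₁ (δ₂ / 2)) hmin
  have hev : ∀ᶠ x' in 𝓝 x, dist (e x') (e x) < δ₃ := (Metric.continuousAt_iff'.1 hec) δ₃ hδ₃
  have hne : ∀ᶠ x' in 𝓝 x, x' ≠ t := isOpen_ne.mem_nhds hx
  have hd : ∀ᶠ x' in 𝓝 x, dist x' x < δ₂ / 2 := Metric.ball_mem_nhds x (by positivity)
  filter_upwards [hev, hne, hd] with x' h4 h5 h6
  obtain ⟨k, hk⟩ := H.Eorb x x' hx h5
  obtain ⟨g, -, hg2, hg3⟩ := h3 (e x') ⟨k, fun p hp => absurd hp (Set.notMem_empty p), hk⟩ h4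
  have hgy : g (g.symm x') = x' := g.apply_symm_apply x'
  have h7 : g.symm x' ∈ J t (e x) := by
    rw [← mem_img g (H.toFan.fix g), hgy, hg2]
    exact H.toFan.le_e x'
  have h8 : dist (g.symm x') x' < δ₂ / 2 := ((hg3 x').2).trans_le (min_le_right _ _)
  have h9 : dist (g.symm x') x < δ₂ := by
    calc dist (g.symm x') x ≤ dist (g.symm x') x' + dist x' x := dist_triangle _ _ _
      _ < δ₂ := by linarith
  have h10 := h2 h7 h9
  have h11 := h1 g (g.symm x') (hg3.mono (min_le_left _ _))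
  rw [hgy] at h11
  rw [Real.dist_eq] at h10 ⊢
  calc |s x' - s x| = |(s x' - s (g.symm x')) + (s (g.symm x') - s x)| := by ring_nf
    _ ≤ |s x' - s (g.symm x')| + |s (g.symm x') - s x| := abs_add_le _ _
    _ < ε := by linarith

/-- the height is continuous at `t` -/
theorem s_cont_t (H : Basic X t s e A B) : ContinuousAt s t := by
  rw [Metric.continuousAt_iff']
  intro ε hε
  obtain ⟨δ, hδ, h1⟩ := H.toFan.toDen.s_unif (ε / 2) (by positivity)
  have hev : ∀ᶠ x' in 𝓝 t, J t x' ⊆ Metric.thickening δ (J t t) := by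
    by_contra hcon
    rw [Filter.not_eventually] at hcon
    obtain ⟨u, hu, hu2⟩ := Filter.exists_seq_forall_of_frequently hcon
    have hu3 : ∀ n, ∃ w ∈ J t (u n), δ ≤ dist w t := by
      intro n
      obtain ⟨w, hw, hw2⟩ := Set.not_subset.1 (hu2 n)
      refine ⟨w, hw, ?_⟩
      by_contra h
      push Not at h
      exact hw2 (Metric.mem_thickening_iff.2 ⟨t, H.toFan.toDen.memt t, h⟩)
    choose w hw hw2 using hu3
    obtain ⟨v, φ, hφ, hv⟩ := sub_conv w
    have hvN : v ∈ N t t := H.toFan.toDen.mem_N_iff.2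
      ⟨fun n => u (φ n), fun n => w (φ n), fun n => hw _, hu.comp hφ.tendsto_atTop, hv⟩
    have hvt := H.ntriv v hvN
    rw [hvt, Metric.tendsto_atTop] at hv
    obtain ⟨n, hn⟩ := hv δ hδ
    exact absurd (hn n le_rfl) (not_lt.2 (hw2 (φ n)))
  filter_upwards [hev] with x' hx'
  have h2 := h1 _ _ hx'
  rw [H.toFan.toDen.s_t] at h2 ⊢
  rw [Real.dist_eq, sub_zero, abs_of_nonneg (H.toFan.toDen.s_nonneg x')]
  linarith

end

end Pool.Agent.H273.FAN.PC1A

namespace Pool.Agent.H273.FAN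

theorem t_C1A : S_C1A := by
  intro X _ _ t s e A B H hc
  refine ⟨continuous_iff_continuousAt.2 fun x => ?_, fun x hx => PC1A.e_cont H hc hx⟩
  by_cases hx : x = t
  · rw [hx]
    exact PC1A.s_cont_t H
  · exact PC1A.s_cont_ne H hc hx

end Pool.Agent.H273.FAN
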