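import Pool.Agent.H273.FAN.Stm2

/-! C1B: vertical homeomorphisms (power maps of relative heights). -/

set_option autoImplicit false

namespace Pool.Agent.H273.FAN

open Set Filter Topology Metric

namespace PC1B

section
variable {X : Type} [MetricSpace X] [CompactSpace X] {t : X} {s : X → ℝ} {e : X → X}

/-- the height of the image of `x` -/
noncomputable def HH (s : X → ℝ) (e : X → X) (κ : ℝ) (x : X) : ℝ :=
  s (e x) * (s x / s (e x)) ^ κ

theorem HH_nonneg (F : Fan X t s e) (κ : ℝ) (x : X) : 0 ≤ HH s e κ x :=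
  mul_nonneg (F.s_nonneg _) (Real.rpow_nonneg (div_nonneg (F.s_nonneg _) (F.s_nonneg _)) _)

theorem s_le_e (F : Fan X t s e) (x : X) : s x ≤ s (e x) := F.toDen.s_mono (F.le_e x)

theorem HH_le (F : Fan X t s e) {κ : ℝ} (hκ : 0 < κ) (x : X) : HH s e κ x ≤ s (e x) := by
  unfold HH
  refine mul_le_of_le_one_right (F.s_nonneg _) ?_
  exact Real.rpow_le_one (div_nonneg (F.s_nonneg _) (F.s_nonneg _))
    (div_le_one_of_le₀ (s_le_e F x) (F.s_nonneg _)) hκ.le

/-- the power map -/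
noncomputable def psi (F : Fan X t s e) {κ : ℝ} (hκ : 0 < κ) (x : X) : X :=
  (F.toDen.level (e x) (HH_nonneg F κ x) (HH_le F hκ x)).choose

theorem psi_mem (F : Fan X t s e) {κ : ℝ} (hκ : 0 < κ) (x : X) : psi F hκ x ∈ J t (e x) :=
  (F.toDen.level (e x) (HH_nonneg F κ x) (HH_le F hκ x)).choose_spec.1

theorem s_psi (F : Fan X t s e) {κ : ℝ} (hκ : 0 < κ) (x : X) : s (psi F hκ x) = HH s e κ x :=
  (F.toDen.level (e x) (HH_nonneg F κ x) (HH_le F hκ x)).choose_spec.2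

theorem psi_t (F : Fan X t s e) {κ : ℝ} (hκ : 0 < κ) : psi F hκ t = t := by
  have h := psi_mem F hκ t
  rw [F.e_t] at h
  exact F.toDen.eq_t h

theorem psi_ne (F : Fan X t s e) {κ : ℝ} (hκ : 0 < κ) {x : X} (hx : x ≠ t) :
    psi F hκ x ≠ t := by
  intro h
  have h1 := s_psi F hκ x
  rw [h, F.s_t] at h1
  have h2 : 0 < s (e x) := F.toDen.s_pos (F.e_ne hx)
  have h3 : 0 < s x := F.toDen.s_pos hx
  have h4 : 0 < HH s e κ x := mul_pos h2 (Real.rpow_pos_of_pos (div_pos h3 h2) _)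
  linarith

theorem e_psi (F : Fan X t s e) {κ : ℝ} (hκ : 0 < κ) (x : X) : e (psi F hκ x) = e x := by
  by_cases hx : x = t
  · rw [hx, psi_t]
  · exact F.e_eq_of_mem_leg (psi_mem F hκ x) (psi_ne F hκ hx)

theorem psi_psi (F : Fan X t s e) {κ κ' : ℝ} (hκ : 0 < κ) (hκ' : 0 < κ') (h : κ * κ' = 1)
    (x : X) : psi F hκ' (psi F hκ x) = x := by
  by_cases hx : x = t
  · rw [hx, psi_t, psi_t]
  · have h2 : 0 < s (e x) := F.toDen.s_pos (F.e_ne hx)
    have h3 : 0 < s x := F.toDen.s_pos hx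
    refine F.eq_of_s ?_ ?_
    · rw [e_psi F hκ', e_psi F hκ]
    · rw [s_psi F hκ']
      unfold HH
      rw [e_psi F hκ, s_psi F hκ]
      unfold HH
      rw [mul_div_cancel_left₀ _ h2.ne', ← Real.rpow_mul (div_pos h3 h2).le, h, Real.rpow_one,
        mul_div_cancel₀ _ h2.ne']

theorem psi_tendsto (F : Fan X t s e) (hU : LegUsc t e) (hs : Continuous s)
    (he : ∀ x, x ≠ t → ContinuousAt e x) {κ : ℝ} (hκ : 0 < κ) {u : ℕ → X} {x : X} (hx : x ≠ t)
    (hu : Tendsto u atTop (𝓝 x)) : Tendsto (fun n => psi F hκ (u n)) atTop (𝓝 (psi F hκ x)) := by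
  apply tendsto_of_sub
  intro φ y hφ hy
  have huφ : Tendsto (fun n => u (φ n)) atTop (𝓝 x) := hu.comp hφ.tendsto_atTop
  have h1 : y ∈ J t (e x) :=
    hU (fun n => u (φ n)) (fun n => psi F hκ (u (φ n))) x y hx huφ hy
      (fun n => psi_mem F hκ (u (φ n)))
  have h2 : 0 < s (e x) := F.toDen.s_pos (F.e_ne hx)
  have h3 : ContinuousAt (fun z => s (e z)) x := hs.continuousAt.comp (he x hx)
  have h4 : ContinuousAt (HH s e κ) x := by
    unfold HH
    exact h3.mul ((hs.continuousAt.div h3 h2.ne').rpow_const (Or.inr hκ.le))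
  have h5 : Tendsto (fun n => s (psi F hκ (u (φ n)))) atTop (𝓝 (HH s e κ x)) := by
    have h6 : (fun n => s (psi F hκ (u (φ n)))) = fun n => HH s e κ (u (φ n)) := by
      funext n
      exact s_psi F hκ _
    rw [h6]
    exact h4.tendsto.comp huφ
  have h7 : Tendsto (fun n => s (psi F hκ (u (φ n)))) atTop (𝓝 (s y)) :=
    (hs.tendsto y).comp hy
  have h8 : s y = s (psi F hκ x) := by
    rw [s_psi F hκ]
    exact tendsto_nhds_unique h7 h5
  exact F.toDen.s_inj h1 (psi_mem F hκ x) h8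

theorem psi_cont (F : Fan X t s e) (hU : LegUsc t e) (hs : Continuous s)
    (he : ∀ x, x ≠ t → ContinuousAt e x) {κ : ℝ} (hκ : 0 < κ) : Continuous (psi F hκ) := by
  rw [continuous_iff_seqContinuous]
  intro u x hu
  by_cases hx : x = t
  · subst hx
    have hκ' : 0 < κ⁻¹ := inv_pos.2 hκ
    have hmul : κ * κ⁻¹ = 1 := mul_inv_cancel₀ hκ.ne'
    change Tendsto (fun n => psi F hκ (u n)) atTop (𝓝 (psi F hκ x))
    rw [psi_t]
    apply tendsto_of_sub
    intro φ y hφ hy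
    by_contra hyt
    have h1 := psi_tendsto F hU hs he hκ' hyt hy
    have h2 : (fun n => psi F hκ' (psi F hκ (u (φ n)))) = fun n => u (φ n) := by
      funext n
      exact psi_psi F hκ hκ' hmul _
    rw [h2] at h1
    have h3 : Tendsto (fun n => u (φ n)) atTop (𝓝 x) := hu.comp hφ.tendsto_atTop
    exact psi_ne F hκ' hyt (tendsto_nhds_unique h1 h3)
  · exact psi_tendsto F hU hs he hκ hx hu

/-- the power homeomorphism -/
noncomputable def psiH (F : Fan X t s e) (hU : LegUsc t e) (hs : Continuous s)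
    (he : ∀ x, x ≠ t → ContinuousAt e x) {κ : ℝ} (hκ : 0 < κ) : X ≃ₜ X where
  toFun := psi F hκ
  invFun := psi F (inv_pos.2 hκ)
  left_inv := psi_psi F hκ (inv_pos.2 hκ) (mul_inv_cancel₀ hκ.ne')
  right_inv := psi_psi F (inv_pos.2 hκ) hκ (inv_mul_cancel₀ hκ.ne')
  continuous_toFun := psi_cont F hU hs he hκ
  continuous_invFun := psi_cont F hU hs he (inv_pos.2 hκ)

end

end PC1B

theorem t_C1B : S_C1B := by
  intro X _ _ t s e F hU hs he x y hxt hyt hex hey hxy
  have a1 : 0 < s x := F.toDen.s_pos hxt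
  have a2 : 0 < s y := F.toDen.s_pos hyt
  have a3 : s x < s (e x) := F.toDen.s_lt (F.le_e x) (Ne.symm hex)
  have a4 : s y < s (e y) := F.toDen.s_lt (F.le_e y) (Ne.symm hey)
  have a5 : 0 < s (e x) := a1.trans a3
  have a6 : 0 < s (e y) := a2.trans a4
  have b1 : Real.log (s x / s (e x)) < 0 :=
    Real.log_neg (div_pos a1 a5) ((div_lt_one a5).2 a3)
  have b2 : Real.log (s y / s (e y)) < 0 :=
    Real.log_neg (div_pos a2 a6) ((div_lt_one a6).2 a4)
  obtain ⟨κ, hκe⟩ : ∃ κ : ℝ, κ = Real.log (s y / s (e y)) / Real.log (s x / s (e x)) := ⟨_, rfl⟩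
  have hκ : 0 < κ := by rw [hκe]; exact div_pos_of_neg_of_neg b2 b1
  refine ⟨PC1B.psiH F hU hs he hκ, ?_⟩
  change PC1B.psi F hκ x = y
  refine F.eq_of_s ?_ ?_
  · rw [PC1B.e_psi F hκ, hxy]
  · rw [PC1B.s_psi F hκ]
    unfold PC1B.HH
    rw [Real.rpow_def_of_pos (div_pos a1 a5), hκe, mul_div_cancel₀ _ b1.ne,
      Real.exp_log (div_pos a2 a6), hxy, mul_div_cancel₀ _ a6.ne']

end Pool.Agent.H273.FAN
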