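import Pool.Agent.H273.FAN.Stm2

/-!
# FAN-CAT: the orbit of the ends has the Effros property
-/

set_option autoImplicit false

open Set Filter Topology Metric

namespace Pool.Agent.H273.FAN.PCAT

open Pool.Agent.H273.FAN

variable {X : Type} [MetricSpace X] [CompactSpace X] {t : X} {s : X → ℝ} {e : X → X}
  {A B : Set X}

theorem orbE (H : Setup X t s e A B) {p : X} (hp : p ∈ Ends t e) :
    Orb (∅ : Set X) p = Ends t e := by
  ext y
  constructor
  · rintro ⟨g, -, rfl⟩
    refine ⟨?_, ?_⟩
    · intro h
      exact hp.1 (g.injective (h.trans (H.toFan.fix g).symm))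
    · rw [← H.toFan.e_homeo, hp.2]
  · rintro ⟨h1, h2⟩
    obtain ⟨h, hh⟩ := H.Eorb p y hp.1 h1
    rw [hp.2, h2] at hh
    exact ⟨h, fun q hq => absurd hq (notMem_empty q), hh⟩

theorem orbA (H : Setup X t s e A B) {a : X} (ha : a ∈ A) : Orb (∅ : Set X) a = A := by
  ext y
  constructor
  · rintro ⟨g, -, rfl⟩
    exact H.Ainv g a ha
  · intro hy
    obtain ⟨h, hh⟩ := H.Aorb a ha y hy
    exact ⟨h, fun q hq => absurd hq (notMem_empty q), hh⟩

theorem swap (H : Setup X t s e A B) : Setup X t s e B A where
  toFan := H.toFan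
  Eorb := H.Eorb
  Ane := H.Bne
  Bne := H.Ane
  cover := by rw [union_comm]; exact H.cover
  disj := H.disj.symm
  Aorb := H.Borb
  Borb := H.Aorb
  Ainv := H.Binv
  Binv := H.Ainv

theorem effA (h1 : S_EFF1) (h2 : S_EFF2) (h3 : S_MEA) (H : Setup X t s e A B)
    (hA : ¬ IsMeagre A) : ∀ a ∈ A, Eff (∅ : Set X) a := by
  intro a ha
  refine h2 X ∅ a (h1 X ∅ a fun hm => ?_)
  have h := h3 X _ hm
  rw [orbA H ha] at h
  exact hA h

theorem effE (h1 : S_EFF1) (h2 : S_EFF2) (H : Setup X t s e A B)
    (hE : ¬ IsMeagre (Set.univ : Set (Ends t e))) : EffE t e := by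
  intro p hp
  refine h2 X ∅ p (h1 X ∅ p fun hm => hE ?_)
  have h : Orb (∅ : Set X) p = Ends t e := orbE H hp
  rw [h] at hm
  exact hm

theorem t_notMem : t ∉ Ends t e := fun h => h.1 rfl

/-- in case 1 the set of the ends is locally compact, hence a Baire space -/
theorem of_case1 (hc : Case1 t e) (hne : (Ends t e).Nonempty) :
    ¬ IsMeagre (Set.univ : Set (Ends t e)) := by
  have hE : Ends t e = closure (Ends t e) ∩ {t}ᶜ := by
    apply Subset.antisymm
    · intro x hx
      exact ⟨subset_closure hx, hx.1⟩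
    · rintro x ⟨hx1, hx2⟩
      rcases hc x hx1 with h | h
      · exact absurd h hx2
      · exact h
  have hl : IsLocallyClosed (Ends t e) := by
    rw [hE]
    exact isClosed_closure.isLocallyClosed.inter isClosed_singleton.isOpen_compl.isLocallyClosed
  have : LocallyCompactSpace (Ends t e) := hl.locallyCompactSpace
  have : Nonempty (Ends t e) := hne.to_subtype
  exact not_isMeagre_of_isOpen isOpen_univ univ_nonempty

theorem meagre_t (F : Fan X t s e) : IsMeagre ({t} : Set X) := by
  obtain ⟨x, hx⟩ := F.exists_ne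
  have hn : IsNowhereDense ({t} : Set X) := by
    rw [isNowhereDense_iff_forall_notMem_nhds]
    rintro y hy hy2
    rw [mem_singleton_iff] at hy
    subst hy
    rw [closure_singleton] at hy2
    have hop : IsOpen ({y} : Set X) := by
      rw [isOpen_singleton_iff_nhds_eq_pure]
      apply le_antisymm
      · rw [le_pure_iff]; exact hy2
      · exact pure_le_nhds y
    have hcl : IsClopen ({y} : Set X) := ⟨isClosed_singleton, hop⟩
    have h := (F.toDen.conn x).isPreconnected.subset_isClopen hcl ⟨y, F.toDen.memt x, rfl⟩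
    exact hx (h (F.toDen.memx x))
  rw [isMeagre_iff_countable_union_isNowhereDense]
  exact ⟨{{t}}, by simpa using hn, countable_singleton _, by simp⟩

end Pool.Agent.H273.FAN.PCAT

namespace Pool.Agent.H273.FAN

open PCAT

theorem t_CAT (h1 : S_EFF1) (h2 : S_EFF2) (h3 : S_MEA) (h4 : S_CLE) : S_CAT := by
  intro X _ _ t s e A B H
  by_cases hA : IsMeagre A
  · by_cases hB : IsMeagre B
    · apply effE h1 h2 H
      intro hm
      have hE : IsMeagre (Ends t e) := h3 X _ hm
      have hu : IsMeagre (Set.univ : Set X) := by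
        refine ((meagre_t H.toFan).union (hE.union (hA.union hB))).mono ?_
        intro x _
        by_cases hx : x = t
        · exact Or.inl hx
        · right
          by_cases hx2 : e x = x
          · exact Or.inl ⟨hx, hx2⟩
          · right
            rw [H.cover]
            exact ⟨hx, hx2⟩
      exact not_isMeagre_of_isOpen isOpen_univ ⟨t, mem_univ t⟩ hu
    · have hc := h4 X t s e B A (swap H) (effA h1 h2 h3 (swap H) hB)
      intro p hp
      exact effE h1 h2 H (of_case1 hc ⟨p, hp⟩) p hp
  · have hc := h4 X t s e A B H (effA h1 h2 h3 H hA)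
    intro p hp
    exact effE h1 h2 H (of_case1 hc ⟨p, hp⟩) p hp

end Pool.Agent.H273.FAN
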