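import Pool.Agent.H273.FAN.Stm2

/-!
# Project FAN (helper273): CLE, by helper187
-/

set_option autoImplicit false

namespace Pool.Agent.H273.FAN

open Set Filter Topology Metric

namespace PCLE

variable {X : Type} [MetricSpace X] [CompactSpace X] {t : X} {s : X → ℝ} {e : X → X} {A B : Set X}

theorem A_int (S : Setup X t s e A B) {a : X} (ha : a ∈ A) : a ≠ t ∧ e a ≠ a := by
  have h : a ∈ A ∪ B := Or.inl ha
  rw [S.cover] at h
  exact h

/-- the class `A` meets each leg -/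
theorem A_leg (S : Setup X t s e A B) {q : X} (hq : q ∈ Ends t e) :
    ∃ a ∈ A, a ∈ J t q ∧ a ≠ t ∧ a ≠ q := by
  obtain ⟨a0, ha0⟩ := S.Ane
  obtain ⟨h, hh⟩ := S.Eorb a0 q (A_int S ha0).1 hq.1
  rw [hq.2] at hh
  have h1 : h a0 ∈ J t q := by
    rw [← hh]
    exact (mem_img h (S.fix h)).2 (S.le_e a0)
  refine ⟨h a0, S.Ainv h a0 ha0, h1, S.toFan.homeo_ne h (A_int S ha0).1, ?_⟩
  intro heq
  exact (A_int S ha0).2 (h.injective (hh.trans heq.symm))

/-- points on legs of ends, close to a point of `A`, force the ends to converge -/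
theorem key (S : Setup X t s e A B) (hE : ∀ a ∈ A, Eff (∅ : Set X) a) {w x : X} (hw : w ∈ A)
    {a q : ℕ → X} (ha : ∀ n, a n ∈ A) (hq : ∀ n, q n ∈ Ends t e) (haq : ∀ n, a n ∈ J t (q n))
    (h1 : Tendsto a atTop (𝓝 w)) (h2 : Tendsto q atTop (𝓝 x)) : x = e w := by
  have h3 : Tendsto q atTop (𝓝 (e w)) := by
    rw [Metric.tendsto_atTop]
    intro ε hε
    obtain ⟨δ, hδ, hδ2⟩ := hE w hw ε hε
    obtain ⟨N, hN⟩ := Metric.tendsto_atTop.1 h1 δ hδ
    refine ⟨N, fun n hn => ?_⟩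
    obtain ⟨k, hk⟩ := S.Aorb w hw (a n) (ha n)
    obtain ⟨g, -, hg, hnear⟩ := hδ2 (a n) ⟨k, fun p hp => absurd hp (notMem_empty p), hk⟩ (hN n hn)
    have h4 : e (a n) = q n := by
      rw [S.toFan.e_mem (haq n) (A_int S (ha n)).1, (hq n).2]
    rw [← h4, ← hg, ← S.toFan.e_homeo g w]
    exact (hnear (e w)).1
  exact tendsto_nhds_unique h2 h3

/-- closeness of the heights on a leg gives closeness -/
theorem arc_near (D : Den X t s) {q y : X} (hy : y ∈ J t q) {ε : ℝ} (hε : 0 < ε) :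
    ∃ η > 0, ∀ z ∈ J t q, |s z - s y| < η → dist z y < ε := by
  obtain ⟨a, hac, ha, -, -⟩ := D.arc q
  have hay : ∀ z ∈ J t q, a (s z) = z := fun z hz =>
    D.s_inj (ha _ ⟨D.s_nonneg z, D.s_mono hz⟩).1 hz (ha _ ⟨D.s_nonneg z, D.s_mono hz⟩).2
  obtain ⟨η, hη, h⟩ := Metric.continuous_iff.1 hac (s y) ε hε
  refine ⟨η, hη, fun z hz hzs => ?_⟩
  have h2 := h (s z) (by rw [Real.dist_eq]; exact hzs)
  rwa [hay z hz, hay y hy] at h2

/-- points of `A` close to an end, on its leg -/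
theorem approx_end (h1 : S_UNB) (S : Setup X t s e A B) {q : X} (hq : q ∈ Ends t e) {ε : ℝ}
    (hε : 0 < ε) : ∃ a ∈ A, a ∈ J t q ∧ dist a q < ε := by
  have D : Den X t s := S.toDen
  obtain ⟨a1, ha1, ha1q, ha1t, ha1ne⟩ := A_leg S hq
  obtain ⟨η, hη, hh⟩ := arc_near D (D.memx q) hε
  have hsq : 0 < s q := D.s_pos hq.1
  have hm1 := le_max_left (s q / 2) (s q - η / 2)
  have hm2 := le_max_right (s q / 2) (s q - η / 2)
  have hm3 : max (s q / 2) (s q - η / 2) < s q := max_lt (by linarith) (by linarith)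
  obtain ⟨y, hy, hys⟩ := D.level q (r := max (s q / 2) (s q - η / 2)) (by linarith) hm3.le
  have hyt : y ≠ t := by
    intro h
    rw [h, D.s_t] at hys
    linarith
  have hyq : y ≠ q := by
    intro h
    rw [h] at hys
    linarith
  obtain ⟨g, hg, hgy⟩ := (h1 X t s e A B S q hq a1 y ha1q ha1t ha1ne hy hyt hyq).1
  have hgq : g q = q := hg q rfl
  have h2 : g a1 ∈ J t q := by
    have := (mem_img g (S.fix g)).2 ha1q
    rwa [hgq] at this
  refine ⟨g a1, S.Ainv g a1 ha1, h2, hh _ h2 ?_⟩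
  have h3 := D.s_mono hgy
  have h4 := D.s_mono h2
  rw [abs_lt]
  constructor
  · linarith
  · linarith

omit [CompactSpace X] in
theorem close_lim {u a : ℕ → X} {x : X} (hu : Tendsto u atTop (𝓝 x))
    (h : ∀ n : ℕ, dist (a n) (u n) < 1 / ((n : ℝ) + 1)) : Tendsto a atTop (𝓝 x) := by
  refine hu.congr_dist ?_
  refine squeeze_zero (fun _ => dist_nonneg) (fun n => ?_) tendsto_one_div_add_atTop_nhds_zero_nat
  rw [dist_comm]
  exact (h n).le

/-- (α) -/
theorem alpha (h1 : S_UNB) (S : Setup X t s e A B) (hE : ∀ a ∈ A, Eff (∅ : Set X) a) {w : X}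
    (hw : w ∈ A) : w ∉ closure (Ends t e) := by
  intro hcl
  obtain ⟨q, hq, hqw⟩ := mem_closure_iff_seq_limit.1 hcl
  have hex : ∀ n : ℕ, ∃ a ∈ A, a ∈ J t (q n) ∧ dist a (q n) < 1 / ((n : ℝ) + 1) :=
    fun n => approx_end h1 S (hq n) (by positivity)
  choose a ha haq had using hex
  exact (A_int S hw).2 (key S hE hw ha hq haq (close_lim hqw had) hqw).symm

/-- the closure of the set of ends is invariant -/
theorem cl_inv (S : Setup X t s e A B) (h : X ≃ₜ X) {x : X} (hx : x ∈ closure (Ends t e)) :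
    h x ∈ closure (Ends t e) := by
  obtain ⟨q, hq, hqx⟩ := mem_closure_iff_seq_limit.1 hx
  refine mem_closure_iff_seq_limit.2 ⟨fun n => h (q n), fun n => ?_, (h.continuous.tendsto x).comp hqx⟩
  refine ⟨S.toFan.homeo_ne h (hq n).1, ?_⟩
  rw [← S.toFan.e_homeo h (q n), (hq n).2]

/-- (β), the density of `A` in the order of the legs -/
theorem dens (h1 : S_UNB) (S : Setup X t s e A B) (hE : ∀ a ∈ A, Eff (∅ : Set X) a)
    (hB : B ⊆ closure (Ends t e)) {p u v : X} (hp : p ∈ Ends t e) (hv : v ∈ J t p)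
    (hu : u ∈ J t v) (huv : u ≠ v) : (A ∩ Ic t u v).Nonempty := by
  by_contra hcon
  rw [not_nonempty_iff_eq_empty] at hcon
  have hno : ∀ z, z ∈ A → z ∈ Ic t u v → False := fun z hz1 hz2 => by
    have : z ∈ A ∩ Ic t u v := ⟨hz1, hz2⟩
    rw [hcon] at this
    exact this
  have D : Den X t s := S.toDen
  have hsuv : s u < s v := D.s_lt hu huv
  have hsu0 := D.s_nonneg u
  have hsvp := D.s_mono hv
  -- the point in the middle
  obtain ⟨b', hb'v, hb's⟩ := D.level v (r := (s u + s v) / 2) (by linarith) (by linarith)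
  have hub' : u ∈ J t b' := (D.s_le v u b' hu hb'v).2 (by rw [hb's]; linarith)
  have hb'p : b' ∈ J t p := D.trans hb'v hv
  have hb't : b' ≠ t := by
    intro h
    rw [h, D.s_t] at hb's
    linarith
  have hb'ne : b' ≠ p := by
    intro h
    rw [h] at hb's
    linarith
  have heb' : e b' = p := by rw [S.toFan.e_mem hb'p hb't, hp.2]
  have hb'B : b' ∈ B := by
    have h2 : b' ∈ A ∪ B := by
      rw [S.cover]
      exact ⟨hb't, by rw [heb']; exact hb'ne.symm⟩
    rcases h2 with h2 | h2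
    · exact (hno b' h2 ⟨hub', hb'v⟩).elim
    · exact h2
  -- a point of `A` above `b'`
  obtain ⟨a0, ha0, ha0p, ha0t, ha0ne⟩ := A_leg S hp
  obtain ⟨g, hg, hgb⟩ := (h1 X t s e A B S p hp a0 b' ha0p ha0t ha0ne hb'p hb't hb'ne).1
  obtain ⟨a1, ha1⟩ : ∃ a1, a1 = g a0 := ⟨_, rfl⟩
  rw [← ha1] at hgb
  have ha1A : a1 ∈ A := by rw [ha1]; exact S.Ainv g a0 ha0
  have ha1p : a1 ∈ J t p := by
    have h2 := (mem_img g (S.fix g)).2 ha0p
    rw [hg p rfl] at h2
    rw [ha1]
    exact h2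
  have hsb1 := D.s_mono hgb
  have hs1p := D.s_mono ha1p
  have ha1cl : a1 ∉ closure (Ends t e) := alpha h1 S hE ha1A
  -- the arc
  obtain ⟨arc, hac, harc, -, -⟩ := D.arc p
  have hay : ∀ z ∈ J t p, arc (s z) = z := fun z hz =>
    D.s_inj (harc _ ⟨D.s_nonneg z, D.s_mono hz⟩).1 hz (harc _ ⟨D.s_nonneg z, D.s_mono hz⟩).2
  -- the infimum
  obtain ⟨T, hT⟩ : ∃ T : Set ℝ, T = {r | s b' ≤ r ∧ r ≤ s a1 ∧ arc r ∉ closure (Ends t e)} :=
    ⟨_, rfl⟩
  have hTne : T.Nonempty := ⟨s a1, by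
    rw [hT]
    exact ⟨hsb1, le_rfl, by rw [hay a1 ha1p]; exact ha1cl⟩⟩
  have hTbdd : BddBelow T := ⟨s b', fun r hr => by rw [hT] at hr; exact hr.1⟩
  obtain ⟨ρ, hρ⟩ : ∃ ρ, ρ = sInf T := ⟨_, rfl⟩
  have hρb : s b' ≤ ρ := by
    rw [hρ]
    exact le_csInf hTne (fun r hr => by rw [hT] at hr; exact hr.1)
  have hρa : ρ ≤ s a1 := by
    rw [hρ]
    exact csInf_le hTbdd (by
      rw [hT]
      exact ⟨hsb1, le_rfl, by rw [hay a1 ha1p]; exact ha1cl⟩)
  have hρcl : arc ρ ∈ closure (Ends t e) := by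
    by_contra hc
    rcases eq_or_lt_of_le hρb with h2 | h2
    · rw [← h2, hay b' hb'p] at hc
      exact hc (hB hb'B)
    · have hopen : IsOpen {r : ℝ | arc r ∉ closure (Ends t e)} :=
        (isClosed_closure.isOpen_compl).preimage hac
      obtain ⟨η, hη, hball⟩ := Metric.isOpen_iff.1 hopen ρ hc
      have hm1 := le_max_left (s b') (ρ - η / 2)
      have hm2 := le_max_right (s b') (ρ - η / 2)
      have hm3 : max (s b') (ρ - η / 2) < ρ := max_lt h2 (by linarith)
      have h3 : max (s b') (ρ - η / 2) ∈ T := by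
        rw [hT]
        refine ⟨hm1, by linarith, ?_⟩
        apply hball
        rw [Metric.mem_ball, Real.dist_eq, abs_lt]
        constructor
        · linarith
        · linarith
      have h4 := csInf_le hTbdd h3
      rw [← hρ] at h4
      linarith
  have hρlt : ρ < s a1 := by
    rcases eq_or_lt_of_le hρa with h2 | h2
    · rw [h2, hay a1 ha1p] at hρcl
      exact (ha1cl hρcl).elim
    · exact h2
  have hρ0 : 0 ≤ ρ := (D.s_nonneg b').trans hρb
  have hρp : ρ ≤ s p := by linarith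
  have hbmem : arc ρ ∈ J t p := (harc ρ ⟨hρ0, hρp⟩).1
  have hbs : s (arc ρ) = ρ := (harc ρ ⟨hρ0, hρp⟩).2
  have hb'pos : 0 < s b' := D.s_pos hb't
  have hbt : arc ρ ≠ t := by
    intro h
    rw [h, D.s_t] at hbs
    linarith
  have hbne : arc ρ ≠ p := by
    intro h
    rw [h] at hbs
    linarith
  have heb : e (arc ρ) = p := by rw [S.toFan.e_mem hbmem hbt, hp.2]
  have hbB : arc ρ ∈ B := by
    have h2 : arc ρ ∈ A ∪ B := by
      rw [S.cover]
      exact ⟨hbt, by rw [heb]; exact hbne.symm⟩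
    rcases h2 with h2 | h2
    · exact (alpha h1 S hE h2 hρcl).elim
    · exact h2
  -- transport
  obtain ⟨h, hh⟩ := S.Borb b' hb'B (arc ρ) hbB
  have hhp : h p = p := by
    rw [← heb', S.toFan.e_homeo h b', hh, heb, heb']
  have hhv : h v ∈ J t p := by
    have h2 := (mem_img h (S.fix h)).2 hv
    rwa [hhp] at h2
  have hbhv : arc ρ ∈ J t (h v) := by
    rw [← hh]
    exact (mem_img h (S.fix h)).2 hb'v
  have hb'v2 : b' ≠ v := by
    intro h2
    rw [h2] at hb's
    linarith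
  have hbhvne : arc ρ ≠ h v := by
    rw [← hh]
    exact fun h2 => hb'v2 (h.injective h2)
  have hslt : ρ < s (h v) := by
    have h2 := D.s_lt hbhv hbhvne
    rwa [hbs] at h2
  have hinf : sInf T < s (h v) := by rw [← hρ]; exact hslt
  obtain ⟨r, hrT, hrlt⟩ := exists_lt_of_csInf_lt hTne hinf
  have hρr : ρ ≤ r := by rw [hρ]; exact csInf_le hTbdd hrT
  rw [hT] at hrT
  obtain ⟨hr1, hr2, hr3⟩ := hrT
  have hr0 : r ∈ Icc 0 (s p) := ⟨by linarith, by linarith⟩
  have hzmem : arc r ∈ J t p := (harc r hr0).1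
  have hzs : s (arc r) = r := (harc r hr0).2
  have hzt : arc r ≠ t := by
    intro h2
    rw [h2, D.s_t] at hzs
    linarith
  have hzne : arc r ≠ p := by
    intro h2
    rw [h2] at hzs
    have h3 : a1 = p := D.s_inj ha1p (D.memx p) (by linarith)
    have h4 := (A_int S ha1A).2
    rw [h3] at h4
    exact h4 hp.2
  have hez : e (arc r) = p := by rw [S.toFan.e_mem hzmem hzt, hp.2]
  have hzA : arc r ∈ A := by
    have h2 : arc r ∈ A ∪ B := by
      rw [S.cover]
      exact ⟨hzt, by rw [hez]; exact hzne.symm⟩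
    rcases h2 with h2 | h2
    · exact h2
    · exact (hr3 (hB h2)).elim
  have hz1 : arc ρ ∈ J t (arc r) := (D.s_le p _ _ hbmem hzmem).2 (by rw [hbs, hzs]; exact hρr)
  have hz2 : arc r ∈ J t (h v) := (D.s_le p _ _ hzmem hhv).2 (by rw [hzs]; exact hrlt.le)
  have hk1 : h.symm (arc r) ∈ A := S.Ainv h.symm _ hzA
  have hk2 : b' ∈ J t (h.symm (arc r)) := by
    have h2 : h b' ∈ J t (h (h.symm (arc r))) := by
      rw [Homeomorph.apply_symm_apply, hh]
      exact hz1
    exact (mem_img h (S.fix h)).1 h2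
  have hk3 : h.symm (arc r) ∈ J t v := by
    have h2 : h (h.symm (arc r)) ∈ J t (h v) := by
      rw [Homeomorph.apply_symm_apply]
      exact hz2
    exact (mem_img h (S.fix h)).1 h2
  exact hno _ hk1 ⟨D.trans hub' hk2, hk3⟩

/-- density in the metric of the legs -/
theorem dens2 (h1 : S_UNB) (S : Setup X t s e A B) (hE : ∀ a ∈ A, Eff (∅ : Set X) a)
    (hB : B ⊆ closure (Ends t e)) {p y : X} (hp : p ∈ Ends t e) (hy : y ∈ J t p) {ε : ℝ}
    (hε : 0 < ε) : ∃ a ∈ A, a ∈ J t p ∧ dist a y < ε := by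
  have D : Den X t s := S.toDen
  obtain ⟨η, hη, hh⟩ := arc_near D hy hε
  have hsp : 0 < s p := D.s_pos hp.1
  have hsy0 := D.s_nonneg y
  have hsyp := D.s_mono hy
  have hm1 := le_max_left 0 (s y - η / 2)
  have hm2 := le_max_right 0 (s y - η / 2)
  have hn1 := min_le_left (s p) (s y + η / 2)
  have hn2 := min_le_right (s p) (s y + η / 2)
  have hlt : max 0 (s y - η / 2) < min (s p) (s y + η / 2) := by
    apply max_lt
    · exact lt_min hsp (by linarith)
    · exact lt_min (by linarith) (by linarith)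
  obtain ⟨v, hv, hvs⟩ := D.level p (r := min (s p) (s y + η / 2)) (by linarith) hn1
  obtain ⟨u, hu, hus⟩ := D.level v (r := max 0 (s y - η / 2)) hm1 (by rw [hvs]; exact hlt.le)
  have huv : u ≠ v := by
    intro h
    rw [h, hvs] at hus
    linarith
  obtain ⟨a, ha, hau, hav⟩ := dens h1 S hE hB hp hv hu huv
  have hap : a ∈ J t p := D.trans hav hv
  refine ⟨a, ha, hap, hh a hap ?_⟩
  have h2 := D.s_mono hau
  have h3 := D.s_mono hav
  rw [abs_lt]
  constructor
  · linarith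
  · linarith

end PCLE

open PCLE in
theorem t_CLE (h1 : S_UNB) : S_CLE := by
  intro X _ _ t s e A B S hE x hx
  by_contra hcon
  push Not at hcon
  obtain ⟨hxt, hxE⟩ := hcon
  have D : Den X t s := S.toDen
  have hex : e x ≠ x := fun h => hxE ⟨hxt, h⟩
  have hxB : x ∈ B := by
    have h2 : x ∈ A ∪ B := by
      rw [S.cover]
      exact ⟨hxt, hex⟩
    rcases h2 with h2 | h2
    · exact (alpha h1 S hE h2 hx).elim
    · exact h2
  have hB : B ⊆ closure (Ends t e) := by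
    intro b hb
    obtain ⟨h, hh⟩ := S.Borb x hxB b hb
    rw [← hh]
    exact cl_inv S h hx
  have hp : e x ∈ Ends t e := ⟨S.toFan.e_ne hxt, S.toFan.e_e x⟩
  -- a point of `A` below `x`
  obtain ⟨a0, ha0, ha0p, ha0t, ha0ne⟩ := A_leg S hp
  obtain ⟨g, hg, hgx⟩ := (h1 X t s e A B S (e x) hp a0 x ha0p ha0t ha0ne (S.le_e x) hxt
    (Ne.symm hex)).2
  have ha : g a0 ∈ A := S.Ainv g a0 ha0
  have hea : e (g a0) = e x := S.toFan.e_mem hgx (A_int S ha).1
  obtain ⟨q, hq, hqx⟩ := mem_closure_iff_seq_limit.1 hx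
  obtain ⟨y, hy, hyl⟩ := D.lsc hqx hgx
  have hexn : ∀ n : ℕ, ∃ a ∈ A, a ∈ J t (q n) ∧ dist a (y n) < 1 / ((n : ℝ) + 1) :=
    fun n => dens2 h1 S hE hB (hq n) (hy n) (by positivity)
  choose a haA haq had using hexn
  have h2 := key S hE ha haA hq haq (close_lim hyl had) hqx
  rw [hea] at h2
  exact hex h2.symm

end Pool.Agent.H273.FAN
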