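import Pool.Agent.H273.FAN.Stm2

/-! S_CLS: dichotomy (both classes dense, or one of them discrete, in the open leg). -/

set_option autoImplicit false

namespace Pool.Agent.H273.FAN.PCLS

open Set Filter Topology Metric

/-- an order automorphism of `(0,H)` preserving `S` and mapping `x` to `y` -/
def Mv (H : ℝ) (S : Set ℝ) (x y : ℝ) : Prop :=
  ∃ φ : ℝ → ℝ, (∀ r ∈ Ioo 0 H, φ r ∈ Ioo 0 H) ∧ (∀ r ∈ Ioo 0 H, ∃ r' ∈ Ioo 0 H, φ r' = r) ∧
    (∀ r ∈ Ioo 0 H, ∀ r' ∈ Ioo 0 H, (φ r < φ r' ↔ r < r')) ∧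
    (∀ r ∈ Ioo 0 H, (φ r ∈ S ↔ r ∈ S)) ∧ φ x = y

def L (H : ℝ) (S : Set ℝ) (y : ℝ) : Prop := ∃ w ∈ Ioo 0 H, w < y ∧ ∀ z ∈ S, w < z → z < y → False
def R (H : ℝ) (S : Set ℝ) (y : ℝ) : Prop := ∃ w ∈ Ioo 0 H, y < w ∧ ∀ z ∈ S, y < z → z < w → False

theorem L_mv {H : ℝ} {S : Set ℝ} (hS : S ⊆ Ioo 0 H) {x y : ℝ} (hx : x ∈ Ioo 0 H)
    (h : Mv H S x y) (hL : L H S x) : L H S y := by
  obtain ⟨φ, h1, h2, h3, h4, h5⟩ := h
  obtain ⟨w, hw, hwx, hz⟩ := hL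
  refine ⟨φ w, h1 w hw, ?_, ?_⟩
  · rw [← h5]; exact (h3 w hw x hx).2 hwx
  · intro z hzS hz1 hz2
    obtain ⟨z', hz', rfl⟩ := h2 z (hS hzS)
    rw [← h5] at hz2
    exact hz z' ((h4 z' hz').1 hzS) ((h3 w hw z' hz').1 hz1) ((h3 z' hz' x hx).1 hz2)

theorem R_mv {H : ℝ} {S : Set ℝ} (hS : S ⊆ Ioo 0 H) {x y : ℝ} (hx : x ∈ Ioo 0 H)
    (h : Mv H S x y) (hR : R H S x) : R H S y := by
  obtain ⟨φ, h1, h2, h3, h4, h5⟩ := h
  obtain ⟨w, hw, hwx, hz⟩ := hR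
  refine ⟨φ w, h1 w hw, ?_, ?_⟩
  · rw [← h5]; exact (h3 x hx w hw).2 hwx
  · intro z hzS hz1 hz2
    obtain ⟨z', hz', rfl⟩ := h2 z (hS hzS)
    rw [← h5] at hz1
    exact hz z' ((h4 z' hz').1 hzS) ((h3 x hx z' hz').1 hz1) ((h3 z' hz' w hw).1 hz2)

/-- the discrete alternative -/
theorem disc {H : ℝ} {SA SB : Set ℝ} (hcov : SA ∪ SB = Ioo 0 H)
    (hA : ∀ x ∈ SA, ∀ y ∈ SA, Mv H SA x y) (hB : ∀ x ∈ SB, ∀ y ∈ SB, Mv H SA x y)
    (hup : ∀ y ∈ Ioo 0 H, ∃ x ∈ SA, y ≤ x) (hdn : ∀ y ∈ Ioo 0 H, ∃ x ∈ SA, x ≤ y)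
    {u v : ℝ} (hu : u ∈ Ioo 0 H) (hv : v ∈ Ioo 0 H) (huv : u < v)
    (hno : ∀ z ∈ SA, u ≤ z → z ≤ v → False) {x y : ℝ} (hx : x ∈ Ioo 0 H) (hy : y ∈ Ioo 0 H) :
    (SA ∩ Icc x y).Finite := by
  have hSA : SA ⊆ Ioo 0 H := by rw [← hcov]; exact subset_union_left
  have hSB : SB ⊆ Ioo 0 H := by rw [← hcov]; exact subset_union_right
  have cov : ∀ z ∈ Ioo 0 H, z ∈ SA ∨ z ∈ SB := by
    intro z hz; rw [← hcov] at hz; exact hz
  set m := (u + v) / 2 with hm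
  have hmI : m ∈ Ioo 0 H := ⟨by have := hu.1; have := hv.1; simp only [hm]; linarith,
    by have := hu.2; have := hv.2; simp only [hm]; linarith⟩
  have hum : u < m := by simp only [hm]; linarith
  have hmv : m < v := by simp only [hm]; linarith
  have hmB : m ∈ SB := by
    rcases cov m hmI with h | h
    · exact (hno m h hum.le hmv.le).elim
    · exact h
  have hLm : L H SA m := ⟨u, hu, hum, fun z hz h1 h2 => hno z hz h1.le (by linarith)⟩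
  have hRm : R H SA m := ⟨v, hv, hmv, fun z hz h1 h2 => hno z hz (by linarith) h2.le⟩
  have LB : ∀ z ∈ SB, L H SA z := fun z hz => L_mv hSA hmI (hB m hmB z hz) hLm
  have RB : ∀ z ∈ SB, R H SA z := fun z hz => R_mv hSA hmI (hB m hmB z hz) hRm
  -- the first point above
  have LA : ∀ z ∈ SA, L H SA z := by
    obtain ⟨x1, hx1, hx1v⟩ := hup v hv
    set T : Set ℝ := {z | z ∈ SA ∧ v ≤ z} with hT
    have hTne : T.Nonempty := ⟨x1, hx1, hx1v⟩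
    have hTb : BddBelow T := ⟨v, fun z hz => hz.2⟩
    set a1 := sInf T with ha1
    have hva1 : v ≤ a1 := le_csInf hTne fun z hz => hz.2
    have ha1x : a1 ≤ x1 := csInf_le hTb ⟨hx1, hx1v⟩
    have ha1I : a1 ∈ Ioo 0 H := ⟨lt_of_lt_of_le hv.1 hva1, lt_of_le_of_lt ha1x (hSA hx1).2⟩
    have ha1A : a1 ∈ SA := by
      rcases cov a1 ha1I with h | h
      · exact h
      · exfalso
        obtain ⟨w, hw, hlt, hz⟩ := RB a1 h
        obtain ⟨z, hzT, hzw⟩ := exists_lt_of_csInf_lt hTne (show sInf T < w from hlt)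
        have h1 : a1 ≤ z := csInf_le hTb hzT
        rcases h1.lt_or_eq with h2 | h2
        · exact hz z hzT.1 h2 hzw
        · -- then a1 ∈ SA
          have h3 : a1 ∈ SA := by rw [h2]; exact hzT.1
          obtain ⟨w', hw', hlt', hz'⟩ := RB a1 h
          -- use disjointness through movement: m ∈ SB is moved to a1 preserving SA
          obtain ⟨φ, k1, k2, k3, k4, k5⟩ := hB m hmB a1 h
          have h5 : m ∈ SA := (k4 m hmI).1 (by rw [k5]; exact h3)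
          exact hno m h5 hum.le hmv.le
    have hL1 : L H SA a1 := by
      refine ⟨u, hu, by linarith, ?_⟩
      intro z hz h1 h2
      rcases le_or_gt v z with h3 | h3
      · exact absurd (csInf_le hTb (show z ∈ T from ⟨hz, h3⟩)) (not_le.2 h2)
      · exact hno z hz h1.le h3.le
    exact fun z hz => L_mv hSA ha1I (hA a1 ha1A z hz) hL1
  have RA : ∀ z ∈ SA, R H SA z := by
    obtain ⟨x1, hx1, hx1u⟩ := hdn u hu
    set T : Set ℝ := {z | z ∈ SA ∧ z ≤ u} with hT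
    have hTne : T.Nonempty := ⟨x1, hx1, hx1u⟩
    have hTb : BddAbove T := ⟨u, fun z hz => hz.2⟩
    set a0 := sSup T with ha0
    have hua0 : a0 ≤ u := csSup_le hTne fun z hz => hz.2
    have ha0x : x1 ≤ a0 := le_csSup hTb ⟨hx1, hx1u⟩
    have ha0I : a0 ∈ Ioo 0 H := ⟨lt_of_lt_of_le (hSA hx1).1 ha0x, lt_of_le_of_lt hua0 hu.2⟩
    have ha0A : a0 ∈ SA := by
      rcases cov a0 ha0I with h | h
      · exact h
      · exfalso
        obtain ⟨w, hw, hlt, hz⟩ := LB a0 h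
        obtain ⟨z, hzT, hzw⟩ := exists_lt_of_lt_csSup hTne (show w < sSup T from hlt)
        have h1 : z ≤ a0 := le_csSup hTb hzT
        rcases h1.lt_or_eq with h2 | h2
        · exact hz z hzT.1 hzw h2
        · have h3 : a0 ∈ SA := by rw [← h2]; exact hzT.1
          obtain ⟨φ, k1, k2, k3, k4, k5⟩ := hB m hmB a0 h
          have h5 : m ∈ SA := (k4 m hmI).1 (by rw [k5]; exact h3)
          exact hno m h5 hum.le hmv.le
    have hR1 : R H SA a0 := by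
      refine ⟨v, hv, by linarith, ?_⟩
      intro z hz h1 h2
      rcases le_or_gt z u with h3 | h3
      · exact absurd (le_csSup hTb (show z ∈ T from ⟨hz, h3⟩)) (not_le.2 h1)
      · exact hno z hz h3.le h2.le
    exact fun z hz => R_mv hSA ha0I (hA a0 ha0A z hz) hR1
  -- finiteness
  by_contra hinf
  have hinf' : (SA ∩ Icc x y).Infinite := hinf
  obtain ⟨z, hzI, hacc⟩ := hinf'.exists_accPt_of_subset_isCompact isCompact_Icc inter_subset_right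
  have hzIoo : z ∈ Ioo 0 H := ⟨lt_of_lt_of_le hx.1 hzI.1, lt_of_le_of_lt hzI.2 hy.2⟩
  have hLz : L H SA z := by
    rcases cov z hzIoo with h | h
    · exact LA z h
    · exact LB z h
  have hRz : R H SA z := by
    rcases cov z hzIoo with h | h
    · exact RA z h
    · exact RB z h
  obtain ⟨w, hw, hwz, h1⟩ := hLz
  obtain ⟨w', hw', hwz', h2⟩ := hRz
  have hnb : Ioo w w' ∈ 𝓝 z := Ioo_mem_nhds hwz hwz'
  rw [accPt_iff_nhds] at hacc
  obtain ⟨q, hq, hqz⟩ := hacc _ hnb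
  rcases lt_or_gt_of_ne hqz with h3 | h3
  · exact h1 q hq.2.1 hq.1.1 h3
  · exact h2 q hq.2.1 h3 hq.1.2

/-- abstract dichotomy -/
theorem dich {H : ℝ} {SA SB : Set ℝ} (hcov : SA ∪ SB = Ioo 0 H)
    (hAA : ∀ x ∈ SA, ∀ y ∈ SA, Mv H SA x y) (hBA : ∀ x ∈ SB, ∀ y ∈ SB, Mv H SA x y)
    (hAB : ∀ x ∈ SA, ∀ y ∈ SA, Mv H SB x y) (hBB : ∀ x ∈ SB, ∀ y ∈ SB, Mv H SB x y)
    (hAup : ∀ y ∈ Ioo 0 H, ∃ x ∈ SA, y ≤ x) (hAdn : ∀ y ∈ Ioo 0 H, ∃ x ∈ SA, x ≤ y)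
    (hBup : ∀ y ∈ Ioo 0 H, ∃ x ∈ SB, y ≤ x) (hBdn : ∀ y ∈ Ioo 0 H, ∃ x ∈ SB, x ≤ y) :
    (∀ u ∈ Ioo 0 H, ∀ v ∈ Ioo 0 H, u < v →
      (∃ z ∈ SA, u ≤ z ∧ z ≤ v) ∧ (∃ z ∈ SB, u ≤ z ∧ z ≤ v)) ∨
    (∀ x ∈ Ioo 0 H, ∀ y ∈ Ioo 0 H, (SA ∩ Icc x y).Finite) ∨
    (∀ x ∈ Ioo 0 H, ∀ y ∈ Ioo 0 H, (SB ∩ Icc x y).Finite) := by
  by_cases hc : ∀ u ∈ Ioo 0 H, ∀ v ∈ Ioo 0 H, u < v →
      (∃ z ∈ SA, u ≤ z ∧ z ≤ v) ∧ (∃ z ∈ SB, u ≤ z ∧ z ≤ v)
  · exact Or.inl hc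
  · right
    push Not at hc
    obtain ⟨u, hu, v, hv, huv, h⟩ := hc
    by_cases h1 : ∃ z ∈ SA, u ≤ z ∧ z ≤ v
    · right
      have h2 := h h1
      intro x hx y hy
      exact disc (SA := SB) (SB := SA) (by rw [union_comm]; exact hcov) hBB hAB hBup hBdn hu hv huv
        (fun z hz a b => absurd (h2 z hz a) (not_lt.2 b)) hx hy
    · left
      push Not at h1
      intro x hx y hy
      exact disc hcov hAA hBA hAup hAdn hu hv huv
        (fun z hz a b => absurd (h1 z hz a) (not_lt.2 b)) hx hy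

section
variable {X : Type} [MetricSpace X] [CompactSpace X] {t : X} {s : X → ℝ} {e : X → X}

/-- a homeomorphism fixing `p` acts on heights -/
theorem mv_of_homeo (F : Fan X t s e) {p : X} {a : ℝ → X}
    (ha : ∀ r ∈ Icc 0 (s p), a r ∈ J t p ∧ s (a r) = r) (h : X ≃ₜ X) (hp : h p = p)
    (C : Set X) (hC : ∀ x, h x ∈ C ↔ x ∈ C) {x y : X} (hx : x ∈ J t p) (hxy : h x = y) :
    Mv (s p) {r | r ∈ Ioo 0 (s p) ∧ a r ∈ C} (s x) (s y) := by
  have D := F.toDen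
  have hsp : h.symm p = p := by
    conv_lhs => rw [← hp]
    exact h.symm_apply_apply p
  have key : ∀ (g : X ≃ₜ X), g p = p → ∀ r ∈ Ioo 0 (s p),
      g (a r) ∈ J t p ∧ s (g (a r)) ∈ Ioo 0 (s p) ∧ a (s (g (a r))) = g (a r) := by
    intro g hg r hr
    have hr' : r ∈ Icc 0 (s p) := ⟨hr.1.le, hr.2.le⟩
    obtain ⟨h1, h2⟩ := ha r hr'
    have h3 : g (a r) ∈ J t p := by
      have := (mem_img g (F.fix g)).2 h1
      rwa [hg] at this
    have hat : a r ≠ t := by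
      intro h4; rw [h4, D.s_t] at h2; exact absurd h2 (ne_of_lt hr.1)
    have hap : a r ≠ p := by
      intro h4; rw [h4] at h2; exact absurd h2 (ne_of_gt hr.2)
    have h5 : g (a r) ≠ t := F.homeo_ne g hat
    have h6 : g (a r) ≠ p := by
      intro h7; exact hap (g.injective (by rw [h7, hg]))
    have h8 : s (g (a r)) ∈ Ioo 0 (s p) := ⟨D.s_pos h5, D.s_lt h3 h6⟩
    have h9 := ha (s (g (a r))) ⟨h8.1.le, h8.2.le⟩
    exact ⟨h3, h8, D.s_inj h9.1 h3 h9.2⟩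
  have hI : ∀ r ∈ Ioo 0 (s p), r ∈ Icc 0 (s p) := fun r hr => ⟨hr.1.le, hr.2.le⟩
  refine ⟨fun r => s (h (a r)), fun r hr => (key h hp r hr).2.1, ?_, ?_, ?_, ?_⟩
  · intro r hr
    obtain ⟨k1, k2, k3⟩ := key h.symm hsp r hr
    refine ⟨s (h.symm (a r)), k2, ?_⟩
    show s (h (a (s (h.symm (a r))))) = r
    rw [k3, h.apply_symm_apply]
    exact (ha r (hI r hr)).2
  · intro r hr r' hr'
    obtain ⟨k1, k2, k3⟩ := key h hp r hr
    obtain ⟨k1', k2', k3'⟩ := key h hp r' hr'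
    obtain ⟨l1, l2⟩ := ha r (hI r hr)
    obtain ⟨l1', l2'⟩ := ha r' (hI r' hr')
    show s (h (a r)) < s (h (a r')) ↔ r < r'
    rw [← not_le, ← not_le, not_iff_not]
    rw [← D.s_le p _ _ k1' k1, mem_img h (F.fix h), D.s_le p _ _ l1' l1, l2, l2']
  · intro r hr
    obtain ⟨k1, k2, k3⟩ := key h hp r hr
    simp only [mem_setOf_eq]
    rw [k3, hC]
    exact ⟨fun q => ⟨hr, q.2⟩, fun q => ⟨k2, q.2⟩⟩
  · show s (h (a (s x))) = s y
    have hsx : s x ∈ Icc 0 (s p) := ⟨D.s_nonneg x, D.s_mono hx⟩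
    have : a (s x) = x := D.s_inj (ha _ hsx).1 hx (ha _ hsx).2
    rw [this, hxy]

end

end Pool.Agent.H273.FAN.PCLS

namespace Pool.Agent.H273.FAN

open Set Filter Topology Metric PCLS

theorem t_CLS (h1 : S_UNB) : S_CLS := by
  intro X _ _ t s e A B S p hp
  have F := S.toFan
  have D := F.toDen
  obtain ⟨hpt, hep⟩ := hp
  obtain ⟨a, -, ha, -, -⟩ := D.arc p
  set H := s p with hH
  have hI : ∀ r ∈ Ioo 0 H, r ∈ Icc 0 H := fun r hr => ⟨hr.1.le, hr.2.le⟩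
  have hat : ∀ r ∈ Ioo 0 H, a r ≠ t := by
    intro r hr h4
    have h2 := (ha r (hI r hr)).2
    rw [h4, D.s_t] at h2; exact absurd h2 (ne_of_lt hr.1)
  have hap : ∀ r ∈ Ioo 0 H, a r ≠ p := by
    intro r hr h4
    have h2 := (ha r (hI r hr)).2
    rw [h4] at h2; exact absurd h2 (ne_of_gt hr.2)
  have hea : ∀ r ∈ Ioo 0 H, e (a r) = p := by
    intro r hr
    rw [F.e_mem (ha r (hI r hr)).1 (hat r hr), hep]
  have haInt : ∀ r ∈ Ioo 0 H, a r ∈ A ∪ B := by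
    intro r hr
    rw [S.cover]
    exact ⟨hat r hr, by rw [hea r hr]; exact (hap r hr).symm⟩
  have hinvA : ∀ h : X ≃ₜ X, ∀ x, h x ∈ A ↔ x ∈ A := by
    intro h x
    refine ⟨fun q => ?_, S.Ainv h x⟩
    have := S.Ainv h.symm _ q
    rwa [h.symm_apply_apply] at this
  have hinvB : ∀ h : X ≃ₜ X, ∀ x, h x ∈ B ↔ x ∈ B := by
    intro h x
    refine ⟨fun q => ?_, S.Binv h x⟩
    have := S.Binv h.symm _ q
    rwa [h.symm_apply_apply] at this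
  -- homeomorphisms between points of the open leg fix p
  have hfix : ∀ (h : X ≃ₜ X), ∀ r ∈ Ioo 0 H, ∀ r' ∈ Ioo 0 H, h (a r) = a r' → h p = p := by
    intro h r hr r' hr' hh
    conv_lhs => rw [← hea r hr]
    rw [F.e_homeo, hh, hea r' hr']
  set SA : Set ℝ := {r | r ∈ Ioo 0 H ∧ a r ∈ A} with hSA
  set SB : Set ℝ := {r | r ∈ Ioo 0 H ∧ a r ∈ B} with hSB
  have hcov : SA ∪ SB = Ioo 0 H := by
    ext r
    constructor
    · rintro (q | q)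
      · exact q.1
      · exact q.1
    · intro hr
      rcases haInt r hr with q | q
      · exact Or.inl ⟨hr, q⟩
      · exact Or.inr ⟨hr, q⟩
  have mv : ∀ (M C : Set X), (∀ h : X ≃ₜ X, ∀ x, h x ∈ C ↔ x ∈ C) →
      (∀ x ∈ M, ∀ y ∈ M, ∃ h : X ≃ₜ X, h x = y) →
      ∀ r ∈ {r | r ∈ Ioo 0 H ∧ a r ∈ M}, ∀ r' ∈ {r | r ∈ Ioo 0 H ∧ a r ∈ M},
        Mv H {r | r ∈ Ioo 0 H ∧ a r ∈ C} r r' := by
    rintro M C hC hM r ⟨hr, hrM⟩ r' ⟨hr', hrM'⟩
    obtain ⟨h, hh⟩ := hM _ hrM _ hrM'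
    have := mv_of_homeo F ha h (hfix h r hr r' hr' hh) C (hC h) (ha r (hI r hr)).1 hh
    rwa [(ha r (hI r hr)).2, (ha r' (hI r' hr')).2] at this
  -- unboundedness
  have unb : ∀ (M : Set X), M.Nonempty → M ⊆ Int t e → (∀ h : X ≃ₜ X, ∀ x, h x ∈ M ↔ x ∈ M) →
      ∀ r ∈ Ioo 0 H, (∃ r' ∈ {r | r ∈ Ioo 0 H ∧ a r ∈ M}, r ≤ r') ∧
        (∃ r' ∈ {r | r ∈ Ioo 0 H ∧ a r ∈ M}, r' ≤ r) := by
    intro M hMne hMI hMinv r hr
    obtain ⟨x0, hx0⟩ := hMne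
    obtain ⟨h, hh⟩ := S.Eorb x0 p (hMI hx0).1 hpt
    rw [hep] at hh
    have hx1 : h x0 ∈ M := (hMinv h x0).2 hx0
    have hx1p : h x0 ∈ J t p := by
      rw [← hh]; exact (mem_img h (F.fix h)).2 (F.le_e x0)
    have hx1t : h x0 ≠ t := (hMI hx1).1
    have hx1np : h x0 ≠ p := by
      intro q; exact (hMI hx1).2 (by rw [q, hep])
    have hr' := ha r (hI r hr)
    obtain ⟨⟨g, hg, hg1⟩, ⟨k, hk, hk1⟩⟩ :=
      h1 X t s e A B S p ⟨hpt, hep⟩ (h x0) (a r) hx1p hx1t hx1np hr'.1 (hat r hr) (hap r hr)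
    have fin : ∀ f ∈ Stab ({p} : Set X), s (f (h x0)) ∈ {r | r ∈ Ioo 0 H ∧ a r ∈ M} := by
      intro f hf
      have hfp : f p = p := hf p rfl
      have j1 : f (h x0) ∈ J t p := by
        have := (mem_img f (F.fix f)).2 hx1p
        rwa [hfp] at this
      have j2 : f (h x0) ∈ M := (hMinv f _).2 hx1
      have j3 : f (h x0) ≠ p := by
        intro q; exact (hMI j2).2 (by rw [q, hep])
      have j4 : s (f (h x0)) ∈ Ioo 0 H := ⟨D.s_pos (hMI j2).1, D.s_lt j1 j3⟩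
      refine ⟨j4, ?_⟩
      have := ha _ (hI _ j4)
      rw [D.s_inj this.1 j1 this.2]; exact j2
    refine ⟨⟨_, fin g hg, ?_⟩, ⟨_, fin k hk, ?_⟩⟩
    · have := D.s_mono hg1
      rwa [hr'.2] at this
    · have := D.s_mono hk1
      rwa [hr'.2] at this
  have hAI : A ⊆ Int t e := by rw [← S.cover]; exact subset_union_left
  have hBI : B ⊆ Int t e := by rw [← S.cover]; exact subset_union_right
  have unbA := unb A S.Ane hAI hinvA
  have unbB := unb B S.Bne hBI hinvB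
  have final := dich hcov (mv A A hinvA S.Aorb) (mv B A hinvA S.Borb) (mv A B hinvB S.Aorb)
    (mv B B hinvB S.Borb) (fun y hy => (unbA y hy).1) (fun y hy => (unbA y hy).2)
    (fun y hy => (unbB y hy).1) (fun y hy => (unbB y hy).2)
  have ztrans : ∀ M : Set X, (∀ x ∈ Ioo 0 H, ∀ y ∈ Ioo 0 H,
      ({r | r ∈ Ioo 0 H ∧ a r ∈ M} ∩ Icc x y).Finite) → ZT t p M := by
    intro M hM x y hy hyp hxt
    by_cases hxy : x ∈ J t y
    · have hyt : y ≠ t := D.ne_t_of_mem hxy hxt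
      have hsx : s x ∈ Ioo 0 H :=
        ⟨D.s_pos hxt, lt_of_le_of_lt (D.s_mono hxy) (D.s_lt hy hyp)⟩
      have hsy : s y ∈ Ioo 0 H := ⟨D.s_pos hyt, D.s_lt hy hyp⟩
      refine ((hM (s x) hsx (s y) hsy).image a).subset ?_
      rintro v ⟨hvM, hv1, hv2⟩
      have hvp : v ∈ J t p := D.trans hv2 hy
      have hsv : s v ∈ Ioo 0 H :=
        ⟨lt_of_lt_of_le hsx.1 (D.s_mono hv1), lt_of_le_of_lt (D.s_mono hv2) hsy.2⟩
      have h3 := ha _ (hI _ hsv)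
      have h4 : a (s v) = v := D.s_inj h3.1 hvp h3.2
      refine ⟨s v, ⟨⟨hsv, ?_⟩, D.s_mono hv1, D.s_mono hv2⟩, h4⟩
      rw [h4]; exact hvM
    · have : Ic t x y = ∅ := by
        ext v
        simp only [mem_empty_iff_false, iff_false]
        rintro ⟨h2, h3⟩
        exact hxy (D.trans h2 h3)
      rw [this, inter_empty]; exact finite_empty
  rcases final with h | h | h
  · left
    intro x y hy hxy hne
    have hs : s x < s y := D.s_lt hxy hne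
    have hx0 := D.s_nonneg x
    have hyH : s y ≤ H := D.s_mono hy
    have hu : (2 * s x + s y) / 3 ∈ Ioo 0 H := ⟨by linarith, by linarith⟩
    have hv : (s x + 2 * s y) / 3 ∈ Ioo 0 H := ⟨by linarith, by linarith⟩
    obtain ⟨⟨z, hz, z1, z2⟩, ⟨z', hz', z1', z2'⟩⟩ := h _ hu _ hv (by linarith)
    have hxp : x ∈ J t p := D.trans hxy hy
    have mem : ∀ r ∈ Ioo 0 H, s x ≤ r → r ≤ s y → a r ∈ Ic t x y := by
      intro r hr q1 q2
      have h3 := ha r (hI r hr)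
      refine ⟨?_, ?_⟩
      · rw [D.s_le p _ _ hxp h3.1, h3.2]; exact q1
      · rw [D.s_le p _ _ h3.1 hy, h3.2]; exact q2
    exact ⟨⟨a z, hz.2, mem z hz.1 (by linarith) (by linarith)⟩,
      ⟨a z', hz'.2, mem z' hz'.1 (by linarith) (by linarith)⟩⟩
  · right; left; exact ztrans A h
  · right; right; exact ztrans B h

end Pool.Agent.H273.FAN
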