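import Pool.Agent.H273.FAN.Stm1
import Pool.Agent.H273.FAN.Api

/-! MP_64e39e_gt / S13290, part DEN: the rooted dendroid structure. -/

set_option autoImplicit false

namespace Pool.Agent.H273.FAN

open Set Filter Topology Metric

namespace PDEN

section
variable {X : Type} [TopologicalSpace X] (t x : X)

theorem J_closed : IsClosed (J t x) := isClosed_sInter fun _ hK => hK.1

theorem J_left : t ∈ J t x := fun _ hK => hK.2.2.1

theorem J_right : x ∈ J t x := fun _ hK => hK.2.2.2

end

end PDEN

open PDEN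

theorem t_DEN (h1 : S_WH) (h2 : S_JC) (h3 : S_ANTI) (h4 : S_ARC) : S_DEN := by
  intro X _ _ _ hHU t
  obtain ⟨μ, hμ⟩ := h1 X
  have hconn : ∀ x : X, IsConnected (J t x) := fun x => h2 X hHU t x
  have hsub : ∀ {x y : X}, y ∈ J t x → J t y ⊆ J t x := fun {x y} h =>
    J_min (J_closed t x) (hconn x) (J_left t x) h
  have hne : ∀ x : X, (J t x).Nonempty := fun x => ⟨t, J_left t x⟩
  refine ⟨fun x => μ (J t x), ?_⟩
  refine
    { closed := J_closed t
      conn := hconn
      memt := J_left t
      memx := J_right t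
      anti := ?_
      s_t := ?_
      s_nonneg := ?_
      s_cont := ?_
      s_le := ?_
      s_unif := ?_ }
  · intro x y hx hy
    exact h3 X hHU t x y (Subset.antisymm (hsub hx) (hsub hy))
  · have : J t t = {t} := by
      apply Subset.antisymm
      · exact J_min isClosed_singleton isConnected_singleton rfl rfl
      · rintro _ rfl; exact J_left _ _
    show μ (J t t) = 0
    rw [this]; exact hμ.single t
  · intro x
    show 0 ≤ μ (J t x)
    rw [← hμ.single x]
    exact hμ.mono _ _ (singleton_nonempty x) (singleton_subset_iff.2 (J_right t x))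
  · intro x
    obtain ⟨a, hac, him, hval, -⟩ := h4 X hHU μ hμ t x
    rw [continuousOn_iff_isClosed]
    intro F hF
    refine ⟨a '' (Icc 0 (μ (J t x)) ∩ F), ?_, ?_⟩
    · refine ((isCompact_Icc.inter_right hF).image_of_continuousOn
        (hac.mono inter_subset_left)).isClosed
    · ext y
      constructor
      · rintro ⟨hyF, hyJ⟩
        refine ⟨?_, hyJ⟩
        rw [← him] at hyJ
        obtain ⟨r, hr, rfl⟩ := hyJ
        refine ⟨r, ⟨hr, ?_⟩, rfl⟩
        have h5 : μ (J t (a r)) ∈ F := hyF
        rwa [hval r hr] at h5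
      · rintro ⟨⟨r, ⟨hr, hrF⟩, rfl⟩, hyJ⟩
        refine ⟨?_, hyJ⟩
        show μ (J t (a r)) ∈ F
        rw [hval r hr]; exact hrF
  · intro x y y' hy hy'
    obtain ⟨a, -, him, hval, hmono⟩ := h4 X hHU μ hμ t x
    constructor
    · intro h
      exact hμ.mono _ _ (hne y) (hsub h)
    · intro h
      rw [← him] at hy hy'
      obtain ⟨r, hr, rfl⟩ := hy
      obtain ⟨r', hr', rfl⟩ := hy'
      have h5 : μ (J t (a r)) ≤ μ (J t (a r')) := h
      rw [hval r hr, hval r' hr'] at h5
      exact hmono r hr r' hr' h5 (J_right t (a r))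
  · intro ε hε
    obtain ⟨δ, hδ, h5⟩ := hμ.unif ε hε
    exact ⟨δ, hδ, fun x y h => h5 _ _ (hne x) (hne y) h⟩

end Pool.Agent.H273.FAN
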