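import Pool.Agent.H273.FAN.Stm2

/-!
# Dense case: the ends are dense
-/

set_option autoImplicit false

namespace Pool.Agent.H273.FAN.PDNE

open Set Filter Topology Metric

variable {X : Type} [MetricSpace X] [CompactSpace X] {t : X} {s : X → ℝ} {e : X → X}

theorem Ends_img (F : Fan X t s e) (h : X ≃ₜ X) {x : X} (hx : x ∈ Ends t e) : h x ∈ Ends t e := by
  refine ⟨F.homeo_ne h hx.1, ?_⟩
  rw [← F.e_homeo, hx.2]

theorem closure_img (F : Fan X t s e) (h : X ≃ₜ X) {x : X} (hx : x ∈ closure (Ends t e)) :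
    h x ∈ closure (Ends t e) := by
  have h1 := mem_closure_image (f := h) h.continuous.continuousAt hx
  refine closure_mono ?_ h1
  rintro _ ⟨y, hy, rfl⟩
  exact Ends_img F h hy

/-- a closed set which contains a set meeting all the intervals of a leg contains the leg -/
theorem leg_sub (D : Den X t s) {q : X} (hq : q ≠ t) {M C : Set X} (hC : IsClosed C) (hMC : M ⊆ C)
    (hM : ∀ x y, y ∈ J t q → x ∈ J t y → x ≠ y → (M ∩ Ic t x y).Nonempty) : J t q ⊆ C := by
  obtain ⟨a, hac, ha, -, -⟩ := D.arc q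
  have hpos : 0 < s q := D.s_pos hq
  have key : ∀ r₁ r₂ : ℝ, 0 ≤ r₁ → r₁ < r₂ → r₂ ≤ s q → ∃ r, r₁ ≤ r ∧ r ≤ r₂ ∧ a r ∈ C := by
    intro r₁ r₂ h0 h1 h2
    have g1 : r₁ ∈ Icc 0 (s q) := ⟨h0, h1.le.trans h2⟩
    have g2 : r₂ ∈ Icc 0 (s q) := ⟨h0.trans h1.le, h2⟩
    have h3 : a r₁ ∈ J t (a r₂) := by
      rw [D.s_le q _ _ (ha r₁ g1).1 (ha r₂ g2).1, (ha r₁ g1).2, (ha r₂ g2).2]
      exact h1.le
    have h4 : a r₁ ≠ a r₂ := by
      intro h
      have := congrArg s h
      rw [(ha r₁ g1).2, (ha r₂ g2).2] at this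
      exact h1.ne this
    obtain ⟨v, hvM, hv1, hv2⟩ := hM (a r₁) (a r₂) (ha r₂ g2).1 h3 h4
    have h5 : v ∈ J t q := D.trans hv2 (ha r₂ g2).1
    have h6 : s v ∈ Icc 0 (s q) := ⟨D.s_nonneg v, D.s_mono h5⟩
    have h7 : a (s v) = v := D.s_inj (ha _ h6).1 h5 (ha _ h6).2
    refine ⟨s v, ?_, ?_, ?_⟩
    · have := D.s_mono hv1
      rwa [(ha r₁ g1).2] at this
    · have := D.s_mono hv2
      rwa [(ha r₂ g2).2] at this
    · rw [h7]; exact hMC hvM
  have hcl : IsClosed {r : ℝ | a r ∈ C} := hC.preimage hac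
  have key2 : ∀ r ∈ Icc 0 (s q), a r ∈ C := by
    intro r hr
    have : r ∈ closure {r : ℝ | a r ∈ C} := by
      rw [Metric.mem_closure_iff]
      intro ε hε
      rcases lt_or_eq_of_le hr.2 with h | h
      · obtain ⟨r', h1, h2, h3⟩ := key r (min (r + ε / 2) (s q)) hr.1
          (lt_min (by linarith) h) (min_le_right _ _)
        refine ⟨r', h3, ?_⟩
        have h4 := h2.trans (min_le_left _ _)
        rw [Real.dist_eq, abs_lt]
        constructor <;> linarith
      · obtain ⟨r', h1, h2, h3⟩ := key (max (r - ε / 2) 0) r (le_max_right _ _)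
          (max_lt (by linarith) (by linarith)) hr.2
        refine ⟨r', h3, ?_⟩
        have h4 := (le_max_left _ _).trans h1
        rw [Real.dist_eq, abs_lt]
        constructor <;> linarith
    rwa [hcl.closure_eq] at this
  intro v hv
  have h6 : s v ∈ Icc 0 (s q) := ⟨D.s_nonneg v, D.s_mono hv⟩
  have h7 : a (s v) = v := D.s_inj (ha _ h6).1 hv (ha _ h6).2
  rw [← h7]
  exact key2 _ h6

end Pool.Agent.H273.FAN.PDNE

namespace Pool.Agent.H273.FAN

open Set Filter Topology Metric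

theorem t_DNE : S_DNE := by
  intro X _ _ t s e A B S hC hDD
  unfold Case1 at hC
  push Not at hC
  obtain ⟨x₀, hx₀, hx₀t, hx₀E⟩ := hC
  have F : Fan X t s e := S.toFan
  have hex₀ : e x₀ ≠ x₀ := fun h => hx₀E ⟨hx₀t, h⟩
  have hleg : ∀ q ∈ Ends t e, J t q ⊆ closure (Ends t e) := by
    intro q hq
    obtain ⟨h, hh⟩ := S.Eorb x₀ q hx₀t hq.1
    have h1 : h x₀ ∈ closure (Ends t e) := PDNE.closure_img F h hx₀
    have h2 : h x₀ ≠ t := F.homeo_ne h hx₀t
    have h3 : e (h x₀) ≠ h x₀ := by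
      rw [← F.e_homeo]
      exact fun h4 => hex₀ (h.injective h4)
    have h4 : h x₀ ∈ A ∪ B := by
      rw [S.cover]
      exact ⟨h2, h3⟩
    rcases h4 with h4 | h4
    · refine PDNE.leg_sub F.toDen hq.1 isClosed_closure (M := A) ?_
        (fun x y hy hx hne => (hDD q hq x y hy hx hne).1)
      intro y hy
      obtain ⟨g, hg⟩ := S.Aorb _ h4 y hy
      rw [← hg]
      exact PDNE.closure_img F g h1
    · refine PDNE.leg_sub F.toDen hq.1 isClosed_closure (M := B) ?_
        (fun x y hy hx hne => (hDD q hq x y hy hx hne).2)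
      intro y hy
      obtain ⟨g, hg⟩ := S.Borb _ h4 y hy
      rw [← hg]
      exact PDNE.closure_img F g h1
  rw [eq_univ_iff_forall]
  intro x
  have hend : ∀ y, y ≠ t → e y ∈ Ends t e := fun y hy => ⟨F.e_ne hy, F.e_e y⟩
  by_cases hx : x = t
  · rw [hx]
    exact hleg _ (hend x₀ hx₀t) (F.memt _)
  · exact hleg _ (hend x hx) (F.le_e x)

end Pool.Agent.H273.FAN
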