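import Pool.Agent.H273.FAN.Stm1
import Pool.Agent.H273.FAN.Api

set_option autoImplicit false

namespace Pool.Agent.H273.FAN

open Set Filter Topology Metric

namespace PEFF1

variable {X : Type} [MetricSpace X]

lemma stab_trans {P : Set X} {g h : X ≃ₜ X} (hg : g ∈ Stab P) (hh : h ∈ Stab P) :
    g.trans h ∈ Stab P := by
  intro p hp
  show h (g p) = p
  rw [hg p hp, hh p hp]

lemma stab_symm {P : Set X} {g : X ≃ₜ X} (hg : g ∈ Stab P) : g.symm ∈ Stab P := by
  intro p hp
  rw [Homeomorph.symm_apply_eq]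
  exact (hg p hp).symm

/-- the embedding of the homeomorphisms into pairs of maps -/
def emb (g : X ≃ₜ X) : C(X, X) × C(X, X) :=
  (⟨g, g.continuous⟩, ⟨g.symm, g.symm.continuous⟩)

lemma cover [CompactSpace X] (P : Set X) {ε : ℝ} (hε : 0 < ε) :
    ∃ T : Set (X ≃ₜ X), T.Countable ∧ T ⊆ Stab P ∧
      ∀ g ∈ Stab P, ∃ h ∈ T, near (g.trans h.symm) ε := by
  have h1 : TopologicalSpace.IsSeparable (emb '' (Stab P)) :=
    TopologicalSpace.IsSeparable.of_separableSpace _
  obtain ⟨t, ht1, ht2, ht3⟩ := h1.exists_countable_dense_subset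
  have h2 : ∀ τ : t, ∃ g : X ≃ₜ X, g ∈ Stab P ∧ emb g = τ := fun τ => ht1 τ.2
  choose f hf1 hf2 using h2
  have := ht2.to_subtype
  refine ⟨Set.range f, Set.countable_range f, ?_, ?_⟩
  · rintro _ ⟨τ, rfl⟩
    exact hf1 τ
  · intro g hg
    have h3 : emb g ∈ closure t := ht3 ⟨g, hg, rfl⟩
    obtain ⟨τ, hτ, hd⟩ := Metric.mem_closure_iff.1 h3 ε hε
    refine ⟨f ⟨τ, hτ⟩, ⟨_, rfl⟩, ?_⟩
    have e1 : emb (f ⟨τ, hτ⟩) = τ := hf2 ⟨τ, hτ⟩
    rw [← e1] at hd
    generalize f ⟨τ, hτ⟩ = h at hd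
    rw [Prod.dist_eq, max_lt_iff] at hd
    obtain ⟨hd1, hd2⟩ := hd
    have k1 : ∀ u, dist (g u) (h u) < ε := fun u =>
      lt_of_le_of_lt (ContinuousMap.dist_apply_le_dist (f := (emb g).1) (g := (emb h).1) u) hd1
    have k2 : ∀ u, dist (g.symm u) (h.symm u) < ε := fun u =>
      lt_of_le_of_lt (ContinuousMap.dist_apply_le_dist (f := (emb g).2) (g := (emb h).2) u) hd2
    intro u
    constructor
    · show dist (h.symm (g u)) u < ε
      have := k2 (g u)
      rw [Homeomorph.symm_apply_apply, dist_comm] at this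
      exact this
    · show dist (g.symm (h u)) u < ε
      have := k2 (h u)
      rw [Homeomorph.symm_apply_apply] at this
      exact this

end PEFF1

open PEFF1

theorem t_EFF1 : S_EFF1 := by
  intro X _ _ P x hmea ε hε y hy
  obtain ⟨T, hTc, hTs, hT⟩ := cover P (half_pos hε)
  -- the pieces of the orbit
  set M : T → Set (Orb P x) := fun g => {z | ∃ v ∈ Stab P, near v (ε / 2) ∧
    (g : X ≃ₜ X) (v y) = z} with hM
  have hcov : (Set.univ : Set (Orb P x)) = ⋃ g, M g := by
    refine (Set.eq_univ_of_forall fun z => ?_).symm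
    obtain ⟨g1, hg1, h1⟩ := hy
    obtain ⟨g2, hg2, h2⟩ := z.2
    have hg : g1.symm.trans g2 ∈ Stab P := stab_trans (stab_symm hg1) hg2
    obtain ⟨h, hh, hn⟩ := hT _ hg
    refine Set.mem_iUnion.2 ⟨⟨h, hh⟩, (g1.symm.trans g2).trans h.symm,
      stab_trans hg (stab_symm (hTs hh)), hn, ?_⟩
    show h (h.symm (g2 (g1.symm y))) = z
    rw [Homeomorph.apply_symm_apply, ← h1, Homeomorph.symm_apply_apply, h2]
  have hex : ∃ g, ¬ IsNowhereDense (M g) := by
    by_contra hcon
    push Not at hcon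
    apply hmea
    rw [hcov]
    have := hTc.to_subtype
    exact isMeagre_iUnion fun g => (hcon g).isMeagre
  obtain ⟨g, hg⟩ := hex
  have hne : (interior (closure (M g))).Nonempty := by
    rw [Set.nonempty_iff_ne_empty]
    exact hg
  obtain ⟨W, hW, hWe⟩ := isOpen_induced_iff.1 (isOpen_interior (s := closure (M g)))
  have hmeet : (interior (closure (M g)) ∩ M g).Nonempty := by
    obtain ⟨z, hz⟩ := hne
    exact mem_closure_iff.1 (interior_subset hz) _ isOpen_interior hz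
  obtain ⟨z0, hz0, v, hv, hvn, hvz⟩ := hmeet
  have hz0W : (z0 : X) ∈ W := by
    rw [← hWe] at hz0
    exact hz0
  -- the homeomorphism `h = g ∘ v`
  obtain ⟨h, hh⟩ : ∃ h : X ≃ₜ X, h = v.trans (g : X ≃ₜ X) := ⟨_, rfl⟩
  have hhS : h ∈ Stab P := by rw [hh]; exact stab_trans hv (hTs g.2)
  have hhy : h y = z0 := by rw [hh]; exact hvz
  have hopen : IsOpen (h ⁻¹' W) := hW.preimage h.continuous
  have hymem : y ∈ h ⁻¹' W := by
    show h y ∈ W
    rw [hhy]; exact hz0W
  obtain ⟨δ, hδ, hball⟩ := Metric.isOpen_iff.1 hopen y hymem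
  refine ⟨δ, hδ, fun z hz hzd η hη => ?_⟩
  have hzW : h z ∈ W := hball hzd
  have hhz : h z ∈ Orb P x := by
    obtain ⟨g3, hg3, h3⟩ := hz
    exact ⟨g3.trans h, stab_trans hg3 hhS, by show h (g3 x) = h z; rw [h3]⟩
  have hcl : (⟨h z, hhz⟩ : Orb P x) ∈ closure (M g) := by
    apply interior_subset
    rw [← hWe]
    exact hzW
  -- uniform continuity of the inverse
  have huc : UniformContinuous h.symm :=
    CompactSpace.uniformContinuous_of_continuous h.symm.continuous
  obtain ⟨η', hη', hu⟩ := Metric.uniformContinuous_iff.1 huc η hη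
  obtain ⟨z1, ⟨v', hv', hvn', hvz'⟩, hd⟩ := Metric.mem_closure_iff.1 hcl η' hη'
  have hd' : dist (h z) ((g : X ≃ₜ X) (v' y)) < η' := by
    rw [hvz']
    exact hd
  have h5 := hu hd'
  rw [Homeomorph.symm_apply_apply] at h5
  have h6 : h.symm ((g : X ≃ₜ X) (v' y)) = v.symm (v' y) := by
    rw [hh]
    show v.symm ((g : X ≃ₜ X).symm ((g : X ≃ₜ X) (v' y))) = v.symm (v' y)
    rw [Homeomorph.symm_apply_apply]
  rw [h6] at h5
  refine ⟨v'.trans v.symm, stab_trans hv' (stab_symm hv), ?_, ?_⟩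
  · intro u
    constructor
    · show dist (v.symm (v' u)) u < ε
      have a1 := (hvn (v' u)).2
      have a2 := (hvn' u).1
      linarith [dist_triangle (v.symm (v' u)) (v' u) u]
    · show dist (v'.symm (v u)) u < ε
      have a1 := (hvn' (v u)).2
      have a2 := (hvn u).1
      linarith [dist_triangle (v'.symm (v u)) (v u) u]
  · show dist (v.symm (v' y)) z < η
    rw [dist_comm]
    exact h5

end Pool.Agent.H273.FAN
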