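import Pool.Agent.H273.FAN.Stm1

/-!
# FAN: the theorem of Effros, part 2 (back and forth)
-/

set_option autoImplicit false

namespace Pool.Agent.H273.FAN.PEFF2

open Set Filter Topology Metric

section limit

variable {X : Type} [MetricSpace X] [CompactSpace X]

/-- The pointwise limit of a sequence of maps. -/
theorem lim_map (u : ℕ → X → X) (hu : ∀ m, Continuous (u m)) (c : ℝ)
    (h : ∀ m y, dist (u m y) (u (m + 1) y) ≤ c / 2 / 2 ^ m) :
    ∃ U : X → X, Continuous U ∧ (∀ m y, dist (u m y) (U y) ≤ c / 2 ^ m) ∧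
      ∀ y, Tendsto (fun m => u m y) atTop (𝓝 (U y)) := by
  have h1 : ∀ y, ∃ l, Tendsto (fun m => u m y) atTop (𝓝 l) := fun y =>
    cauchySeq_tendsto_of_complete (cauchySeq_of_le_geometric_two (fun m => h m y))
  choose U hU using h1
  have h2 : ∀ m y, dist (u m y) (U y) ≤ c / 2 ^ m := fun m y =>
    dist_le_of_le_geometric_two_of_tendsto (fun m => h m y) (hU y) m
  refine ⟨U, ?_, h2, hU⟩
  have h3 : TendstoUniformly u U atTop := by
    rw [Metric.tendstoUniformly_iff]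
    intro ε hε
    have h4 : Tendsto (fun m : ℕ => c / 2 ^ m) atTop (𝓝 0) := by
      have := (tendsto_pow_atTop_nhds_zero_of_lt_one (r := (1 / 2 : ℝ)) (by norm_num)
        (by norm_num)).const_mul c
      rw [mul_zero] at this
      refine this.congr fun m => ?_
      rw [one_div, inv_pow, div_eq_mul_inv]
    filter_upwards [(tendsto_order.1 h4).2 ε hε] with m hm y
    rw [dist_comm]
    exact (h2 m y).trans_lt hm
  exact h3.continuous (Eventually.of_forall hu).frequently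

/-- The limit of a sequence of homeomorphisms. -/
theorem lim_homeo (u : ℕ → X ≃ₜ X) (c : ℝ)
    (h : ∀ m y, dist (u m y) (u (m + 1) y) ≤ c / 2 / 2 ^ m)
    (h' : ∀ m y, dist ((u m).symm y) ((u (m + 1)).symm y) ≤ c / 2 / 2 ^ m) :
    ∃ U : X ≃ₜ X, (∀ m y, dist (u m y) (U y) ≤ c / 2 ^ m) ∧
      (∀ m y, dist ((u m).symm y) (U.symm y) ≤ c / 2 ^ m) ∧
      ∀ y, Tendsto (fun m => u m y) atTop (𝓝 (U y)) := by
  obtain ⟨U, hU, h1, h2⟩ := lim_map (fun m => u m) (fun m => (u m).continuous) c h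
  obtain ⟨V, hV, h3, h4⟩ := lim_map (fun m => (u m).symm) (fun m => (u m).symm.continuous) c h'
  have h5 : Tendsto (fun m : ℕ => c / 2 ^ m) atTop (𝓝 0) := by
    have := (tendsto_pow_atTop_nhds_zero_of_lt_one (r := (1 / 2 : ℝ)) (by norm_num)
      (by norm_num)).const_mul c
    rw [mul_zero] at this
    refine this.congr fun m => ?_
    rw [one_div, inv_pow, div_eq_mul_inv]
  have hVU : ∀ y, V (U y) = y := by
    intro y
    have h6 : Tendsto (fun m => V (u m y)) atTop (𝓝 (V (U y))) :=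
      (hV.tendsto _).comp (h2 y)
    have h7 : Tendsto (fun m => V (u m y)) atTop (𝓝 y) := by
      rw [tendsto_iff_dist_tendsto_zero]
      refine squeeze_zero (fun m => dist_nonneg) (fun m => ?_) h5
      have := h3 m (u m y)
      rw [Homeomorph.symm_apply_apply, dist_comm] at this
      exact this
    exact tendsto_nhds_unique h6 h7
  have hUV : ∀ y, U (V y) = y := by
    intro y
    have h6 : Tendsto (fun m => U ((u m).symm y)) atTop (𝓝 (U (V y))) :=
      (hU.tendsto _).comp (h4 y)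
    have h7 : Tendsto (fun m => U ((u m).symm y)) atTop (𝓝 y) := by
      rw [tendsto_iff_dist_tendsto_zero]
      refine squeeze_zero (fun m => dist_nonneg) (fun m => ?_) h5
      have := h1 m ((u m).symm y)
      rw [Homeomorph.apply_symm_apply, dist_comm] at this
      exact this
    exact tendsto_nhds_unique h6 h7
  exact ⟨⟨⟨U, V, hVU, hUV⟩, hU, hV⟩, h1, h3, h2⟩

/-- The tolerances. -/
theorem tol_exists (u : X ≃ₜ X) (c : ℝ) (hc : 0 < c) : ∃ τ > 0, ∀ g : X ≃ₜ X, near g τ →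
    (∀ y, dist (u y) ((u.trans g) y) ≤ c) ∧
      ∀ y, dist (u.symm y) ((u.trans g).symm y) ≤ c := by
  have h1 : UniformContinuous u.symm := CompactSpace.uniformContinuous_of_continuous u.symm.continuous
  obtain ⟨τ, hτ, h2⟩ := Metric.uniformContinuous_iff.1 h1 c hc
  refine ⟨min τ c, lt_min hτ hc, fun g hg => ⟨fun y => ?_, fun y => ?_⟩⟩
  · show dist (u y) (g (u y)) ≤ c
    rw [dist_comm]
    exact ((hg (u y)).1.trans_le (min_le_right _ _)).le
  · show dist (u.symm y) (u.symm (g.symm y)) ≤ c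
    rw [dist_comm]
    exact (h2 ((hg y).2.trans_le (min_le_left _ _))).le

end limit

/-- Dependent choice. -/
theorem seq_exists {α : Type} (Inv : ℕ → α → Prop) (R : ℕ → α → α → Prop) (a₀ : α)
    (h₀ : Inv 0 a₀) (h : ∀ n a, Inv n a → ∃ b, Inv (n + 1) b ∧ R n a b) :
    ∃ f : ℕ → α, f 0 = a₀ ∧ ∀ n, Inv n (f n) ∧ R n (f n) (f (n + 1)) := by
  choose! F hF using h
  let f : ℕ → α := fun n => Nat.rec a₀ (fun n a => F n a) n
  have hf : ∀ n, Inv n (f n) := by
    intro n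
    induction n with
    | zero => exact h₀
    | succ n ih => exact (hF n (f n) ih).1
  exact ⟨f, rfl, fun n => ⟨hf n, (hF n (f n) (hf n)).2⟩⟩

theorem stab_trans {X : Type} [TopologicalSpace X] {P : Set X} {g h : X ≃ₜ X} (hg : g ∈ Stab P)
    (hh : h ∈ Stab P) : g.trans h ∈ Stab P := fun p hp => by
  show h (g p) = p
  rw [hg p hp, hh p hp]

end Pool.Agent.H273.FAN.PEFF2

namespace Pool.Agent.H273.FAN

open Set Filter Topology Metric PEFF2

theorem t_EFF2 : S_EFF2 := by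
  intro X _ _ P x H ε hε
  choose! d hd using H
  have htol : ∀ (u : X ≃ₜ X) (c : ℝ), ∃ τ : ℝ, 0 < c → 0 < τ ∧ ∀ g : X ≃ₜ X, near g τ →
    (∀ y, dist (u y) ((u.trans g) y) ≤ c) ∧
      ∀ y, dist (u.symm y) ((u.trans g).symm y) ≤ c := by
    intro u c
    by_cases hc : 0 < c
    · obtain ⟨τ, h1, h2⟩ := tol_exists u c hc
      exact ⟨τ, fun _ => ⟨h1, h2⟩⟩
    · exact ⟨0, fun h => absurd h hc⟩
  choose tol htol using htol
  set c : ℕ → ℝ := fun n => (ε / 4) / 2 / 2 ^ (n / 2) with hcdef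
  have hc : ∀ n, 0 < c n := fun n => by positivity
  have hxO : x ∈ Orb P x := ⟨Homeomorph.refl X, fun p _ => rfl, rfl⟩
  have hO : ∀ g ∈ Stab P, ∀ y ∈ Orb P x, g y ∈ Orb P x := by
    rintro g hg y ⟨h, hh, rfl⟩
    exact ⟨h.trans g, stab_trans hh hg, rfl⟩
  refine ⟨d (tol (Homeomorph.refl X) (c 0)) x, (hd _ (htol _ _ (hc 0)).1 x hxO).1, ?_⟩
  intro z hz hzx
  obtain ⟨f, hf0, hf⟩ := seq_exists
    (fun n (S : (X ≃ₜ X) × (X ≃ₜ X) × X × X) => S.1 ∈ Stab P ∧ S.2.1 ∈ Stab P ∧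
      S.2.2.1 ∈ Orb P x ∧ S.2.2.2 ∈ Orb P x ∧
      dist (S.2.1 S.2.2.2) (S.1 S.2.2.1) < d (tol S.1 (c n)) (S.1 S.2.2.1))
    (fun n S T => T.1 = S.2.1 ∧ T.2.2.1 = S.2.2.2 ∧ T.2.2.2 = S.2.2.1 ∧
      (∃ g ∈ Stab P, T.2.1 = S.1.trans g) ∧
      (∀ y, dist (S.1 y) (T.2.1 y) ≤ c n) ∧ (∀ y, dist (S.1.symm y) (T.2.1.symm y) ≤ c n) ∧
      dist (T.2.1 S.2.2.1) (S.2.1 S.2.2.2) < 1 / (n + 1))
    (Homeomorph.refl X, Homeomorph.refl X, x, z)
    ⟨fun p _ => rfl, fun p _ => rfl, hxO, hz, hzx⟩ (by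
      rintro n ⟨G, F, p, q⟩ ⟨hG, hF, hp, hq, hd1⟩
      simp only at hG hF hp hq hd1 ⊢
      have h1 := htol G (c n) (hc n)
      have h2 := htol F (c (n + 1)) (hc (n + 1))
      have h3 := hd _ h2.1 (F q) (hO F hF q hq)
      have h4 : (0 : ℝ) < 1 / (n + 1) := by positivity
      obtain ⟨g, hg, hgn, hgd⟩ := (hd _ h1.1 (G p) (hO G hG p hp)).2 (F q) (hO F hF q hq) hd1
        (min (1 / (n + 1)) (d (tol F (c (n + 1))) (F q))) (lt_min h4 h3.1)
      refine ⟨(F, G.trans g, q, p), ⟨hF, stab_trans hG hg, hq, hp,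
        hgd.trans_le (min_le_right _ _)⟩, rfl, rfl, rfl, ⟨g, hg, rfl⟩, (h1.2 g hgn).1, (h1.2 g hgn).2,
        hgd.trans_le (min_le_left _ _)⟩)
  have hH : ∀ n, (f n).2.1 = (f (n + 1)).1 := fun n => (hf n).2.1.symm
  have hst : ∀ n, (f n).1 ∈ Stab P := fun n => (hf n).1.1
  have hd1 : ∀ n y, dist ((f n).1 y) ((f (n + 2)).1 y) ≤ c n := fun n y => by
    rw [← hH (n + 1)]
    exact (hf n).2.2.2.2.2.1 y
  have hd2 : ∀ n y, dist ((f n).1.symm y) ((f (n + 2)).1.symm y) ≤ c n := fun n y => by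
    rw [← hH (n + 1)]
    exact (hf n).2.2.2.2.2.2.1 y
  have hpt : ∀ m : ℕ, (f (2 * m)).2.2.1 = x ∧ (f (2 * m)).2.2.2 = z := by
    intro m
    induction m with
    | zero => rw [hf0]; exact ⟨rfl, rfl⟩
    | succ m ih =>
      have h1 := (hf (2 * m)).2
      have h2 := (hf (2 * m + 1)).2
      have e : 2 * (m + 1) = 2 * m + 1 + 1 := by ring
      rw [e, h2.2.1, h2.2.2.1, h1.2.1, h1.2.2.1]
      exact ih
  have hcl : ∀ m : ℕ, dist ((f (2 * m + 2)).1 x) ((f (2 * m + 1)).1 z) < 1 / ((2 * m : ℕ) + 1) := by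
    intro m
    have h1 := (hf (2 * m)).2.2.2.2.2.2.2
    rw [(hpt m).1, (hpt m).2, hH (2 * m + 1), hH (2 * m)] at h1
    exact h1
  have hc0 : ∀ m, c (2 * m) = (ε / 4) / 2 / 2 ^ m := fun m => by
    simp only [hcdef]
    rw [Nat.mul_div_cancel_left m (by norm_num)]
  have hc1 : ∀ m, c (2 * m + 1) = (ε / 4) / 2 / 2 ^ m := fun m => by
    simp only [hcdef]
    rw [show (2 * m + 1) / 2 = m by omega]
  obtain ⟨U, hU1, hU2, hU3⟩ := lim_homeo (fun m => (f (2 * m)).1) (ε / 4)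
    (fun m y => by
      rw [← hc0 m]
      exact hd1 (2 * m) y)
    (fun m y => by
      rw [← hc0 m]
      exact hd2 (2 * m) y)
  obtain ⟨V, hV1, hV2, hV3⟩ := lim_homeo (fun m => (f (2 * m + 1)).1) (ε / 4)
    (fun m y => by
      rw [← hc1 m]
      exact hd1 (2 * m + 1) y)
    (fun m y => by
      rw [← hc1 m]
      exact hd2 (2 * m + 1) y)
  have hUV : U x = V z := by
    rw [← dist_eq_zero]
    have h1 : Tendsto (fun m : ℕ => dist ((f (2 * (m + 1))).1 x) ((f (2 * m + 1)).1 z)) atTop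
        (𝓝 (dist (U x) (V z))) :=
      ((hU3 x).comp (tendsto_add_atTop_nat 1)).dist (hV3 z)
    have h2 : Tendsto (fun m : ℕ => dist ((f (2 * (m + 1))).1 x) ((f (2 * m + 1)).1 z)) atTop
        (𝓝 0) := by
      refine squeeze_zero (fun m => dist_nonneg) (fun m => ?_) tendsto_one_div_add_atTop_nhds_zero_nat
      refine (hcl m).le.trans ?_
      rw [Nat.cast_mul]
      apply one_div_le_one_div_of_le (by positivity)
      have : (0 : ℝ) ≤ m := by positivity
      push_cast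
      linarith
    exact tendsto_nhds_unique h1 h2
  have hUP : ∀ p ∈ P, U p = p := fun p hp => by
    refine tendsto_nhds_unique (hU3 p) ?_
    refine tendsto_const_nhds.congr fun m => ?_
    exact (hst (2 * m) p hp).symm
  have hVP : ∀ p ∈ P, V p = p := fun p hp => by
    refine tendsto_nhds_unique (hV3 p) ?_
    refine tendsto_const_nhds.congr fun m => ?_
    exact (hst (2 * m + 1) p hp).symm
  have hu0 : (f (2 * 0)).1 = Homeomorph.refl X := by
    rw [mul_zero, hf0]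
  have hv0 : (f (2 * 0 + 1)).1 = Homeomorph.refl X := by
    rw [mul_zero, ← hH 0, hf0]
  have hU1' : ∀ y, dist y (U y) ≤ ε / 4 := fun y => by
    have := hU1 0 y
    simp only [hu0, pow_zero, div_one] at this
    exact this
  have hU2' : ∀ y, dist y (U.symm y) ≤ ε / 4 := fun y => by
    have := hU2 0 y
    simp only [hu0, pow_zero, div_one] at this
    exact this
  have hV1' : ∀ y, dist y (V y) ≤ ε / 4 := fun y => by
    have := hV1 0 y
    simp only [hv0, pow_zero, div_one] at this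
    exact this
  have hV2' : ∀ y, dist y (V.symm y) ≤ ε / 4 := fun y => by
    have := hV2 0 y
    simp only [hv0, pow_zero, div_one] at this
    exact this
  refine ⟨U.trans V.symm, fun p hp => ?_, ?_, fun y => ⟨?_, ?_⟩⟩
  · show V.symm (U p) = p
    rw [hUP p hp, Homeomorph.symm_apply_eq, hVP p hp]
  · show V.symm (U x) = z
    rw [hUV, Homeomorph.symm_apply_apply]
  · show dist (V.symm (U y)) y < ε
    have h1 := hV2' (U y)
    have h2 := hU1' y
    have h3 := dist_triangle (V.symm (U y)) (U y) y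
    rw [dist_comm] at h1 h2
    linarith
  · show dist (U.symm (V y)) y < ε
    have h1 := hU2' (V y)
    have h2 := hV1' y
    have h3 := dist_triangle (U.symm (V y)) (V y) y
    rw [dist_comm] at h1 h2
    linarith

end Pool.Agent.H273.FAN
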