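import Pool.Agent.H273.FAN.Stm1
import Pool.Agent.H273.FAN.Api

/-! # FAN project (owner helper273), task END (helper297): every leg has an end -/

set_option autoImplicit false

namespace Pool.Agent.H273.FAN.PEND

open Set Filter Topology Metric
open Pool.Agent.H273.FAN

section
variable {X : Type} [MetricSpace X] [CompactSpace X]

/-- a form of the theorem of Baire -/
theorem baire {K : Set X} (hK : IsClosed K) (hne : K.Nonempty) {ι : Type} [Countable ι]
    (F : ι → Set X) (hF : ∀ i, IsClosed (F i)) (hcov : K ⊆ ⋃ i, F i) (T : ι → Set X)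
    (hT : ∀ i, T i ⊆ K) (hKT : ∀ i, K ⊆ closure (T i)) (hdis : ∀ i, ∀ v ∈ T i, v ∉ F i) :
    False := by
  have h1 : CompactSpace K := isCompact_iff_compactSpace.1 hK.isCompact
  have h2 : Nonempty K := hne.to_subtype
  obtain ⟨i, hi⟩ := nonempty_interior_of_iUnion_of_closed
    (f := fun i => (Subtype.val : K → X) ⁻¹' F i)
    (fun i => (hF i).preimage continuous_subtype_val) (by
      rw [eq_univ_iff_forall]
      rintro ⟨w, hw⟩
      obtain ⟨i, hi⟩ := mem_iUnion.1 (hcov hw)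
      exact mem_iUnion.2 ⟨i, hi⟩)
  obtain ⟨⟨w, hwK⟩, hw⟩ := hi
  obtain ⟨O, hO, hOe⟩ := isOpen_induced_iff.1
    (isOpen_interior (s := (Subtype.val : K → X) ⁻¹' F i))
  have hwO : (⟨w, hwK⟩ : K) ∈ (Subtype.val : K → X) ⁻¹' O := by
    rw [hOe]
    exact hw
  obtain ⟨v, hvO, hvT⟩ := mem_closure_iff.1 (hKT i hwK) O hO hwO
  have hv : (⟨v, hT i hvT⟩ : K) ∈ interior ((Subtype.val : K → X) ⁻¹' F i) := by
    rw [← hOe]
    exact hvO
  have hv2 : (⟨v, hT i hvT⟩ : K) ∈ (Subtype.val : K → X) ⁻¹' F i := interior_subset hv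
  exact hdis i v hvT hv2

variable {t : X} {s : X → ℝ}

/-- a cofinal sequence of the leg of `x` -/
theorem exists_seq (D : Den X t s)
    (comp : ∀ x y y', x ≠ t → x ∈ J t y → x ∈ J t y' → y ∈ J t y' ∨ y' ∈ J t y)
    {x : X} (hx : x ≠ t) (hno : ∀ z, x ∈ J t z → ∃ y, z ∈ J t y ∧ y ≠ z) :
    ∃ y : ℕ → X, (∀ n, x ∈ J t (y n)) ∧ (∀ n, y n ∈ J t (y (n + 1)) ∧ y (n + 1) ≠ y n) ∧
      ∀ z, x ∈ J t z → ∃ n, z ∈ J t (y n) := by
  classical
  have hw : ∀ r : ℚ, ∃ w : X, x ∈ J t w ∧ ∀ z, x ∈ J t z → (r : ℝ) < s z → (r : ℝ) < s w := by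
    intro r
    by_cases h : ∃ z, x ∈ J t z ∧ (r : ℝ) < s z
    · obtain ⟨z, hz1, hz2⟩ := h
      exact ⟨z, hz1, fun _ _ _ => hz2⟩
    · exact ⟨x, D.memx x, fun z h1 h2 => absurd ⟨z, h1, h2⟩ h⟩
  choose w hw1 hw2 using hw
  obtain ⟨e, he⟩ := exists_surjective_nat ℚ
  have step : ∀ (u v : {u : X // x ∈ J t u}), ∃ u' : {u : X // x ∈ J t u},
      u.1 ∈ J t u'.1 ∧ u'.1 ≠ u.1 ∧ v.1 ∈ J t u'.1 := by
    rintro ⟨u, hu⟩ ⟨v, hv⟩
    rcases comp x u v hx hu hv with h | h
    · obtain ⟨v', h1, h2⟩ := hno v hv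
      refine ⟨⟨v', D.trans hv h1⟩, D.trans h h1, ?_, h1⟩
      intro h3
      have h3' : v' = u := h3
      subst h3'
      exact h2 (D.anti _ _ h h1)
    · obtain ⟨u', h1, h2⟩ := hno u hu
      exact ⟨⟨u', D.trans hu h1⟩, h1, h2, D.trans h h1⟩
  choose g hg1 hg2 hg3 using step
  let y : ℕ → {u : X // x ∈ J t u} := fun n =>
    Nat.rec ⟨x, D.memx x⟩ (fun n u => g u ⟨w (e n), hw1 (e n)⟩) n
  have hy : ∀ n, y (n + 1) = g (y n) ⟨w (e n), hw1 (e n)⟩ := fun n => rfl
  refine ⟨fun n => (y n).1, fun n => (y n).2, fun n => ⟨?_, ?_⟩, ?_⟩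
  · show (y n).1 ∈ J t (y (n + 1)).1
    rw [hy]
    exact hg1 _ _
  · show (y (n + 1)).1 ≠ (y n).1
    rw [hy]
    exact hg2 _ _
  · intro z hz
    obtain ⟨z', h1, h2⟩ := hno z hz
    have h3 : s z < s z' := D.s_lt h1 (Ne.symm h2)
    obtain ⟨r, hr1, hr2⟩ := exists_rat_btwn h3
    obtain ⟨n, rfl⟩ := he r
    refine ⟨n + 1, ?_⟩
    have h4 : w (e n) ∈ J t (y (n + 1)).1 := by
      rw [hy]
      exact hg3 (y n) ⟨w (e n), hw1 (e n)⟩
    have h5 := hw2 (e n) z' (D.trans hz h1) hr2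
    rcases comp x z (w (e n)) hx hz (hw1 _) with h | h
    · exact D.trans h h4
    · exfalso
      have := D.s_mono h
      linarith

/-- `t` is not isolated in `J t q` -/
theorem t_mem_closure (D : Den X t s) {q : X} (hq : q ≠ t) : t ∈ closure (J t q \ {t}) := by
  obtain ⟨a, hac, ha, ha0, -⟩ := D.arc q
  have hs := D.s_pos hq
  have h1 : Tendsto (fun n : ℕ => a (s q / ((n : ℝ) + 1))) atTop (𝓝 (a 0)) := by
    refine (hac.tendsto 0).comp ?_
    have h2 := (tendsto_one_div_add_atTop_nhds_zero_nat (𝕜 := ℝ)).const_mul (s q)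
    rw [mul_zero] at h2
    refine h2.congr fun n => ?_
    rw [mul_one_div]
  rw [ha0] at h1
  refine mem_closure_of_tendsto h1 (Eventually.of_forall fun n => ?_)
  have h3 : (1 : ℝ) ≤ (n : ℝ) + 1 := by
    have := n.cast_nonneg (α := ℝ)
    linarith
  have h4 : 0 < s q / ((n : ℝ) + 1) := by positivity
  have h5 : s q / ((n : ℝ) + 1) ≤ s q := div_le_self hs.le h3
  have h6 := ha _ ⟨h4.le, h5⟩
  refine ⟨h6.1, ?_⟩
  intro h7
  rw [mem_singleton_iff] at h7
  have h8 := h6.2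
  rw [h7, D.s_t] at h8
  exact h4.ne h8

omit [CompactSpace X] in
theorem cc_closed {S : Set X} (hS : IsClosed S) (x : X) : IsClosed (connectedComponentIn S x) := by
  by_cases hx : x ∈ S
  · rw [← closure_subset_iff_isClosed]
    refine IsPreconnected.subset_connectedComponentIn
      isPreconnected_connectedComponentIn.closure
      (subset_closure (mem_connectedComponentIn hx)) ?_
    exact closure_minimal (connectedComponentIn_subset S x) hS
  · rw [connectedComponentIn_eq_empty hx]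
    exact isClosed_empty

theorem main (D : Den X t s)
    (comp : ∀ x y y', x ≠ t → x ∈ J t y → x ∈ J t y' → y ∈ J t y' ∨ y' ∈ J t y)
    {x : X} (hx : x ≠ t) (hno : ∀ z, x ∈ J t z → ∃ y, z ∈ J t y ∧ y ≠ z) : False := by
  obtain ⟨y, hyU, hys, hcof⟩ := exists_seq D comp hx hno
  have mono : ∀ m n, m ≤ n → y m ∈ J t (y n) := by
    intro m n h
    induction n, h using Nat.le_induction with
    | base => exact D.memx _
    | succ n _ ih => exact D.trans ih (hys n).1
  have strict : ∀ m n, m < n → y n ∉ J t (y m) := by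
    intro m n h hn
    have h1 : y (m + 1) ∈ J t (y m) := D.trans (mono (m + 1) n h) hn
    exact (hys m).2 (D.anti _ _ h1 (hys m).1)
  obtain ⟨R, hR⟩ : ∃ R : Set X, R = ⋃ n, J t (y n) := ⟨_, rfl⟩
  have memR : ∀ v, v ∈ R ↔ ∃ n, v ∈ J t (y n) := by
    intro v
    rw [hR]
    exact mem_iUnion
  have JR : ∀ n, J t (y n) ⊆ R := fun n v hv => (memR v).2 ⟨n, hv⟩
  have upR : ∀ v ∈ R, ∃ n₀, ∀ n, n₀ ≤ n → v ∈ J t (y n) := by
    intro v hv
    obtain ⟨n, hn⟩ := (memR v).1 hv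
    exact ⟨n, fun m hm => D.trans hn (mono n m hm)⟩
  have tR : t ∈ R := JR 0 (D.memt _)
  have yR : ∀ n, y n ∈ R := fun n => JR n (D.memx _)
  obtain ⟨Tl, hTl⟩ : ∃ Tl : X → Set X, ∀ z v, v ∈ Tl z ↔ v ∈ R ∧ z ∈ J t v :=
    ⟨fun z => {v | v ∈ R ∧ z ∈ J t v}, fun z v => Iff.rfl⟩
  have TlR : ∀ z, Tl z ⊆ R := fun z v hv => ((hTl z v).1 hv).1
  have Tlmono : ∀ z z', z ∈ J t z' → Tl z' ⊆ Tl z := by
    intro z z' h v hv
    rw [hTl] at hv ⊢
    exact ⟨hv.1, D.trans h hv.2⟩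
  have Tlmem : ∀ z ∈ R, z ∈ Tl z := fun z hz => (hTl z z).2 ⟨hz, D.memx z⟩
  have Tlconn : ∀ z ∈ R, IsConnected (Tl z) := by
    intro z hz
    obtain ⟨n₀, hn₀⟩ := upR z hz
    have h1 : Tl z = ⋃ m, Ic t z (y (n₀ + m)) := by
      ext v
      rw [hTl, mem_iUnion]
      constructor
      · rintro ⟨h1, h2⟩
        obtain ⟨k, hk⟩ := upR v h1
        exact ⟨k, h2, hk _ (by omega)⟩
      · rintro ⟨m, h2, h3⟩
        exact ⟨JR _ h3, h2⟩
    refine ⟨⟨z, Tlmem z hz⟩, ?_⟩
    rw [h1]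
    refine isPreconnected_iUnion ⟨z, mem_iInter.2 fun m => ?_⟩ fun m => ?_
    · exact D.left_mem_Ic (hn₀ _ (by omega))
    · exact (D.Ic_conn z _ (hn₀ _ (by omega))).isPreconnected
  have Rconn : IsConnected R := by
    refine ⟨⟨t, tR⟩, ?_⟩
    rw [hR]
    exact isPreconnected_iUnion ⟨t, mem_iInter.2 fun m => D.memt _⟩ fun m =>
      (D.conn _).isPreconnected
  obtain ⟨K, hK⟩ : ∃ K : Set X, K = closure R := ⟨_, rfl⟩
  have Kcl : IsClosed K := by
    rw [hK]
    exact isClosed_closure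
  have Kconn : IsConnected K := by
    rw [hK]
    exact Rconn.closure
  have RK : R ⊆ K := by
    rw [hK]
    exact subset_closure
  have JK : ∀ q ∈ K, J t q ⊆ K := fun q hq => J_min Kcl Kconn (RK tR) hq
  obtain ⟨Nn, hNn⟩ : ∃ Nn : Set X, Nn = ⋂ n, closure (Tl (y n)) := ⟨_, rfl⟩
  have Ncl : IsClosed Nn := by
    rw [hNn]
    exact isClosed_iInter fun _ => isClosed_closure
  have memN : ∀ q, q ∈ Nn ↔ ∀ n, q ∈ closure (Tl (y n)) := by
    intro q
    rw [hNn]
    exact mem_iInter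
  have Nne : Nn.Nonempty := by
    rw [hNn]
    exact IsCompact.nonempty_iInter_of_sequence_nonempty_isCompact_isClosed
      (fun n => closure (Tl (y n))) (fun n => closure_mono (Tlmono _ _ (hys n).1))
      (fun n => ⟨y n, subset_closure (Tlmem _ (yR n))⟩) isClosed_closure.isCompact
      fun n => isClosed_closure
  -- (1)
  have fact1 : ∀ q ∈ R, q ∈ Nn → Tl q ⊆ Nn := by
    intro q hqR hqN z hz
    rw [hTl] at hz
    rw [memN]
    intro n
    obtain ⟨n₀, hn₀⟩ := upR z hz.1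
    have h1 : z ∈ closure (Tl (y (max n n₀))) := by
      have hcl : IsClosed (closure (Tl (y (max n n₀))) ∪ J t q) := isClosed_closure.union (D.closed q)
      have hco : IsConnected (closure (Tl (y (max n n₀))) ∪ J t q) :=
        IsConnected.union ⟨q, (memN q).1 hqN _, D.memx q⟩ (Tlconn _ (yR _)).closure (D.conn q)
      have h2 : J t (y (max n n₀)) ⊆ closure (Tl (y (max n n₀))) ∪ J t q :=
        J_min hcl hco (Or.inr (D.memt q)) (Or.inl (subset_closure (Tlmem _ (yR _))))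
      rcases h2 (hn₀ _ (le_max_right _ _)) with h3 | h3
      · exact h3
      · have h4 : z = q := D.anti _ _ h3 hz.2
        rw [h4]
        exact (memN q).1 hqN _
    exact closure_mono (Tlmono _ _ (mono _ _ (le_max_left _ _))) h1
  -- (2)
  have fact2 : ∃ q ∈ Nn, q ∉ R := by
    by_contra hcon
    push Not at hcon
    obtain ⟨q, hq⟩ := Nne
    have hqR := hcon q hq
    obtain ⟨n₀, hn₀⟩ := upR q hqR
    have hQN : closure (Tl q) ⊆ Nn := closure_minimal (fact1 q hqR hq) Ncl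
    refine baire (K := closure (Tl q)) isClosed_closure ⟨q, subset_closure (Tlmem q hqR)⟩
      (fun n : ℕ => J t (y n)) (fun n => D.closed _) ?_ (fun n => Tl (y (n + n₀ + 1))) ?_ ?_ ?_
    · intro w hw
      obtain ⟨n, hn⟩ := (memR w).1 (hcon w (hQN hw))
      exact mem_iUnion.2 ⟨n, hn⟩
    · intro n
      exact (Tlmono _ _ (hn₀ _ (by omega))).trans subset_closure
    · intro n w hw
      exact (memN w).1 (hQN hw) _
    · intro n v hv hv'
      rw [hTl] at hv
      exact strict n (n + n₀ + 1) (by omega) (D.trans hv.2 hv')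
  obtain ⟨q, hqN, hqR⟩ := fact2
  -- (3)
  have hqt : q ≠ t := fun h => hqR (h ▸ tR)
  have hKN : ∀ w ∈ K, w ∉ R → w ∈ Nn := by
    intro w hw hwR
    rw [memN]
    intro n
    have h1 : R ⊆ J t (y n) ∪ closure (Tl (y n)) := by
      intro v hv
      obtain ⟨n₀, hn₀⟩ := upR v hv
      rcases D.total (hn₀ (max n n₀) (le_max_right _ _)) (mono n (max n n₀) (le_max_left _ _))
        with h | h
      · exact Or.inl h
      · exact Or.inr (subset_closure ((hTl _ _).2 ⟨hv, h⟩))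
    have h2 : K ⊆ J t (y n) ∪ closure (Tl (y n)) := by
      rw [hK]
      exact closure_minimal h1 ((D.closed _).union isClosed_closure)
    rcases h2 hw with h3 | h3
    · exact absurd (JR n h3) hwR
    · exact h3
  have hqK : q ∈ K := by
    have h1 : q ∈ closure (Tl (y 0)) := (memN q).1 hqN 0
    rw [hK]
    exact closure_mono (TlR _) h1
  have hcofU : ∀ p, (∀ n, y n ∈ J t p) → False := by
    intro p hp
    have h1 : x ∈ J t p := D.trans (hyU 0) (hp 0)
    obtain ⟨k, hk⟩ := hcof p h1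
    exact strict k (k + 1) (Nat.lt_succ_self k) (D.trans (hp (k + 1)) hk)
  have hJq : J t q \ {t} ⊆ Nn := by
    intro v hv
    refine hKN v (JK q hqK hv.1) fun hvR => ?_
    obtain ⟨n₀, hn₀⟩ := upR v hvR
    rcases comp v q (y n₀) hv.2 hv.1 (hn₀ n₀ le_rfl) with h | h
    · exact hqR (JR _ h)
    · have h1 : x ∈ J t q := D.trans (hyU n₀) h
      obtain ⟨k, hk⟩ := hcof q h1
      exact hqR (JR k hk)
  have htN : t ∈ Nn := closure_minimal hJq Ncl (t_mem_closure D hqt)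
  have hRN : R ⊆ Nn := fun v hv => fact1 t tR htN ((hTl t v).2 ⟨hv, D.memt v⟩)
  have hKc : ∀ n, K ⊆ closure (Tl (y n)) := by
    intro n
    rw [hK]
    exact closure_minimal (fun v hv => (memN v).1 (hRN hv) n) isClosed_closure
  -- (5)
  refine baire Kcl ⟨t, RK tR⟩
    (fun p : ℕ × ℕ => connectedComponentIn (K \ ball (y p.1) (1 / ((p.2 : ℝ) + 1))) t)
    (fun p => cc_closed (Kcl.sdiff isOpen_ball) t) ?_ (fun p => Tl (y p.1))
    (fun p => (TlR _).trans RK) (fun p => hKc p.1) ?_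
  · intro w hw
    have h1 : ∃ n, y n ∉ J t w := by
      by_contra hcon
      push Not at hcon
      exact hcofU w hcon
    obtain ⟨n, hn⟩ := h1
    obtain ⟨ε, hε, hε'⟩ := Metric.isOpen_iff.1 (D.closed w).isOpen_compl (y n) hn
    obtain ⟨k, hk⟩ := exists_nat_one_div_lt hε
    refine mem_iUnion.2 ⟨(n, k), ?_⟩
    refine (D.conn w).isPreconnected.subset_connectedComponentIn (D.memt w) ?_ (D.memx w)
    intro v hv
    refine ⟨JK w hw hv, fun hv' => ?_⟩
    exact hε' (ball_subset_ball hk.le hv') hv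
  · rintro ⟨n, k⟩ v hv hv'
    rw [hTl] at hv
    have hne : t ∈ K \ ball (y n) (1 / ((k : ℝ) + 1)) :=
      connectedComponentIn_nonempty_iff.1 ⟨v, hv'⟩
    have h1 : J t v ⊆ connectedComponentIn (K \ ball (y n) (1 / ((k : ℝ) + 1))) t :=
      J_min (cc_closed (Kcl.sdiff isOpen_ball) t)
        ⟨⟨v, hv'⟩, isPreconnected_connectedComponentIn⟩ (mem_connectedComponentIn hne) hv'
    have h2 := connectedComponentIn_subset _ _ (h1 hv.2)
    exact h2.2 (mem_ball_self (by positivity))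

end

end Pool.Agent.H273.FAN.PEND

namespace Pool.Agent.H273.FAN

theorem t_END : S_END := by
  intro X _ _ t s D comp x hx
  by_contra hcon
  push Not at hcon
  exact PEND.main D comp hx hcon

end Pool.Agent.H273.FAN
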