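import Pool.Agent.H273.FAN.Stm1

/-!
# MP_64e39e_gt / S13290: assembly of the fan structure
-/

set_option autoImplicit false

namespace Pool.Agent.H273.FAN

open Set Filter Topology Metric

namespace PFAN

theorem vertex_image {X : Type} [TopologicalSpace X] {t : X} (ht : Vertex X t) (h : X ≃ₜ X) :
    Vertex X (h t) := by
  obtain ⟨γ, h1, h2⟩ := ht
  refine ⟨fun i u => h (γ i u), fun i => ⟨h.continuous.comp (h1 i).1,
    h.injective.comp (h1 i).2.1, congrArg h (h1 i).2.2⟩, fun i j hij => ?_⟩
  have e : ∀ i, Set.range (fun u => h (γ i u)) = h '' Set.range (γ i) := fun i =>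
    Set.range_comp h (γ i)
  simp only [e]
  rw [← Set.image_inter h.injective, h2 i j hij, Set.image_singleton]

end PFAN

theorem t_FAN (h1 : S_DEN) (h2 : S_TRI) (h3 : S_END) : S_FAN := by
  classical
  intro X _ _ _ hHU t ht huniq
  obtain ⟨s, hD⟩ := h1 X hHU t
  have hcomp := h2 X t s hD huniq
  have hend := h3 X t s hD hcomp
  choose! e0 he1 he2 using hend
  let e : X → X := fun x => if x = t then t else e0 x
  have het : e t = t := if_pos rfl
  have hen : ∀ x, x ≠ t → e x = e0 x := fun x hx => if_neg hx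
  refine ⟨s, e, ⟨hD, hcomp, ?_, het, ?_, ?_, ?_⟩⟩
  · intro h
    exact huniq _ (PFAN.vertex_image ht h)
  · intro x
    by_cases hx : x = t
    · rw [hx, het]
      exact hD.memt t
    · rw [hen x hx]
      exact he1 x hx
  · intro x y hx hy
    rw [hen x hx] at hy ⊢
    exact he2 x hx y hy
  · obtain ⟨γ, g1, -⟩ := ht
    refine ⟨γ 0 1, fun h => ?_⟩
    have h4 : γ 0 1 = γ 0 0 := h.trans (g1 0).2.2.symm
    exact one_ne_zero ((g1 0).2.1 h4)

end Pool.Agent.H273.FAN
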