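import Pool.Agent.H273.FAN.Stm2

/-! FH: free action with two dense orbits is impossible. -/

set_option autoImplicit false

namespace Pool.Agent.H273.FAN

open Set Filter Topology Metric

namespace PFH

variable {X : Type} [MetricSpace X] [CompactSpace X] {t : X} {s : X → ℝ} {e : X → X}

/-- the arc parametrisation of the leg -/
structure Par (t : X) (s : X → ℝ) (p : X) (a : ℝ → X) : Prop where
  cont : Continuous a
  mem : ∀ r ∈ Icc 0 (s p), a r ∈ J t p ∧ s (a r) = r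

variable {p : X} {a : ℝ → X}

theorem avs (F : Fan X t s e) (P : Par t s p a) {v : X} (hv : v ∈ J t p) : a (s v) = v := by
  have hr : s v ∈ Icc 0 (s p) := ⟨F.s_nonneg v, F.toDen.s_mono hv⟩
  exact F.toDen.s_inj (P.mem _ hr).1 hv (P.mem _ hr).2

theorem stab_mem (F : Fan X t s e) {g : X ≃ₜ X} (hg : g ∈ Stab ({p} : Set X)) {v : X}
    (hv : v ∈ J t p) : g v ∈ J t p := by
  have h1 : g p = p := hg p rfl
  have h2 := (mem_img g (F.fix g) (x := p) (y := v)).2 hv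
  rwa [h1] at h2

theorem ne_of (F : Fan X t s e) (P : Par t s p a) {r : ℝ} (hr : r ∈ Ioo 0 (s p)) :
    a r ≠ t ∧ a r ≠ p := by
  have h := (P.mem r ⟨hr.1.le, hr.2.le⟩).2
  constructor
  · intro h1
    rw [h1, F.s_t] at h
    exact absurd h hr.1.ne
  · intro h1
    rw [h1] at h
    exact absurd h hr.2.ne'

theorem in_Ioo (F : Fan X t s e) {v : X} (hv : v ∈ J t p) (hvt : v ≠ t) (hvp : v ≠ p) :
    s v ∈ Ioo 0 (s p) := ⟨F.toDen.s_pos hvt, F.toDen.s_lt hv hvp⟩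

theorem e_a (F : Fan X t s e) (P : Par t s p a) (hp : e p = p) {r : ℝ} (hr : r ∈ Ioo 0 (s p)) :
    e (a r) = p := by
  rw [F.e_mem (P.mem r ⟨hr.1.le, hr.2.le⟩).1 (ne_of F P hr).1, hp]

theorem inJ (P : Par t s p a) {r : ℝ} (hr : r ∈ Ioo 0 (s p)) : a r ∈ J t p :=
  (P.mem r ⟨hr.1.le, hr.2.le⟩).1

theorem s_a (P : Par t s p a) {r : ℝ} (hr : r ∈ Ioo 0 (s p)) : s (a r) = r :=
  (P.mem r ⟨hr.1.le, hr.2.le⟩).2

/-- the map of heights -/
def hat (s : X → ℝ) (a : ℝ → X) (g : X ≃ₜ X) : ℝ → ℝ := fun r => s (g (a r))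

theorem a_hat (F : Fan X t s e) (P : Par t s p a) {g : X ≃ₜ X} (hg : g ∈ Stab ({p} : Set X))
    {r : ℝ} (hr : r ∈ Ioo 0 (s p)) : a (hat s a g r) = g (a r) :=
  avs F P (stab_mem F hg (inJ P hr))

theorem hat_maps (F : Fan X t s e) (P : Par t s p a) {g : X ≃ₜ X}
    (hg : g ∈ Stab ({p} : Set X)) : MapsTo (hat s a g) (Ioo 0 (s p)) (Ioo 0 (s p)) := by
  intro r hr
  refine in_Ioo F (stab_mem F hg (inJ P hr)) ?_ ?_
  · exact F.homeo_ne g (ne_of F P hr).1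
  · intro h
    have h1 : g p = p := hg p rfl
    exact (ne_of F P hr).2 (g.injective (h.trans h1.symm))

theorem hat_cont (F : Fan X t s e) (P : Par t s p a) {g : X ≃ₜ X}
    (hg : g ∈ Stab ({p} : Set X)) : ContinuousOn (hat s a g) (Ioo 0 (s p)) :=
  (F.s_cont p).comp (g.continuous.comp P.cont).continuousOn
    fun _ hr => stab_mem F hg (inJ P hr)

theorem hat_mono (F : Fan X t s e) (P : Par t s p a) (g : X ≃ₜ X) :
    StrictMonoOn (hat s a g) (Ioo 0 (s p)) := by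
  intro r hr r' hr' hlt
  have h1 : a r ∈ J t (a r') := by
    refine (F.s_le p _ _ (inJ P hr) (inJ P hr')).2 ?_
    rw [s_a P hr, s_a P hr']
    exact hlt.le
  refine F.toDen.s_lt ((mem_img g (F.fix g)).2 h1) ?_
  intro h
  have h2 := congrArg s (g.injective h)
  rw [s_a P hr, s_a P hr'] at h2
  exact absurd h2 hlt.ne

theorem dens (F : Fan X t s e) (P : Par t s p a) {M : Set X}
    (hM : ∀ x y, y ∈ J t p → x ∈ J t y → x ≠ y → (M ∩ Ic t x y).Nonempty) {r r' : ℝ}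
    (h0 : 0 < r) (h1 : r < r') (h2 : r' < s p) : ∃ q ∈ Icc r r', a q ∈ M := by
  have hr : r ∈ Ioo 0 (s p) := ⟨h0, h1.trans h2⟩
  have hr' : r' ∈ Ioo 0 (s p) := ⟨h0.trans h1, h2⟩
  have hJ : a r ∈ J t (a r') := by
    refine (F.s_le p _ _ (inJ P hr) (inJ P hr')).2 ?_
    rw [s_a P hr, s_a P hr']
    exact h1.le
  obtain ⟨v, hvM, hv1, hv2⟩ := hM (a r) (a r') (inJ P hr') hJ (by
    intro h
    have h3 := congrArg s h
    rw [s_a P hr, s_a P hr'] at h3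
    exact absurd h3 h1.ne)
  refine ⟨s v, ⟨?_, ?_⟩, ?_⟩
  · have := F.toDen.s_mono hv1
    rwa [s_a P hr] at this
  · have := F.toDen.s_mono hv2
    rwa [s_a P hr'] at this
  · rw [avs F P (F.toDen.trans hv2 (inJ P hr'))]
    exact hvM

theorem dens_nonempty (F : Fan X t s e) (P : Par t s p a) (hp : p ≠ t) {M : Set X}
    (hM : ∀ x y, y ∈ J t p → x ∈ J t y → x ≠ y → (M ∩ Ic t x y).Nonempty) :
    {r | r ∈ Ioo 0 (s p) ∧ a r ∈ M}.Nonempty := by
  have hc := F.toDen.s_pos hp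
  obtain ⟨q, hq, hqM⟩ := dens F P hM (r := s p / 3) (r' := s p / 2) (by linarith) (by linarith)
    (by linarith)
  exact ⟨q, ⟨by linarith [hq.1], by linarith [hq.2]⟩, hqM⟩

theorem dens_closure (F : Fan X t s e) (P : Par t s p a) {M : Set X}
    (hM : ∀ x y, y ∈ J t p → x ∈ J t y → x ≠ y → (M ∩ Ic t x y).Nonempty) :
    Ioo 0 (s p) ⊆ closure {r | r ∈ Ioo 0 (s p) ∧ a r ∈ M} := by
  intro x hx
  rw [Metric.mem_closure_iff]
  intro ε hε
  have h1 : x < min (x + ε / 2) ((x + s p) / 2) := lt_min (by linarith) (by linarith [hx.2])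
  have h2 : min (x + ε / 2) ((x + s p) / 2) < s p :=
    (min_le_right _ _).trans_lt (by linarith [hx.2])
  obtain ⟨q, hq, hqM⟩ := dens F P hM hx.1 h1 h2
  refine ⟨q, ⟨⟨hx.1.trans_le hq.1, hq.2.trans_lt h2⟩, hqM⟩, ?_⟩
  rw [Real.dist_eq, abs_sub_lt_iff]
  have h3 := hq.2.trans (min_le_left _ _)
  constructor <;> linarith [hq.1]

theorem trans_of (F : Fan X t s e) (P : Par t s p a) (hp : e p = p) {M : Set X}
    (hM : ∀ x ∈ M, ∀ y ∈ M, ∃ h : X ≃ₜ X, h x = y) {x y : ℝ}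
    (hx : x ∈ Ioo 0 (s p) ∧ a x ∈ M) (hy : y ∈ Ioo 0 (s p) ∧ a y ∈ M) :
    ∃ g ∈ Stab ({p} : Set X), hat s a g x = y := by
  obtain ⟨g, hg⟩ := hM _ hx.2 _ hy.2
  refine ⟨g, ?_, ?_⟩
  · rintro q rfl
    have h1 := F.e_homeo g (a x)
    rwa [hg, e_a F P hp hx.1, e_a F P hp hy.1] at h1
  · show s (g (a x)) = y
    rw [hg, s_a P hy.1]

end PFH

open PFH in
theorem t_FH (h1 : S_HOLD) : S_FH := by
  intro X _ _ t s e A B S p hp hDD hfree
  have F := S.toFan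
  obtain ⟨a, hac, ham, -, -⟩ := F.toDen.arc p
  have P : Par t s p a := ⟨hac, ham⟩
  have hc := F.toDen.s_pos hp.1
  refine h1 (s p) hc {f | ∃ g ∈ Stab ({p} : Set X), f = hat s a g}
    {r | r ∈ Ioo 0 (s p) ∧ a r ∈ A} {r | r ∈ Ioo 0 (s p) ∧ a r ∈ B}
    ?_ ?_ ?_ ?_ ?_ ?_ (dens_nonempty F P hp.1 fun x y h h' h'' => (hDD x y h h' h'').1)
    (dens_nonempty F P hp.1 fun x y h h' h'' => (hDD x y h h' h'').2) ?_ ?_ ?_ ?_
    (dens_closure F P fun x y h h' h'' => (hDD x y h h' h'').1)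
    (dens_closure F P fun x y h h' h'' => (hDD x y h h' h'').2)
  · rintro _ ⟨g, hg, rfl⟩
    exact ⟨hat_cont F P hg, hat_mono F P g, hat_maps F P hg⟩
  · rintro _ ⟨g, hg, rfl⟩ _ ⟨h, hh, rfl⟩
    refine ⟨_, ⟨h.trans g, ?_, rfl⟩, ?_⟩
    · intro q hq
      show g (h q) = q
      rw [hh q hq, hg q hq]
    · intro x hx
      show s (g (h (a x))) = s (g (a (hat s a h x)))
      rw [a_hat F P hh hx]
  · rintro _ ⟨g, hg, rfl⟩
    have hg' : g.symm ∈ Stab ({p} : Set X) := by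
      intro q hq
      rw [Homeomorph.symm_apply_eq]
      exact (hg q hq).symm
    refine ⟨_, ⟨g.symm, hg', rfl⟩, ?_⟩
    intro x hx
    constructor
    · show s (g.symm (a (hat s a g x))) = x
      rw [a_hat F P hg hx, Homeomorph.symm_apply_apply, s_a P hx]
    · show s (g (a (hat s a g.symm x))) = x
      rw [a_hat F P hg' hx, Homeomorph.apply_symm_apply, s_a P hx]
  · rintro _ ⟨g, hg, rfl⟩ x hx hgx y hy
    have h2 : g (a x) = a x := by
      rw [← a_hat F P hg hx, hgx]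
    have h3 := hfree g hg (a x) (inJ P hx) (ne_of F P hx).1 (ne_of F P hx).2 h2 (a y) (inJ P hy)
    show s (g (a y)) = y
    rw [h3, s_a P hy]
  · ext r
    constructor
    · rintro (h | h)
      · exact h.1
      · exact h.1
    · intro hr
      have h2 : a r ∈ A ∪ B := by
        rw [S.cover]
        refine ⟨(ne_of F P hr).1, ?_⟩
        rw [e_a F P hp.2 hr]
        exact (ne_of F P hr).2.symm
      rcases h2 with h | h
      · exact Or.inl ⟨hr, h⟩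
      · exact Or.inr ⟨hr, h⟩
  · rw [Set.disjoint_left]
    rintro r hr hr'
    exact Set.disjoint_left.1 S.disj hr.2 hr'.2
  · intro x hx y hy
    obtain ⟨g, hg, h⟩ := trans_of F P hp.2 S.Aorb hx hy
    exact ⟨_, ⟨g, hg, rfl⟩, h⟩
  · intro x hx y hy
    obtain ⟨g, hg, h⟩ := trans_of F P hp.2 S.Borb hx hy
    exact ⟨_, ⟨g, hg, rfl⟩, h⟩
  · rintro _ ⟨g, hg, rfl⟩ x hx
    refine ⟨hat_maps F P hg hx.1, ?_⟩
    rw [a_hat F P hg hx.1]
    exact S.Ainv g _ hx.2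
  · rintro _ ⟨g, hg, rfl⟩ x hx
    refine ⟨hat_maps F P hg hx.1, ?_⟩
    rw [a_hat F P hg hx.1]
    exact S.Binv g _ hx.2

end Pool.Agent.H273.FAN
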