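import Pool.Agent.H273.FAN.Stm2

/-! FREE: no expansions implies that the stabiliser of `p` acts freely on the open leg of `p`. -/

set_option autoImplicit false

namespace Pool.Agent.H273.FAN

open Set Filter Topology Metric

namespace PFREE

section
variable {X : Type} [MetricSpace X] [CompactSpace X] {t : X} {s : X → ℝ} {e : X → X} {A B : Set X}

theorem HC_sub {K : ℕ → Set X} {L : Set X} (h : HC K L) {φ : ℕ → ℕ} (hφ : StrictMono φ) :
    HC (fun n => K (φ n)) L := fun ε hε => hφ.tendsto_atTop.eventually (h ε hε)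

theorem HC_img {K : ℕ → Set X} {w : X} (h : HC K (J t w)) (g : X ≃ₜ X) (hg : g t = t) :
    HC (fun n => g '' K n) (J t (g w)) := by
  intro ε hε
  have hu : UniformContinuous g := CompactSpace.uniformContinuous_of_continuous g.continuous
  obtain ⟨δ, hδ, h1⟩ := Metric.uniformContinuous_iff.1 hu ε hε
  have key : ∀ S T : Set X, S ⊆ thickening δ T → g '' S ⊆ thickening ε (g '' T) := by
    rintro S T hST _ ⟨x, hx, rfl⟩
    obtain ⟨y, hy, hxy⟩ := mem_thickening_iff.1 (hST hx)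
    exact mem_thickening_iff.2 ⟨g y, ⟨y, hy, rfl⟩, h1 hxy⟩
  filter_upwards [h δ hδ] with n hn
  rw [← img g hg]
  exact ⟨key _ _ hn.1, key _ _ hn.2⟩

theorem trans_image (h g : X ≃ₜ X) (S : Set X) : (h.trans g) '' S = g '' (h '' S) := by
  rw [Set.image_image]
  rfl

/-- a near-identity sequence cutting the leg of `p` at `w` -/
structure TS (t p : X) (ε : ℝ) (h : ℕ → X ≃ₜ X) (w : X) : Prop where
  nr : ∀ n, near (h n) ε
  w_mem : w ∈ J t p
  w_t : w ≠ t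
  w_p : w ≠ p
  hc : HC (fun n => h n '' J t p) (J t w)

theorem HC_trans {h : ℕ → X ≃ₜ X} {x u : X} (H : HC (fun n => h n '' J t x) (J t u))
    (g : X ≃ₜ X) (hg : g t = t) : HC (fun n => ((h n).trans g) '' J t x) (J t (g u)) := by
  have := HC_img H g hg
  simpa only [trans_image] using this

theorem stab_symm {p : X} {g : X ≃ₜ X} (hg : g ∈ Stab ({p} : Set X)) :
    g.symm ∈ Stab ({p} : Set X) := by
  intro q hq
  rw [mem_singleton_iff.1 hq, Homeomorph.symm_apply_eq]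
  exact (hg p rfl).symm

theorem stab_mem {p : X} {g : X ≃ₜ X} (hg : g ∈ Stab ({p} : Set X)) (ht : g t = t) {x : X}
    (hx : x ∈ J t p) : g x ∈ J t p := by
  have h1 := (mem_img g ht).2 hx
  rwa [hg p rfl] at h1

theorem TS.trans {p : X} {ε ε' : ℝ} {h : ℕ → X ≃ₜ X} {w : X} (T : TS t p ε h w) {g : X ≃ₜ X}
    (hg : g ∈ Stab ({p} : Set X)) (ht : g t = t) (hn : near g ε') :
    TS t p (ε + ε') (fun n => (h n).trans g) (g w) where
  nr := fun n => (T.nr n).trans hn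
  w_mem := stab_mem hg ht T.w_mem
  w_t := fun h1 => T.w_t (g.injective (h1.trans ht.symm))
  w_p := fun h1 => T.w_p (g.injective (h1.trans (hg p rfl).symm))
  hc := HC_trans T.hc g ht

theorem TS.mono {p : X} {ε ε' : ℝ} {h : ℕ → X ≃ₜ X} {w : X} (T : TS t p ε h w) (hε : ε ≤ ε') :
    TS t p ε' h w := ⟨fun n => (T.nr n).mono hε, T.w_mem, T.w_t, T.w_p, T.hc⟩

/-- test sequences exist -/
theorem exTS (h1 : S_NID) (h2 : S_SUB) (S : Basic X t s e A B) (hC : ¬ Case1 t e) {p : X}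
    (hp : p ∈ Ends t e) {ε : ℝ} (hε : 0 < ε) {x y z : X} (hx : x ∈ J t p) (hy : y ∈ J t p)
    (hz : z ∈ J t p) :
    ∃ (h : ℕ → X ≃ₜ X) (w u v r : X), TS t p ε h w ∧ u ∈ J t p ∧ v ∈ J t p ∧ r ∈ J t p ∧
      HC (fun n => h n '' J t x) (J t u) ∧ HC (fun n => h n '' J t y) (J t v) ∧
      HC (fun n => h n '' J t z) (J t r) := by
  have D := S.toDen
  obtain ⟨h, w, hn, hw, hwt, hwp, hHC⟩ := h1 X t s e A B S hC p hp ε hε
  obtain ⟨φ, u, hφ, hu, hHu⟩ := h2 X t s e S.toFan S.ntriv S.usc p w x h hHC hx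
  have hHC2 := HC_sub hHC hφ
  obtain ⟨ψ, v, hψ, hv, hHv⟩ := h2 X t s e S.toFan S.ntriv S.usc p w y (fun n => h (φ n)) hHC2 hy
  have hHC3 := HC_sub hHC2 hψ
  obtain ⟨χ, r, hχ, hr, hHr⟩ := h2 X t s e S.toFan S.ntriv S.usc p w z
    (fun n => h (φ (ψ n))) hHC3 hz
  refine ⟨fun n => h (φ (ψ (χ n))), w, u, v, r, ⟨fun n => hn _, hw, hwt, hwp, ?_⟩,
    D.trans hu hw, D.trans hv hw, D.trans hr hw, ?_, ?_, hHr⟩
  · exact HC_sub hHC3 hχ
  · exact HC_sub (HC_sub hHu hψ) hχ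
  · exact HC_sub hHv hχ

/-- (i) -/
theorem partI (h3 : S_NSM) (F : Fan X t s e) {p : X}
    (hNE : ∀ (h : ℕ → X ≃ₜ X) (w x₁ x₂ y₁ y₂ : X), x₁ ≠ t → ¬ Expand t p h w x₁ x₂ y₁ y₂)
    {g : X ≃ₜ X} (hg : g ∈ Stab ({p} : Set X)) {x₁ x : X} (hx₁t : x₁ ≠ t) (hfix : g x₁ = x₁)
    (hx₁x : x₁ ∈ J t x) (hne : x₁ ≠ x) (hxp : x ∈ J t p) (hgx : x ∈ J t (g x)) (hgne : g x ≠ x) :
    ∃ ε₀ > 0, ∀ (h : ℕ → X ≃ₜ X) (w u₁ u : X), TS t p ε₀ h w → u ∈ J t p →
      HC (fun n => h n '' J t x₁) (J t u₁) → HC (fun n => h n '' J t x) (J t u) →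
      ¬ u₁ ∈ J t x₁ := by
  have D := F.toDen
  have ht := F.fix g
  have ht' := F.fix g.symm
  have h0 : g.symm x ∈ J t x := by
    have := (mem_img g.symm ht').2 hgx
    rwa [Homeomorph.symm_apply_apply] at this
  have h0' : g.symm x ≠ x := by
    intro h
    apply hgne
    rw [Homeomorph.symm_apply_eq] at h
    exact h.symm
  have hη : 0 < s x - s (g.symm x) := sub_pos.2 (D.s_lt h0 h0')
  obtain ⟨ε₀, hε₀, hN⟩ := h3 X t s D _ hη
  refine ⟨ε₀, hε₀, fun h w u₁ u T hu hHu₁ hHu hcon => ?_⟩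
  have h4 := hN h T.nr x u hHu
  have h5 : s (g.symm x) ≤ s u := by
    have := (abs_lt.1 h4).1
    linarith
  have h6 : g.symm x ∈ J t u := (D.s_le p _ _ (D.trans h0 hxp) hu).2 h5
  have h7 : x ∈ J t (g u) := by
    have := (mem_img g ht).2 h6
    rwa [Homeomorph.apply_symm_apply] at this
  have h8 : g u₁ ∈ J t x₁ := by
    have := (mem_img g ht).2 hcon
    rwa [hfix] at this
  exact hNE (fun n => (h n).trans g) (g w) x₁ x (g u₁) (g u) hx₁t
    { w_mem := stab_mem hg ht T.w_mem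
      w_ne := fun h1 => T.w_p (g.injective (h1.trans (hg p rfl).symm))
      w_ne' := fun h1 => T.w_t (g.injective (h1.trans ht.symm))
      x₂_mem := hxp
      x₁_le := hx₁x
      x_ne := hne
      y₁_le := h8
      y₂_ge := h7
      hw := HC_trans T.hc g ht
      h₁ := HC_trans hHu₁ g ht
      h₂ := HC_trans hHu g ht }

/-- (ii) -/
theorem partII (h3 : S_NSM) (F : Fan X t s e) {p : X}
    (hNE : ∀ (h : ℕ → X ≃ₜ X) (w x₁ x₂ y₁ y₂ : X), x₁ ≠ t → ¬ Expand t p h w x₁ x₂ y₁ y₂)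
    {g : X ≃ₜ X} (hg : g ∈ Stab ({p} : Set X)) {x₁ x : X} (hxt : x ≠ t) (hfix : g x₁ = x₁)
    (hxx₁ : x ∈ J t x₁) (hne : x ≠ x₁) (hx₁p : x₁ ∈ J t p) (hgx : g x ∈ J t x)
    (hgne : g x ≠ x) :
    ∃ ε₀ > 0, ∀ (h : ℕ → X ≃ₜ X) (w u₁ u : X), TS t p ε₀ h w → u ∈ J t p →
      HC (fun n => h n '' J t x₁) (J t u₁) → HC (fun n => h n '' J t x) (J t u) →
      ¬ x₁ ∈ J t u₁ := by
  have D := F.toDen
  have ht := F.fix g
  have ht' := F.fix g.symm
  have h0 : x ∈ J t (g.symm x) := by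
    have := (mem_img g.symm ht').2 hgx
    rwa [Homeomorph.symm_apply_apply] at this
  have h0' : x ≠ g.symm x := by
    intro h
    apply hgne
    have h2 := congrArg g h
    rwa [Homeomorph.apply_symm_apply] at h2
  have hxp : x ∈ J t p := D.trans hxx₁ hx₁p
  have hη : 0 < s (g.symm x) - s x := sub_pos.2 (D.s_lt h0 h0')
  obtain ⟨ε₀, hε₀, hN⟩ := h3 X t s D _ hη
  refine ⟨ε₀, hε₀, fun h w u₁ u T hu hHu₁ hHu hcon => ?_⟩
  have h4 := hN h T.nr x u hHu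
  have h5 : s u ≤ s (g.symm x) := by
    have := (abs_lt.1 h4).2
    linarith
  have h6 : u ∈ J t (g.symm x) :=
    (D.s_le p _ _ hu (stab_mem (stab_symm hg) ht' hxp)).2 h5
  have h7 : g u ∈ J t x := by
    have := (mem_img g ht).2 h6
    rwa [Homeomorph.apply_symm_apply] at this
  have h8 : x₁ ∈ J t (g u₁) := by
    have := (mem_img g ht).2 hcon
    rwa [hfix] at this
  exact hNE (fun n => (h n).trans g) (g w) x x₁ (g u) (g u₁) hxt
    { w_mem := stab_mem hg ht T.w_mem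
      w_ne := fun h1 => T.w_p (g.injective (h1.trans (hg p rfl).symm))
      w_ne' := fun h1 => T.w_t (g.injective (h1.trans ht.symm))
      x₂_mem := hx₁p
      x₁_le := hxx₁
      x_ne := hne
      y₁_le := h7
      y₂_ge := h8
      hw := HC_trans T.hc g ht
      h₁ := HC_trans hHu g ht
      h₂ := HC_trans hHu₁ g ht }

theorem fix_symm {g : X ≃ₜ X} {x : X} (h : g x = x) : g.symm x = x := by
  rw [Homeomorph.symm_apply_eq]
  exact h.symm

theorem ne_symm {g : X ≃ₜ X} {x : X} (h : g x ≠ x) : g.symm x ≠ x := by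
  intro h1
  rw [Homeomorph.symm_apply_eq] at h1
  exact h h1.symm

/-- (i), either direction -/
theorem partI' (h3 : S_NSM) (F : Fan X t s e) {p : X}
    (hNE : ∀ (h : ℕ → X ≃ₜ X) (w x₁ x₂ y₁ y₂ : X), x₁ ≠ t → ¬ Expand t p h w x₁ x₂ y₁ y₂)
    {g : X ≃ₜ X} (hg : g ∈ Stab ({p} : Set X)) {x₁ x : X} (hx₁t : x₁ ≠ t) (hfix : g x₁ = x₁)
    (hx₁x : x₁ ∈ J t x) (hne : x₁ ≠ x) (hxp : x ∈ J t p) (hgne : g x ≠ x) :
    ∃ ε₀ > 0, ∀ (h : ℕ → X ≃ₜ X) (w u₁ u : X), TS t p ε₀ h w → u ∈ J t p →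
      HC (fun n => h n '' J t x₁) (J t u₁) → HC (fun n => h n '' J t x) (J t u) →
      ¬ u₁ ∈ J t x₁ := by
  have D := F.toDen
  rcases D.total hxp (stab_mem hg (F.fix g) hxp) with h | h
  · exact partI h3 F hNE hg hx₁t hfix hx₁x hne hxp h hgne
  · refine partI h3 F hNE (stab_symm hg) hx₁t (fix_symm hfix) hx₁x hne hxp ?_ (ne_symm hgne)
    have := (mem_img g.symm (F.fix g.symm)).2 h
    rwa [Homeomorph.symm_apply_apply] at this

/-- (ii), either direction -/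
theorem partII' (h3 : S_NSM) (F : Fan X t s e) {p : X}
    (hNE : ∀ (h : ℕ → X ≃ₜ X) (w x₁ x₂ y₁ y₂ : X), x₁ ≠ t → ¬ Expand t p h w x₁ x₂ y₁ y₂)
    {g : X ≃ₜ X} (hg : g ∈ Stab ({p} : Set X)) {x₁ x : X} (hxt : x ≠ t) (hfix : g x₁ = x₁)
    (hxx₁ : x ∈ J t x₁) (hne : x ≠ x₁) (hx₁p : x₁ ∈ J t p) (hgne : g x ≠ x) :
    ∃ ε₀ > 0, ∀ (h : ℕ → X ≃ₜ X) (w u₁ u : X), TS t p ε₀ h w → u ∈ J t p →
      HC (fun n => h n '' J t x₁) (J t u₁) → HC (fun n => h n '' J t x) (J t u) →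
      ¬ x₁ ∈ J t u₁ := by
  have D := F.toDen
  have hxp : x ∈ J t p := D.trans hxx₁ hx₁p
  rcases D.total hxp (stab_mem hg (F.fix g) hxp) with h | h
  · refine partII h3 F hNE (stab_symm hg) hxt (fix_symm hfix) hxx₁ hne hx₁p ?_ (ne_symm hgne)
    have := (mem_img g.symm (F.fix g.symm)).2 h
    rwa [Homeomorph.symm_apply_apply] at this
  · exact partII h3 F hNE hg hxt hfix hxx₁ hne hx₁p h hgne

/-- points of the leg with height close to that of `x` are close to `x` -/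
theorem close_of_s (D : Den X t s) {p x : X} (hx : x ∈ J t p) {δ : ℝ} (hδ : 0 < δ) :
    ∃ η > 0, ∀ y ∈ J t p, |s y - s x| < η → dist y x < δ := by
  obtain ⟨a, hac, ha, -, -⟩ := D.arc p
  have hmem : ∀ y ∈ J t p, a (s y) = y := by
    intro y hy
    have hr : s y ∈ Icc 0 (s p) := ⟨D.s_nonneg y, D.s_mono hy⟩
    exact D.s_inj (ha _ hr).1 hy (ha _ hr).2
  obtain ⟨η, hη, h1⟩ := Metric.continuousAt_iff.1 (hac.continuousAt (x := s x)) δ hδ
  refine ⟨η, hη, fun y hy hyx => ?_⟩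
  have h2 := h1 (show dist (s y) (s x) < η by rwa [Real.dist_eq])
  rwa [hmem y hy, hmem x hx] at h2

/-- points of a class just above `x` -/
theorem above (D : Den X t s) {p : X} {M M' : Set X} (hDD : DD t p M M') {x : X}
    (hx : x ∈ J t p) (hxp : x ≠ p) {δ : ℝ} (hδ : 0 < δ) :
    ∃ y ∈ M, y ∈ J t p ∧ s x < s y ∧ dist y x < δ := by
  obtain ⟨η, hη, h1⟩ := close_of_s D hx hδ
  have hlt := D.s_lt hx hxp
  have h0 := D.s_nonneg x
  obtain ⟨c, hc, hc'⟩ : ∃ c, s x < c ∧ c < min (s p) (s x + η) :=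
    exists_between (lt_min hlt (by linarith))
  obtain ⟨d, hd, hd'⟩ : ∃ d, s x < d ∧ d < c := exists_between hc
  have hcp : c < s p := hc'.trans_le (min_le_left _ _)
  have hcη : c < s x + η := hc'.trans_le (min_le_right _ _)
  obtain ⟨z, hz, hzc⟩ := D.level p (r := c) (by linarith) hcp.le
  obtain ⟨m, hm, hmd⟩ := D.level p (r := d) (by linarith) (by linarith)
  have hmz : m ∈ J t z := (D.s_le p m z hm hz).2 (by rw [hzc, hmd]; exact hd'.le)
  have hne : m ≠ z := by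
    intro h
    rw [h, hzc] at hmd
    linarith
  obtain ⟨⟨y, hyM, hmy, hyz⟩, -⟩ := hDD m z hz hmz hne
  have h2 := D.s_mono hmy
  have h3 := D.s_mono hyz
  refine ⟨y, hyM, D.trans hyz hz, by linarith, h1 y (D.trans hyz hz) ?_⟩
  rw [abs_lt]
  constructor <;> linarith

/-- points of a class just below `x` -/
theorem below (D : Den X t s) {p : X} {M M' : Set X} (hDD : DD t p M M') {x : X}
    (hx : x ∈ J t p) (hxt : x ≠ t) {δ : ℝ} (hδ : 0 < δ) :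
    ∃ y ∈ M, y ∈ J t p ∧ s y < s x ∧ dist y x < δ := by
  obtain ⟨η, hη, h1⟩ := close_of_s D hx hδ
  have hlt := D.s_pos hxt
  have h0 := D.s_mono hx
  obtain ⟨c, hc, hc'⟩ : ∃ c, max 0 (s x - η) < c ∧ c < s x :=
    exists_between (max_lt hlt (by linarith))
  obtain ⟨d, hd, hd'⟩ : ∃ d, c < d ∧ d < s x := exists_between hc'
  have hcp : 0 < c := (le_max_left _ _).trans_lt hc
  have hcη : s x - η < c := (le_max_right _ _).trans_lt hc
  obtain ⟨m, hm, hmc⟩ := D.level p (r := c) hcp.le (by linarith)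
  obtain ⟨z, hz, hzd⟩ := D.level p (r := d) (by linarith) (by linarith)
  have hmz : m ∈ J t z := (D.s_le p m z hm hz).2 (by rw [hzd, hmc]; exact hd.le)
  have hne : m ≠ z := by
    intro h
    rw [h, hzd] at hmc
    linarith
  obtain ⟨⟨y, hyM, hmy, hyz⟩, -⟩ := hDD m z hz hmz hne
  have h2 := D.s_mono hmy
  have h3 := D.s_mono hyz
  refine ⟨y, hyM, D.trans hyz hz, by linarith, h1 y (D.trans hyz hz) ?_⟩
  rw [abs_lt]
  constructor <;> linarith

theorem A_ne_t (S : Setup X t s e A B) {x : X} (hx : x ∈ A) : x ≠ t := by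
  have : x ∈ Int t e := S.cover ▸ Or.inl hx
  exact this.1

/-- two points of `A` of the leg are equivalent under `Stab {p}` -/
theorem orbA (S : Setup X t s e A B) {p : X} (hp : p ∈ Ends t e) {x y : X} (hx : x ∈ A)
    (hy : y ∈ A) (hxp : x ∈ J t p) (hyp : y ∈ J t p) : y ∈ Orb ({p} : Set X) x := by
  obtain ⟨k, hk⟩ := S.Aorb x hx y hy
  refine ⟨k, ?_, hk⟩
  intro q hq
  rw [mem_singleton_iff.1 hq]
  have h1 : e x = p := by rw [S.toFan.e_mem hxp (A_ne_t S hx), hp.2]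
  have h2 : e y = p := by rw [S.toFan.e_mem hyp (A_ne_t S hy), hp.2]
  have h3 := S.toFan.e_homeo k x
  rwa [hk, h1, h2] at h3

/-- (iii) -/
theorem partIII (h1 : S_NID) (h2 : S_SUB) (h3 : S_NSM) (S : Basic X t s e A B)
    (hC : ¬ Case1 t e) {p : X} (hp : p ∈ Ends t e) (hDD : DD t p A B)
    (hNE : ∀ (h : ℕ → X ≃ₜ X) (w x₁ x₂ y₁ y₂ : X), x₁ ≠ t → ¬ Expand t p h w x₁ x₂ y₁ y₂)
    (hEff : ∀ a ∈ A, a ∈ J t p → Eff ({p} : Set X) a) {g : X ≃ₜ X}
    (hg : g ∈ Stab ({p} : Set X)) {x₁ : X} (hx₁ : x₁ ∈ A) (hx₁p : x₁ ∈ J t p)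
    (hfix : g x₁ = x₁) : ∀ y ∈ J t p, g y = y := by
  have F := S.toFan
  have D := S.toDen
  by_contra hcon
  push Not at hcon
  obtain ⟨x, hxp, hgx⟩ := hcon
  have hx₁t : x₁ ≠ t := A_ne_t S.toSetup hx₁
  have hpA : p ∉ A := by
    intro h
    have : p ∈ Int t e := S.cover ▸ Or.inl h
    exact this.2 hp.2
  have hx₁ne : x₁ ≠ p := fun h => hpA (h ▸ hx₁)
  have hne : x₁ ≠ x := fun h => hgx (h ▸ hfix)
  have hxt : x ≠ t := by
    intro h
    apply hgx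
    rw [h]
    exact F.fix g
  rcases D.total hx₁p hxp with hle | hle
  · obtain ⟨ε₀, hε₀, hI⟩ := partI' h3 F hNE hg hx₁t hfix hle hne hxp hgx
    obtain ⟨δ, hδ, hE⟩ := hEff x₁ hx₁ hx₁p (ε₀ / 2) (half_pos hε₀)
    obtain ⟨x', hx'A, hx'p, hx's, hx'd⟩ := above D hDD hx₁p hx₁ne hδ
    obtain ⟨k, hk, hkx, hkn⟩ := hE x' (orbA S.toSetup hp hx₁ hx'A hx₁p hx'p) hx'd
    obtain ⟨ε₁, hε₁, hN⟩ := h3 X t s D _ (sub_pos.2 hx's)
    obtain ⟨h, w, u₁, u, r, T, hu₁, hu, hr, hHu₁, hHu, -⟩ :=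
      exTS h1 h2 S hC hp (lt_min (half_pos hε₀) hε₁) hx₁p hxp hxp
    have h4 := hN h (T.mono (min_le_right _ _)).nr x₁ u₁ hHu₁
    have h5 : s u₁ ≤ s x' := by
      have := (abs_lt.1 h4).2
      linarith
    have h6 : u₁ ∈ J t x' := (D.s_le p _ _ hu₁ hx'p).2 h5
    have hks := stab_symm hk
    have ht' := F.fix k.symm
    have h7 : k.symm u₁ ∈ J t x₁ := by
      have h8 := (mem_img k.symm ht').2 h6
      rwa [← hkx, Homeomorph.symm_apply_apply] at h8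
    have T2 : TS t p ε₀ (fun n => (h n).trans k.symm) (k.symm w) :=
      (T.trans hks ht' hkn.symm).mono (by linarith [min_le_left (ε₀ / 2) ε₁])
    exact hI _ _ _ _ T2 (stab_mem hks ht' hu) (HC_trans hHu₁ _ ht') (HC_trans hHu _ ht') h7
  · obtain ⟨ε₀, hε₀, hI⟩ := partII' h3 F hNE hg hxt hfix hle hne.symm hx₁p hgx
    obtain ⟨δ, hδ, hE⟩ := hEff x₁ hx₁ hx₁p (ε₀ / 2) (half_pos hε₀)
    obtain ⟨x', hx'A, hx'p, hx's, hx'd⟩ := below D hDD hx₁p hx₁t hδ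
    obtain ⟨k, hk, hkx, hkn⟩ := hE x' (orbA S.toSetup hp hx₁ hx'A hx₁p hx'p) hx'd
    obtain ⟨ε₁, hε₁, hN⟩ := h3 X t s D _ (sub_pos.2 hx's)
    obtain ⟨h, w, u₁, u, r, T, hu₁, hu, hr, hHu₁, hHu, -⟩ :=
      exTS h1 h2 S hC hp (lt_min (half_pos hε₀) hε₁) hx₁p hxp hxp
    have h4 := hN h (T.mono (min_le_right _ _)).nr x₁ u₁ hHu₁
    have h5 : s x' ≤ s u₁ := by
      have := (abs_lt.1 h4).1
      linarith
    have h6 : x' ∈ J t u₁ := (D.s_le p _ _ hx'p hu₁).2 h5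
    have hks := stab_symm hk
    have ht' := F.fix k.symm
    have h7 : x₁ ∈ J t (k.symm u₁) := by
      have h8 := (mem_img k.symm ht').2 h6
      rwa [← hkx, Homeomorph.symm_apply_apply] at h8
    have T2 : TS t p ε₀ (fun n => (h n).trans k.symm) (k.symm w) :=
      (T.trans hks ht' hkn.symm).mono (by linarith [min_le_left (ε₀ / 2) ε₁])
    exact hI _ _ _ _ T2 (stab_mem hks ht' hu) (HC_trans hHu₁ _ ht') (HC_trans hHu _ ht') h7

/-- (iv) -/
theorem partIV (h1 : S_NID) (h2 : S_SUB) (h3 : S_NSM) (S : Basic X t s e A B)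
    (hC : ¬ Case1 t e) {p : X} (hp : p ∈ Ends t e) (hDD : DD t p A B)
    (hNE : ∀ (h : ℕ → X ≃ₜ X) (w x₁ x₂ y₁ y₂ : X), x₁ ≠ t → ¬ Expand t p h w x₁ x₂ y₁ y₂)
    (hEff : ∀ a ∈ A, a ∈ J t p → Eff ({p} : Set X) a) {g : X ≃ₜ X}
    (hg : g ∈ Stab ({p} : Set X)) {b : X} (hb : b ∈ B) (hbp : b ∈ J t p)
    (hfix : g b = b) : ∀ y ∈ J t p, g y = y := by
  have F := S.toFan
  have D := S.toDen
  by_contra hcon
  have hA : ∀ a ∈ A, a ∈ J t p → g a ≠ a := fun a ha hap hga =>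
    hcon (partIII h1 h2 h3 S hC hp hDD hNE hEff hg ha hap hga)
  have hbI : b ∈ Int t e := S.cover ▸ Or.inr hb
  have hbt : b ≠ t := hbI.1
  have hbne : b ≠ p := fun h => hbI.2 (h ▸ hp.2)
  have hdis : ∀ a ∈ A, a ≠ b := fun a ha h => (Set.disjoint_left.1 S.disj ha) (h ▸ hb)
  obtain ⟨⟨a', ha', -, ha'b⟩, -⟩ := hDD t b hbp (D.memt b) hbt.symm
  obtain ⟨⟨a, ha, hba, hap⟩, -⟩ := hDD b p (D.memx p) hbp hbne
  have ha'p := D.trans ha'b hbp
  obtain ⟨ε₁, hε₁, hI⟩ := partI' h3 F hNE hg hbt hfix hba (hdis a ha).symm hap (hA a ha hap)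
  obtain ⟨ε₂, hε₂, hII⟩ := partII' h3 F hNE hg (A_ne_t S.toSetup ha') hfix ha'b (hdis a' ha') hbp
    (hA a' ha' ha'p)
  obtain ⟨h, w, u', v, u, T, hu', hv, hu, hHu', hHv, hHu⟩ :=
    exTS h1 h2 S hC hp (lt_min hε₁ hε₂) ha'p hbp hap
  rcases D.total hv hbp with h4 | h4
  · exact hI h w v u (T.mono (min_le_left _ _)) hu hHv hHu h4
  · exact hII h w v u' (T.mono (min_le_right _ _)) hu' hHv hHu' h4

end

end PFREE

open PFREE in
theorem t_FREE (h1 : S_NID) (h2 : S_SUB) (h3 : S_NSM) : S_FREE := by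
  intro X _ _ t s e A B S hC p hp hDD hNE hEff g hg x hxp hxt hxne hgx
  have F := S.toFan
  have hxI : x ∈ Int t e := by
    refine ⟨hxt, ?_⟩
    rw [F.e_mem hxp hxt, hp.2]
    exact hxne.symm
  rw [← S.cover] at hxI
  rcases hxI with h | h
  · exact partIII h1 h2 h3 S hC hp hDD hNE hEff hg h hxp hgx
  · exact partIV h1 h2 h3 S hC hp hDD hNE hEff hg h hxp hgx

end Pool.Agent.H273.FAN
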