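import Pool.Agent.H273.FAN.Stm2

/-!
# HCJ: Hausdorff convergence of arcs (helper870)
-/

set_option autoImplicit false

namespace Pool.Agent.H273.FAN

open Set Filter Topology Metric

namespace PHCJ

/-- compactness for the Hausdorff convergence -/
theorem exists_HC {X : Type} [MetricSpace X] [CompactSpace X] (C : ℕ → Set X)
    (hC : ∀ n, IsCompact (C n)) (hne : ∀ n, (C n).Nonempty) :
    ∃ (φ : ℕ → ℕ) (L : Set X), StrictMono φ ∧ IsCompact L ∧ HC (fun n => C (φ n)) L := by
  obtain ⟨K, hK⟩ : ∃ K : ℕ → TopologicalSpace.NonemptyCompacts X, ∀ n, (K n : Set X) = C n :=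
    ⟨fun n => ⟨⟨C n, hC n⟩, hne n⟩, fun n => rfl⟩
  obtain ⟨L, -, φ, hφ, hlim⟩ := isCompact_univ.tendsto_subseq (x := K) (fun n => mem_univ _)
  refine ⟨φ, L, hφ, L.isCompact, fun ε hε => ?_⟩
  rw [Metric.tendsto_atTop] at hlim
  obtain ⟨n0, hn0⟩ := hlim ε hε
  filter_upwards [eventually_ge_atTop n0] with n hn
  have h1 : hausdorffDist (C (φ n)) (L : Set X) < ε := by
    have h2 := hn0 n hn
    rw [Metric.NonemptyCompacts.dist_eq] at h2
    simpa only [Function.comp_apply, hK] using h2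
  have hfin : hausdorffEDist (C (φ n)) (L : Set X) ≠ ⊤ :=
    hausdorffEDist_ne_top_of_nonempty_of_bounded (hne _) L.nonempty (hC _).isBounded
      L.isCompact.isBounded
  constructor
  · intro y hy
    rw [mem_thickening_iff_infDist_lt L.nonempty]
    exact (infDist_le_hausdorffDist_of_mem hy hfin).trans_lt h1
  · intro y hy
    rw [mem_thickening_iff_infDist_lt (hne _)]
    rw [hausdorffDist_comm] at h1
    rw [hausdorffEDist_comm] at hfin
    exact (infDist_le_hausdorffDist_of_mem hy hfin).trans_lt h1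

theorem eq_Ls {X : Type} [MetricSpace X] [CompactSpace X] {C : ℕ → Set X} {L : Set X}
    (hL : IsCompact L) (h : HC C L) : L = Ls C := by
  apply Subset.antisymm
  · intro y hy
    rw [Ls, mem_iInter]
    intro n
    rw [Metric.mem_closure_iff]
    intro ε hε
    obtain ⟨m, hm1, hm2⟩ := ((h ε hε).and (eventually_ge_atTop n)).exists
    obtain ⟨z, hz, hzd⟩ := mem_thickening_iff.1 (hm1.2 hy)
    exact ⟨z, mem_iUnion₂.2 ⟨m, hm2, hz⟩, hzd⟩
  · intro y hy
    have h1 : y ∈ ⋂ ε > (0 : ℝ), cthickening ε L := by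
      rw [mem_iInter₂]
      intro ε hε
      obtain ⟨n, hn⟩ := eventually_atTop.1 (h ε hε)
      have h2 : y ∈ closure (⋃ m ≥ n, C m) := mem_iInter.1 hy n
      have h3 : (⋃ m ≥ n, C m) ⊆ thickening ε L := iUnion₂_subset fun m hm => (hn m hm).1
      exact closure_thickening_subset_cthickening ε L (closure_mono h3 h2)
    rw [← closure_eq_iInter_cthickening, hL.isClosed.closure_eq] at h1
    exact h1

end PHCJ

open PHCJ in
theorem t_HCJ : S_HCJ := by
  intro X _ _ t s e F hN hU u x hu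
  have D := F.toDen
  obtain ⟨φ, L, hφ, hLc, hHC⟩ := exists_HC (fun n => J t (u n)) (fun n => D.compact _)
    (fun n => ⟨t, D.memt _⟩)
  have hLs := eq_Ls hLc hHC
  have hLconn : IsConnected L := by
    rw [hLs]
    exact Ls_conn (fun n => D.conn _) (u := fun _ => t) (fun n => D.memt _) tendsto_const_nhds
  have hLt : t ∈ L := by
    rw [hLs]
    exact mem_Ls_of_tendsto (u := fun _ => t) (fun n => D.memt _) tendsto_const_nhds
  have huφ : Tendsto (fun n => u (φ n)) atTop (𝓝 x) := hu.comp hφ.tendsto_atTop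
  have hLx : x ∈ L := by
    rw [hLs]
    exact mem_Ls_of_tendsto (u := fun n => u (φ n)) (fun n => D.memx _) huφ
  have hLN : ∀ y ∈ L, y ∈ N t x := by
    intro y hy
    show (x, y) ∈ closure {p : X × X | p.2 ∈ J t p.1}
    rw [Metric.mem_closure_iff]
    intro ε hε
    obtain ⟨n, hn1, hn2⟩ := ((hHC ε hε).and (Metric.tendsto_nhds.1 huφ ε hε)).exists
    obtain ⟨z, hz, hzd⟩ := mem_thickening_iff.1 (hn1.2 hy)
    refine ⟨(u (φ n), z), hz, ?_⟩
    rw [Prod.dist_eq]
    exact max_lt (by rw [dist_comm]; exact hn2) hzd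
  by_cases hxt : x = t
  · subst hxt
    have hL : L = J x x := by
      rw [D.J_t]
      apply Subset.antisymm
      · intro y hy
        exact hN y (hLN y hy)
      · rintro _ rfl
        exact hLx
    refine ⟨φ, x, hφ, D.memx x, hLN x hLx, ?_⟩
    rw [← hL]
    exact hHC
  · have hLe : L ⊆ J t (e x) := by
      intro y hy
      obtain ⟨u', v', h1, h2, h3⟩ := D.mem_N_iff.1 (hLN y hy)
      exact hU u' v' x y hxt h2 h3 fun n => D.trans (h1 n) (F.le_e _)
    obtain ⟨w, hw, hmax⟩ := hLc.exists_isMaxOn ⟨t, hLt⟩ ((D.s_cont (e x)).mono hLe)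
    have hL : L = J t w := by
      apply Subset.antisymm
      · intro v hv
        exact (D.s_le (e x) v w (hLe hv) (hLe hw)).2 (hmax hv)
      · exact J_min hLc.isClosed hLconn hLt hw
    refine ⟨φ, w, hφ, ?_, hLN w hw, ?_⟩
    · rw [← hL]
      exact hLx
    · rw [← hL]
      exact hHC

end Pool.Agent.H273.FAN
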