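import Pool.Agent.H273.FAN.Stm1

/-!
# A Hölder type theorem: no free action with exactly two dense orbits
-/

set_option autoImplicit false

open Set Topology

namespace Pool.Agent.H273.FAN.PHOLD

variable {G : Subgroup (ℝ ≃o ℝ)}

/-- the group acts freely -/
def Fr (G : Subgroup (ℝ ≃o ℝ)) : Prop := ∀ g ∈ G, ∀ x : ℝ, g x = x → g = 1

lemma mul_ap (g h : ℝ ≃o ℝ) (x : ℝ) : (g * h) x = g (h x) := rfl

lemma one_ap (x : ℝ) : (1 : ℝ ≃o ℝ) x = x := rfl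

lemma inv_ap (g : ℝ ≃o ℝ) (x : ℝ) : g⁻¹ (g x) = x := g.symm_apply_apply x

lemma ap_inv (g : ℝ ≃o ℝ) (x : ℝ) : g (g⁻¹ x) = x := g.apply_symm_apply x

lemma eq_of_ap (hf : Fr G) {g h : ℝ ≃o ℝ} (hg : g ∈ G) (hh : h ∈ G) {x : ℝ} (hx : g x = h x) :
    g = h := by
  have h1 : (g⁻¹ * h) x = x := by
    rw [mul_ap, ← hx, inv_ap]
  have h2 := hf _ (G.mul_mem (G.inv_mem hg) hh) x h1
  exact (inv_mul_eq_one.mp h2)

lemma cmp (hf : Fr G) {g h : ℝ ≃o ℝ} (hg : g ∈ G) (hh : h ∈ G) {x : ℝ} (hx : g x < h x) (y : ℝ) :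
    g y < h y := by
  by_contra hcon
  push Not at hcon
  have hc : Continuous fun z => h z - g z := h.continuous.sub g.continuous
  obtain ⟨z, hz⟩ := mem_range_of_exists_le_of_exists_ge hc (c := 0)
    ⟨y, by simpa using hcon⟩ ⟨x, by simpa using hx.le⟩
  have hz' : g z = h z := by
    simp only at hz
    linarith
  rw [eq_of_ap hf hg hh hz'] at hx
  exact lt_irrefl _ hx

lemma cmp_le (hf : Fr G) {g h : ℝ ≃o ℝ} (hg : g ∈ G) (hh : h ∈ G) {x : ℝ} (hx : g x ≤ h x) (y : ℝ) :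
    g y ≤ h y := by
  by_contra hcon
  push Not at hcon
  exact absurd (cmp hf hh hg hcon x) (not_lt.mpr hx)

/-- Archimedean property -/
lemma arch {g : ℝ ≃o ℝ} (hg : ∀ x, x < g x) (x y : ℝ) : ∃ n : ℕ, y < (g ^ n) x := by
  by_contra hcon
  push Not at hcon
  have hb : BddAbove (range fun n : ℕ => (g ^ n) x) := ⟨y, by rintro _ ⟨n, rfl⟩; exact hcon n⟩
  set s := ⨆ n : ℕ, (g ^ n) x with hs
  have h1 : g⁻¹ s < s := by
    have := hg (g⁻¹ s)
    rwa [ap_inv] at this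
  obtain ⟨n, hn⟩ := exists_lt_of_lt_ciSup h1
  have h2 : s < (g ^ (n + 1)) x := by
    have := g.strictMono hn
    rw [ap_inv] at this
    rwa [pow_succ', mul_ap]
  exact absurd (le_ciSup hb (n + 1)) (not_le.mpr h2)

lemma arch' {g : ℝ ≃o ℝ} (hg : ∀ x, x < g x) (x y : ℝ) : ∃ n : ℕ, ((g⁻¹) ^ n) x < y := by
  obtain ⟨n, hn⟩ := arch hg y x
  refine ⟨n, ?_⟩
  have h1 := ((g⁻¹) ^ n).strictMono hn
  rw [inv_pow, inv_ap] at h1
  rwa [inv_pow]

/-- the data of the theorem -/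
structure Dat (G : Subgroup (ℝ ≃o ℝ)) (A B : Set ℝ) : Prop where
  fr : Fr G
  un : ∀ x, x ∈ A ∨ x ∈ B
  dj : ∀ x, x ∈ A → x ∈ B → False
  na : A.Nonempty
  nb : B.Nonempty
  ta : ∀ x ∈ A, ∀ y ∈ A, ∃ g ∈ G, g x = y
  tb : ∀ x ∈ B, ∀ y ∈ B, ∃ g ∈ G, g x = y
  ia : ∀ g ∈ G, ∀ x ∈ A, g x ∈ A
  ib : ∀ g ∈ G, ∀ x ∈ B, g x ∈ B
  da : ∀ x y : ℝ, x < y → ∃ a ∈ A, x < a ∧ a < y
  db : ∀ x y : ℝ, x < y → ∃ b ∈ B, x < b ∧ b < y

variable {A B : Set ℝ}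

lemma Dat.pos (D : Dat G A B) {g : ℝ ≃o ℝ} (hg : g ∈ G) {x : ℝ} (hx : x < g x) (y : ℝ) : y < g y :=
  cmp D.fr G.one_mem hg (x := x) hx y

lemma Dat.mid (D : Dat G A B) {a : ℝ ≃o ℝ} (ha : a ∈ G) (h1 : ∀ x, x < a x) :
    ∃ k ∈ G, (∀ x, x < k x) ∧ ∀ x, k (k x) ≤ a x := by
  obtain ⟨x0, hx0⟩ := D.na
  obtain ⟨p, hp, hp1, hp2⟩ := D.da _ _ (h1 x0)
  obtain ⟨b, hb, rfl⟩ := D.ta x0 hx0 p hp
  have hb1 := D.pos hb hp1
  have hc : b⁻¹ * a ∈ G := G.mul_mem (G.inv_mem hb) ha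
  rcases le_or_gt (b x0) ((b⁻¹ * a) x0) with h | h
  · refine ⟨b, hb, hb1, fun x => ?_⟩
    have h2 := cmp_le D.fr hb hc h x
    have h3 := b.monotone h2
    rwa [mul_ap, ap_inv] at h3
  · have h0 : x0 < (b⁻¹ * a) x0 := by
      rw [mul_ap]
      have := b⁻¹.strictMono hp2
      rwa [inv_ap] at this
    refine ⟨b⁻¹ * a, hc, D.pos hc h0, fun x => ?_⟩
    have h2 := (cmp D.fr hc hb h ((b⁻¹ * a) x)).le
    refine h2.trans ?_
    rw [mul_ap, ap_inv]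

lemma pow_ge {k : ℝ ≃o ℝ} (hk : ∀ x, x < k x) (n : ℕ) (x : ℝ) : x ≤ (k ^ n) x := by
  induction n with
  | zero => rw [pow_zero, one_ap]
  | succ n ih =>
    rw [pow_succ', mul_ap]
    exact ih.trans (hk _).le

lemma zp_mono {k : ℝ ≃o ℝ} (hk : ∀ x, x < k x) {m n : ℤ} (h : m ≤ n) (x : ℝ) :
    (k ^ m) x ≤ (k ^ n) x := by
  obtain ⟨j, rfl⟩ := Int.le.dest h
  rw [add_comm, zpow_add, mul_ap, zpow_natCast]
  exact pow_ge hk j _

lemma floor {k : ℝ ≃o ℝ} (hk : ∀ x, x < k x) (x y : ℝ) :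
    ∃ m : ℤ, (k ^ m) x ≤ y ∧ y < (k ^ (m + 1)) x := by
  obtain ⟨N, hN⟩ := arch hk x y
  obtain ⟨M, hM⟩ := arch' hk x y
  obtain ⟨m, hm1, hm2⟩ := Int.exists_greatest_of_bdd (P := fun m : ℤ => (k ^ m) x ≤ y)
    ⟨(N : ℤ), fun z hz => by
      by_contra hcon
      push Not at hcon
      have h1 := zp_mono hk hcon.le x
      rw [zpow_natCast] at h1
      exact absurd (hN.trans_le h1) (not_lt.mpr hz)⟩
    ⟨-(M : ℤ), by
      rw [zpow_neg, zpow_natCast, ← inv_pow]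
      exact hM.le⟩
  refine ⟨m, hm1, ?_⟩
  by_contra hcon
  push Not at hcon
  have := hm2 _ hcon
  omega

lemma Dat.comm_aux (D : Dat G A B) {g h : ℝ ≃o ℝ} (hg : g ∈ G) (hh : h ∈ G) (x : ℝ) :
    ¬ h (g x) < g (h x) := by
  intro hlt
  have ha : (g * h) * (h * g)⁻¹ ∈ G := G.mul_mem (G.mul_mem hg hh) (G.inv_mem (G.mul_mem hh hg))
  have e : ((g * h) * (h * g)⁻¹) (h (g x)) = g (h x) := by
    rw [mul_ap, ← mul_ap h g x, inv_ap, mul_ap]
  have h1 := D.pos ha (x := h (g x)) (by rwa [e])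
  obtain ⟨k, hkG, hk, hkk⟩ := D.mid ha h1
  obtain ⟨m, hm1, hm2⟩ := floor hk x (g x)
  obtain ⟨n, hn1, hn2⟩ := floor hk x (h x)
  have a1 : g (h x) < (k ^ (m + 1)) (h x) := cmp D.fr hg (G.zpow_mem hkG _) hm2 (h x)
  have a2 : (k ^ (m + 1)) (h x) < (k ^ (m + 1)) ((k ^ (n + 1)) x) :=
    (k ^ (m + 1)).strictMono hn2
  have a3 : (k ^ (m + 1)) ((k ^ (n + 1)) x) = k (k ((k ^ (n + m)) x)) := by
    rw [← mul_ap, ← zpow_add]
    have : m + 1 + (n + 1) = 1 + (1 + (n + m)) := by ring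
    rw [this, zpow_add, zpow_add, zpow_one, mul_ap, mul_ap]
  have a4 : (k ^ (n + m)) x ≤ h (g x) := by
    rw [zpow_add, mul_ap]
    have b1 : (k ^ n) ((k ^ m) x) ≤ (k ^ n) (g x) := (k ^ n).monotone hm1
    have b2 : (k ^ n) (g x) ≤ h (g x) := cmp_le D.fr (G.zpow_mem hkG _) hh hn1 (g x)
    exact b1.trans b2
  have a5 : k (k ((k ^ (n + m)) x)) ≤ g (h x) := by
    have b1 := k.monotone (k.monotone a4)
    have b2 := hkk (h (g x))
    rw [e] at b2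
    exact b1.trans b2
  rw [a3] at a2
  exact absurd (a1.trans a2) (not_lt.mpr a5)

lemma Dat.comm (D : Dat G A B) {g h : ℝ ≃o ℝ} (hg : g ∈ G) (hh : h ∈ G) (x : ℝ) :
    g (h x) = h (g x) :=
  le_antisymm (not_lt.mp (D.comm_aux hg hh x)) (not_lt.mp (D.comm_aux hh hg x))

lemma Dat.caseA (D : Dat G A B) {g : ℝ ≃o ℝ} (hg : g ∈ G) {x0 y0 : ℝ} (hx0 : x0 ∈ A)
    (hy0 : y0 ∈ B) (h1 : ∀ h ∈ G, h (h x0) < y0 → h x0 ≤ g x0)
    (h2 : ∀ b : ℝ, (∀ h ∈ G, h (h x0) < y0 → h x0 ≤ b) → g x0 ≤ b) : False := by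
  rcases lt_trichotomy (g (g x0)) y0 with h | h | h
  · have e1 : x0 < g⁻¹ (g⁻¹ y0) := by
      have := g⁻¹.strictMono (g⁻¹.strictMono h)
      rwa [inv_ap, inv_ap] at this
    obtain ⟨p, hp, hp1, hp2⟩ := D.da _ _ e1
    obtain ⟨a, ha, rfl⟩ := D.ta x0 hx0 p hp
    obtain ⟨k, hkG, hk, hkk⟩ := D.mid ha (D.pos ha hp1)
    have e2 : (g * k) ((g * k) x0) < y0 := by
      rw [mul_ap, mul_ap, D.comm hkG hg]
      have b1 := g.strictMono (g.strictMono ((hkk x0).trans_lt hp2))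
      rwa [ap_inv, ap_inv] at b1
    have e3 := h1 _ (G.mul_mem hg hkG) e2
    rw [mul_ap] at e3
    exact absurd (g.strictMono (hk x0)) (not_lt.mpr e3)
  · exact D.dj y0 (h ▸ D.ia g hg _ (D.ia g hg _ hx0)) hy0
  · have e1 : g⁻¹ (g⁻¹ y0) < x0 := by
      have := g⁻¹.strictMono (g⁻¹.strictMono h)
      rwa [inv_ap, inv_ap] at this
    obtain ⟨p, hp, hp1, hp2⟩ := D.da _ _ e1
    obtain ⟨a, ha, hap⟩ := D.ta p hp x0 hx0
    obtain ⟨k, hkG, hk, hkk⟩ := D.mid ha (D.pos ha (x := p) (by rwa [hap]))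
    have e2 : p ≤ k⁻¹ (k⁻¹ x0) := by
      have b1 := hkk p
      rw [hap] at b1
      have b2 := k⁻¹.monotone (k⁻¹.monotone b1)
      rwa [inv_ap, inv_ap] at b2
    have hkG' := G.inv_mem hkG
    have e3 : y0 < (g * k⁻¹) ((g * k⁻¹) x0) := by
      rw [mul_ap, mul_ap, D.comm hkG' hg]
      have b1 := g.strictMono (g.strictMono (hp1.trans_le e2))
      rwa [ap_inv, ap_inv] at b1
    have e4 := h2 ((g * k⁻¹) x0) (fun h hh hlt => by
      by_contra hcon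
      push Not at hcon
      have b1 := cmp D.fr (G.mul_mem hg hkG') hh hcon ((g * k⁻¹) x0)
      have b2 := h.strictMono hcon
      linarith)
    rw [mul_ap] at e4
    have e5 : k⁻¹ x0 < x0 := by
      have := hk (k⁻¹ x0)
      rwa [ap_inv] at this
    exact absurd (g.strictMono e5) (not_lt.mpr e4)

lemma Dat.caseB (D : Dat G A B) {g : ℝ ≃o ℝ} (hg : g ∈ G) {x0 y0 : ℝ} (hx0 : x0 ∈ A)
    (hy0 : y0 ∈ B) (h1 : ∀ k ∈ G, (k x0 < y0 ↔ g (g (k (k x0))) < y0)) : False := by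
  have hg' := G.inv_mem hg
  have hw : g⁻¹ (g⁻¹ x0) ∈ A := D.ia _ hg' _ (D.ia _ hg' _ hx0)
  rcases lt_trichotomy (g⁻¹ (g⁻¹ x0)) y0 with h | h | h
  · obtain ⟨p, hp, hp1, hp2⟩ := D.da _ _ h
    obtain ⟨u, hu, hup⟩ := D.ta _ hw p hp
    have hu1 := D.pos hu (x := g⁻¹ (g⁻¹ x0)) (by rwa [hup])
    have hmem : ∀ n : ℕ, u ^ n * (u * (g⁻¹ * g⁻¹)) ∈ G := fun n =>
      G.mul_mem (G.pow_mem hu n) (G.mul_mem hu (G.mul_mem hg' hg'))
    have key : ∀ n : ℕ, (u ^ n * (u * (g⁻¹ * g⁻¹))) x0 < y0 := by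
      intro n
      induction n with
      | zero =>
        rw [pow_zero, one_mul, mul_ap, mul_ap, hup]
        exact hp2
      | succ n ih =>
        have b1 := (h1 _ (hmem n)).mp ih
        set z := (u ^ n * (u * (g⁻¹ * g⁻¹))) x0 with hz
        have b2 : u (g⁻¹ (g⁻¹ z)) ≤ (u ^ n * (u * (g⁻¹ * g⁻¹))) z := by
          rw [mul_ap, mul_ap, mul_ap]
          exact pow_ge hu1 n _
        have b3 := g.monotone (g.monotone b2)
        have b4 : g (g (u (g⁻¹ (g⁻¹ z)))) = u z := by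
          rw [D.comm hg hu, D.comm hg hu, ap_inv, ap_inv]
        rw [b4] at b3
        have b5 : (u ^ (n + 1) * (u * (g⁻¹ * g⁻¹))) x0 = u z := by
          rw [pow_succ', mul_assoc, mul_ap]
        rw [b5]
        exact b3.trans_lt b1
    obtain ⟨n, hn⟩ := arch hu1 p y0
    have := key n
    rw [mul_ap, mul_ap, mul_ap, hup] at this
    exact absurd this (not_lt.mpr hn.le)
  · exact D.dj y0 (h ▸ hw) hy0
  · obtain ⟨p, hp, hp1, hp2⟩ := D.da _ _ h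
    obtain ⟨u, hu, hup⟩ := D.ta p hp _ hw
    have hu1 := D.pos hu (x := p) (by rwa [hup])
    have hu' := G.inv_mem hu
    have hup' : u⁻¹ (g⁻¹ (g⁻¹ x0)) = p := by rw [← hup, inv_ap]
    have hmem : ∀ n : ℕ, (u⁻¹) ^ n * (u⁻¹ * (g⁻¹ * g⁻¹)) ∈ G := fun n =>
      G.mul_mem (G.pow_mem hu' n) (G.mul_mem hu' (G.mul_mem hg' hg'))
    have hle : ∀ (n : ℕ) (z : ℝ), ((u⁻¹) ^ n) z ≤ z := by
      intro n z
      have b1 := pow_ge hu1 n (((u⁻¹) ^ n) z)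
      rw [inv_pow] at b1 ⊢
      rwa [ap_inv] at b1
    have key : ∀ n : ℕ, ¬ ((u⁻¹) ^ n * (u⁻¹ * (g⁻¹ * g⁻¹))) x0 < y0 := by
      intro n
      induction n with
      | zero =>
        rw [pow_zero, one_mul, mul_ap, mul_ap, hup']
        exact not_lt.mpr hp1.le
      | succ n ih =>
        have b1 := fun hh => ih ((h1 _ (hmem n)).mpr hh)
        set z := ((u⁻¹) ^ n * (u⁻¹ * (g⁻¹ * g⁻¹))) x0 with hz
        have b2 : ((u⁻¹) ^ n * (u⁻¹ * (g⁻¹ * g⁻¹))) z ≤ u⁻¹ (g⁻¹ (g⁻¹ z)) := by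
          rw [mul_ap, mul_ap, mul_ap]
          exact hle n _
        have b3 := g.monotone (g.monotone b2)
        have b4 : g (g (u⁻¹ (g⁻¹ (g⁻¹ z)))) = u⁻¹ z := by
          rw [D.comm hg hu', D.comm hg hu', ap_inv, ap_inv]
        rw [b4] at b3
        have b5 : ((u⁻¹) ^ (n + 1) * (u⁻¹ * (g⁻¹ * g⁻¹))) x0 = u⁻¹ z := by
          rw [pow_succ', mul_assoc, mul_ap]
        rw [b5]
        intro hlt
        exact b1 (b3.trans_lt hlt)
    obtain ⟨n, hn⟩ := arch' hu1 p y0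
    have := key n
    rw [mul_ap, mul_ap, mul_ap, hup'] at this
    exact this hn

lemma Dat.false (D : Dat G A B) : False := by
  obtain ⟨y0, hy0⟩ := D.nb
  obtain ⟨x0, hx0, -, hxy⟩ := D.da (y0 - 1) y0 (by linarith)
  set T : Set ℝ := {t | ∃ h ∈ G, h (h x0) < y0 ∧ h x0 = t} with hT
  have hT0 : x0 ∈ T := ⟨1, G.one_mem, hxy, rfl⟩
  have hbd : BddAbove T := by
    refine ⟨y0, ?_⟩
    rintro _ ⟨h, hh, hlt, rfl⟩
    rcases le_or_gt (h x0) x0 with hc | hc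
    · linarith
    · exact ((D.pos hh hc (h x0)).trans hlt).le
  set m := sSup T with hm
  have f1 : ∀ h ∈ G, h (h x0) < y0 → h x0 ≤ m := fun h hh hlt => le_csSup hbd ⟨h, hh, hlt, rfl⟩
  have f2 : ∀ b : ℝ, (∀ h ∈ G, h (h x0) < y0 → h x0 ≤ b) → m ≤ b := fun b hb => by
    refine csSup_le ⟨x0, hT0⟩ ?_
    rintro _ ⟨h, hh, hlt, rfl⟩
    exact hb h hh hlt
  have f3 : ∀ h ∈ G, h x0 < m → h (h x0) < y0 := by
    intro h hh hlt
    obtain ⟨_, ⟨h', hh', hlt', rfl⟩, h4⟩ := exists_lt_of_lt_csSup ⟨x0, hT0⟩ hlt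
    have b1 := cmp D.fr hh hh' h4 (h x0)
    have b2 := h'.strictMono h4
    linarith
  rcases D.un m with hmA | hmB
  · obtain ⟨g, hg, hgm⟩ := D.ta x0 hx0 m hmA
    rw [← hgm] at f1 f2
    exact D.caseA hg hx0 hy0 f1 f2
  · obtain ⟨g, hg, hgm⟩ := D.tb y0 hy0 m hmB
    refine D.caseB hg hx0 hy0 fun k hk => ?_
    have e : g (g (k (k x0))) = (g * k) ((g * k) x0) := by
      rw [mul_ap, mul_ap, D.comm hk hg]
    rw [e]
    have hgk := G.mul_mem hg hk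
    have hne : (g * k) x0 ≠ m := fun hh => D.dj m (hh ▸ D.ia _ hgk _ hx0) hmB
    constructor
    · intro h
      apply f3 _ hgk
      rw [mul_ap, ← hgm]
      exact g.strictMono h
    · intro h
      have b1 := lt_of_le_of_ne (f1 _ hgk h) hne
      rw [mul_ap, ← hgm] at b1
      exact g.lt_iff_lt.mp b1

/-! ### transport to the real line -/

/-- an increasing bijection of the line with `(0,c)` -/
noncomputable def F (c t : ℝ) : ℝ := c * (1 + Real.exp (-t))⁻¹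

lemma F_mem {c : ℝ} (hc : 0 < c) (t : ℝ) : F c t ∈ Ioo 0 c := by
  unfold F
  have h1 := Real.exp_pos (-t)
  have h2 : (1 + Real.exp (-t))⁻¹ < 1 := inv_lt_one_of_one_lt₀ (by linarith)
  have h3 : 0 < (1 + Real.exp (-t))⁻¹ := by positivity
  constructor
  · positivity
  · nlinarith

lemma F_mono {c : ℝ} (hc : 0 < c) : StrictMono (F c) := by
  intro s t hst
  unfold F
  have h1 := Real.exp_pos (-s)
  have h2 := Real.exp_pos (-t)
  have h3 : Real.exp (-t) < Real.exp (-s) := Real.exp_lt_exp.mpr (by linarith)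
  apply mul_lt_mul_of_pos_left _ hc
  exact inv_strictAnti₀ (by linarith) (by linarith)

lemma F_surj {c : ℝ} (_hc : 0 < c) {x : ℝ} (hx : x ∈ Ioo 0 c) : ∃ t, F c t = x := by
  obtain ⟨h1, h2⟩ := hx
  refine ⟨Real.log (x / (c - x)), ?_⟩
  have h3 : 0 < c - x := by linarith
  unfold F
  rw [Real.exp_neg, Real.exp_log (by positivity)]
  field_simp
  ring

end Pool.Agent.H273.FAN.PHOLD

namespace Pool.Agent.H273.FAN

open PHOLD in
theorem t_HOLD : S_HOLD := by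
  intro c hc Γ A B hg hmul hinv hfree hun hdj hnA hnB htA htB hiA hiB hdA hdB
  have hFinj := (F_mono hc).injective
  have hone : ∃ g ∈ Γ, ∀ x ∈ Ioo 0 c, g x = x := by
    obtain ⟨a, ha⟩ := hnA
    obtain ⟨g, hg1, hg2⟩ := htA a ha a ha
    have ha' : a ∈ Ioo 0 c := hun ▸ Or.inl ha
    exact ⟨g, hg1, hfree g hg1 a ha' hg2⟩
  let G : Subgroup (ℝ ≃o ℝ) :=
    { carrier := {e | ∃ g ∈ Γ, ∀ t, F c (e t) = g (F c t)}
      mul_mem' := by
        rintro e1 e2 ⟨g1, h1, h1'⟩ ⟨g2, h2, h2'⟩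
        obtain ⟨k, hk, hk'⟩ := hmul g1 h1 g2 h2
        refine ⟨k, hk, fun t => ?_⟩
        rw [mul_ap, h1', h2', hk' _ (F_mem hc t)]
      one_mem' := by
        obtain ⟨g, h1, h2⟩ := hone
        exact ⟨g, h1, fun t => by rw [one_ap, h2 _ (F_mem hc t)]⟩
      inv_mem' := by
        rintro e ⟨g, h1, h2⟩
        obtain ⟨k, hk, hk'⟩ := hinv g h1
        refine ⟨k, hk, fun t => ?_⟩
        have h3 := h2 (e⁻¹ t)
        rw [ap_inv] at h3
        rw [h3, (hk' _ (F_mem hc _)).1] }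
  have hmemG : ∀ e : ℝ ≃o ℝ, e ∈ G ↔ ∃ g ∈ Γ, ∀ t, F c (e t) = g (F c t) := fun e => Iff.rfl
  have hreal : ∀ g ∈ Γ, ∃ e ∈ G, ∀ t, F c (e t) = g (F c t) := by
    intro g h1
    obtain ⟨hcont, hmon, hmaps⟩ := hg g h1
    obtain ⟨k, hk, hk'⟩ := hinv g h1
    choose f hf using fun t : ℝ => F_surj hc (hmaps (F_mem hc t))
    have hfm : StrictMono f := by
      intro s t hst
      have h2 := hmon (F_mem hc s) (F_mem hc t) (F_mono hc hst)
      rw [← hf s, ← hf t] at h2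
      exact (F_mono hc).lt_iff_lt.mp h2
    have hfs : Function.Surjective f := by
      intro t
      obtain ⟨s, hs⟩ := F_surj hc ((hg k hk).2.2 (F_mem hc t))
      refine ⟨s, hFinj ?_⟩
      rw [hf, hs, (hk' _ (F_mem hc t)).2]
    have he : ∀ t, F c ((hfm.orderIsoOfSurjective f hfs) t) = g (F c t) := fun t => hf t
    exact ⟨hfm.orderIsoOfSurjective f hfs, (hmemG _).mpr ⟨g, h1, he⟩, he⟩
  have hdens : ∀ S : Set ℝ, S ⊆ Ioo 0 c → Ioo 0 c ⊆ closure S → ∀ x y : ℝ, x < y →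
      ∃ a ∈ {t | F c t ∈ S}, x < a ∧ a < y := by
    intro S hS1 hS2 x y hxy
    have h1 := F_mono hc hxy
    have h2 := F_mem hc x
    have h3 := F_mem hc y
    have h4 : (F c x + F c y) / 2 ∈ Ioo (F c x) (F c y) := ⟨by linarith, by linarith⟩
    have h5 : (F c x + F c y) / 2 ∈ Ioo 0 c := ⟨by linarith [h2.1, h3.1], by linarith [h2.2, h3.2]⟩
    obtain ⟨p, hp1, hp2⟩ := mem_closure_iff.mp (hS2 h5) _ isOpen_Ioo h4
    obtain ⟨t, rfl⟩ := F_surj hc (hS1 hp2)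
    exact ⟨t, hp2, (F_mono hc).lt_iff_lt.mp hp1.1, (F_mono hc).lt_iff_lt.mp hp1.2⟩
  have hAs : A ⊆ Ioo 0 c := fun a ha => hun ▸ Or.inl ha
  have hBs : B ⊆ Ioo 0 c := fun b hb => hun ▸ Or.inr hb
  have D : Dat G {t | F c t ∈ A} {t | F c t ∈ B} :=
    { fr := by
        intro e he t het
        obtain ⟨g, h1, h2⟩ := (hmemG e).mp he
        have h3 := hfree g h1 (F c t) (F_mem hc t) (by rw [← h2, het])
        ext s
        rw [one_ap]
        exact hFinj (by rw [h2, h3 _ (F_mem hc s)])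
      un := fun t => by
        have := F_mem hc t
        rw [← hun] at this
        exact this
      dj := fun t h1 h2 => Set.disjoint_left.mp hdj h1 h2
      na := by
        obtain ⟨a, ha⟩ := hnA
        obtain ⟨t, rfl⟩ := F_surj hc (hAs ha)
        exact ⟨t, ha⟩
      nb := by
        obtain ⟨a, ha⟩ := hnB
        obtain ⟨t, rfl⟩ := F_surj hc (hBs ha)
        exact ⟨t, ha⟩
      ta := fun x hx y hy => by
        obtain ⟨g, h1, h2⟩ := htA _ hx _ hy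
        obtain ⟨e, he, he'⟩ := hreal g h1
        exact ⟨e, he, hFinj (by rw [he', h2])⟩
      tb := fun x hx y hy => by
        obtain ⟨g, h1, h2⟩ := htB _ hx _ hy
        obtain ⟨e, he, he'⟩ := hreal g h1
        exact ⟨e, he, hFinj (by rw [he', h2])⟩
      ia := fun e he x hx => by
        obtain ⟨g, h1, h2⟩ := (hmemG e).mp he
        show F c (e x) ∈ A
        rw [h2]
        exact hiA g h1 _ hx
      ib := fun e he x hx => by
        obtain ⟨g, h1, h2⟩ := (hmemG e).mp he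
        show F c (e x) ∈ B
        rw [h2]
        exact hiB g h1 _ hx
      da := hdens A hAs hdA
      db := hdens B hBs hdB }
  exact D.false

end Pool.Agent.H273.FAN
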