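import Pool.Agent.H273.FAN.Stm1
import Pool.Agent.H273.FAN.Api

set_option autoImplicit false

namespace Pool.Agent.H273.FAN

open Set Filter Topology Metric

/-- the smallest subcontinuum through two points is connected -/
theorem t_JC : S_JC := by
  intro X _ _ _ hX t x
  have hdir : Directed (· ⊇ ·) (fun K : {K : Set X // IsClosed K ∧ IsConnected K ∧ t ∈ K ∧ x ∈ K} =>
      (K : Set X)) := by
    rintro ⟨A, hA⟩ ⟨B, hB⟩
    exact ⟨⟨A ∩ B, hA.1.inter hB.1, ⟨⟨t, hA.2.2.1, hB.2.2.1⟩, hX A B hA.1 hA.2.1 hB.1 hB.2.1⟩,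
      ⟨hA.2.2.1, hB.2.2.1⟩, ⟨hA.2.2.2, hB.2.2.2⟩⟩, inter_subset_left, inter_subset_right⟩
  have hne : Nonempty {K : Set X // IsClosed K ∧ IsConnected K ∧ t ∈ K ∧ x ∈ K} :=
    ⟨⟨univ, isClosed_univ, isConnected_univ, mem_univ _, mem_univ _⟩⟩
  have hJ : J t x = ⋂ K : {K : Set X // IsClosed K ∧ IsConnected K ∧ t ∈ K ∧ x ∈ K},
      (K : Set X) := by
    rw [J, sInter_eq_iInter]; rfl
  have hJc : IsClosed (J t x) := isClosed_sInter fun K hK => hK.1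
  have htJ : t ∈ J t x := fun K hK => hK.2.2.1
  refine ⟨⟨t, htJ⟩, ?_⟩
  rw [isPreconnected_closed_iff]
  by_contra hcon
  push Not at hcon
  obtain ⟨A, B, hA, hB, hAB, hA', hB', hne'⟩ := hcon
  have hdis : Disjoint (J t x ∩ A) (J t x ∩ B) := by
    rw [Set.disjoint_left]
    rintro y ⟨h1, h2⟩ ⟨_, h3⟩
    exact (hne'.subset (show y ∈ J t x ∩ (A ∩ B) from ⟨h1, h2, h3⟩))
  obtain ⟨U, V, hU, hV, hAU, hBV, hUV⟩ := normal_separation
    (hJc.inter hA) (hJc.inter hB) hdis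
  have hsub : J t x ⊆ U ∪ V := by
    intro y hy
    rcases hAB hy with h | h
    · exact Or.inl (hAU ⟨hy, h⟩)
    · exact Or.inr (hBV ⟨hy, h⟩)
  obtain ⟨⟨K, hK⟩, hKU⟩ := exists_subset_nhds_of_isCompact' hdir
    (fun K => K.2.1.isCompact) (fun K => K.2.1)
    (U := U ∪ V) (fun y hy => (hU.union hV).mem_nhds (hsub (by rw [hJ]; exact hy)))
  have hJK : J t x ⊆ K := sInter_subset_of_mem hK
  obtain ⟨z, hz1, hz2⟩ := hA'
  obtain ⟨w, hw1, hw2⟩ := hB'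
  have h1 : K ⊆ U := hK.2.1.isPreconnected.subset_left_of_subset_union hU hV hUV hKU
    ⟨z, hJK hz1, hAU ⟨hz1, hz2⟩⟩
  exact Set.disjoint_left.1 hUV (h1 (hJK hw1)) (hBV ⟨hw1, hw2⟩)

end Pool.Agent.H273.FAN
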