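import Pool.Agent.H273.FAN.Stm1
import Pool.Agent.H273.FAN.Api

/-!
# MP_64e39e_gt / S13290, part LAST: the last time at a given height (helper233)
-/

set_option autoImplicit false

namespace Pool.Agent.H273.FAN

open Set Filter Topology Metric

namespace PLAST

/-- `J t x` is closed -/
theorem J_closed {X : Type} [TopologicalSpace X] (t x : X) : IsClosed (J t x) :=
  isClosed_sInter fun _ hK => hK.1

theorem J_memt {X : Type} [TopologicalSpace X] (t x : X) : t ∈ J t x :=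
  mem_sInter.2 fun _ hK => hK.2.2.1

theorem J_memx {X : Type} [TopologicalSpace X] (t x : X) : x ∈ J t x :=
  mem_sInter.2 fun _ hK => hK.2.2.2

/-- a point of a nondegenerate connected set is in the closure of the rest -/
theorem mem_closure_diff {X : Type} [TopologicalSpace X] [T1Space X] {U : Set X}
    (hU : IsPreconnected U) (hn : U.Nontrivial) {c : X} (hc : c ∈ U) : c ∈ closure (U \ {c}) := by
  have h := hU.preperfect_of_nontrivial hn c hc
  rw [mem_closure_iff_clusterPt]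
  exact accPt_principal_iff_clusterPt.1 h

end PLAST

open PLAST

theorem t_LAST (h1 : S_JC) : S_LAST := by
  intro X _ _ _ hHU μ hμ t γ hγ τ₀ r _ hr0 hr hlt τ hτ0 hτ1
  rcases eq_or_lt_of_le hτ0 with h | hlt0
  · rw [h]
  have hJc : ∀ x : X, IsConnected (J t x) := h1 X hHU t
  -- the path from `c = γ τ₀` to `γ τ`
  have hCcomp : IsCompact (γ '' Icc τ₀ τ) := isCompact_Icc.image hγ
  have hCconn : IsConnected (γ '' Icc τ₀ τ) := (isConnected_Icc hτ0).image _ hγ.continuousOn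
  have hc : γ τ₀ ∈ γ '' Icc τ₀ τ := ⟨τ₀, left_mem_Icc.2 hτ0, rfl⟩
  have hc' : γ τ ∈ γ '' Icc τ₀ τ := ⟨τ, right_mem_Icc.2 hτ0, rfl⟩
  have hKconn : IsConnected (J t (γ τ) ∪ γ '' Icc τ₀ τ) :=
    IsConnected.union ⟨γ τ, J_memx t (γ τ), hc'⟩ (hJc _) hCconn
  have hsub : J t (γ τ₀) ⊆ J t (γ τ) ∪ γ '' Icc τ₀ τ :=
    J_min ((J_closed _ _).union hCcomp.isClosed) hKconn (Or.inl (J_memt _ _)) (Or.inr hc)
  -- the path meets `J t c` only in `c`
  have honly : ∀ v ∈ J t (γ τ₀), v ∈ γ '' Icc τ₀ τ → v = γ τ₀ := by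
    rintro v hv ⟨τ', hτ', rfl⟩
    rcases eq_or_lt_of_le hτ'.1 with h | h
    · rw [h]
    · exfalso
      have h2 : J t (γ τ') ⊆ J t (γ τ₀) :=
        J_min (J_closed _ _) (hJc _) (J_memt _ _) hv
      have h3 := hμ.mono _ _ ⟨t, J_memt t (γ τ')⟩ h2
      have h4 := hlt τ' h (hτ'.2.trans hτ1)
      rw [hr] at h3
      exact absurd h3 (not_le.2 h4)
  have hdiff : J t (γ τ₀) \ {γ τ₀} ⊆ J t (γ τ) := by
    rintro v ⟨hv, hne⟩
    rcases hsub hv with h | h
    · exact h
    · exact absurd (honly v hv h) hne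
  have hnt : (J t (γ τ₀)).Nontrivial := by
    rw [← Set.not_subsingleton_iff]
    intro hss
    have h2 : J t (γ τ₀) = {γ τ₀} := hss.eq_singleton_of_mem (J_memx _ _)
    rw [h2, hμ.single] at hr
    exact absurd hr.symm hr0.ne'
  have hcc : γ τ₀ ∈ J t (γ τ) := by
    have h2 := mem_closure_diff (hJc (γ τ₀)).isPreconnected hnt (J_memx t (γ τ₀))
    have h3 := closure_mono hdiff h2
    rwa [(J_closed t (γ τ)).closure_eq] at h3
  exact J_min (J_closed _ _) (hJc _) (J_memt _ _) hcc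

end Pool.Agent.H273.FAN
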