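import Pool.Agent.H273.FAN.Api3

set_option autoImplicit false

namespace Pool.Agent.H273.FAN

open Set Filter Topology Metric

theorem t_LEL (h1 : S_SEQ) (h2 : S_LIM) : S_LEL := by
  intro X _ _ t s e F hL hs hd
  obtain ⟨x0, hx0⟩ := F.exists_ne
  obtain ⟨q, -, hq⟩ := isCompact_univ.exists_isMaxOn ⟨x0, mem_univ _⟩ hs.continuousOn
  have hmax : ∀ x, s x ≤ s (e q) := fun x => (hq (mem_univ x)).trans (F.toDen.s_mono (F.le_e q))
  have hsb : 0 < s (e q) := (F.toDen.s_pos hx0).trans_le (hmax x0)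
  have hbt : e q ≠ t := by
    intro h
    rw [h, F.s_t] at hsb
    exact lt_irrefl _ hsb
  have hb : e q ∈ Ends t e := ⟨hbt, F.e_e q⟩
  refine ⟨e q, hb, ?_⟩
  intro x hx y hy hxt hxb hyt hyb
  have hx1 := F.toDen.s_pos hxt
  have hx2 := F.toDen.s_lt hx hxb
  have hy1 := F.toDen.s_pos hyt
  have hy2 := F.toDen.s_lt hy hyb
  set b := e q with hbdef
  have lx : Real.log (s x / s b) < 0 :=
    Real.log_neg (div_pos hx1 hsb) ((div_lt_one hsb).2 hx2)
  have ly : Real.log (s y / s b) < 0 :=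
    Real.log_neg (div_pos hy1 hsb) ((div_lt_one hsb).2 hy2)
  obtain ⟨κ, hκ⟩ : ∃ κ, κ = Real.log (s x / s b) / Real.log (s y / s b) := ⟨_, rfl⟩
  have hκ0 : 0 < κ := by
    rw [hκ]
    exact div_pos_of_neg_of_neg lx ly
  have H1 : Ht t s := ⟨hs, F.s_t, fun x y hxy hne => F.toDen.s_lt hxy hne⟩
  have H2 : Ht t (fun v => s v ^ κ) := by
    refine ⟨hs.rpow_const fun v => Or.inr hκ0.le, ?_, ?_⟩
    · show s t ^ κ = 0
      rw [F.s_t, Real.zero_rpow hκ0.ne']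
    · intro x y hxy hne
      exact Real.rpow_lt_rpow (F.s_nonneg x) (F.toDen.s_lt hxy hne) hκ0
  have hmax2 : ∀ x, (fun v => s v ^ κ) x ≤ (fun v => s v ^ κ) b := fun x =>
    Real.rpow_le_rpow (F.s_nonneg x) (hmax x) hκ0.le
  obtain ⟨P, Q, π, hsys⟩ := h1 X t s e F hL hs hd s (fun v => s v ^ κ) H1 H2 b hb hmax hmax2
  obtain ⟨H, Hb, hH⟩ := h2 X t s e F s (fun v => s v ^ κ) H1 H2 b hb hmax hmax2 P Q π hsys
  refine ⟨H, ?_⟩
  have hHx : s (H x) ^ κ * s b = s b ^ κ * s x := hH x hx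
  have hyx : (s y / s b) ^ κ = s x / s b := by
    rw [Real.rpow_def_of_pos (div_pos hy1 hsb), hκ, mul_div_cancel₀ _ ly.ne,
      Real.exp_log (div_pos hx1 hsb)]
  have hyx2 : s y ^ κ * s b = s b ^ κ * s x := by
    rw [Real.div_rpow hy1.le hsb.le] at hyx
    have h3 : s b ^ κ ≠ 0 := (Real.rpow_pos_of_pos hsb κ).ne'
    field_simp at hyx
    linarith
  have h4 : s (H x) ^ κ = s y ^ κ := mul_right_cancel₀ hsb.ne' (hHx.trans hyx2.symm)
  have h5 : s (H x) = s y :=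
    (Real.rpow_left_inj (F.s_nonneg _) (F.s_nonneg _) hκ0.ne').1 h4
  have h6 : H x ∈ J t b := by
    have := (mem_img H (F.fix H)).2 hx
    rwa [Hb] at this
  exact F.toDen.s_inj h6 hy h5

end Pool.Agent.H273.FAN
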