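import Pool.Agent.H273.FAN.Api3

/-!
# FAN-LIM: a back-and-forth system of labellings gives a homeomorphism
-/

set_option autoImplicit false

open Set Filter Topology Metric

namespace Pool.Agent.H273.FAN.PLIM

open Pool.Agent.H273.FAN

variable {X : Type} [MetricSpace X] [CompactSpace X] {t b : X} {s : X → ℝ} {e : X → X}
  {f₁ f₂ : X → ℝ} {P Q : ℕ → X → ℕ} {π : ℕ → ℕ → ℕ}

theorem sysSymm (S : System t b e f₁ f₂ P Q π) : System t b e f₂ f₁ Q P π where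
  good n := (S.good n).symm
  compP := S.compQ
  compQ := S.compP
  sepP := S.sepQ
  sepQ := S.sepP
  ratio n i hi := by
    rw [← (S.good (n + 1)).rng] at hi
    have h := S.ratio n i hi
    rw [lam_symm f₁ f₂ (P (n + 1)) (Q (n + 1)) i, lam_symm f₁ f₂ (P n) (Q n) (π n i),
      neg_sub_neg, abs_sub_comm]
    exact h

/-- the approximations of the logarithmic ratio -/
noncomputable def phi (t : X) (f₁ f₂ : X → ℝ) (P Q : ℕ → X → ℕ) (n : ℕ) (x : X) : ℝ :=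
  lam t f₁ f₂ (P n) (Q n) (P n x)

theorem phi_step (S : System t b e f₁ f₂ P Q π) {x : X} (hx : x ≠ t) (n : ℕ) :
    dist (phi t f₁ f₂ P Q n x) (phi t f₁ f₂ P Q (n + 1) x) ≤ 1 * (1 / 2 : ℝ) ^ n := by
  have h := S.ratio n (P (n + 1) x) ⟨x, hx, rfl⟩
  rw [S.compP n x hx] at h
  rw [Real.dist_eq, abs_sub_comm, one_mul]
  exact h

theorem exists_Phi (S : System t b e f₁ f₂ P Q π) : ∃ Φ : X → ℝ, ∀ x, x ≠ t →
    Tendsto (fun n => phi t f₁ f₂ P Q n x) atTop (𝓝 (Φ x)) ∧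
      ∀ n, dist (phi t f₁ f₂ P Q n x) (Φ x) ≤ 2 * (1 / 2 : ℝ) ^ n := by
  have key : ∀ x, ∃ a : ℝ, x ≠ t → Tendsto (fun n => phi t f₁ f₂ P Q n x) atTop (𝓝 a) ∧
      ∀ n, dist (phi t f₁ f₂ P Q n x) a ≤ 2 * (1 / 2 : ℝ) ^ n := by
    intro x
    by_cases hx : x = t
    · exact ⟨0, fun h => absurd hx h⟩
    have hc := cauchySeq_of_le_geometric (1 / 2 : ℝ) 1 (by norm_num) (phi_step S hx)
    obtain ⟨a, ha⟩ := cauchySeq_tendsto_of_complete hc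
    refine ⟨a, fun _ => ⟨ha, fun n => ?_⟩⟩
    have h := dist_le_of_le_geometric_of_tendsto (1 / 2 : ℝ) 1 (by norm_num) (phi_step S hx) ha n
    refine h.trans (le_of_eq ?_)
    ring
  choose Φ hΦ using key
  exact ⟨Φ, hΦ⟩

/-- the labels are locally constant -/
theorem label_ev {P : X → ℕ} (h : Lab t P) {x : X} (hx : x ≠ t) :
    ∀ᶠ z in 𝓝 x, P z = P x ∧ z ≠ t := by
  have h1 := (h.cs (P x)).op.mem_nhds (show x ∈ P ⁻¹' {P x} \ {t} from ⟨rfl, hx⟩)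
  filter_upwards [h1] with z hz
  exact ⟨hz.1, hz.2⟩

theorem Phi_cont (S : System t b e f₁ f₂ P Q π) {Φ : X → ℝ}
    (hΦ : ∀ x, x ≠ t → Tendsto (fun n => phi t f₁ f₂ P Q n x) atTop (𝓝 (Φ x)) ∧
      ∀ n, dist (phi t f₁ f₂ P Q n x) (Φ x) ≤ 2 * (1 / 2 : ℝ) ^ n) {x : X} (hx : x ≠ t) :
    ContinuousAt Φ x := by
  rw [Metric.continuousAt_iff']
  intro ε hε
  have h0 : Tendsto (fun n : ℕ => 4 * (1 / 2 : ℝ) ^ n) atTop (𝓝 0) := by
    have h := (tendsto_pow_atTop_nhds_zero_of_lt_one (r := (1 / 2 : ℝ)) (by norm_num)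
      (by norm_num)).const_mul 4
    rwa [mul_zero] at h
  obtain ⟨n, hn⟩ := (h0.eventually (gt_mem_nhds hε)).exists
  filter_upwards [label_ev (S.good n).labP hx] with z hz
  have h1 := (hΦ x hx).2 n
  have h2 := (hΦ z hz.2).2 n
  have h3 : phi t f₁ f₂ P Q n z = phi t f₁ f₂ P Q n x := by
    unfold phi
    rw [hz.1]
  rw [h3] at h2
  have h4 := dist_triangle_left (Φ z) (Φ x) (phi t f₁ f₂ P Q n x)
  linarith

theorem Phi_bdd (S : System t b e f₁ f₂ P Q π) {Φ : X → ℝ}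
    (hΦ : ∀ x, x ≠ t → Tendsto (fun n => phi t f₁ f₂ P Q n x) atTop (𝓝 (Φ x)) ∧
      ∀ n, dist (phi t f₁ f₂ P Q n x) (Φ x) ≤ 2 * (1 / 2 : ℝ) ^ n) :
    ∃ C, ∀ x, x ≠ t → Φ x ≤ C := by
  obtain ⟨C, hC⟩ := (((S.good 0).labP.fin).image (lam t f₁ f₂ (P 0) (Q 0))).bddAbove
  refine ⟨C + 2, fun x hx => ?_⟩
  have h1 : phi t f₁ f₂ P Q 0 x ≤ C := hC ⟨P 0 x, ⟨x, hx, rfl⟩, rfl⟩
  have h2 := (hΦ x hx).2 0
  rw [Real.dist_eq, abs_le] at h2
  rw [pow_zero, mul_one] at h2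
  linarith [h2.1]

/-- uniqueness -/
theorem uniq (F : Fan X t s e) (hf₂ : Ht t f₂) (S : System t b e f₁ f₂ P Q π) {y y' : X}
    (hy : y ≠ t) (hy' : y' ≠ t) (hQ : ∀ n, Q n y = Q n y') (hf : f₂ y = f₂ y') : y = y' := by
  have he : e y = e y' := by
    by_contra hne
    obtain ⟨n, hn⟩ := S.sepQ y y' hy hy' hne
    exact hn (hQ n)
  by_contra hne
  rcases F.same he with h | h
  · exact (hf₂.mono _ _ h hne).ne hf
  · exact (hf₂.mono _ _ h (Ne.symm hne)).ne hf.symm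

/-- existence -/
theorem exists_y (F : Fan X t s e) (hf₁ : Ht t f₁) (hf₂ : Ht t f₂)
    (S : System t b e f₁ f₂ P Q π) {Φ : X → ℝ}
    (hΦ : ∀ x, x ≠ t → Tendsto (fun n => phi t f₁ f₂ P Q n x) atTop (𝓝 (Φ x)) ∧
      ∀ n, dist (phi t f₁ f₂ P Q n x) (Φ x) ≤ 2 * (1 / 2 : ℝ) ^ n) {x : X} (hx : x ≠ t) :
    ∃ y, y ≠ t ∧ (∀ n, Q n y = P n x) ∧ f₂ y = Real.exp (Φ x) * f₁ x := by
  have hD : ∀ n, CS t (Q n ⁻¹' {P n x} \ {t}) := fun n => (S.good n).labQ.cs _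
  have hDne : ∀ n, (Q n ⁻¹' {P n x} \ {t}).Nonempty := by
    intro n
    have h : P n x ∈ Q n '' {t}ᶜ := by
      rw [← (S.good n).rng]
      exact ⟨x, hx, rfl⟩
    obtain ⟨y, hy, hyx⟩ := h
    exact ⟨y, hyx, hy⟩
  have hC : ∀ n, CS t (P n ⁻¹' {P n x} \ {t}) := fun n => (S.good n).labP.cs _
  have hxC : ∀ n, x ∈ P n ⁻¹' {P n x} \ {t} := fun n => ⟨rfl, hx⟩
  have hdec1 : ∀ n, Q (n + 1) ⁻¹' {P (n + 1) x} \ {t} ⊆ Q n ⁻¹' {P n x} \ {t} := by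
    rintro n y ⟨hy, hyt⟩
    refine ⟨?_, hyt⟩
    have h1 : Q (n + 1) y = P (n + 1) x := hy
    have h2 : Q n y = P n x := by
      rw [← S.compQ n y hyt, h1, S.compP n x hx]
    exact h2
  have hdec : ∀ m n, m ≤ n → Q n ⁻¹' {P n x} \ {t} ⊆ Q m ⁻¹' {P m x} \ {t} := by
    intro m n hmn
    induction n, hmn using Nat.le_induction with
    | base => exact Subset.rfl
    | succ n _ ih => exact (hdec1 n).trans ih
  choose q hq1 hq2 hq3 hq4 using fun n => (hD n).max F (hDne n) hf₂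
  have hfx : 0 < f₁ x := hf₁.pos F.toDen hx
  have hge : ∀ n, Real.exp (phi t f₁ f₂ P Q n x) * f₁ x ≤ f₂ (q n) := by
    intro n
    obtain ⟨c, hc1, hc2, hc3, hc4⟩ := (hC n).max F ⟨x, hxC n⟩ hf₁
    have hcx : f₁ x ≤ f₁ c := hc3 x (hxC n)
    have hct : c ≠ t := hc1.2
    have hfc : 0 < f₁ c := hf₁.pos F.toDen hct
    have hfq : 0 < f₂ (q n) := hf₂.pos F.toDen (hq1 n).2
    have h1 : phi t f₁ f₂ P Q n x = Real.log (f₂ (q n)) - Real.log (f₁ c) := by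
      unfold phi lam
      rw [hq4 n, hc4]
    rw [h1, Real.exp_sub, Real.exp_log hfq, Real.exp_log hfc, div_mul_eq_mul_div,
      div_le_iff₀ hfc]
    exact mul_le_mul_of_nonneg_left hcx hfq.le
  obtain ⟨q0, φ, hφ, hlim⟩ := sub_conv q
  have h1 : Tendsto (fun n => Real.exp (phi t f₁ f₂ P Q (φ n) x) * f₁ x) atTop
      (𝓝 (Real.exp (Φ x) * f₁ x)) :=
    ((Real.continuous_exp.tendsto _).comp (((hΦ x hx).1).comp hφ.tendsto_atTop)).mul_const _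
  have h2 : Tendsto (fun n => f₂ (q (φ n))) atTop (𝓝 (f₂ q0)) :=
    (hf₂.cont.tendsto q0).comp hlim
  have h3 : Real.exp (Φ x) * f₁ x ≤ f₂ q0 := le_of_tendsto_of_tendsto' h1 h2 fun n => hge (φ n)
  have hpos : 0 < Real.exp (Φ x) * f₁ x := mul_pos (Real.exp_pos _) hfx
  have hq0 : q0 ≠ t := by
    rintro rfl
    rw [hf₂.at_t] at h3
    linarith
  have hmem : ∀ m, q0 ∈ Q m ⁻¹' {P m x} \ {t} := by
    intro m
    have h4 : q0 ∈ (Q m ⁻¹' {P m x} \ {t}) ∪ {t} := by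
      apply (hD m).cl.mem_of_tendsto hlim
      filter_upwards [eventually_ge_atTop m] with n hn
      exact Or.inl (hdec m (φ n) (hn.trans hφ.le_apply) (hq1 (φ n)))
    exact h4.resolve_right hq0
  obtain ⟨y, hy1, hy2⟩ := hf₂.ivt F.toDen q0 hpos.le h3
  have hyt : y ≠ t := by
    rintro rfl
    rw [hf₂.at_t] at hy2
    linarith
  refine ⟨y, hyt, fun n => ?_, hy2⟩
  exact ((hD n).sat F (hmem n) hyt (F.e_mem hy1 hyt)).1

/-- the limit map -/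
theorem core (F : Fan X t s e) (hf₁ : Ht t f₁) (hf₂ : Ht t f₂)
    (S : System t b e f₁ f₂ P Q π) : ∃ (Φ : X → ℝ) (H : X → X), Continuous H ∧ H t = t ∧
      (∀ x, x ≠ t → Tendsto (fun n => phi t f₁ f₂ P Q n x) atTop (𝓝 (Φ x))) ∧
      ∀ x, x ≠ t → H x ≠ t ∧ (∀ n, Q n (H x) = P n x) ∧
        f₂ (H x) = Real.exp (Φ x) * f₁ x := by
  obtain ⟨Φ, hΦ⟩ := exists_Phi S
  have key : ∀ x, ∃ y, (x = t → y = t) ∧ (x ≠ t → y ≠ t ∧ (∀ n, Q n y = P n x) ∧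
      f₂ y = Real.exp (Φ x) * f₁ x) := by
    intro x
    by_cases hx : x = t
    · exact ⟨t, fun _ => rfl, fun h => absurd hx h⟩
    · obtain ⟨y, hy⟩ := exists_y F hf₁ hf₂ S hΦ hx
      exact ⟨y, fun h => absurd h hx, fun _ => hy⟩
  choose H hH1 hH2 using key
  obtain ⟨C, hC⟩ := Phi_bdd S hΦ
  refine ⟨Φ, H, ?_, hH1 t rfl, fun x hx => (hΦ x hx).1, hH2⟩
  have hle : ∀ x, f₂ (H x) ≤ Real.exp C * f₁ x := by
    intro x
    by_cases hx : x = t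
    · rw [hH1 x hx, hx, hf₁.at_t, hf₂.at_t, mul_zero]
    · rw [(hH2 x hx).2.2]
      exact mul_le_mul_of_nonneg_right (Real.exp_le_exp.2 (hC x hx)) (hf₁.nonneg F.toDen x)
  rw [continuous_iff_seqContinuous]
  intro u x hu
  apply tendsto_of_sub
  intro φ y hφ hlim
  have hu' : Tendsto (fun n => u (φ n)) atTop (𝓝 x) := hu.comp hφ.tendsto_atTop
  have h2 : Tendsto (fun n => f₂ (H (u (φ n)))) atTop (𝓝 (f₂ y)) :=
    (hf₂.cont.tendsto y).comp hlim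
  by_cases hx : x = t
  · rw [hH1 x hx]
    by_contra hy
    have h3 : 0 < f₂ y := hf₂.pos F.toDen hy
    have h4 : Tendsto (fun n => Real.exp C * f₁ (u (φ n))) atTop (𝓝 (Real.exp C * f₁ x)) :=
      ((hf₁.cont.tendsto x).comp hu').const_mul _
    have h5 := le_of_tendsto_of_tendsto' h2 h4 fun n => hle _
    rw [hx, hf₁.at_t, mul_zero] at h5
    linarith
  · have hev : ∀ᶠ n in atTop, u (φ n) ≠ t :=
      hu'.eventually (isOpen_compl_singleton.mem_nhds hx)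
    have h3 : Tendsto (fun n => Real.exp (Φ (u (φ n))) * f₁ (u (φ n))) atTop
        (𝓝 (Real.exp (Φ x) * f₁ x)) :=
      ((Real.continuous_exp.tendsto _).comp ((Phi_cont S hΦ hx).tendsto.comp hu')).mul
        ((hf₁.cont.tendsto x).comp hu')
    have h4 : Tendsto (fun n => f₂ (H (u (φ n)))) atTop (𝓝 (Real.exp (Φ x) * f₁ x)) := by
      refine h3.congr' ?_
      filter_upwards [hev] with n hn
      exact ((hH2 _ hn).2.2).symm
    have h5 : f₂ y = Real.exp (Φ x) * f₁ x := tendsto_nhds_unique h2 h4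
    have hpos : 0 < Real.exp (Φ x) * f₁ x := mul_pos (Real.exp_pos _) (hf₁.pos F.toDen hx)
    have hyt : y ≠ t := by
      rintro rfl
      rw [hf₂.at_t] at h5
      linarith
    have hQ : ∀ n, Q n y = Q n (H x) := by
      intro n
      have h6 := hlim.eventually (label_ev (S.good n).labQ hyt)
      have h7 := hu'.eventually (label_ev (S.good n).labP hx)
      obtain ⟨k, hk1, hk2⟩ := (h6.and h7).exists
      have hk3 : Q n (H (u (φ k))) = Q n y := hk1.1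
      rw [(hH2 x hx).2.1 n, ← hk3, (hH2 _ hk2.2).2.1 n, hk2.1]
    exact uniq F hf₂ S hyt (hH2 x hx).1 hQ (by rw [h5, (hH2 x hx).2.2])

/-- the value of the ratio at the base point -/
theorem phi_base (F : Fan X t s e) (hf₁ : Ht t f₁) (hf₂ : Ht t f₂)
    (hb : b ∈ Ends t e) (h1 : ∀ x, f₁ x ≤ f₁ b) (h2 : ∀ x, f₂ x ≤ f₂ b)
    (S : System t b e f₁ f₂ P Q π) (n : ℕ) :
    phi t f₁ f₂ P Q n b = Real.log (f₂ b) - Real.log (f₁ b) := by
  have key : ∀ (O : Set X) (f : X → ℝ), b ∈ O → (∀ x, f x ≤ f b) → sSup (f '' O) = f b := by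
    intro O f hO hf
    apply le_antisymm
    · exact csSup_le ⟨_, ⟨b, hO, rfl⟩⟩ (by rintro _ ⟨x, hx, rfl⟩; exact hf x)
    · exact le_csSup ⟨f b, by rintro _ ⟨x, hx, rfl⟩; exact hf x⟩ ⟨b, hO, rfl⟩
  unfold phi lam
  rw [key (Q n ⁻¹' {P n b} \ {t}) f₂ ⟨(S.good n).base.symm, hb.1⟩ h2,
    key (P n ⁻¹' {P n b} \ {t}) f₁ ⟨rfl, hb.1⟩ h1]

end Pool.Agent.H273.FAN.PLIM

namespace Pool.Agent.H273.FAN

open PLIM

theorem t_LIM : S_LIM := by
  intro X _ _ t s e F f₁ f₂ hf₁ hf₂ b hb hb1 hb2 P Q π S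
  obtain ⟨Φ, H, hHc, hHt, hΦ, hH⟩ := core F hf₁ hf₂ S
  obtain ⟨Ψ, K, hKc, hKt, hΨ, hK⟩ := core F hf₂ hf₁ (sysSymm S)
  -- the two maps are inverse to each other
  have inv : ∀ (f₁ f₂ : X → ℝ) (P Q : ℕ → X → ℕ) (Φ Ψ : X → ℝ) (H K : X → X), Ht t f₁ →
      Ht t f₂ → System t b e f₁ f₂ P Q π → H t = t → K t = t →
      (∀ x, x ≠ t → Tendsto (fun n => phi t f₁ f₂ P Q n x) atTop (𝓝 (Φ x))) →
      (∀ x, x ≠ t → Tendsto (fun n => phi t f₂ f₁ Q P n x) atTop (𝓝 (Ψ x))) →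
      (∀ x, x ≠ t → H x ≠ t ∧ (∀ n, Q n (H x) = P n x) ∧ f₂ (H x) = Real.exp (Φ x) * f₁ x) →
      (∀ x, x ≠ t → K x ≠ t ∧ (∀ n, P n (K x) = Q n x) ∧ f₁ (K x) = Real.exp (Ψ x) * f₂ x) →
      ∀ x, K (H x) = x := by
    intro f₁ f₂ P Q Φ Ψ H K hf₁ hf₂ S hHt hKt hΦ hΨ hH hK x
    by_cases hx : x = t
    · rw [hx, hHt, hKt]
    obtain ⟨h1, h2, h3⟩ := hH x hx
    obtain ⟨h4, h5, h6⟩ := hK (H x) h1
    have h7 : Ψ (H x) = -Φ x := by
      have h8 := hΨ (H x) h1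
      have h9 := (hΦ x hx).neg
      refine tendsto_nhds_unique h8 (h9.congr fun n => ?_)
      unfold phi
      rw [h2 n, lam_symm f₁ f₂ (P n) (Q n)]
    refine uniq F hf₁ (sysSymm S) h4 hx (fun n => by rw [h5 n, h2 n]) ?_
    rw [h6, h7, h3, ← mul_assoc, ← Real.exp_add, neg_add_cancel, Real.exp_zero, one_mul]
  have hKH : ∀ x, K (H x) = x := inv f₁ f₂ P Q Φ Ψ H K hf₁ hf₂ S hHt hKt hΦ hΨ hH hK
  have hHK : ∀ x, H (K x) = x :=
    inv f₂ f₁ Q P Ψ Φ K H hf₂ hf₁ (sysSymm S) hKt hHt hΨ hΦ hK hH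
  let G : X ≃ₜ X :=
    { toFun := H
      invFun := K
      left_inv := hKH
      right_inv := hHK
      continuous_toFun := hHc
      continuous_invFun := hKc }
  have hG : ∀ x, G x = H x := fun x => rfl
  have hbt : b ≠ t := hb.1
  have hf1b : 0 < f₁ b := hf₁.pos F.toDen hbt
  have hf2b : 0 < f₂ b := hf₂.pos F.toDen hbt
  have hlab : ∀ x ∈ J t b, x ≠ t → ∀ n, P n x = P n b := by
    intro x hx hxt n
    have h1 : e x = e b := F.e_mem hx hxt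
    have h2 := ((S.good n).labP.cs (P n b)).sat F (x := b) ⟨rfl, hbt⟩ hxt h1
    exact h2.1
  have hΦb : ∀ x ∈ J t b, x ≠ t → Φ x = Real.log (f₂ b) - Real.log (f₁ b) := by
    intro x hx hxt
    refine tendsto_nhds_unique (hΦ x hxt) (tendsto_const_nhds.congr fun n => ?_)
    rw [← phi_base F hf₁ hf₂ hb hb1 hb2 S n]
    unfold phi
    rw [hlab x hx hxt n]
  have hexp : Real.exp (Real.log (f₂ b) - Real.log (f₁ b)) = f₂ b / f₁ b := by
    rw [Real.exp_sub, Real.exp_log hf2b, Real.exp_log hf1b]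
  refine ⟨G, ?_, ?_⟩
  · rw [hG]
    refine uniq F hf₂ S (hH b hbt).1 hbt (fun n => ?_) ?_
    · rw [(hH b hbt).2.1 n, (S.good n).base]
    · rw [(hH b hbt).2.2, hΦb b (F.toDen.memx b) hbt, hexp, div_mul_cancel₀ _ hf1b.ne']
  · intro x hx
    rw [hG]
    by_cases hxt : x = t
    · rw [hxt, hHt, hf₁.at_t, hf₂.at_t, zero_mul, mul_zero]
    · rw [(hH x hxt).2.2, hΦb x hx hxt, hexp]
      field_simp

end Pool.Agent.H273.FAN
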