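import Pool.Agent.H273.FAN.Stm2

/-!
# Project FAN, LXA: iteration of an expansion
-/

set_option autoImplicit false

namespace Pool.Agent.H273.FAN

open Set Filter Topology Metric

namespace PLXA

section
variable {X : Type} [MetricSpace X]

theorem thick_trans {A B C : Set X} {a b c : ℝ} (h1 : A ⊆ thickening a B)
    (h2 : B ⊆ thickening b C) (hc : a + b ≤ c) : A ⊆ thickening c C := by
  intro x hx
  obtain ⟨y, hy, hxy⟩ := mem_thickening_iff.1 (h1 hx)
  obtain ⟨z, hz, hyz⟩ := mem_thickening_iff.1 (h2 hy)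
  refine mem_thickening_iff.2 ⟨z, hz, ?_⟩
  have := dist_triangle x y z
  linarith

theorem thick_map {S T : Set X} {H : X → X} {η ε : ℝ}
    (hH : ∀ a b, dist a b < η → dist (H a) (H b) < ε) (h : S ⊆ thickening η T) :
    H '' S ⊆ thickening ε (H '' T) := by
  rintro _ ⟨x, hx, rfl⟩
  obtain ⟨y, hy, hxy⟩ := mem_thickening_iff.1 (h hx)
  exact mem_thickening_iff.2 ⟨H y, ⟨y, hy, rfl⟩, hH _ _ hxy⟩

end

section
variable {X : Type} [MetricSpace X] [CompactSpace X] {t : X} {s : X → ℝ} {e : X → X}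

/-- the choice of the radius `ρ_k` -/
theorem rho (F : Fan X t s e) (hL : LegUsc t e) {p : X} (hp : p ∈ Ends t e) (H : X ≃ₜ X) {δ : ℝ}
    (hδ : 0 < δ) : ∃ ρ > 0, ρ ≤ δ ∧ ∀ v ∈ H '' J t p, δ ≤ dist v t → ∀ x', dist x' v < ρ →
      J t (e x') ⊆ thickening δ (H '' J t p) := by
  by_contra hcon
  push Not at hcon
  have hpos : ∀ n : ℕ, (0:ℝ) < δ / ((n:ℝ) + 1) := fun n => by positivity
  have hle : ∀ n : ℕ, δ / ((n:ℝ) + 1) ≤ δ := fun n => by
    rw [div_le_iff₀ (by positivity)]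
    have : (0:ℝ) ≤ δ * n := by positivity
    nlinarith
  have hc := fun n : ℕ => hcon _ (hpos n) (hle n)
  choose v hv hvt x' hx' hsub using hc
  have hsub' : ∀ n, ∃ z ∈ J t (e (x' n)), z ∉ thickening δ (H '' J t p) := fun n => by
    have := hsub n
    rw [Set.not_subset] at this
    exact this
  choose z hz hzn using hsub'
  obtain ⟨v0, φ, hφ, hv0⟩ := sub_conv v
  obtain ⟨z0, ψ, hψ, hz0⟩ := sub_conv (fun n => z (φ n))
  have hLe : H '' J t p = J t (H p) := img H (F.fix H) p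
  have hcl : IsClosed (H '' J t p) := by rw [hLe]; exact F.closed _
  have hv0m : v0 ∈ H '' J t p := hcl.mem_of_tendsto hv0 (Eventually.of_forall fun n => hv (φ n))
  have hv0t : δ ≤ dist v0 t := by
    have h1 : Tendsto (fun n => dist (v (φ n)) t) atTop (𝓝 (dist v0 t)) :=
      hv0.dist tendsto_const_nhds
    exact ge_of_tendsto' h1 fun n => hvt (φ n)
  have hv0ne : v0 ≠ t := by
    rintro rfl
    rw [dist_self] at hv0t
    linarith
  have hdlim : Tendsto (fun n : ℕ => δ / ((n:ℝ) + 1)) atTop (𝓝 0) := by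
    have h6 := (tendsto_one_div_add_atTop_nhds_zero_nat (𝕜 := ℝ)).const_mul δ
    rw [mul_zero] at h6
    refine h6.congr fun n => ?_
    rw [mul_one_div]
  have hx0 : Tendsto (fun n => x' (φ n)) atTop (𝓝 v0) := by
    rw [tendsto_iff_dist_tendsto_zero] at hv0 ⊢
    have h2 : Tendsto (fun n => dist (x' (φ n)) (v (φ n)) + dist (v (φ n)) v0) atTop (𝓝 (0 + 0)) := by
      refine Tendsto.add ?_ hv0
      refine squeeze_zero (fun n => dist_nonneg) (fun n => (hx' (φ n)).le) ?_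
      exact hdlim.comp hφ.tendsto_atTop
    rw [add_zero] at h2
    exact squeeze_zero (fun n => dist_nonneg) (fun n => dist_triangle _ _ _) h2
  have h3 := hL (fun n => x' (φ (ψ n))) (fun n => z (φ (ψ n))) v0 z0 hv0ne
    (hx0.comp hψ.tendsto_atTop) hz0 (fun n => hz _)
  have h4 : e v0 = H p := by
    rw [hLe] at hv0m
    rw [F.e_mem hv0m hv0ne, ← F.e_homeo, hp.2]
  rw [h4, ← hLe] at h3
  have h5 : thickening δ (H '' J t p) ∈ 𝓝 z0 :=
    isOpen_thickening.mem_nhds (self_subset_thickening hδ _ h3)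
  obtain ⟨n, hn⟩ := (hz0.eventually h5).exists
  exact hzn _ hn

/-- one step of the iteration -/
def Step (t p w x₁ x₂ y₁ y₂ : X) (e : X → X) (k : ℕ) (σ σ' : (X ≃ₜ X) × ℝ) : Prop :=
  ∃ ρ : ℝ, 0 < ρ ∧ ρ ≤ (1/2) ^ k ∧ 0 < σ'.2 ∧ 2 * σ'.2 ≤ σ.2 ∧ 8 * σ'.2 ≤ ρ ∧
    (∀ v ∈ σ.1 '' J t p, (1/2:ℝ) ^ k ≤ dist v t → ∀ x', dist x' v < ρ →
      J t (e x') ⊆ thickening ((1/2) ^ k) (σ.1 '' J t p)) ∧
    σ'.1 '' J t p ⊆ thickening σ'.2 (σ.1 '' J t w) ∧
    σ'.1 '' J t x₁ ⊆ thickening σ'.2 (σ.1 '' J t y₁) ∧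
    σ.1 '' J t y₂ ⊆ thickening σ'.2 (σ'.1 '' J t x₂)

theorem step (F : Fan X t s e) (hL : LegUsc t e) {p : X} (hp : p ∈ Ends t e) {h : ℕ → X ≃ₜ X}
    {w x₁ x₂ y₁ y₂ : X} (hE : Expand t p h w x₁ x₂ y₁ y₂) (k : ℕ) (σ : (X ≃ₜ X) × ℝ)
    (hσ : 0 < σ.2) : ∃ σ' : (X ≃ₜ X) × ℝ, Step t p w x₁ x₂ y₁ y₂ e k σ σ' := by
  obtain ⟨ρ, hρ, hρk, hprop⟩ := rho F hL hp σ.1 (δ := (1/2:ℝ) ^ k) (by positivity)
  obtain ⟨ε, hε⟩ : ∃ ε : ℝ, ε = min (σ.2 / 2) (ρ / 8) := ⟨_, rfl⟩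
  have hε0 : 0 < ε := by rw [hε]; exact lt_min (by linarith) (by linarith)
  have hε1 : ε ≤ σ.2 / 2 := by rw [hε]; exact min_le_left _ _
  have hε2 : ε ≤ ρ / 8 := by rw [hε]; exact min_le_right _ _
  have huc : UniformContinuous σ.1 :=
    CompactSpace.uniformContinuous_of_continuous σ.1.continuous
  obtain ⟨η, hη, hη'⟩ := Metric.uniformContinuous_iff.1 huc ε hε0
  obtain ⟨n, ⟨h1, h2⟩, h3, h4⟩ := ((hE.hw η hη).and ((hE.h₁ η hη).and (hE.h₂ η hη))).exists
  have him : ∀ S : Set X, ((h n).trans σ.1) '' S = σ.1 '' (h n '' S) := fun S => by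
    rw [image_image]
    rfl
  refine ⟨((h n).trans σ.1, ε), ρ, hρ, hρk, hε0, by show 2 * ε ≤ σ.2; linarith,
    by show 8 * ε ≤ ρ; linarith, hprop, ?_, ?_, ?_⟩
  · show ((h n).trans σ.1) '' J t p ⊆ thickening ε (σ.1 '' J t w)
    rw [him]
    exact thick_map (fun a b hab => hη' hab) h1
  · show ((h n).trans σ.1) '' J t x₁ ⊆ thickening ε (σ.1 '' J t y₁)
    rw [him]
    exact thick_map (fun a b hab => hη' hab) h3.1
  · show σ.1 '' J t y₂ ⊆ thickening ε (((h n).trans σ.1) '' J t x₂)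
    rw [him]
    exact thick_map (fun a b hab => hη' hab) h4.2

end

end PLXA

open PLXA in
theorem t_LXA : S_LXA := by
  intro X _ _ t s e F hL p hp h w x₁ x₂ y₁ y₂ hE
  have D := F.toDen
  -- the distance of `x₂` from `J t x₁`
  obtain ⟨ρ₀, hρ₀⟩ : ∃ ρ₀, ρ₀ = infDist x₂ (J t x₁) := ⟨_, rfl⟩
  have hx2 : x₂ ∉ J t x₁ := fun h1 => hE.x_ne (F.anti _ _ hE.x₁_le h1)
  have hρpos : 0 < ρ₀ := by
    rw [hρ₀]
    exact ((F.closed x₁).notMem_iff_infDist_pos ⟨t, F.memt x₁⟩).1 hx2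
  have hdist : ∀ z ∈ J t x₁, ρ₀ ≤ dist x₂ z := fun z hz => by
    rw [hρ₀]
    exact infDist_le_dist_of_mem hz
  -- the sequence
  have hstep : ∀ (k : ℕ) (σ : {σ : (X ≃ₜ X) × ℝ // 0 < σ.2}),
      ∃ σ' : {σ : (X ≃ₜ X) × ℝ // 0 < σ.2}, Step t p w x₁ x₂ y₁ y₂ e k σ.1 σ'.1 := by
    intro k σ
    obtain ⟨σ', hσ'⟩ := step F hL hp hE k σ.1 σ.2
    have hpos : 0 < σ'.2 := by
      obtain ⟨ρ, -, -, h1, -⟩ := hσ'
      exact h1
    exact ⟨⟨σ', hpos⟩, hσ'⟩
  choose f hf using hstep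
  obtain ⟨S, hS0, hS⟩ : ∃ S : ℕ → {σ : (X ≃ₜ X) × ℝ // 0 < σ.2},
      (S 0).1 = (Homeomorph.refl X, ρ₀ / 8) ∧
      ∀ k, Step t p w x₁ x₂ y₁ y₂ e k (S k).1 (S (k + 1)).1 := by
    refine ⟨fun k => Nat.rec ⟨(Homeomorph.refl X, ρ₀ / 8), by show 0 < ρ₀ / 8; linarith⟩
      (fun k σ => f k σ) k, rfl, fun k => hf k _⟩
  obtain ⟨H, hH⟩ : ∃ H : ℕ → X ≃ₜ X, ∀ k, H k = (S k).1.1 := ⟨_, fun k => rfl⟩
  obtain ⟨b, hb⟩ : ∃ b : ℕ → ℝ, ∀ k, b k = (S k).1.2 := ⟨_, fun k => rfl⟩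
  have hH0 : H 0 = Homeomorph.refl X := by rw [hH, hS0]
  have hb0 : b 0 = ρ₀ / 8 := by rw [hb, hS0]
  have hSt : ∀ k, ∃ ρ : ℝ, 0 < ρ ∧ ρ ≤ (1/2) ^ k ∧ 0 < b (k+1) ∧ 2 * b (k+1) ≤ b k ∧
      8 * b (k+1) ≤ ρ ∧
      (∀ v ∈ H k '' J t p, (1/2:ℝ) ^ k ≤ dist v t → ∀ x', dist x' v < ρ →
        J t (e x') ⊆ thickening ((1/2) ^ k) (H k '' J t p)) ∧
      H (k+1) '' J t p ⊆ thickening (b (k+1)) (H k '' J t w) ∧
      H (k+1) '' J t x₁ ⊆ thickening (b (k+1)) (H k '' J t y₁) ∧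
      H k '' J t y₂ ⊆ thickening (b (k+1)) (H (k+1) '' J t x₂) := by
    intro k
    rw [hH, hH, hb, hb]
    exact hS k
  choose ρ hρ0 hρk hb1 hb2 hb3 hpr hA hB hC using hSt
  have hpow : ∀ k : ℕ, (0:ℝ) < (1/2) ^ k := fun k => by positivity
  -- drift of the legs
  have hwp : ∀ k, H k '' J t w ⊆ H k '' J t p := fun k => image_mono (D.sub hE.w_mem)
  have driftA : ∀ m k, H (k + m) '' J t p ⊆ thickening (2 * b (k+1)) (H k '' J t p) := by
    intro m
    induction m with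
    | zero =>
      intro k
      exact self_subset_thickening (by linarith [hb1 k]) _
    | succ m ih =>
      intro k
      have h1 := ih (k + 1)
      have h2 : k + (m + 1) = k + 1 + m := by ring
      rw [h2]
      exact thick_trans h1 ((hA k).trans (thickening_subset_of_subset _ (hwp k)))
        (by linarith [hb2 (k+1)])
  have driftB : ∀ m k, H (k + m) '' J t x₁ ⊆ thickening (2 * b (k+1)) (H k '' J t x₁) := by
    intro m
    induction m with
    | zero =>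
      intro k
      exact self_subset_thickening (by linarith [hb1 k]) _
    | succ m ih =>
      intro k
      have h1 := ih (k + 1)
      have h2 : k + (m + 1) = k + 1 + m := by ring
      rw [h2]
      exact thick_trans h1 ((hB k).trans (thickening_subset_of_subset _
        (image_mono (D.sub hE.y₁_le)))) (by linarith [hb2 (k+1)])
  have driftC : ∀ m k, H k '' J t x₂ ⊆ thickening (2 * b (k+1)) (H (k + m) '' J t x₂) := by
    intro m
    induction m with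
    | zero =>
      intro k
      exact self_subset_thickening (by linarith [hb1 k]) _
    | succ m ih =>
      intro k
      have h1 := ih (k + 1)
      have h2 : k + (m + 1) = k + 1 + m := by ring
      rw [h2]
      have h3 : H k '' J t x₂ ⊆ thickening (b (k+1)) (H (k+1) '' J t x₂) :=
        (image_mono (D.sub hE.y₂_ge)).trans (hC k)
      exact thick_trans h3 h1 (by linarith [hb2 (k+1)])
  have h2b0 : 2 * b (0 + 1) ≤ ρ₀ / 8 := by
    rw [← hb0]
    exact hb2 0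
  have hid : ∀ A : Set X, (H 0) '' A = A := fun A => by
    rw [hH0]
    simp
  -- points of `L_k` near `x₂`
  have hex : ∀ k, ∃ v ∈ H k '' J t p, dist x₂ v < ρ₀ / 8 := by
    intro k
    have h1 := driftC k 0
    rw [hid, zero_add k] at h1
    obtain ⟨v, hv, hd⟩ := mem_thickening_iff.1 (h1 (F.memx x₂))
    exact ⟨v, image_mono (D.sub hE.x₂_mem) hv, hd.trans_le h2b0⟩
  choose v hv hvd using hex
  obtain ⟨y, ψ, hψ, hy⟩ := sub_conv v
  have hyx : dist x₂ y ≤ ρ₀ / 8 := by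
    have h1 : Tendsto (fun n => dist x₂ (v (ψ n))) atTop (𝓝 (dist x₂ y)) :=
      tendsto_const_nhds.dist hy
    exact le_of_tendsto' h1 fun n => (hvd (ψ n)).le
  have hyt : y ≠ t := by
    rintro rfl
    have := hdist y (F.memt x₁)
    linarith
  have hytd : 0 < dist y t := dist_pos.2 hyt
  have hlimp : Tendsto (fun k : ℕ => ((1/2:ℝ)) ^ k) atTop (𝓝 0) :=
    tendsto_pow_atTop_nhds_zero_of_lt_one (by norm_num) (by norm_num)
  have hLe : ∀ k, H k '' J t p = J t (H k p) := fun k => img (H k) (F.fix (H k)) p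
  -- (1)
  have key1 : ∀ δ > 0, ∀ᶠ k in atTop, J t (e y) ⊆ thickening δ (H k '' J t p) := by
    intro δ hδ
    have h1 : ∀ᶠ k : ℕ in atTop, (1/2:ℝ) ^ k < min δ (dist y t / 2) :=
      hlimp.eventually_lt_const (lt_min hδ (by linarith))
    filter_upwards [h1] with k hk
    have hk1 : (1/2:ℝ) ^ k < δ := hk.trans_le (min_le_left _ _)
    have hk2 : (1/2:ℝ) ^ k < dist y t / 2 := hk.trans_le (min_le_right _ _)
    have h2 : ∀ᶠ j in atTop, dist (v (ψ j)) y < ρ k / 2 :=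
      (Metric.tendsto_nhds.1 hy) _ (by linarith [hρ0 k])
    have h3 : ∀ᶠ j in atTop, k ≤ ψ j := hψ.tendsto_atTop.eventually_ge_atTop k
    obtain ⟨j, hj1, hj2⟩ := (h2.and h3).exists
    obtain ⟨m, hm⟩ := Nat.exists_eq_add_of_le hj2
    have h4 := driftA m k
    rw [← hm] at h4
    obtain ⟨v', hv', hvd'⟩ := mem_thickening_iff.1 (h4 (hv (ψ j)))
    have h5 : dist y v' < ρ k := by
      have h7 := dist_triangle y (v (ψ j)) v'
      have h8 := dist_comm y (v (ψ j))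
      linarith [hb3 k, hρ0 k]
    have h6 : (1/2:ℝ) ^ k ≤ dist v' t := by
      have := dist_triangle y v' t
      linarith [hρk k]
    exact (hpr k v' hv' h6 y h5).trans (thickening_mono hk1.le _)
  -- nearest points
  have hnear : ∀ k, ∃ u ∈ H k '' J t p, infDist y (H k '' J t p) = dist y u := by
    intro k
    rw [hLe]
    exact (D.compact _).exists_infDist_eq_dist ⟨_, F.memx _⟩ y
  choose u hu hud using hnear
  have hulim : Tendsto u atTop (𝓝 y) := by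
    rw [Metric.tendsto_nhds]
    intro δ hδ
    filter_upwards [key1 δ hδ] with k hk
    obtain ⟨z, hz, hd⟩ := mem_thickening_iff.1 (hk (F.le_e y))
    rw [dist_comm, ← hud]
    exact (infDist_le_dist_of_mem hz).trans_lt hd
  -- (2)
  have key2 : ∀ δ > 0, ∀ᶠ k in atTop, H k '' J t p ⊆ thickening δ (J t (e y)) := by
    intro δ hδ
    by_contra hcon
    rw [not_eventually] at hcon
    have h1 : ∀ᶠ k in atTop, u k ≠ t := hulim.eventually_ne hyt
    obtain ⟨φ, hφ, hφ2⟩ := extraction_of_frequently_atTop (hcon.and_eventually h1)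
    have h2 : ∀ n, ∃ z ∈ H (φ n) '' J t p, z ∉ thickening δ (J t (e y)) := fun n =>
      Set.not_subset.1 (hφ2 n).1
    choose z hz hzn using h2
    obtain ⟨z0, χ, hχ, hz0⟩ := sub_conv z
    have h3 := hL (fun n => u (φ (χ n))) (fun n => z (χ n)) y z0 hyt
      ((hulim.comp hφ.tendsto_atTop).comp hχ.tendsto_atTop) hz0 (fun n => by
        have h4 := hu (φ (χ n))
        have h5 := hz (χ n)
        rw [hLe] at h4 h5
        have h6 : e (u (φ (χ n))) = H (φ (χ n)) p := by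
          rw [F.e_mem h4 (hφ2 (χ n)).2, ← F.e_homeo, hp.2]
        show z (χ n) ∈ J t (e (u (φ (χ n))))
        rw [h6]
        exact h5)
    have h5 : thickening δ (J t (e y)) ∈ 𝓝 z0 :=
      isOpen_thickening.mem_nhds (self_subset_thickening hδ _ h3)
    obtain ⟨n, hn⟩ := (hz0.eventually h5).exists
    exact hzn _ hn
  refine ⟨H, e y, y, 3 * ρ₀ / 4, ⟨F.e_ne hyt, F.e_e y⟩, F.le_e y, by linarith, ?_, ?_, ?_⟩
  · intro ε hε
    exact (key2 ε hε).and (key1 ε hε)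
  · intro ε hε
    have h1 : ∀ᶠ k : ℕ in atTop, (1/2:ℝ) ^ k < ε / 2 := hlimp.eventually_lt_const (by linarith)
    have h2 := (tendsto_add_atTop_nat 1).eventually (key1 (ε / 2) (by linarith))
    filter_upwards [key2 ε hε, h1, h2] with k hk1 hk2 hk3
    refine ⟨(hwp k).trans hk1, ?_⟩
    exact thick_trans hk3 (hA k) (by linarith [hb3 k, hρk k, hb1 k])
  · intro k z hz
    have h1 := driftB k 0
    rw [hid, zero_add k] at h1
    obtain ⟨z', hz', hd⟩ := mem_thickening_iff.1 (h1 hz)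
    have h2 := hdist z' hz'
    have h3 := dist_triangle x₂ y z
    have h4 := dist_triangle x₂ z z'
    rw [dist_comm z y]
    linarith

end Pool.Agent.H273.FAN
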