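import Pool.Agent.H273.FAN.Stm2

set_option autoImplicit false

namespace Pool.Agent.H273.FAN

theorem t_MEA : S_MEA := by
  intro X _ O h
  have h2 := IsMeagre.image_val h
  rwa [Set.image_univ, Subtype.range_coe] at h2

end Pool.Agent.H273.FAN
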