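import Pool.Agent.H273.FAN.Stm2

/-! MT: one of the two classes has the Effros property for `Stab {p}` on the leg. -/

set_option autoImplicit false

namespace Pool.Agent.H273.FAN

open Set Filter Topology Metric

namespace PMT

variable {X : Type} [MetricSpace X] [CompactSpace X] {t : X} {s : X → ℝ} {e : X → X} {A B : Set X}

/-- the orbit of a point of an orbit class `M` on the leg of an end `p` under `Stab {p}` -/
theorem orb_eq (F : Fan X t s e) {M : Set X} (hM : M ⊆ Int t e)
    (Morb : ∀ x ∈ M, ∀ y ∈ M, ∃ h : X ≃ₜ X, h x = y) (Minv : ∀ h : X ≃ₜ X, ∀ x ∈ M, h x ∈ M)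
    {p : X} (hp : p ∈ Ends t e) {a : X} (ha : a ∈ M) (hap : a ∈ J t p) :
    Orb ({p} : Set X) a = M ∩ J t p := by
  have key : ∀ x ∈ M, x ∈ J t p → e x = p := by
    intro x hx hxp
    rw [F.e_mem hxp (hM hx).1, hp.2]
  ext y
  constructor
  · rintro ⟨g, hg, rfl⟩
    refine ⟨Minv g a ha, ?_⟩
    have h1 : g p = p := hg p rfl
    rw [← h1]
    exact (mem_img g (F.fix g)).2 hap
  · rintro ⟨hy, hyp⟩
    obtain ⟨h, hh⟩ := Morb a ha y hy
    refine ⟨h, ?_, hh⟩
    rintro _ rfl
    have h1 := F.e_homeo h a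
    rw [key a ha hap, hh, key y hy hyp] at h1
    exact h1

omit [CompactSpace X] in
/-- a subset of `L` that is meager in itself is meager in the subspace `L` -/
theorem meagre_sub {L O : Set X} (hO : O ⊆ L) (h : IsMeagre (Set.univ : Set O)) :
    IsMeagre {y : L | (y : X) ∈ O} := by
  let f : O → L := fun z => ⟨z, hO z.2⟩
  have hf : Topology.IsInducing f := by
    apply Topology.IsInducing.of_comp (g := (Subtype.val : L → X))
    · exact Continuous.subtype_mk continuous_subtype_val _
    · exact continuous_subtype_val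
    · exact Topology.IsInducing.subtypeVal
  refine (hf.isMeagre_image h).mono ?_
  rintro y hy
  exact ⟨⟨y, hy⟩, mem_univ _, rfl⟩

/-- points are nowhere dense in a nondegenerate connected space -/
theorem nwd_point {Y : Type} [MetricSpace Y] [PreconnectedSpace Y] {x y : Y} (h : x ≠ y) :
    IsNowhereDense ({x} : Set Y) := by
  rw [isClosed_singleton.isNowhereDense_iff]
  by_contra hne
  obtain ⟨z, hz⟩ := nonempty_iff_ne_empty.2 hne
  have h1 : interior ({x} : Set Y) = {x} := by
    apply Subset.antisymm interior_subset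
    rintro _ rfl
    have hzx := interior_subset hz
    rw [mem_singleton_iff] at hzx
    rwa [hzx] at hz
  have h2 : IsClopen ({x} : Set Y) := ⟨isClosed_singleton, interior_eq_iff_isOpen.1 h1⟩
  rcases isClopen_iff.1 h2 with h3 | h3
  · exact (singleton_ne_empty x) h3
  · have : y ∈ ({x} : Set Y) := by rw [h3]; exact mem_univ y
    exact h (mem_singleton_iff.1 this).symm

end PMT

open PMT in
theorem t_MT (h1 : S_EFF1) (h2 : S_EFF2) : S_MT := by
  intro X _ _ t s e A B S p hp
  by_contra hcon
  push Not at hcon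
  obtain ⟨⟨a, ha, hap, hna⟩, b, hb, hbp, hnb⟩ := hcon
  have F : Fan X t s e := S.toFan
  have hAI : A ⊆ Int t e := S.cover ▸ subset_union_left
  have hBI : B ⊆ Int t e := S.cover ▸ subset_union_right
  have ka : IsMeagre (Set.univ : Set (Orb ({p} : Set X) a)) := by
    by_contra hm
    exact hna (h2 X {p} a (h1 X {p} a hm))
  have kb : IsMeagre (Set.univ : Set (Orb ({p} : Set X) b)) := by
    by_contra hm
    exact hnb (h2 X {p} b (h1 X {p} b hm))
  have oa := orb_eq F hAI S.Aorb S.Ainv hp ha hap
  have ob := orb_eq F hBI S.Borb S.Binv hp hb hbp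
  have ma := meagre_sub (L := J t p) (by rw [oa]; exact inter_subset_right) ka
  have mb := meagre_sub (L := J t p) (by rw [ob]; exact inter_subset_right) kb
  have : CompactSpace (J t p) := isCompact_iff_compactSpace.1 (F.toDen.compact p)
  have : PreconnectedSpace (J t p) :=
    isPreconnected_iff_preconnectedSpace.1 (F.toDen.conn p).isPreconnected
  have hne : (⟨t, F.toDen.memt p⟩ : J t p) ≠ ⟨p, F.toDen.memx p⟩ := by
    intro h
    exact hp.1 (congrArg Subtype.val h).symm
  have mt := (nwd_point hne).isMeagre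
  have mp := (nwd_point hne.symm).isMeagre
  have hall := ((ma.union mb).union mt).union mp
  refine not_isMeagre_of_isOpen (X := J t p) isOpen_univ ⟨⟨t, F.toDen.memt p⟩, mem_univ _⟩
    (hall.mono ?_)
  rintro ⟨y, hy⟩ -
  by_cases hyt : y = t
  · subst hyt
    exact Or.inl (Or.inr rfl)
  by_cases hyp : y = p
  · subst hyp
    exact Or.inr rfl
  have hyI : y ∈ Int t e := by
    refine ⟨hyt, fun h => hyp ?_⟩
    rw [← hp.2, ← F.e_mem hy hyt, h]
  rw [← S.cover] at hyI
  rcases hyI with h | h
  · refine Or.inl (Or.inl (Or.inl ?_))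
    show y ∈ Orb ({p} : Set X) a
    rw [oa]; exact ⟨h, hy⟩
  · refine Or.inl (Or.inl (Or.inr ?_))
    show y ∈ Orb ({p} : Set X) b
    rw [ob]; exact ⟨h, hy⟩

end Pool.Agent.H273.FAN
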