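import Pool.Agent.H273.FAN.Stm2

/-! Project FAN (helper273), piece N2 by helper271: `N t t = {t}`. -/

set_option autoImplicit false

namespace Pool.Agent.H273.FAN

open Set Filter Topology Metric

theorem t_N2 (h1 : S_OSC) (h2 : S_UNB) : S_N2 := by
  intro X _ _ t s e A B S
  have F : Fan X t s e := S.toFan
  have D : Den X t s := F.toDen
  -- ends
  have key : ∀ p : X, p ≠ t → e p = p → p ∈ N t t → False := by
    intro p hp hep hN
    obtain ⟨x, hx, hxN⟩ := h1 X t s e F
    obtain ⟨h, hh⟩ := S.Eorb p x hp hx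
    have h3 := N_img h (F.fix h) hN
    rw [F.fix h] at h3
    rw [hep] at hh
    rw [hh] at h3
    exact hxN h3
  intro w hw
  by_contra hwt
  by_cases hew : e w = w
  · exact key w hwt hew hw
  · have hpt : e w ≠ t := F.e_ne hwt
    have hpe : e (e w) = e w := F.e_e w
    have hwp : w ∈ J t (e w) := F.le_e w
    have hsp : 0 < s (e w) := D.s_pos hpt
    have hex : ∀ n : ℕ, ∃ v : X, v ∈ J t (e w) ∧ v ∈ N t t ∧
        s (e w) * (1 - 1 / ((n : ℝ) + 2)) ≤ s v := by
      intro n
      have hn : (0 : ℝ) < (n : ℝ) + 2 := by positivity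
      have hn1 : (1 : ℝ) / ((n : ℝ) + 2) ≤ 1 / 2 := by
        refine one_div_le_one_div_of_le (by norm_num) ?_
        have := Nat.cast_nonneg (α := ℝ) n
        linarith
      have hn2 : (0 : ℝ) < 1 / ((n : ℝ) + 2) := by positivity
      obtain ⟨y, hy, hys⟩ := D.level (e w) (r := s (e w) * (1 - 1 / ((n : ℝ) + 2)))
        (mul_nonneg hsp.le (by linarith)) (by nlinarith)
      have hyt : y ≠ t := by
        intro h
        rw [h, D.s_t] at hys
        have : 0 < s (e w) * (1 - 1 / ((n : ℝ) + 2)) := mul_pos hsp (by linarith)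
        linarith
      have hyp : y ≠ e w := by
        intro h
        rw [h] at hys
        have : s (e w) * (1 - 1 / ((n : ℝ) + 2)) < s (e w) := by nlinarith
        linarith
      obtain ⟨g, hg, hgy⟩ := (h2 X t s e A B S (e w) ⟨hpt, hpe⟩ w y hwp hwt
        (fun h => hew h.symm) hy hyt hyp).1
      have hgp : g (e w) = e w := hg (e w) rfl
      refine ⟨g w, ?_, ?_, ?_⟩
      · have h3 := (mem_img g (F.fix g)).2 hwp
        rwa [hgp] at h3
      · have h3 := N_img g (F.fix g) hw
        rwa [F.fix g] at h3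
      · rw [← hys]
        exact D.s_mono hgy
    choose v hv1 hv2 hv3 using hex
    obtain ⟨a, hac, ha, _, ha1⟩ := D.arc (e w)
    have hav : ∀ n, a (s (v n)) = v n := by
      intro n
      have hr : s (v n) ∈ Icc 0 (s (e w)) := ⟨D.s_nonneg _, D.s_mono (hv1 n)⟩
      exact D.s_inj (ha _ hr).1 (hv1 n) (ha _ hr).2
    have hs : Tendsto (fun n => s (v n)) atTop (𝓝 (s (e w))) := by
      have hlow : Tendsto (fun n : ℕ => s (e w) * (1 - 1 / ((n : ℝ) + 2))) atTop
          (𝓝 (s (e w) * (1 - 0))) := by
        refine Tendsto.const_mul _ (Tendsto.const_sub _ ?_)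
        have h4 : Tendsto (fun n : ℕ => ((n : ℝ) + 2)) atTop atTop :=
          tendsto_natCast_atTop_atTop.atTop_add tendsto_const_nhds
        have h5 := h4.inv_tendsto_atTop
        refine h5.congr (fun n => ?_)
        simp
      rw [sub_zero, mul_one] at hlow
      exact tendsto_of_tendsto_of_tendsto_of_le_of_le hlow tendsto_const_nhds hv3
        (fun n => D.s_mono (hv1 n))
    have hlim : Tendsto v atTop (𝓝 (e w)) := by
      have h6 := (hac.tendsto (s (e w))).comp hs
      rw [ha1] at h6
      refine h6.congr (fun n => ?_)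
      exact hav n
    exact key (e w) hpt hpe ((D.N_closed t).mem_of_tendsto hlim (Eventually.of_forall hv2))

end Pool.Agent.H273.FAN
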