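import Pool.Agent.H273.FAN.Stm2

/-!
# Upper semicontinuity of legs
-/

set_option autoImplicit false

namespace Pool.Agent.H273.FAN.PN3

open Set Filter Topology Metric

variable {X : Type} [MetricSpace X] [CompactSpace X] {t : X} {s : X → ℝ}

theorem aux (D : Den X t s) (hN : NTriv t) {w x : ℕ → X} {w0 x0 : X}
    (hw : Tendsto w atTop (𝓝 w0)) (hx : Tendsto x atTop (𝓝 x0)) (hd : J t w0 ∩ J t x0 ⊆ {t})
    (hf : ∃ᶠ n in atTop, w n ∈ J t (x n)) : w0 = t := by
  obtain ⟨φ, hφ, h⟩ := extraction_of_frequently_atTop hf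
  obtain ⟨u, hu, hut⟩ := D.btw_t (w := fun n => w (φ n)) (x := fun n => x (φ n)) h
    (hw.comp hφ.tendsto_atTop) (hx.comp hφ.tendsto_atTop) hd
  apply hN
  exact D.mem_N_iff.2 ⟨u, fun n => w (φ n), fun n => (hu n).1, hut, hw.comp hφ.tendsto_atTop⟩

end Pool.Agent.H273.FAN.PN3

namespace Pool.Agent.H273.FAN

open Set Filter Topology Metric

theorem t_N3 : S_N3 := by
  intro X _ _ t s e F hN x w x0 w0 hx0 hx hw hmem
  by_contra hcon
  have hw0 : w0 ≠ t := by
    rintro rfl
    exact hcon (F.memt _)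
  have he : e w0 ≠ e x0 := fun h => hcon ((F.mem_leg_iff hw0).2 h)
  have hd : J t w0 ∩ J t x0 ⊆ {t} := F.diff he
  by_cases hf : ∃ᶠ n in atTop, w n ∈ J t (x n)
  · exact hw0 (PN3.aux F.toDen hN hw hx hd hf)
  · rw [not_frequently] at hf
    have hf' : ∀ᶠ n in atTop, x n ∈ J t (w n) := by
      filter_upwards [hf] with n hn
      rcases F.toDen.total (hmem n) (F.le_e (x n)) with h | h
      · exact absurd h hn
      · exact h
    exact hx0 (PN3.aux F.toDen hN hx hw (by rwa [inter_comm]) hf'.frequently)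

end Pool.Agent.H273.FAN
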