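import Pool.Agent.H273.FAN.Stm2

/-! FAN, statement N4: ends lie only in their own `N`. -/

set_option autoImplicit false

namespace Pool.Agent.H273.FAN

open Set Filter Topology Metric

namespace PN4

variable {X : Type} [MetricSpace X] [CompactSpace X] {t : X} {s : X → ℝ} {e : X → X}

/-- points of a leg with heights tending to `0` tend to `t` -/
theorem tendsto_t (D : Den X t s) {p : X} {u : ℕ → X} (hu : ∀ n, u n ∈ J t p)
    (hs : Tendsto (fun n => s (u n)) atTop (𝓝 0)) : Tendsto u atTop (𝓝 t) := by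
  obtain ⟨a, hac, ha, ha0, -⟩ := D.arc p
  have h1 : u = fun n => a (s (u n)) := by
    funext n
    have hr : s (u n) ∈ Icc 0 (s p) := ⟨D.s_nonneg _, D.s_mono (hu n)⟩
    exact D.s_inj (hu n) (ha _ hr).1 (ha _ hr).2.symm
  have h2 : Tendsto (fun n => a (s (u n))) atTop (𝓝 (a 0)) := (hac.tendsto 0).comp hs
  rw [ha0] at h2
  rw [h1]
  exact h2

end PN4

theorem t_N4 (h1 : S_UNB) : S_N4 := by
  intro X _ _ t s e A B S hN p hp x hpx
  have F := S.toFan
  have D := F.toDen
  by_contra hne
  have hpt : p ≠ t := hp.1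
  have hep : e p = p := hp.2
  by_cases hxt : x = t
  · rw [hxt] at hpx
    exact hpt (hN p hpx)
  by_cases hex : e x = p
  · -- `x` is an interior point of the leg of `p`
    have hxp : x ∈ J t p := by rw [← hex]; exact F.le_e x
    have hsp : 0 < s p := D.s_pos hpt
    have hex2 : ∀ n : ℕ, ∃ g ∈ Stab ({p} : Set X), s (g x) ≤ s p / (n + 2) ∧ g x ∈ J t p := by
      intro n
      have hn : (0 : ℝ) < n + 2 := by positivity
      have hr0 : 0 < s p / (n + 2) := by positivity
      have hr1 : s p / (n + 2) < s p := by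
        rw [div_lt_iff₀ hn]
        nlinarith [(Nat.cast_nonneg n : (0 : ℝ) ≤ n)]
      obtain ⟨y, hy, hsy⟩ := D.level p hr0.le hr1.le
      have hyt : y ≠ t := by
        rintro rfl
        rw [D.s_t] at hsy
        linarith
      have hyp : y ≠ p := by
        rintro rfl
        linarith
      obtain ⟨-, g, hg, hgy⟩ := h1 X t s e A B S p hp x y hxp hxt hne hy hyt hyp
      exact ⟨g, hg, hsy ▸ D.s_mono hgy, D.trans hgy hy⟩
    choose g hg hgs hgp using hex2
    have hlim0 : Tendsto (fun n : ℕ => s p / ((n : ℝ) + 2)) atTop (𝓝 0) := by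
      apply Tendsto.div_atTop tendsto_const_nhds
      exact tendsto_atTop_add_const_right _ _ tendsto_natCast_atTop_atTop
    have hlim : Tendsto (fun n => g n x) atTop (𝓝 t) := by
      apply PN4.tendsto_t D hgp
      exact squeeze_zero (fun n => D.s_nonneg _) hgs hlim0
    have hmem : ∀ n, p ∈ N t (g n x) := by
      intro n
      have h2 := N_img (g n) (F.fix (g n)) hpx
      rwa [hg n p rfl] at h2
    have h3 : p ∈ N t t := D.N_lim hmem hlim tendsto_const_nhds
    exact hpt (hN p h3)
  · obtain ⟨u, v, hvu, hu, hv⟩ := D.mem_N_iff.1 hpx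
    have hd : J t p ∩ J t x ⊆ {t} := F.diff (by rw [hep]; exact fun h => hex h.symm)
    obtain ⟨z, hz, hzt⟩ := D.btw_t hvu hv hu hd
    have h3 : p ∈ N t t := D.mem_N_iff.2 ⟨z, v, fun n => (hz n).1, hzt, hv⟩
    exact hpt (hN p h3)

end Pool.Agent.H273.FAN
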