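import Pool.Agent.H273.FAN.Stm2

/-! NID: near-identity sequences cutting the leg. -/

set_option autoImplicit false

namespace Pool.Agent.H273.FAN

open Set Filter Topology Metric

namespace PNID

variable {X : Type} [MetricSpace X] [CompactSpace X] {t : X} {s : X → ℝ} {e : X → X}

/-- high points of the leg are close to the end -/
theorem high (F : Fan X t s e) {p : X} (hp : p ∈ Ends t e) {δ : ℝ} (hδ : 0 < δ) :
    ∃ y ∈ J t p, y ≠ t ∧ y ≠ p ∧ ∀ v ∈ J t p, y ∈ J t v → dist v p < δ := by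
  obtain ⟨a, hac, ha, ha0, ha1⟩ := F.toDen.arc p
  have hsp : 0 < s p := F.toDen.s_pos hp.1
  have h1 := Metric.continuousAt_iff.1 (hac.continuousAt (x := s p)) δ hδ
  obtain ⟨η, hη, h2⟩ := h1
  have hr1 : s p / 2 ≤ max (s p / 2) (s p - η / 2) := le_max_left _ _
  have hr2 : s p - η / 2 ≤ max (s p / 2) (s p - η / 2) := le_max_right _ _
  have hr3 : max (s p / 2) (s p - η / 2) < s p := max_lt (by linarith) (by linarith)
  set r := max (s p / 2) (s p - η / 2) with hr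
  obtain ⟨hy1, hy2⟩ := ha r ⟨by linarith, hr3.le⟩
  refine ⟨a r, hy1, ?_, ?_, ?_⟩
  · intro h
    rw [h, F.s_t] at hy2
    linarith
  · intro h
    rw [h] at hy2
    linarith
  · intro v hv hyv
    have h3 := F.toDen.s_mono hyv
    rw [hy2] at h3
    have h4 := F.toDen.s_mono hv
    have h5 := F.s_nonneg v
    obtain ⟨hv1, hv2⟩ := ha (s v) ⟨h5, h4⟩
    have h6 : a (s v) = v := F.toDen.s_inj hv1 hv hv2
    have h7 := h2 (x := s v) (by rw [Real.dist_eq, abs_sub_comm, abs_of_nonneg (by linarith)]; linarith)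
    rw [h6, ha1] at h7
    exact h7

theorem homeo_ends (F : Fan X t s e) (h : X ≃ₜ X) {x : X} (hx : x ∈ Ends t e) :
    h x ∈ Ends t e := by
  refine ⟨F.homeo_ne h hx.1, ?_⟩
  rw [← F.e_homeo h x, hx.2]

theorem homeo_closure (F : Fan X t s e) (h : X ≃ₜ X) {x : X} (hx : x ∈ closure (Ends t e)) :
    h x ∈ closure (Ends t e) := by
  have h1 := mem_closure_image (f := h) h.continuous.continuousAt hx
  refine closure_mono ?_ h1
  rintro _ ⟨y, hy, rfl⟩
  exact homeo_ends F h hy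

end PNID

open PNID in
theorem t_NID (h1 : S_UNB) (h2 : S_HCJ) : S_NID := by
  intro X _ _ t s e A B Bs hC p hp ε hε
  have S := Bs.toSetup
  have F := S.toFan
  unfold Case1 at hC
  push Not at hC
  obtain ⟨x₀, hx₀, hx₀t, hx₀E⟩ := hC
  have hex₀ : e x₀ ≠ x₀ := fun h => hx₀E ⟨hx₀t, h⟩
  obtain ⟨h, hh⟩ := S.Eorb x₀ p hx₀t hp.1
  rw [hp.2] at hh
  -- `x₁` is an interior point of the leg of `p`
  have ex₁ : e (h x₀) = p := by rw [← F.e_homeo h x₀, hh]
  have hx₁t : h x₀ ≠ t := F.homeo_ne h hx₀t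
  have hx₁p : h x₀ ≠ p := by
    intro he
    rw [← hh] at he
    exact hex₀ (h.injective he).symm
  have hx₁J : h x₀ ∈ J t p := by
    have := F.le_e (h x₀)
    rwa [ex₁] at this
  have hx₁c := homeo_closure F h hx₀
  -- the Effros property
  obtain ⟨δ, hδ, hEff⟩ := Bs.effE p hp ε hε
  obtain ⟨y, hyJ, hyt, hyp, hy⟩ := high F hp hδ
  obtain ⟨⟨g, hg, hgy⟩, -⟩ := h1 X t s e A B S p hp (h x₀) y hx₁J hx₁t hx₁p hyJ hyt hyp
  have hgp : g p = p := hg p rfl
  set x := g (h x₀) with hx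
  have hxJ : x ∈ J t p := by
    have := (mem_img g (F.fix g)).2 hx₁J
    rwa [hgp] at this
  have hxt : x ≠ t := F.homeo_ne g hx₁t
  have hxp : x ≠ p := by
    intro he
    rw [hx] at he
    exact hx₁p (g.injective (he.trans hgp.symm))
  have hxe : e x = p := by rw [hx, ← F.e_homeo g, ex₁, hgp]
  have hxd : dist x p < δ := hy x hxJ hgy
  have hxc : x ∈ closure (Ends t e) := homeo_closure F g hx₁c
  obtain ⟨q, hqE, hq⟩ := mem_closure_iff_seq_limit.1 hxc
  have hev : ∀ᶠ n in atTop, dist (q n) p < δ := by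
    have h3 : Tendsto (fun n => dist (q n) p) atTop (𝓝 (dist x p)) := hq.dist tendsto_const_nhds
    exact h3.eventually_lt_const hxd
  obtain ⟨n0, hn0⟩ := eventually_atTop.1 hev
  have hgn : ∀ n, ∃ f : X ≃ₜ X, f p = q (n + n0) ∧ near f ε := by
    intro n
    obtain ⟨f, hf⟩ := S.Eorb p (q (n + n0)) hp.1 (hqE _).1
    rw [hp.2, (hqE _).2] at hf
    have hO : q (n + n0) ∈ Orb (∅ : Set X) p := ⟨f, fun z hz => absurd hz (notMem_empty z), hf⟩
    obtain ⟨f', _, hf', hnear⟩ := hEff _ hO (hn0 _ (by omega))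
    exact ⟨f', hf', hnear⟩
  choose f hf hfn using hgn
  have hq' : Tendsto (fun n => q (n + n0)) atTop (𝓝 x) := (tendsto_add_atTop_iff_nat n0).2 hq
  obtain ⟨φ, w, hφ, hxw, hwN, hHC⟩ := h2 X t s e F Bs.ntriv Bs.usc _ x hq'
  refine ⟨fun n => f (φ n), w, fun n => hfn _, ?_, F.toDen.ne_t_of_mem hxw hxt, ?_, ?_⟩
  · obtain ⟨u, v, hvu, hu, hv⟩ := F.toDen.mem_N_iff.1 hwN
    have h3 := Bs.usc u v x w hxt hu hv (fun n => F.toDen.trans (hvu n) (F.le_e _))
    rwa [hxe] at h3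
  · intro hw
    rw [hw] at hwN
    exact hxp (Bs.nend p hp x hwN)
  · have h3 : (fun n => f (φ n) '' J t p) = fun n => J t (q (φ n + n0)) := by
      funext n
      rw [img _ (F.fix _), hf]
    rw [h3]
    exact hHC

end Pool.Agent.H273.FAN
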