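import Pool.Agent.H273.FAN.Stm2

/-! NMON: `N` is monotone (helper553). -/

set_option autoImplicit false

namespace Pool.Agent.H273.FAN

open Set Filter Topology Metric

theorem t_NMON : S_NMON := by
  intro X _ _ t s e A B hB x y hxy w hw
  have F : Fan X t s e := hB.toSetup.toFan
  have D : Den X t s := F.toDen
  by_cases hx : x = t
  · subst hx
    rw [hB.ntriv w hw]
    exact D.J_sub_N y (D.memt y)
  obtain ⟨u, v, huv, hu, hv⟩ := D.mem_N_iff.1 hw
  have hwx : w ∈ J t (e x) :=
    hB.usc u v x w hx hu hv fun n => D.trans (huv n) (F.le_e (u n))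
  have hyx : y ∈ J t (e x) := by
    rw [F.e_mem hxy hx]
    exact F.le_e y
  rcases D.total hwx hyx with h | h
  · exact D.J_sub_N y h
  · obtain ⟨z, hz, hzy⟩ := D.btw' huv hv hu (y := y) ⟨hxy, h⟩
    exact D.mem_N_iff.2 ⟨z, v, fun n => (hz n).1, hzy, hv⟩

end Pool.Agent.H273.FAN
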