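import Pool.Agent.H273.FAN.Stm2

/-! NS: in the dense case, if the fan is not smooth there are no expansions. -/

set_option autoImplicit false

namespace Pool.Agent.H273.FAN

open Set Filter Topology Metric

namespace PNS

variable {X : Type} [MetricSpace X] [CompactSpace X] {t : X} {s : X → ℝ} {e : X → X} {A B : Set X}

/-- interior points of the leg of `p` -/
def L (t p x : X) : Prop := x ∈ J t p ∧ x ≠ t ∧ x ≠ p

theorem eL (F : Fan X t s e) {p x : X} (hp : p ∈ Ends t e) (hx : L t p x) : e x = p := by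
  rw [F.e_mem hx.1 hx.2.1]; exact hp.2

theorem L_homeo (F : Fan X t s e) {p x : X} {g : X ≃ₜ X} (hg : g ∈ Stab ({p} : Set X))
    (hx : L t p x) : L t p (g x) := by
  have hgp : g p = p := hg p rfl
  refine ⟨?_, F.homeo_ne g hx.2.1, ?_⟩
  · have := (mem_img g (F.fix g) (x := p) (y := x)).2 hx.1
    rwa [hgp] at this
  · intro h
    exact hx.2.2 (g.injective (h.trans hgp.symm))

theorem hom (S : Setup X t s e A B) {p u v : X} (hp : p ∈ Ends t e) (hu : L t p u)
    (hv : L t p v) (h : ∃ g : X ≃ₜ X, g u = v) : ∃ g ∈ Stab ({p} : Set X), g u = v := by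
  obtain ⟨g, hg⟩ := h
  refine ⟨g, ?_, hg⟩
  rintro q rfl
  have h1 := S.toFan.e_homeo g u
  rw [eL S.toFan hp hu, hg, eL S.toFan hp hv] at h1
  exact h1

/-- every class meets every nondegenerate interval in an interior point of the interval -/
theorem K (S : Setup X t s e A B) {p : X} (hp : p ∈ Ends t e) (hD : DD t p A B) {u x y : X}
    (hu : L t p u) (hy : y ∈ J t p) (hx : x ∈ J t y) (hxy : x ≠ y) :
    ∃ g ∈ Stab ({p} : Set X), x ∈ J t (g u) ∧ g u ∈ J t y ∧ g u ≠ x ∧ g u ≠ y := by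
  have D := S.toFan.toDen
  have h0 := D.s_lt hx hxy
  have hs0 := D.s_nonneg x
  obtain ⟨x', hx', hsx'⟩ := D.level y (r := s x + (s y - s x) / 3) (by linarith) (by linarith)
  obtain ⟨y', hy', hsy'⟩ := D.level y (r := s x + 2 * (s y - s x) / 3) (by linarith) (by linarith)
  have h1 : x' ∈ J t y' := (D.s_le y x' y' hx' hy').2 (by rw [hsx', hsy']; linarith)
  have h2 : x' ≠ y' := by
    rintro rfl; rw [hsx'] at hsy'; linarith
  obtain ⟨⟨a, haA, ha1, ha2⟩, b, hbB, hb1, hb2⟩ := hD x' y' (D.trans hy' hy) h1 h2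
  have key : ∀ v, x' ∈ J t v → v ∈ J t y' → L t p v ∧ x ∈ J t v ∧ v ∈ J t y ∧ v ≠ x ∧ v ≠ y := by
    intro v hv1 hv2
    have hsv1 := D.s_mono hv1
    have hsv2 := D.s_mono hv2
    have hvy : v ∈ J t y := D.trans hv2 hy'
    have hsy := D.s_mono hy
    refine ⟨⟨D.trans hvy hy, ?_, ?_⟩, (D.s_le y x v hx hvy).2 (by linarith), hvy, ?_, ?_⟩
    · rintro rfl; rw [D.s_t] at hsv1; linarith
    · rintro rfl; linarith
    · rintro rfl; linarith
    · rintro rfl; linarith
  have hc : u ∈ A ∪ B := by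
    rw [S.cover]
    refine ⟨hu.2.1, ?_⟩
    rw [eL S.toFan hp hu]; exact hu.2.2.symm
  rcases hc with hc | hc
  · obtain ⟨k1, k2, k3, k4, k5⟩ := key a ha1 ha2
    obtain ⟨g, hg, hgu⟩ := hom S hp hu k1 (S.Aorb u hc a haA)
    exact ⟨g, hg, by rw [hgu]; exact k2, by rw [hgu]; exact k3, by rw [hgu]; exact k4,
      by rw [hgu]; exact k5⟩
  · obtain ⟨k1, k2, k3, k4, k5⟩ := key b hb1 hb2
    obtain ⟨g, hg, hgu⟩ := hom S hp hu k1 (S.Borb u hc b hbB)
    exact ⟨g, hg, by rw [hgu]; exact k2, by rw [hgu]; exact k3, by rw [hgu]; exact k4,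
      by rw [hgu]; exact k5⟩

end PNS

open PNS in
theorem t_NS (h1 : S_NZ) (h2 : S_NMON) (h3 : S_LX) : S_NS := by
  intro X _ _ t s e A B hB p hp hD hns h w x₁ x₂ y₁ y₂ hx₁ hE
  have S := hB.toSetup
  have F := S.toFan
  have D := F.toDen
  have hJ : ∀ a b : X, J t a = J t b → a = b := fun a b hab =>
    D.anti a b (hab ▸ D.memx a) (hab ▸ D.memx b)
  -- the map z
  have hz : ∀ x, ∃ z, N t x = J t z ∧ x ∈ J t z ∧ z ∈ J t (e x) ∧
      (x ≠ t → z = e x → x = e x) := by
    intro x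
    by_cases hx : x = t
    · refine ⟨t, ?_, ?_, ?_, fun h => absurd hx h⟩
      · rw [hx, D.J_t]
        apply Subset.antisymm
        · intro v hv; exact hB.ntriv v hv
        · rintro v rfl; exact D.J_sub_N _ (D.memx _)
      · rw [hx]; exact D.memx t
      · exact D.memt _
    · obtain ⟨z, a1, a2, a3, a4⟩ := h1 X t s e A B hB x hx
      exact ⟨z, a1, a2, a3, fun _ => a4⟩
  choose z z1 z2 z3 z4 using hz
  have zeq : ∀ (g : X ≃ₜ X) (x : X), z (g x) = g (z x) := by
    intro g x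
    apply hJ
    rw [← img g (F.fix g), ← z1 x, ← z1 (g x)]
    ext v
    constructor
    · intro hv
      refine ⟨g.symm v, ?_, g.apply_symm_apply v⟩
      rw [← N_img_iff g (F.fix g), g.apply_symm_apply]; exact hv
    · rintro ⟨v', hv', rfl⟩
      exact N_img g (F.fix g) hv'
  have zmono : ∀ x y, x ∈ J t y → z x ∈ J t (z y) := by
    intro x y hxy
    have h5 := h2 X t s e A B hB x y hxy
    rw [z1 x, z1 y] at h5
    exact h5 (D.memx _)
  have zL : ∀ x, L t p x → L t p (z x) := by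
    intro x hx
    have he := eL F hp hx
    refine ⟨?_, D.ne_t_of_mem (z2 x) hx.2.1, ?_⟩
    · have := z3 x; rwa [he] at this
    · intro hzp
      apply hx.2.2
      have := z4 x hx.2.1 (by rw [hzp, he])
      rw [this, he]
  -- (1)
  have s1 : ∀ x, L t p x → z x ≠ x := by
    obtain ⟨x₀, hx₀⟩ := hns
    have hz0 : z x₀ ≠ x₀ := by
      intro h5; apply hx₀; rw [z1 x₀, h5]
    have hx0t : x₀ ≠ t := by
      rintro rfl
      apply hz0
      have h6 : z x₀ ∈ N x₀ x₀ := by rw [z1 x₀]; exact D.memx _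
      exact hB.ntriv _ h6
    have hx0e : e x₀ ≠ x₀ := by
      intro h5
      have h6 := z3 x₀
      rw [h5] at h6
      exact hz0 (D.anti _ _ h6 (z2 x₀))
    obtain ⟨g, hg⟩ := S.Eorb x₀ p hx0t hp.1
    rw [hp.2] at hg
    have hLg : L t p (g x₀) := by
      refine ⟨?_, F.homeo_ne g hx0t, ?_⟩
      · have h6 := F.le_e (g x₀)
        rwa [← F.e_homeo g x₀, hg] at h6
      · intro h6
        exact hx0e (g.injective (hg.trans h6.symm))
    have hzg : z (g x₀) ≠ g x₀ := by
      rw [zeq]; intro h6; exact hz0 (g.injective h6)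
    intro x hx hzx
    obtain ⟨k, hk, k1, k2, k3, k4⟩ := K S hp hD hx (zL _ hLg).1 (z2 (g x₀)) hzg.symm
    have h7 := zmono _ _ k1
    rw [zeq k x, hzx] at h7
    exact k4 (D.anti _ _ k2 h7)
  -- (2)
  have zitL : ∀ m x, L t p x → L t p (z^[m] x) := by
    intro m
    induction m with
    | zero => intro x hx; exact hx
    | succ m ih => intro x hx; rw [Function.iterate_succ_apply]; exact ih _ (zL x hx)
  have zitmono : ∀ m x y, x ∈ J t y → z^[m] x ∈ J t (z^[m] y) := by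
    intro m
    induction m with
    | zero => intro x y hx; exact hx
    | succ m ih =>
      intro x y hx; rw [Function.iterate_succ_apply, Function.iterate_succ_apply]
      exact ih _ _ (zmono x y hx)
  have ziteq : ∀ m (g : X ≃ₜ X) (x : X), z^[m] (g x) = g (z^[m] x) := by
    intro m
    induction m with
    | zero => intro g x; rfl
    | succ m ih =>
      intro g x; rw [Function.iterate_succ_apply, Function.iterate_succ_apply, zeq, ih]
  have s2 : ∀ x y, L t p x → L t p y → ∃ m, y ∈ J t (z^[m] x) := by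
    intro x y hx hy
    by_contra hcon
    push Not at hcon
    have hle : ∀ m, z^[m] x ∈ J t y := fun m =>
      (D.total (zitL m x hx).1 hy.1).resolve_right (hcon m)
    have hbdd : BddAbove (Set.range fun m => s (z^[m] x)) := by
      refine ⟨s y, ?_⟩
      rintro _ ⟨m, rfl⟩
      exact D.s_mono (hle m)
    have hc1 : (⨆ m, s (z^[m] x)) ≤ s y := ciSup_le fun m => D.s_mono (hle m)
    have hc0 : s x ≤ ⨆ m, s (z^[m] x) := le_ciSup (f := fun m => s (z^[m] x)) hbdd 0
    have hx0 := D.s_pos hx.2.1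
    obtain ⟨y₀, hy₀, hsy₀⟩ := D.level y (r := ⨆ m, s (z^[m] x)) (by linarith) hc1
    have hsyp := D.s_lt hy.1 hy.2.2
    have hL0 : L t p y₀ := by
      refine ⟨D.trans hy₀ hy.1, ?_, ?_⟩
      · rintro rfl; rw [D.s_t] at hsy₀; linarith
      · rintro rfl; linarith
    have hQ : ∀ x', x' ∈ J t y₀ → x' ≠ y₀ → z x' ∈ J t y₀ := by
      intro x' h5 h6
      have h7 := D.s_lt h5 h6
      rw [hsy₀] at h7
      obtain ⟨m, hm⟩ := exists_lt_of_lt_ciSup h7
      have h8 : x' ∈ J t (z^[m] x) := (D.s_le y _ _ (D.trans h5 hy₀) (hle m)).2 hm.le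
      have h9 := zmono _ _ h8
      rw [← Function.iterate_succ_apply' z m x] at h9
      refine D.trans h9 ((D.s_le y _ _ (hle (m+1)) hy₀).2 ?_)
      rw [hsy₀]
      exact le_ciSup (f := fun m => s (z^[m] x)) hbdd (m+1)
    obtain ⟨k, hk, k1, k2, k3, k4⟩ := K S hp hD hL0 (zL _ hx).1 (z2 x) (s1 x hx).symm
    have h10 : k.symm x ∈ J t y₀ := by
      rw [← mem_img k (F.fix k), k.apply_symm_apply]; exact k1
    have h11 : k.symm x ≠ y₀ := by
      rintro h; apply k3; rw [← h, k.apply_symm_apply]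
    have h12 := (mem_img k (F.fix k)).2 (hQ _ h10 h11)
    rw [← zeq, k.apply_symm_apply] at h12
    exact k4 (D.anti _ _ k2 h12)
  -- (3)
  have hLx₁ : L t p x₁ := by
    refine ⟨D.trans hE.x₁_le hE.x₂_mem, hx₁, ?_⟩
    rintro rfl
    exact hE.x_ne (D.anti _ _ hE.x₁_le hE.x₂_mem)
  have hLw : L t p w := ⟨hE.w_mem, hE.w_ne', hE.w_ne⟩
  obtain ⟨γ, y', hγ, hlim, hy', hy'p, hγx⟩ := h3 X t s e A B hB p hp h w x₁ x₂ y₁ y₂ hE
  have hLy' : L t p y' := ⟨hy', D.ne_t_of_mem (hγx 0) (F.homeo_ne _ hx₁), hy'p⟩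
  obtain ⟨m, hm⟩ := s2 x₁ w hLx₁ hLw
  have h5 : ∀ k, γ k w ∈ J t (z^[m] y') := by
    intro k
    have h6 := (mem_img (γ k) (F.fix (γ k))).2 hm
    rw [← ziteq] at h6
    exact D.trans h6 (zitmono m _ _ (hγx k))
  have h6 : p ∈ J t (z^[m] y') :=
    (D.closed _).mem_of_tendsto hlim (Eventually.of_forall h5)
  have h7 := zitL m y' hLy'
  exact h7.2.2 (D.anti _ _ h7.1 h6)

end Pool.Agent.H273.FAN
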