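import Pool.Agent.H273.FAN.Stm2

/-! NSM: near-identity sequences move heights little (helper230). -/

set_option autoImplicit false

namespace Pool.Agent.H273.FAN

open Set Filter Topology Metric

theorem t_NSM : S_NSM := by
  intro X _ _ t s D η hη
  obtain ⟨δ, hδ, hs⟩ := D.s_unif (η / 2) (by linarith)
  refine ⟨δ / 2, by linarith, ?_⟩
  intro h hn x u hc
  obtain ⟨n, h1, h2⟩ := (hc (δ / 2) (by linarith)).exists
  have k1 : J t u ⊆ Metric.thickening δ (J t x) := by
    intro v hv
    obtain ⟨_, ⟨y, hy, rfl⟩, hd⟩ := Metric.mem_thickening_iff.1 (h2 hv)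
    refine Metric.mem_thickening_iff.2 ⟨y, hy, ?_⟩
    have := (hn n y).1
    have := dist_triangle v (h n y) y
    linarith
  have k2 : J t x ⊆ Metric.thickening δ (J t u) := by
    intro y hy
    obtain ⟨v, hv, hd⟩ := Metric.mem_thickening_iff.1 (h1 ⟨y, hy, rfl⟩)
    refine Metric.mem_thickening_iff.2 ⟨v, hv, ?_⟩
    have := (hn n y).1
    have := dist_triangle y (h n y) v
    rw [dist_comm y (h n y)] at this
    linarith
  have a1 := hs u x k1
  have a2 := hs x u k2
  rw [abs_lt]
  constructor <;> linarith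

end Pool.Agent.H273.FAN
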