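import Pool.Agent.H273.FAN.Stm2

/-! NZ: `N t x` is an arc `[t,z]` with `x ≤ z ≤ e x`. -/

set_option autoImplicit false

namespace Pool.Agent.H273.FAN

open Set Filter Topology Metric

theorem t_NZ : S_NZ := by
  intro X _ _ t s e A B hB x hx
  have F : Fan X t s e := hB.toFan
  have D : Den X t s := F.toDen
  have hsub : N t x ⊆ J t (e x) := by
    intro w hw
    obtain ⟨u, v, h, hu, hv⟩ := D.mem_N_iff.1 hw
    exact hB.usc u v x w hx hu hv fun n => D.trans (h n) (F.le_e (u n))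
  have hxN : x ∈ N t x := D.J_sub_N x (D.memx x)
  obtain ⟨z, hz, hmax⟩ := (D.N_closed x).isCompact.exists_isMaxOn ⟨x, hxN⟩
    ((D.s_cont (e x)).mono hsub)
  have heq : N t x = J t z := by
    apply Subset.antisymm
    · intro w hw
      exact (D.s_le (e x) w z (hsub hw) (hsub hz)).2 (hmax hw)
    · intro w hw
      exact D.N_down hz hw
  refine ⟨z, heq, heq ▸ hxN, hsub hz, ?_⟩
  intro hze
  exact hB.nend (e x) ⟨F.e_ne hx, F.e_e x⟩ x (hze ▸ hz)

end Pool.Agent.H273.FAN
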