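import Pool.Agent.H273.FAN.Stm2

/-! ORB: from four orbits to the setup. -/

set_option autoImplicit false

namespace Pool.Agent.H273.FAN

open Set Filter Topology Metric

namespace PORB

/-- `x` and `y` are equivalent under the homeomorphism group -/
def R {X : Type} [TopologicalSpace X] (x y : X) : Prop := ∃ h : X ≃ₜ X, h x = y

section
variable {X : Type} [TopologicalSpace X]

theorem R.refl (x : X) : R x x := ⟨Homeomorph.refl X, rfl⟩

theorem R.symm {x y : X} (h : R x y) : R y x := by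
  obtain ⟨g, rfl⟩ := h
  exact ⟨g.symm, by simp⟩

theorem R.trans {x y z : X} (h : R x y) (h' : R y z) : R x z := by
  obtain ⟨g, rfl⟩ := h
  obtain ⟨g', rfl⟩ := h'
  exact ⟨g.trans g', rfl⟩

/-- the class map -/
theorem exists_class (a : Fin 4 → X) (h1 : ∀ i j, (∃ h : X ≃ₜ X, h (a i) = a j) → i = j)
    (h2 : ∀ x : X, ∃ i, ∃ h : X ≃ₜ X, h (a i) = x) :
    ∃ c : X → Fin 4, (∀ x y, R x y ↔ c x = c y) ∧ ∀ i, c (a i) = i := by
  choose c hc using h2
  have hc' : ∀ x, R (a (c x)) x := hc
  refine ⟨c, fun x y => ⟨fun h => ?_, fun h => ?_⟩, fun i => ?_⟩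
  · exact h1 _ _ (((hc' x).trans h).trans (hc' y).symm)
  · have h3 := hc' y
    rw [← h] at h3
    exact (hc' x).symm.trans h3
  · exact h1 _ _ (hc' (a i))

end

section
variable {X : Type} [MetricSpace X] [CompactSpace X] {t : X} {s : X → ℝ} {e : X → X}

theorem R_t (F : Fan X t s e) {x : X} (h : R t x) : x = t := by
  obtain ⟨g, rfl⟩ := h
  exact F.fix g

theorem R_end (F : Fan X t s e) {p x : X} (hp : e p = p) (h : R p x) : e x = x := by
  obtain ⟨g, rfl⟩ := h
  rw [← F.e_homeo, hp]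

theorem R_e (F : Fan X t s e) {x y : X} (h : R x y) : R (e x) (e y) := by
  obtain ⟨g, rfl⟩ := h
  exact ⟨g, F.e_homeo g x⟩

/-- below every end there is an interior point -/
theorem exists_int (F : Fan X t s e) {p : X} (hpt : p ≠ t) (hp : e p = p) :
    ∃ u, u ≠ t ∧ e u = p ∧ u ≠ p := by
  have hpos : 0 < s p := F.toDen.s_pos hpt
  obtain ⟨u, hu, hus⟩ := F.toDen.level p (r := s p / 2) (by linarith) (by linarith)
  have hut : u ≠ t := by
    rintro rfl
    rw [F.s_t] at hus
    linarith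
  refine ⟨u, hut, ?_, ?_⟩
  · rw [F.e_mem hu hut, hp]
  · rintro rfl
    linarith

theorem ends_equiv (F : Fan X t s e) {c : X → Fin 4} (hc : ∀ x y, R x y ↔ c x = c y) {p q : X}
    (hpt : p ≠ t) (hp : e p = p) (hqt : q ≠ t) (hq : e q = q) : R p q := by
  by_contra hcon
  obtain ⟨u, hut, heu, hup⟩ := exists_int F hpt hp
  obtain ⟨v, hvt, hev, hvq⟩ := exists_int F hqt hq
  have key : ∀ x y, ¬ R x y → c x ≠ c y := fun x y h h' => h ((hc x y).2 h')
  have htp : c t ≠ c p := key _ _ fun h => hpt (R_t F h)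
  have htq : c t ≠ c q := key _ _ fun h => hqt (R_t F h)
  have htu : c t ≠ c u := key _ _ fun h => hut (R_t F h)
  have htv : c t ≠ c v := key _ _ fun h => hvt (R_t F h)
  have hpq : c p ≠ c q := key _ _ hcon
  have hpu : c p ≠ c u := key _ _ fun h => hup ((R_end F hp h).symm.trans heu)
  have hpv : c p ≠ c v := key _ _ fun h => hvq ((R_end F hp h).symm.trans hev)
  have hqu : c q ≠ c u := key _ _ fun h => hup ((R_end F hq h).symm.trans heu)
  have hqv : c q ≠ c v := key _ _ fun h => hvq ((R_end F hq h).symm.trans hev)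
  have huv : c u ≠ c v := key _ _ fun h => hcon (by
    have := R_e F h
    rwa [heu, hev] at this)
  have hnd : [c t, c p, c q, c u, c v].Nodup := by
    simp [htp, htq, htu, htv, hpq, hpu, hpv, hqu, hqv, huv]
  have := hnd.length_le_card
  simp at this

end

end PORB

open PORB in
theorem t_ORB : S_ORB := by
  intro X _ _ t s e F ⟨a, ha1, ha2⟩
  obtain ⟨c, hc, hca⟩ := exists_class a ha1 ha2
  obtain ⟨x0, hx0⟩ := F.exists_ne
  have hpt : e x0 ≠ t := F.e_ne hx0
  have hp : e (e x0) = e x0 := F.e_e x0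
  have htp : c t ≠ c (e x0) := fun h => hpt (R_t F ((hc _ _).2 h))
  have hcard : ((Finset.univ : Finset (Fin 4)) \ {c t, c (e x0)}).card = 2 := by
    rw [Finset.card_sdiff_of_subset (Finset.subset_univ _), Finset.card_pair htp]
    simp
  obtain ⟨i, j, hij, hS⟩ := Finset.card_eq_two.1 hcard
  have hmem : ∀ k, (k ≠ c t ∧ k ≠ c (e x0)) ↔ (k = i ∨ k = j) := by
    intro k
    have h1 : k ∈ ((Finset.univ : Finset (Fin 4)) \ {c t, c (e x0)}) ↔
        k ∈ ({i, j} : Finset (Fin 4)) := by rw [hS]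
    simpa [not_or] using h1
  have hint : ∀ x, x ∈ Int t e ↔ (c x = i ∨ c x = j) := by
    intro x
    rw [← hmem]
    constructor
    · rintro ⟨h1, h2⟩
      refine ⟨fun h => h1 (R_t F ((hc _ _).2 h.symm)), fun h => h2 ?_⟩
      exact R_end F hp ((hc _ _).2 h.symm)
    · rintro ⟨h1, h2⟩
      have hxt : x ≠ t := by
        rintro rfl
        exact h1 rfl
      refine ⟨hxt, fun h => h2 ?_⟩
      exact (hc _ _).1 (ends_equiv F hc hxt h hpt hp)
  refine ⟨{x | c x = i}, {x | c x = j}, ?_⟩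
  exact
    { toFan := F
      Eorb := fun x y hx hy =>
        ends_equiv F hc (F.e_ne hx) (F.e_e x) (F.e_ne hy) (F.e_e y)
      Ane := ⟨a i, hca i⟩
      Bne := ⟨a j, hca j⟩
      cover := by
        ext x
        exact (hint x).symm
      disj := by
        rw [Set.disjoint_left]
        intro x h1 h2
        exact hij ((h1 : c x = i).symm.trans h2)
      Aorb := fun x hx y hy => (hc x y).2 ((hx : c x = i).trans (hy : c y = i).symm)
      Borb := fun x hx y hy => (hc x y).2 ((hx : c x = j).trans (hy : c y = j).symm)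
      Ainv := fun h x hx => ((hc x (h x)).1 ⟨h, rfl⟩).symm.trans (hx : c x = i)
      Binv := fun h x hx => ((hc x (h x)).1 ⟨h, rfl⟩).symm.trans (hx : c x = j) }

end Pool.Agent.H273.FAN
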