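import Pool.Agent.H273.FAN.Stm2

set_option autoImplicit false

namespace Pool.Agent.H273.FAN

open Set Filter Topology Metric

namespace POSC

/-- tops of oscillating chains of length `k` -/
def Top {X : Type} [MetricSpace X] (t : X) (δ : ℝ) : ℕ → X → Prop
  | 0, _ => True
  | k + 1, x => ∃ c, Top t δ k c ∧ c ∈ J t x ∧ δ < dist c x

/-- the points above the top of an oscillating chain of length `k` -/
def O {X : Type} [MetricSpace X] (t : X) (δ : ℝ) (k : ℕ) : Set X :=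
  {x | ∃ c, Top t δ k c ∧ c ∈ J t x}

section
variable {X : Type} [MetricSpace X] [CompactSpace X] {t : X} {s : X → ℝ}

theorem top_lim (D : Den X t s) (δ : ℝ) (k : ℕ) : ∀ (c : X) (y : ℕ → X), Top t δ k c →
    Tendsto y atTop (𝓝 c) → ∀ᶠ n in atTop, Top t δ k (y n) := by
  induction k with
  | zero => intro c y _ _; exact Eventually.of_forall fun n => trivial
  | succ k ih =>
    rintro c y ⟨c', h1, h2, h3⟩ hy
    obtain ⟨u, hu, hu'⟩ := D.lsc hy h2
    have h4 := ih c' u h1 hu'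
    have h5 : ∀ᶠ n in atTop, δ < dist (u n) (y n) :=
      (hu'.dist hy).eventually (lt_mem_nhds h3)
    filter_upwards [h4, h5] with n h4 h5
    exact ⟨u n, h4, hu n, h5⟩

theorem O_open (D : Den X t s) (δ : ℝ) (k : ℕ) : IsOpen (O t δ k) := by
  rw [← isClosed_compl_iff]
  apply IsSeqClosed.isClosed
  intro x x0 hx hlim hx0
  obtain ⟨c, h1, h2⟩ := hx0
  obtain ⟨u, hu, hu'⟩ := D.lsc hlim h2
  obtain ⟨n, hn⟩ := (top_lim D δ k c u h1 hu').exists
  exact hx n ⟨u n, hn, hu n⟩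

theorem O_succ (D : Den X t s) (δ : ℝ) (k : ℕ) : O t δ (k + 1) ⊆ O t δ k := by
  rintro x ⟨c, ⟨c', h1, h2, _⟩, h4⟩
  exact ⟨c', h1, D.trans h2 h4⟩

theorem O_anti (D : Den X t s) (δ : ℝ) {k l : ℕ} (h : k ≤ l) : O t δ l ⊆ O t δ k := by
  induction l, h using Nat.le_induction with
  | base => exact Subset.rfl
  | succ l _ ih => exact (O_succ D δ l).trans ih

theorem O_fin (D : Den X t s) {δ : ℝ} (hδ : 0 < δ) (x : X) : ∃ k, x ∉ O t δ k := by
  obtain ⟨a, hac, ha, -, -⟩ := D.arc x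
  have huc := isCompact_Icc.uniformContinuousOn_of_continuous (s := Icc (0 : ℝ) (s x))
    hac.continuousOn
  rw [Metric.uniformContinuousOn_iff] at huc
  obtain ⟨η, hη, h1⟩ := huc δ hδ
  have h2 : ∀ y ∈ J t x, ∀ y' ∈ J t x, |s y - s y'| < η → dist y y' < δ := by
    intro y hy y' hy' h
    have m1 : s y ∈ Icc 0 (s x) := ⟨D.s_nonneg y, D.s_mono hy⟩
    have m2 : s y' ∈ Icc 0 (s x) := ⟨D.s_nonneg y', D.s_mono hy'⟩
    have e1 : a (s y) = y := D.s_inj (ha _ m1).1 hy (ha _ m1).2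
    have e2 : a (s y') = y' := D.s_inj (ha _ m2).1 hy' (ha _ m2).2
    have := h1 _ m1 _ m2 (by rw [Real.dist_eq]; exact h)
    rwa [e1, e2] at this
  have h3 : ∀ k : ℕ, ∀ c ∈ J t x, Top t δ k c → k * η ≤ s c := by
    intro k
    induction k with
    | zero => intro c _ _; rw [Nat.cast_zero, zero_mul]; exact D.s_nonneg c
    | succ k ih =>
      rintro c hc ⟨c', g1, g2, g3⟩
      have g4 := ih c' (D.trans g2 hc) g1
      have g5 : η ≤ |s c' - s c| := by
        by_contra hcon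
        push Not at hcon
        have := h2 c' (D.trans g2 hc) c hc hcon
        linarith
      have g6 := D.s_mono g2
      rw [abs_sub_comm, abs_of_nonneg (by linarith)] at g5
      push_cast
      linarith
  obtain ⟨k, hk⟩ := exists_nat_gt (s x / η)
  refine ⟨k, ?_⟩
  rintro ⟨c, g1, g2⟩
  have g3 := h3 k c g2 g1
  have g4 := D.s_mono g2
  rw [div_lt_iff₀ hη] at hk
  linarith

end

section
variable {X : Type} [MetricSpace X] [CompactSpace X] {t : X} {s : X → ℝ} {e : X → X}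

/-- points with something far above -/
def I {X : Type} [MetricSpace X] (t : X) (δ : ℝ) : Set X := {x | ∃ w, x ∈ J t w ∧ 2 * δ < dist x w}

theorem step (F : Fan X t s e) (hall : ∀ x, x ≠ t → e x ∈ N t t) {δ : ℝ} (hδ : 0 < δ) {k : ℕ}
    {x : X} (hI : x ∈ I t δ) (hO : x ∈ O t δ k) (hx : 3 * δ < dist x t) {ε : ℝ} (hε : 0 < ε) :
    ∃ x', dist x' x < ε ∧ x' ∈ I t δ ∧ x' ∈ O t δ (k + 1) := by
  have D := F.toDen
  have hxt : x ≠ t := by
    rintro rfl
    rw [dist_self] at hx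
    linarith
  obtain ⟨w, hw1, hw2⟩ := hI
  have hwt : w ≠ t := D.ne_t_of_mem hw1 hxt
  -- the maximal length
  obtain ⟨K, hkK, hK1, hK2⟩ : ∃ K, k ≤ K ∧ x ∈ O t δ K ∧ x ∉ O t δ (K + 1) := by
    by_contra hcon
    push Not at hcon
    have h1 : ∀ l, k ≤ l → x ∈ O t δ l := by
      intro l hl
      induction l, hl using Nat.le_induction with
      | base => exact hO
      | succ l hl ih => exact hcon l hl ih
    obtain ⟨m, hm⟩ := O_fin D hδ x
    exact hm (O_anti D δ (le_max_left m k) (h1 _ (le_max_right m k)))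
  obtain ⟨c, hc1, hc2⟩ := hK1
  have hcx : dist c x ≤ δ := by
    by_contra hcon
    push Not at hcon
    exact hK2 ⟨x, ⟨c, hc1, hc2, hcon⟩, D.memx x⟩
  have hcw : δ < dist c w := by
    have h1 := dist_triangle x c w
    rw [dist_comm x c] at h1
    linarith
  have hTw : Top t δ (K + 1) w := ⟨c, hc1, D.trans hc2 hw1, hcw⟩
  have hew : e x = e w := F.e_mem hw1 hxt
  have hwe : w ∈ J t (e x) := by rw [hew]; exact F.le_e w
  obtain ⟨u, v, huv, hu, hv⟩ := D.mem_N_iff.1 (hall x hxt)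
  obtain ⟨w', hw', hw'l⟩ := D.lsc hv hwe
  obtain ⟨x', hx', hx'l⟩ := D.btw' huv hv hu (y := x) ⟨D.memt x, F.le_e x⟩
  have e1 := top_lim D δ (K + 1) w w' hTw hw'l
  have e2 : ∀ᶠ n in atTop, 2 * δ < dist (x' n) (u n) :=
    (hx'l.dist hu).eventually (lt_mem_nhds (by linarith))
  have e3 : ∀ᶠ n in atTop, δ < dist (w' n) (x' n) :=
    (hw'l.dist hx'l).eventually (lt_mem_nhds (by rw [dist_comm]; linarith))
  have e4 : ∀ᶠ n in atTop, dist (x' n) x < ε := by
    have := Metric.tendsto_nhds.1 hx'l ε hε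
    exact this
  obtain ⟨n, h1, h2, h3, h4⟩ := (e1.and (e2.and (e3.and e4))).exists
  refine ⟨x' n, h4, ⟨u n, (hx' n).2, h2⟩, ?_⟩
  have h5 : x' n ∈ O t δ (K + 2) :=
    ⟨x' n, ⟨w' n, h1, D.trans (hw' n) (hx' n).1, h3⟩, D.memx _⟩
  exact O_anti D δ (by omega) h5

end

end POSC

open POSC in
theorem t_OSC : S_OSC := by
  intro X _ _ t s e F
  by_contra hcon
  push Not at hcon
  have D := F.toDen
  obtain ⟨z, hz⟩ := F.exists_ne
  obtain ⟨p, hp⟩ : ∃ p, p = e z := ⟨_, rfl⟩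
  have hpt : p ≠ t := by rw [hp]; exact F.e_ne hz
  have hsp := D.s_pos hpt
  obtain ⟨x₀, hx0, hx0s⟩ := D.level p (r := s p / 2) (by linarith) (by linarith)
  have hx0t : x₀ ≠ t := by
    rintro rfl
    rw [D.s_t] at hx0s
    linarith
  have hx0p : x₀ ≠ p := by
    rintro rfl
    linarith
  obtain ⟨δ, hδ, hδ1, hδ2⟩ : ∃ δ : ℝ, 0 < δ ∧ 4 * δ < dist x₀ t ∧ 2 * δ < dist x₀ p := by
    have h1 := dist_pos.2 hx0t
    have h2 := dist_pos.2 hx0p
    refine ⟨min (dist x₀ t) (dist x₀ p) / 5, ?_, ?_, ?_⟩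
    · have := lt_min h1 h2; linarith
    · have := min_le_left (dist x₀ t) (dist x₀ p); linarith
    · have := min_le_right (dist x₀ t) (dist x₀ p); linarith
  -- the open sets
  have hUo : ∀ k, IsOpen (O t δ k ∩ {y | 3 * δ < dist y t}) := fun k =>
    (O_open D δ k).inter (isOpen_lt continuous_const (continuous_id.dist continuous_const))
  let Q : ℕ → X × ℝ → Prop := fun k a => 0 < a.2 ∧ a.1 ∈ I t δ ∧ a.1 ∈ O t δ k ∧
    closedBall a.1 a.2 ⊆ O t δ k ∩ {y | 3 * δ < dist y t}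
  have hstep : ∀ (k : ℕ) (a : X × ℝ), Q k a → ∃ b, Q (k + 1) b ∧
      closedBall b.1 b.2 ⊆ closedBall a.1 a.2 := by
    rintro k ⟨x, ρ⟩ ⟨h1, h2, h3, h4⟩
    have h5 : 3 * δ < dist x t := (h4 (mem_closedBall_self h1.le)).2
    obtain ⟨x', g1, g2, g3⟩ := step F hcon hδ h2 h3 h5 h1
    have g4 : x' ∈ ball x ρ := g1
    have g5 : x' ∈ O t δ (k + 1) ∩ {y | 3 * δ < dist y t} ∩ ball x ρ :=
      ⟨⟨g3, (h4 (ball_subset_closedBall g4)).2⟩, g4⟩
    have g6 := ((hUo (k + 1)).inter (isOpen_ball (x := x) (ε := ρ))).mem_nhds g5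
    obtain ⟨ρ', hρ', g7⟩ := Metric.nhds_basis_closedBall.mem_iff.1 g6
    exact ⟨(x', ρ'), ⟨hρ', g2, g3, g7.trans inter_subset_left⟩,
      (g7.trans inter_subset_right).trans ball_subset_closedBall⟩
  obtain ⟨a0, ha0⟩ : ∃ a, Q 0 a := by
    have g5 : x₀ ∈ O t δ 0 ∩ {y | 3 * δ < dist y t} :=
      ⟨⟨x₀, trivial, D.memx _⟩, by show 3 * δ < dist x₀ t; linarith⟩
    obtain ⟨ρ', hρ', g7⟩ := Metric.nhds_basis_closedBall.mem_iff.1 ((hUo 0).mem_nhds g5)
    exact ⟨(x₀, ρ'), hρ', ⟨p, hx0, hδ2⟩, g5.1, g7⟩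
  choose! nxt hnxt1 hnxt2 using hstep
  let f : ℕ → X × ℝ := fun n => Nat.rec a0 (fun k a => nxt k a) n
  have hf : ∀ n, Q n (f n) := by
    intro n
    induction n with
    | zero => exact ha0
    | succ n ih => exact hnxt1 n _ ih
  have hf2 : ∀ n, closedBall (f (n + 1)).1 (f (n + 1)).2 ⊆ closedBall (f n).1 (f n).2 :=
    fun n => hnxt2 n _ (hf n)
  obtain ⟨y, hy⟩ := IsCompact.nonempty_iInter_of_sequence_nonempty_isCompact_isClosed
    (fun n => closedBall (f n).1 (f n).2) hf2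
    (fun n => ⟨(f n).1, mem_closedBall_self (hf n).1.le⟩)
    (isClosed_closedBall.isCompact) (fun n => isClosed_closedBall)
  rw [mem_iInter] at hy
  obtain ⟨k, hk⟩ := O_fin D hδ y
  exact hk ((hf k).2.2.2 (hy k)).1

end Pool.Agent.H273.FAN
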