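import Pool.Agent.H273.FAN.Stm1
import Pool.Agent.H273.FAN.Api

/-!
# PC: the Whitney height is continuous along paths
-/

set_option autoImplicit false

namespace Pool.Agent.H273.FAN

open Set Filter Topology Metric

namespace PPC

theorem J_closed {X : Type} [TopologicalSpace X] (t x : X) : IsClosed (J t x) :=
  isClosed_sInter fun _ h => h.1

theorem J_memt {X : Type} [TopologicalSpace X] (t x : X) : t ∈ J t x :=
  mem_sInter.2 fun _ h => h.2.2.1

theorem J_memx {X : Type} [TopologicalSpace X] (t x : X) : x ∈ J t x :=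
  mem_sInter.2 fun _ h => h.2.2.2

/-- moving along the path changes the arc by at most the piece of the path -/
theorem J_step (h1 : S_JC) {X : Type} [MetricSpace X] [CompactSpace X] [PathConnectedSpace X]
    (hX : HU X) (t : X) (γ : ℝ → X) (hγ : Continuous γ) (a b : ℝ) :
    J t (γ b) ⊆ J t (γ a) ∪ γ '' uIcc a b := by
  refine J_min ?_ ?_ (Or.inl (J_memt _ _)) (Or.inr ⟨b, right_mem_uIcc, rfl⟩)
  · exact (J_closed _ _).union (isCompact_uIcc.image hγ).isClosed
  · have hc1 : IsConnected (J t (γ a)) := h1 X hX t (γ a)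
    have hc2 : IsConnected (γ '' uIcc a b) :=
      IsConnected.image ⟨⟨a, left_mem_uIcc⟩, isPreconnected_uIcc⟩ γ hγ.continuousOn
    exact IsConnected.union ⟨γ a, J_memx _ _, ⟨a, left_mem_uIcc, rfl⟩⟩ hc1 hc2

end PPC

theorem t_PC (h1 : S_JC) : S_PC := by
  intro X _ _ _ hX μ hμ t γ hγ
  rw [Metric.continuous_iff]
  intro τ ε hε
  obtain ⟨δ₁, hδ₁, hu⟩ := hμ.unif (ε / 2) (by positivity)
  obtain ⟨δ, hδ, hd⟩ := Metric.continuous_iff.1 hγ τ (δ₁ / 2) (by positivity)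
  refine ⟨δ, hδ, fun τ' hτ' => ?_⟩
  have hnear : ∀ u ∈ uIcc τ τ', dist (γ u) (γ τ) < δ₁ / 2 := by
    intro u hu'
    refine hd u (lt_of_le_of_lt ?_ hτ')
    rw [Real.dist_eq, Real.dist_eq]
    exact abs_sub_left_of_mem_uIcc hu'
  have hnear' : ∀ u ∈ uIcc τ' τ, dist (γ u) (γ τ') < δ₁ := by
    intro u hu'
    rw [uIcc_comm] at hu'
    have e1 := hnear u hu'
    have e2 := hnear τ' right_mem_uIcc
    have e3 := dist_triangle (γ u) (γ τ) (γ τ')
    rw [dist_comm (γ τ) (γ τ')] at e3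
    linarith
  have hs1 : J t (γ τ') ⊆ Metric.thickening δ₁ (J t (γ τ)) := by
    intro z hz
    rcases PPC.J_step h1 hX t γ hγ τ τ' hz with h | ⟨u, hu', rfl⟩
    · exact self_subset_thickening hδ₁ _ h
    · rw [mem_thickening_iff]
      exact ⟨γ τ, PPC.J_memx _ _, by linarith [hnear u hu']⟩
  have hs2 : J t (γ τ) ⊆ Metric.thickening δ₁ (J t (γ τ')) := by
    intro z hz
    rcases PPC.J_step h1 hX t γ hγ τ' τ hz with h | ⟨u, hu', rfl⟩
    · exact self_subset_thickening hδ₁ _ h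
    · rw [mem_thickening_iff]
      exact ⟨γ τ', PPC.J_memx _ _, hnear' u hu'⟩
  have m1 := hu _ _ ⟨t, PPC.J_memt t (γ τ')⟩ ⟨t, PPC.J_memt t (γ τ)⟩ hs1
  have m2 := hu _ _ ⟨t, PPC.J_memt t (γ τ)⟩ ⟨t, PPC.J_memt t (γ τ')⟩ hs2
  rw [Real.dist_eq, abs_lt]
  constructor <;> linarith

end Pool.Agent.H273.FAN
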