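import Pool.Agent.H273.FAN.Api3

/-! PICK: small clopen sets of prescribed height (helper249, for helper273) -/

set_option autoImplicit false

namespace Pool.Agent.H273.FAN

open Set Filter Topology Metric

namespace PPICK

variable {X : Type} [MetricSpace X] [CompactSpace X] {t : X} {s : X → ℝ} {e : X → X}

/-- a point can be separated from a compact set on other legs by a clopen set -/
theorem sep_compact (h1 : S_SEP1) (F : Fan X t s e) (hL : LegUsc t e) (hs : Continuous s)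
    {q : X} (hq : q ≠ t) {K : Set X} (hK : IsCompact K) (hKt : ∀ v ∈ K, v ≠ t)
    (hKe : ∀ v ∈ K, e q ≠ e v) : ∃ D, CS t D ∧ q ∈ D ∧ ∀ v ∈ K, v ∉ D := by
  refine hK.induction_on (p := fun S => ∃ D, CS t D ∧ q ∈ D ∧ ∀ v ∈ S, v ∉ D) ?_ ?_ ?_ ?_
  · exact ⟨{t}ᶜ, CS.whole, hq, fun v hv => absurd hv (notMem_empty v)⟩
  · rintro S S' hSS ⟨D, hD1, hD2, hD3⟩
    exact ⟨D, hD1, hD2, fun v hv => hD3 v (hSS hv)⟩
  · rintro S S' ⟨D, hD1, hD2, hD3⟩ ⟨D', hD1', hD2', hD3'⟩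
    refine ⟨D ∩ D', hD1.inter hD1', ⟨hD2, hD2'⟩, ?_⟩
    rintro v (hv | hv) hvD
    · exact hD3 v hv hvD.1
    · exact hD3' v hv hvD.2
  · intro v hv
    obtain ⟨O, hO, hqO, hvO⟩ := h1 X t s e F hL hs q v hq (hKt v hv) (hKe v hv)
    refine ⟨(O ∪ {t})ᶜ, ?_, O, hO, hqO, fun w hw hwO => hw (Or.inl hwO)⟩
    refine mem_nhdsWithin_of_mem_nhds (hO.cl.isOpen_compl.mem_nhds ?_)
    rintro (h | h)
    · exact hvO h
    · exact hKt v hv h

end PPICK

/-- PICK -/
theorem t_PICK (h1 : S_SEP1) : S_PICK := by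
  intro X _ _ t s e F hL hs hdense f hf O hO q₀ hq₀O hq₀ r hr0 hr δ hδ
  obtain ⟨hq₀t, hq₀e⟩ := hq₀
  -- a slightly smaller height
  set r' : ℝ := r * Real.exp (-(δ / 8)) with hr'
  have hr'0 : 0 < r' := by positivity
  have hr'r : r' < r := by
    have h2 : Real.exp (-(δ / 8)) < 1 := by
      rw [Real.exp_lt_one_iff]
      linarith
    nlinarith
  have hr'log : Real.log r' = Real.log r - δ / 8 := by
    rw [hr', Real.log_mul hr0.ne' (Real.exp_pos _).ne', Real.log_exp]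
    ring
  obtain ⟨u, hu, hfu⟩ := hf.ivt F.toDen q₀ hr'0.le (hr'r.le.trans hr)
  have hut : u ≠ t := by
    rintro rfl
    rw [hf.at_t] at hfu
    linarith
  have huq : u ≠ q₀ := by
    rintro rfl
    linarith
  have heu : e u = e q₀ := F.e_mem hu hut
  have huO : u ∈ O := hO.sat F hq₀O hut heu
  -- an end near `u`
  have hE : Dense (Ends t e) := dense_iff_closure_eq.2 hdense
  have hV : IsOpen (O ∩ {q₀}ᶜ ∩ f ⁻¹' Ioo (r' * Real.exp (-(δ / 4))) (r' * Real.exp (δ / 4))) :=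
    (hO.op.inter isOpen_compl_singleton).inter (isOpen_Ioo.preimage hf.cont)
  have hexp1 : Real.exp (-(δ / 4)) < 1 := by
    rw [Real.exp_lt_one_iff]
    linarith
  have hexp2 : 1 < Real.exp (δ / 4) := by
    rw [Real.one_lt_exp_iff]
    linarith
  have huV : u ∈ O ∩ {q₀}ᶜ ∩ f ⁻¹' Ioo (r' * Real.exp (-(δ / 4))) (r' * Real.exp (δ / 4)) := by
    refine ⟨⟨huO, huq⟩, ?_⟩
    simp only [mem_preimage, mem_Ioo, hfu]
    constructor <;> nlinarith
  obtain ⟨q, ⟨⟨hqO, hqq⟩, hfq⟩, hqt, hqe⟩ := hE.inter_open_nonempty _ hV ⟨u, huV⟩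
  simp only [mem_preimage, mem_Ioo] at hfq
  simp only [mem_compl_iff, mem_singleton_iff] at hqq
  have hfq0 : 0 < f q := hf.pos F.toDen hqt
  have hlogq1 : Real.log r' - δ / 4 < Real.log (f q) := by
    have h2 := Real.log_lt_log (by positivity) hfq.1
    rw [Real.log_mul hr'0.ne' (Real.exp_pos _).ne', Real.log_exp] at h2
    linarith
  have hlogq2 : Real.log (f q) < Real.log r' + δ / 4 := by
    have h2 := Real.log_lt_log hfq0 hfq.2
    rwa [Real.log_mul hr'0.ne' (Real.exp_pos _).ne', Real.log_exp] at h2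
  -- the compact set to be avoided
  set c : ℝ := f q * Real.exp (δ / 4) with hc
  have hcq : f q < c := by nlinarith
  have hclog : Real.log c = Real.log (f q) + δ / 4 := by
    rw [hc, Real.log_mul hfq0.ne' (Real.exp_pos _).ne', Real.log_exp]
  set K : Set X := (O ∪ {t}) ∩ f ⁻¹' Ici c with hKdef
  have hK : IsCompact (K ∪ {q₀}) :=
    ((hO.cl.inter (isClosed_Ici.preimage hf.cont)).isCompact).union isCompact_singleton
  have hKt : ∀ v ∈ K ∪ {q₀}, v ≠ t := by
    rintro v (hv | hv) rfl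
    · have h2 : c ≤ f v := hv.2
      rw [hf.at_t] at h2
      linarith
    · exact hq₀t hv.symm
  have hKe : ∀ v ∈ K ∪ {q₀}, e q ≠ e v := by
    rintro v hv hev
    rw [hqe] at hev
    rcases hv with hv | hv
    · have h2 : c ≤ f v := hv.2
      have h3 : v ∈ J t q := hev ▸ F.le_e v
      have h4 := hf.le h3
      linarith
    · rw [mem_singleton_iff.1 hv, hq₀e] at hev
      exact hqq hev
  obtain ⟨D', hD', hqD', hKD'⟩ := PPICK.sep_compact h1 F hL hs hqt hK hKt hKe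
  have hD : CS t (O ∩ D') := hO.inter hD'
  refine ⟨O ∩ D', hD, inter_subset_left, ⟨q, hqO, hqD'⟩, fun h2 => hKD' q₀ (Or.inr rfl) h2.2, ?_⟩
  obtain ⟨m, hmD, -, hmax, hsup⟩ := hD.max F ⟨q, hqO, hqD'⟩ hf
  rw [hsup]
  have hm1 : f q ≤ f m := hmax q ⟨hqO, hqD'⟩
  have hm2 : f m < c := by
    by_contra hcon
    exact hKD' m (Or.inl ⟨Or.inl hmD.1, not_lt.1 hcon⟩) hmD.2
  have hm0 : 0 < f m := hfq0.trans_le hm1
  have h5 := Real.log_le_log hfq0 hm1
  have h6 := Real.log_lt_log hm0 hm2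
  rw [hclog] at h6
  rw [abs_lt]
  constructor <;> linarith

end Pool.Agent.H273.FAN
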