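import Pool.Agent.H273.FAN.Api3

set_option autoImplicit false

/-! Task SEP: countably many clopen sets separate the legs. -/

namespace Pool.Agent.H273.FAN

open Set Filter Topology Metric

theorem t_SEP (h1 : S_SEP1) : S_SEP := by
  intro X _ _ t s e F hL hs
  obtain ⟨T, hTc, hT⟩ := TopologicalSpace.isOpen_iUnion_countable
    (fun O : {O : Set X // CS t O} => O.1 ×ˢ (O.1 ∪ {t})ᶜ)
    (fun O => O.2.op.prod O.2.cl.isOpen_compl)
  have key : ∀ x y, x ≠ t → y ≠ t → e x ≠ e y → ∃ O ∈ T, x ∈ O.1 ∧ y ∉ O.1 := by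
    intro x y hx hy hxy
    obtain ⟨O, hO, hxO, hyO⟩ := h1 X t s e F hL hs x y hx hy hxy
    have h2 : (x, y) ∈ ⋃ O : {O : Set X // CS t O}, O.1 ×ˢ (O.1 ∪ {t})ᶜ := by
      rw [mem_iUnion]
      refine ⟨⟨O, hO⟩, hxO, fun h3 => ?_⟩
      rcases h3 with h3 | h3
      · exact hyO h3
      · exact hy h3
    rw [← hT, mem_iUnion₂] at h2
    obtain ⟨O', hO', h3, h4⟩ := h2
    exact ⟨O', hO', h3, fun h5 => h4 (Or.inl h5)⟩
  rcases T.eq_empty_or_nonempty with hE | hE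
  · refine ⟨fun _ => ∅, fun _ => CS.empty, fun x y hx hy hxy => ?_⟩
    obtain ⟨O, hO, -⟩ := key x y hx hy hxy
    rw [hE] at hO
    exact absurd hO (notMem_empty _)
  · obtain ⟨f, hf⟩ := hTc.exists_eq_range hE
    refine ⟨fun n => (f n).1, fun n => (f n).2, fun x y hx hy hxy => ?_⟩
    obtain ⟨O, hO, h3, h4⟩ := key x y hx hy hxy
    rw [hf] at hO
    obtain ⟨n, rfl⟩ := hO
    exact ⟨n, h3, h4⟩

end Pool.Agent.H273.FAN
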