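import Pool.Agent.H273.FAN.Api3

/-!
# FAN: the legs of a fan are separated by clopen sets
-/

set_option autoImplicit false

namespace Pool.Agent.H273.FAN.PSEP1

open Set Filter Topology Metric

/-- Dependent choice. -/
theorem seq_exists {α : Type} (Inv : ℕ → α → Prop) (R : ℕ → α → α → Prop) (a₀ : α)
    (h₀ : Inv 0 a₀) (h : ∀ n a, Inv n a → ∃ b, Inv (n + 1) b ∧ R n a b) :
    ∃ f : ℕ → α, f 0 = a₀ ∧ ∀ n, Inv n (f n) ∧ R n (f n) (f (n + 1)) := by
  choose! F hF using h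
  let f : ℕ → α := fun n => Nat.rec a₀ (fun n a => F n a) n
  have hf : ∀ n, Inv n (f n) := by
    intro n
    induction n with
    | zero => exact h₀
    | succ n ih => exact (hF n (f n) ih).1
  exact ⟨f, rfl, fun n => ⟨hf n, (hF n (f n) (hf n)).2⟩⟩

/-- Closed sets which meet no common component are separated by a clopen set. -/
theorem sep_clopen {Y : Type} [TopologicalSpace Y] [CompactSpace Y] [T2Space Y] {C D : Set Y}
    (hC : IsClosed C) (hD : IsClosed D)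
    (h : ∀ v ∈ C, ∀ v' ∈ D, v' ∉ connectedComponent v) :
    ∃ U : Set Y, IsClopen U ∧ C ⊆ U ∧ Disjoint U D := by
  have hc : Continuous (ConnectedComponents.mk : Y → ConnectedComponents Y) :=
    ConnectedComponents.continuous_coe
  have hC' : IsClosed (ConnectedComponents.mk '' C) := (hC.isCompact.image hc).isClosed
  have hD' : IsClosed (ConnectedComponents.mk '' D) := (hD.isCompact.image hc).isClosed
  have hsub : ConnectedComponents.mk '' C ⊆ (ConnectedComponents.mk '' D)ᶜ := by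
    rintro _ ⟨v, hv, rfl⟩ ⟨v', hv', he⟩
    exact h v hv v' hv' (ConnectedComponents.coe_eq_coe'.1 he)
  obtain ⟨W, hW, hCW, hWD⟩ := exists_clopen_of_closed_subset_open hC' hD'.isOpen_compl hsub
  refine ⟨ConnectedComponents.mk ⁻¹' W, hW.preimage hc, fun v hv => hCW ⟨v, hv, rfl⟩, ?_⟩
  rw [Set.disjoint_left]
  intro v hv hvD
  exact hWD hv ⟨v, hvD, rfl⟩

/-- `Q` is clopen in `K`. -/
structure Part {X : Type} [TopologicalSpace X] (K Q : Set X) : Prop where
  sub : Q ⊆ K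
  cl : IsClosed Q
  cl' : IsClosed (K \ Q)

section main

variable {X : Type} [MetricSpace X] [CompactSpace X] {t : X} {s : X → ℝ} {e : X → X}

/-- connected closed sets without `t` are contained in a leg -/
theorem conn_leg (F : Fan X t s e) {Z : Set X} (hZ : IsClosed Z) (hc : IsConnected Z) (ht : t ∉ Z)
    {v v' : X} (hv : v ∈ Z) (hv' : v' ∈ Z) : e v = e v' := by
  by_contra hne
  exact ht (F.toDen.t_mem_of hZ hc hv hv' (F.diff hne))

/-- (A) -/
theorem sepA (F : Fan X t s e) {K C D : Set X} (hK : IsClosed K) (ht : t ∉ K) (hC : IsClosed C)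
    (hD : IsClosed D) (hCK : C ⊆ K) (_ : D ⊆ K) (h : ∀ v ∈ C, ∀ v' ∈ D, e v ≠ e v') :
    ∃ Q, Part K Q ∧ C ⊆ Q ∧ Disjoint Q D := by
  have hKc : CompactSpace K := isCompact_iff_compactSpace.1 hK.isCompact
  have hcv : Continuous (Subtype.val : K → X) := continuous_subtype_val
  obtain ⟨U, hU, hCU, hUD⟩ := sep_clopen (Y := K) (C := Subtype.val ⁻¹' C)
    (D := Subtype.val ⁻¹' D) (hC.preimage hcv) (hD.preimage hcv) (by
      rintro ⟨v, hvK⟩ hv ⟨v', hvK'⟩ hv' hcc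
      have hZ : IsClosed (Subtype.val '' connectedComponent (⟨v, hvK⟩ : K)) :=
        (isClosed_connectedComponent.isCompact.image hcv).isClosed
      have hcon : IsConnected (Subtype.val '' connectedComponent (⟨v, hvK⟩ : K)) :=
        isConnected_connectedComponent.image _ hcv.continuousOn
      have htZ : t ∉ Subtype.val '' connectedComponent (⟨v, hvK⟩ : K) := by
        rintro ⟨z, -, hz⟩
        exact ht (hz ▸ z.2)
      exact h v hv v' hv' (conn_leg F hZ hcon htZ ⟨⟨v, hvK⟩, mem_connectedComponent, rfl⟩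
        ⟨⟨v', hvK'⟩, hcc, rfl⟩))
  refine ⟨Subtype.val '' U, ⟨?_, ?_, ?_⟩, ?_, ?_⟩
  · rintro _ ⟨z, -, rfl⟩
    exact z.2
  · exact (hU.isClosed.isCompact.image hcv).isClosed
  · have : K \ Subtype.val '' U = Subtype.val '' Uᶜ := by
      ext z
      constructor
      · rintro ⟨hz, hzU⟩
        exact ⟨⟨z, hz⟩, fun h => hzU ⟨_, h, rfl⟩, rfl⟩
      · rintro ⟨z, hz, rfl⟩
        refine ⟨z.2, ?_⟩
        rintro ⟨z', hz', he⟩
        exact hz (Subtype.ext he ▸ hz')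
    rw [this]
    exact (hU.compl.isClosed.isCompact.image hcv).isClosed
  · intro v hv
    exact ⟨⟨v, hCK hv⟩, hCU hv, rfl⟩
  · rw [Set.disjoint_left]
    rintro _ ⟨z, hz, rfl⟩ hzD
    exact (Set.disjoint_left.1 hUD) hz hzD

/-- (B) -/
theorem satB (F : Fan X t s e) {r : ℝ} {Q : Set X} (hQ : Part {v | r ≤ s v} Q) {v v' : X}
    (hv : v ∈ Q) (hv' : r ≤ s v') (he : e v' = e v) : v' ∈ Q := by
  have key : ∀ Z : Set X, IsConnected Z → Z ⊆ {v | r ≤ s v} → v ∈ Z → v' ∈ Z → v' ∈ Q := by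
    intro Z hZ hZK hvZ hvZ'
    by_contra hcon
    have h1 := isPreconnected_closed_iff.1 hZ.isPreconnected Q ({v | r ≤ s v} \ Q) hQ.cl hQ.cl'
      (fun z hz => by
        by_cases h : z ∈ Q
        · exact Or.inl h
        · exact Or.inr ⟨hZK hz, h⟩) ⟨v, hvZ, hv⟩ ⟨v', hvZ', hv', hcon⟩
    obtain ⟨z, -, h2, h3⟩ := h1
    exact h3.2 h2
  rcases F.same he with h | h
  · refine key (Ic t v' v) (F.toDen.Ic_conn _ _ h) ?_ (F.toDen.right_mem_Ic h)
      (F.toDen.left_mem_Ic h)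
    intro z hz
    exact hv'.trans (F.toDen.s_mono hz.1)
  · refine key (Ic t v v') (F.toDen.Ic_conn _ _ h) ?_ (F.toDen.left_mem_Ic h)
      (F.toDen.right_mem_Ic h)
    intro z hz
    exact (show r ≤ s v from hQ.sub hv).trans (F.toDen.s_mono hz.1)

/-- saturations of closed sets are closed -/
theorem sat_closed (F : Fan X t s e) (hL : LegUsc t e) (hs : Continuous s) {Z : Set X}
    (hZ : IsClosed Z) (htZ : t ∉ Z) {r : ℝ} (hr : 0 < r) :
    IsClosed {v | r ≤ s v ∧ ∃ v' ∈ Z, e v' = e v} := by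
  apply IsSeqClosed.isClosed
  intro u v hu huv
  have h1 : r ≤ s v := by
    have h2 : Tendsto (fun n => s (u n)) atTop (𝓝 (s v)) := (hs.tendsto v).comp huv
    exact ge_of_tendsto' h2 fun n => (hu n).1
  have hvt : v ≠ t := by
    rintro rfl
    rw [F.s_t] at h1
    exact absurd hr (not_lt.2 h1)
  choose w hw hwe using fun n => (hu n).2
  obtain ⟨w0, φ, hφ, hw0⟩ := sub_conv w
  have hw0Z : w0 ∈ Z := hZ.mem_of_tendsto hw0 (Eventually.of_forall fun n => hw (φ n))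
  have hw0t : w0 ≠ t := fun h => htZ (h ▸ hw0Z)
  refine ⟨h1, w0, hw0Z, ?_⟩
  have h3 : v ∈ J t (e w0) := by
    refine hL (fun n => w (φ n)) (fun n => u (φ n)) w0 v hw0t hw0
      (huv.comp hφ.tendsto_atTop) fun n => ?_
    rw [hwe (φ n)]
    exact F.le_e _
  exact (F.e_eq_of_mem_leg h3 hvt).symm

end main

end Pool.Agent.H273.FAN.PSEP1

namespace Pool.Agent.H273.FAN

open Set Filter Topology Metric PSEP1

theorem t_SEP1 : S_SEP1 := by
  intro X _ _ t s e F hL hs x y hx hy hxy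
  set ρ : ℝ := min (s x) (s y) with hρ
  have hρ0 : 0 < ρ := lt_min (F.toDen.s_pos hx) (F.toDen.s_pos hy)
  have hr0 : ∀ k : ℕ, 0 < ρ * (1 / 2) ^ k := fun k => by positivity
  have hrs : ∀ k : ℕ, ρ * (1 / 2) ^ (k + 1) < ρ * (1 / 2) ^ k := fun k => by
    rw [pow_succ, ← mul_assoc]
    have := hr0 k
    linarith
  have hKc : ∀ k : ℕ, IsClosed {v | ρ * (1 / 2) ^ k ≤ s v} := fun k =>
    isClosed_le continuous_const hs
  have hKt : ∀ k : ℕ, t ∉ {v | ρ * (1 / 2) ^ k ≤ s v} := fun k h => by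
    have h1 : ρ * (1 / 2) ^ k ≤ s t := h
    rw [F.s_t] at h1
    exact absurd (hr0 k) (not_lt.2 h1)
  -- the first set
  obtain ⟨Q₀, hQ₀, hxQ, hyQ⟩ := sepA F (K := {v | ρ * (1 / 2) ^ 0 ≤ s v}) (C := {x}) (D := {y})
    (hKc 0) (hKt 0) isClosed_singleton isClosed_singleton
    (by
      rw [Set.singleton_subset_iff]
      show ρ * (1 / 2) ^ 0 ≤ s x
      rw [pow_zero, mul_one]
      exact min_le_left _ _)
    (by
      rw [Set.singleton_subset_iff]
      show ρ * (1 / 2) ^ 0 ≤ s y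
      rw [pow_zero, mul_one]
      exact min_le_right _ _)
    (by
      intro v hv v' hv'
      rw [mem_singleton_iff.1 hv, mem_singleton_iff.1 hv']
      exact hxy)
  -- the recursion
  obtain ⟨Q, hQ0, hQ⟩ := seq_exists (fun k Q => Part {v | ρ * (1 / 2) ^ k ≤ s v} Q)
    (fun k Q Q' => Q' ∩ {v | ρ * (1 / 2) ^ k ≤ s v} = Q) Q₀ hQ₀ (by
      intro k Q hQ
      have hC := sat_closed F hL hs hQ.cl (fun h => hKt k (hQ.sub h)) (hr0 (k + 1))
      have hD := sat_closed F hL hs hQ.cl' (fun h => hKt k h.1) (hr0 (k + 1))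
      obtain ⟨Q', hQ', hCQ, hDQ⟩ := sepA F (hKc (k + 1)) (hKt (k + 1)) hC hD
        (fun v hv => hv.1) (fun v hv => hv.1) (by
          rintro v ⟨-, q, hq, hqe⟩ v' ⟨-, q', hq', hqe'⟩ he
          exact hq'.2 (satB F hQ hq hq'.1 (by rw [hqe, hqe', he])))
      refine ⟨Q', hQ', ?_⟩
      ext v
      constructor
      · rintro ⟨h1, h2⟩
        by_contra h3
        exact (Set.disjoint_left.1 hDQ) h1 ⟨hQ'.sub h1, v, ⟨h2, h3⟩, rfl⟩
      · intro h1
        exact ⟨hCQ ⟨(hrs k).le.trans (hQ.sub h1), v, h1, rfl⟩, hQ.sub h1⟩)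
  have hmono : ∀ k v, ρ * (1 / 2) ^ k ≤ s v → ∀ j, k ≤ j → (v ∈ Q j ↔ v ∈ Q k) := by
    intro k v hv j hj
    induction j, hj using Nat.le_induction with
    | base => exact Iff.rfl
    | succ j hj ih =>
      rw [← ih]
      have h1 := (hQ j).2
      have h2 : ρ * (1 / 2) ^ j ≤ s v := by
        refine le_trans ?_ hv
        exact mul_le_mul_of_nonneg_left (pow_le_pow_of_le_one (by norm_num) (by norm_num) hj) hρ0.le
      constructor
      · intro h3
        rw [← h1]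
        exact ⟨h3, h2⟩
      · intro h3
        rw [← h1] at h3
        exact h3.1
  have hO : ∀ k v, ρ * (1 / 2) ^ k ≤ s v → (v ∈ ⋃ k, Q k) → v ∈ Q k := by
    intro k v hv h
    obtain ⟨j, hj⟩ := mem_iUnion.1 h
    rcases le_total k j with h1 | h1
    · exact (hmono k v hv j h1).1 hj
    · exact (hmono j v ((hQ j).1.sub hj) k h1).2 hj
  have hk : ∀ v, v ≠ t → ∃ k : ℕ, ρ * (1 / 2) ^ k < s v := by
    intro v hv
    have h1 : 0 < s v / ρ := div_pos (F.toDen.s_pos hv) hρ0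
    obtain ⟨k, hk⟩ := exists_pow_lt_of_lt_one h1 (show (1 / 2 : ℝ) < 1 by norm_num)
    refine ⟨k, ?_⟩
    rw [lt_div_iff₀ hρ0] at hk
    linarith
  refine ⟨⋃ k, Q k, ⟨?_, ?_, ?_⟩, ?_, ?_⟩
  · intro h
    obtain ⟨j, hj⟩ := mem_iUnion.1 h
    exact hKt j ((hQ j).1.sub hj)
  · rw [isOpen_iff_mem_nhds]
    intro v hv
    have hvt : v ≠ t := by
      rintro rfl
      obtain ⟨j, hj⟩ := mem_iUnion.1 hv
      exact hKt j ((hQ j).1.sub hj)
    obtain ⟨k, hk⟩ := hk v hvt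
    have h1 : IsOpen ({u | ρ * (1 / 2) ^ k < s u} ∩ ({v | ρ * (1 / 2) ^ k ≤ s v} \ Q k)ᶜ) :=
      (isOpen_lt continuous_const hs).inter (hQ k).1.cl'.isOpen_compl
    refine Filter.mem_of_superset (h1.mem_nhds ⟨hk, fun h => h.2 (hO k v hk.le hv)⟩) ?_
    rintro u ⟨hu1, hu2⟩
    refine mem_iUnion.2 ⟨k, ?_⟩
    by_contra h
    have hu3 : ρ * (1 / 2) ^ k < s u := hu1
    exact hu2 ⟨hu3.le, h⟩
  · rw [← isOpen_compl_iff, isOpen_iff_mem_nhds]
    intro v hv
    have hvO : v ∉ ⋃ k, Q k := fun h => hv (Or.inl h)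
    have hvt : v ≠ t := fun h => hv (Or.inr h)
    obtain ⟨k, hk⟩ := hk v hvt
    have h1 : IsOpen ({u | ρ * (1 / 2) ^ k < s u} ∩ (Q k)ᶜ) :=
      (isOpen_lt continuous_const hs).inter (hQ k).1.cl.isOpen_compl
    refine Filter.mem_of_superset (h1.mem_nhds ⟨hk, fun h => hvO (mem_iUnion.2 ⟨k, h⟩)⟩) ?_
    rintro u ⟨hu1, hu2⟩ (h | h)
    · exact hu2 (hO k u (le_of_lt hu1) h)
    · rw [mem_singleton_iff.1 h] at hu1
      have hu3 : ρ * (1 / 2) ^ k < s t := hu1
      rw [F.s_t] at hu3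
      exact absurd (hr0 k) (not_lt.2 hu3.le)
  · exact mem_iUnion.2 ⟨0, hQ0 ▸ hxQ rfl⟩
  · intro h
    have h1 : ρ * (1 / 2) ^ 0 ≤ s y := by
      rw [pow_zero, mul_one]
      exact min_le_right _ _
    have h2 := hO 0 y h1 h
    rw [hQ0] at h2
    exact (Set.disjoint_left.1 hyQ) h2 rfl

end Pool.Agent.H273.FAN
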