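import Pool.Agent.H273.FAN.Stm2

set_option autoImplicit false

namespace Pool.Agent.H273.FAN.PSMC

open Set Filter Topology Metric

variable {X : Type} [MetricSpace X] [CompactSpace X] {t : X} {s : X → ℝ}

theorem ev_le (D : Den X t s) (hN : ∀ x, N t x = J t x) (x : X) {δ : ℝ} (hδ : 0 < δ) :
    ∀ᶠ y in 𝓝 x, J t y ⊆ Metric.thickening δ (J t x) := by
  by_contra hcon
  rw [Filter.not_eventually] at hcon
  obtain ⟨y, hy, hyn⟩ := Filter.exists_seq_forall_of_frequently hcon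
  have h1 : ∀ n, ∃ v, v ∈ J t (y n) ∧ v ∉ Metric.thickening δ (J t x) := fun n => by
    obtain ⟨v, hv, hv'⟩ := Set.not_subset.1 (hyn n)
    exact ⟨v, hv, hv'⟩
  choose v hv hv' using h1
  obtain ⟨v0, φ, hφ, hlim⟩ := sub_conv v
  have h2 : v0 ∈ N t x := D.mem_N_iff.2 ⟨fun n => y (φ n), fun n => v (φ n), fun n => hv _,
    hy.comp hφ.tendsto_atTop, hlim⟩
  rw [hN] at h2
  obtain ⟨n, hn⟩ := (hlim.eventually (Metric.ball_mem_nhds v0 hδ)).exists
  exact hv' (φ n) (Metric.mem_thickening_iff.2 ⟨v0, h2, hn⟩)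

theorem ev_ge (D : Den X t s) (x : X) {δ : ℝ} (hδ : 0 < δ) :
    ∀ᶠ y in 𝓝 x, J t x ⊆ Metric.thickening δ (J t y) := by
  by_contra hcon
  rw [Filter.not_eventually] at hcon
  obtain ⟨y, hy, hyn⟩ := Filter.exists_seq_forall_of_frequently hcon
  have h1 : ∀ n, ∃ v, v ∈ J t x ∧ v ∉ Metric.thickening δ (J t (y n)) := fun n => by
    obtain ⟨v, hv, hv'⟩ := Set.not_subset.1 (hyn n)
    exact ⟨v, hv, hv'⟩
  choose v hv hv' using h1
  obtain ⟨v0, φ, hφ, hlim⟩ := sub_conv v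
  have h2 : v0 ∈ J t x := (D.closed x).mem_of_tendsto hlim (Eventually.of_forall fun n => hv _)
  obtain ⟨u, hu, hulim⟩ := D.lsc (hy.comp hφ.tendsto_atTop) h2
  have hd : Tendsto (fun n => dist (v (φ n)) (u n)) atTop (𝓝 (dist v0 v0)) := hlim.dist hulim
  rw [dist_self] at hd
  obtain ⟨n, hn⟩ := (hd.eventually (gt_mem_nhds hδ)).exists
  exact hv' (φ n) (Metric.mem_thickening_iff.2 ⟨u n, hu n, hn⟩)

end Pool.Agent.H273.FAN.PSMC

namespace Pool.Agent.H273.FAN

open Set Filter Topology Metric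

theorem t_SMC : S_SMC := by
  intro X _ _ t s D hN
  rw [continuous_iff_continuousAt]
  intro x
  rw [ContinuousAt, Metric.tendsto_nhds]
  intro ε hε
  obtain ⟨δ, hδ, h⟩ := D.s_unif (ε / 2) (by positivity)
  filter_upwards [PSMC.ev_le D hN x hδ, PSMC.ev_ge D x hδ] with y h1 h2
  have h3 := h y x h1
  have h4 := h x y h2
  rw [Real.dist_eq, abs_lt]
  constructor <;> linarith

end Pool.Agent.H273.FAN
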