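import Pool.Agent.H273.FAN.Api3

/-! STEP: one refinement step of the back-and-forth. -/

set_option autoImplicit false
set_option linter.unusedSectionVars false

namespace Pool.Agent.H273.FAN.PSTEP

open Set Filter Topology Metric

/-- the refined labelling -/
noncomputable def spl {X : Type} (A : ℕ → Set X) (P : X → ℕ) (x : X) : ℕ :=
  open scoped Classical in if x ∈ A (P x) then 2 * P x + 1 else 2 * P x

section
variable {X : Type} {A : ℕ → Set X} {P : X → ℕ} {t : X}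

theorem spl_in {x : X} (h : x ∈ A (P x)) : spl A P x = 2 * P x + 1 := by
  unfold spl; rw [if_pos h]

theorem spl_out {x : X} (h : x ∉ A (P x)) : spl A P x = 2 * P x := by
  unfold spl; rw [if_neg h]

theorem spl_div (x : X) : spl A P x / 2 = P x := by
  by_cases h : x ∈ A (P x)
  · rw [spl_in h]; omega
  · rw [spl_out h]; omega

theorem spl_odd (hA : ∀ i, A i ⊆ P ⁻¹' {i} \ {t}) (i : ℕ) : spl A P ⁻¹' {2 * i + 1} \ {t} = A i := by
  ext x
  constructor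
  · rintro ⟨h1, h2⟩
    have h1' : spl A P x = 2 * i + 1 := h1
    by_cases h : x ∈ A (P x)
    · rw [spl_in h] at h1'
      have : P x = i := by omega
      rwa [this] at h
    · rw [spl_out h] at h1'
      omega
  · intro h
    have h1 := hA i h
    have h2 : P x = i := h1.1
    refine ⟨?_, h1.2⟩
    show spl A P x = 2 * i + 1
    rw [spl_in (by rwa [h2]), h2]

theorem spl_even (i : ℕ) : spl A P ⁻¹' {2 * i} \ {t} = (P ⁻¹' {i} \ {t}) \ A i := by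
  ext x
  constructor
  · rintro ⟨h1, h2⟩
    have h1' : spl A P x = 2 * i := h1
    by_cases h : x ∈ A (P x)
    · rw [spl_in h] at h1'
      omega
    · rw [spl_out h] at h1'
      have h3 : P x = i := by omega
      rw [h3] at h
      exact ⟨⟨h3, h2⟩, h⟩
  · rintro ⟨⟨h1, h2⟩, h3⟩
    have h1' : P x = i := h1
    refine ⟨?_, h2⟩
    show spl A P x = 2 * i
    rw [spl_out (by rwa [h1']), h1']

theorem mem_im {j : ℕ} : j ∈ P '' {t}ᶜ ↔ (P ⁻¹' {j} \ {t}).Nonempty := by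
  constructor
  · rintro ⟨x, hx, rfl⟩; exact ⟨x, rfl, hx⟩
  · rintro ⟨x, hx, hxt⟩; exact ⟨x, hxt, hx⟩

end

section
variable {X : Type} [MetricSpace X] [CompactSpace X] {t : X} {s : X → ℝ} {e : X → X}

theorem spl_lab {A : ℕ → Set X} {P : X → ℕ} (hP : Lab t P) (hA : ∀ i, A i ⊆ P ⁻¹' {i} \ {t})
    (hc : ∀ i, CS t (A i)) : Lab t (spl A P) := by
  constructor
  · intro j
    rcases Nat.even_or_odd' j with ⟨i, h | h⟩
    · rw [h, spl_even]; exact (hP.cs i).diff (hc i)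
    · rw [h, spl_odd hA]; exact hc i
  · apply ((hP.fin.image fun i => 2 * i).union (hP.fin.image fun i => 2 * i + 1)).subset
    rintro _ ⟨x, hx, rfl⟩
    by_cases h : x ∈ A (P x)
    · right; exact ⟨P x, ⟨x, hx, rfl⟩, (spl_in h).symm⟩
    · left; exact ⟨P x, ⟨x, hx, rfl⟩, (spl_out h).symm⟩

theorem sup_of_max {C : Set X} {f : X → ℝ} {q : X} (hq : q ∈ C) (h : ∀ x ∈ C, f x ≤ f q) :
    sSup (f '' C) = f q :=
  IsGreatest.csSup_eq ⟨⟨q, hq, rfl⟩, by rintro _ ⟨x, hx, rfl⟩; exact h x hx⟩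

theorem maxb (F : Fan X t s e) {C : Set X} (hC : CS t C) (hne : C.Nonempty) {f : X → ℝ} (hf : Ht t f) {b : X}
    (hb : b ∈ Ends t e) (hmax : ∀ x, f x ≤ f b) :
    ∃ q ∈ C, q ∈ Ends t e ∧ (∀ x ∈ C, f x ≤ f q) ∧ (b ∈ C → q = b) := by
  by_cases h : b ∈ C
  · exact ⟨b, h, hb, fun x _ => hmax x, fun _ => rfl⟩
  · obtain ⟨q, h1, h2, h3, -⟩ := hC.max F hne hf
    exact ⟨q, h1, h2, h3, fun h4 => absurd h4 h⟩

theorem choice (hpick : S_PICK) (F : Fan X t s e) (hL : LegUsc t e) (hs : Continuous s)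
    (hd : closure (Ends t e) = Set.univ) {f₁ f₂ : X → ℝ} (hf₁ : Ht t f₁) (hf₂ : Ht t f₂) {b : X}
    (hb : b ∈ Ends t e) (hb1 : ∀ x, f₁ x ≤ f₁ b) (hb2 : ∀ x, f₂ x ≤ f₂ b) {P Q : X → ℕ} (hG : Good t b P Q)
    {O : Set X} (hO : CS t O) {δ : ℝ} (hδ : 0 < δ) (i : ℕ) :
    ∃ C1 D1 : Set X, CS t C1 ∧ CS t D1 ∧ C1 ⊆ P ⁻¹' {i} \ {t} ∧ D1 ⊆ Q ⁻¹' {i} \ {t} ∧ b ∉ C1 ∧ b ∉ D1 ∧
      (C1.Nonempty ↔ D1.Nonempty) ∧
      (((P ⁻¹' {i} \ {t}) \ C1).Nonempty ↔ ((Q ⁻¹' {i} \ {t}) \ D1).Nonempty) ∧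
      (sSup (f₁ '' ((P ⁻¹' {i} \ {t}) \ C1)) = sSup (f₁ '' (P ⁻¹' {i} \ {t})) ∧
        sSup (f₂ '' ((Q ⁻¹' {i} \ {t}) \ D1)) = sSup (f₂ '' (Q ⁻¹' {i} \ {t}))) ∧
      (C1.Nonempty → |Real.log (sSup (f₂ '' D1)) - Real.log (sSup (f₁ '' C1)) - lam t f₁ f₂ P Q i| < δ) ∧
      (∀ x y, x ∈ P ⁻¹' {i} \ {t} → y ∈ P ⁻¹' {i} \ {t} → (x ∈ C1 ↔ y ∈ C1) → (x ∈ O ↔ y ∈ O)) := by
  have hlam : lam t f₁ f₂ P Q i = Real.log (sSup (f₂ '' (Q ⁻¹' {i} \ {t}))) -
    Real.log (sSup (f₁ '' (P ⁻¹' {i} \ {t}))) := rfl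
  have hne : (P ⁻¹' {i} \ {t}).Nonempty ↔ (Q ⁻¹' {i} \ {t}).Nonempty := by
    rw [← mem_im, ← mem_im, hG.rng]
  have hC := hG.labP.cs i
  have hD := hG.labQ.cs i
  rw [hlam]
  generalize (P ⁻¹' {i} \ {t}) = C at hne hC ⊢
  generalize (Q ⁻¹' {i} \ {t}) = D at hne hD ⊢
  by_cases hCe : C.Nonempty
  · have hDe := hne.1 hCe
    obtain ⟨qC, hqC, hqCe, hqCm, hqCb⟩ := maxb F hC hCe hf₁ hb hb1
    obtain ⟨qD, hqD, hqDe, hqDm, hqDb⟩ := maxb F hD hDe hf₂ hb hb2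
    have hqCt : qC ≠ t := hqCe.1
    have hqDt : qD ≠ t := hqDe.1
    have hp1 : 0 < f₁ qC := hf₁.pos F.toDen hqCt
    have hp2 : 0 < f₂ qD := hf₂.pos F.toDen hqDt
    obtain ⟨C1, hC1, hC1s, hqC1, hC1O⟩ : ∃ C1 : Set X, CS t C1 ∧ C1 ⊆ C ∧ qC ∉ C1 ∧
        ∀ x y, x ∈ C → y ∈ C → (x ∈ C1 ↔ y ∈ C1) → (x ∈ O ↔ y ∈ O) := by
      by_cases h : qC ∈ O
      · refine ⟨C \ O, hC.diff hO, fun x hx => hx.1, fun h1 => h1.2 h, ?_⟩
        intro x y hx hy hxy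
        simp only [Set.mem_sdiff, hx, hy, true_and] at hxy
        exact not_iff_not.1 hxy
      · refine ⟨C ∩ O, hC.inter hO, fun x hx => hx.1, fun h1 => h h1.2, ?_⟩
        intro x y hx hy hxy
        simp only [Set.mem_inter_iff, hx, hy, true_and] at hxy
        exact hxy
    have hbC1 : b ∉ C1 := by
      intro h
      have := hqCb (hC1s h)
      rw [this] at hqC1
      exact hqC1 h
    have hsC : sSup (f₁ '' C) = f₁ qC := sup_of_max hqC hqCm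
    have hsD : sSup (f₂ '' D) = f₂ qD := sup_of_max hqD hqDm
    have hsC1 : sSup (f₁ '' (C \ C1)) = f₁ qC := sup_of_max ⟨hqC, hqC1⟩ fun x hx => hqCm x hx.1
    by_cases hC1e : C1.Nonempty
    · obtain ⟨q1, hq1, hq1e, hq1m, hq1s⟩ := hC1.max F hC1e hf₁
      have hp3 : 0 < f₁ q1 := hf₁.pos F.toDen hq1e.1
      have hle : f₁ q1 ≤ f₁ qC := hqCm q1 (hC1s hq1)
      have hr0 : 0 < f₂ qD / f₁ qC * f₁ q1 := by positivity
      have hr1 : f₂ qD / f₁ qC * f₁ q1 ≤ f₂ qD := by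
        rw [div_mul_eq_mul_div, div_le_iff₀ hp1]
        exact mul_le_mul_of_nonneg_left hle hp2.le
      obtain ⟨D1, hD1, hD1s, hD1e, hqD1, hD1l⟩ := hpick X t s e F hL hs hd f₂ hf₂ D hD qD hqD hqDe _ hr0 hr1 δ hδ
      refine ⟨C1, D1, hC1, hD1, hC1s, hD1s, hbC1, ?_, ⟨fun _ => hD1e, fun _ => hC1e⟩,
        ⟨fun _ => ⟨qD, hqD, hqD1⟩, fun _ => ⟨qC, hqC, hqC1⟩⟩, ⟨hsC1.trans hsC.symm, ?_⟩, ?_, hC1O⟩
      · intro h
        have := hqDb (hD1s h)
        rw [this] at hqD1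
        exact hqD1 h
      · rw [hsD]
        exact sup_of_max ⟨hqD, hqD1⟩ fun x hx => hqDm x hx.1
      · intro _
        rw [hsC, hsD, hq1s]
        rw [Real.log_mul (div_pos hp2 hp1).ne' hp3.ne', Real.log_div hp2.ne' hp1.ne'] at hD1l
        have e1 : Real.log (sSup (f₂ '' D1)) - Real.log (f₁ q1) - (Real.log (f₂ qD) - Real.log (f₁ qC)) =
          Real.log (sSup (f₂ '' D1)) - (Real.log (f₂ qD) - Real.log (f₁ qC) + Real.log (f₁ q1)) := by ring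
        rw [e1]
        exact hD1l
    · have hC1e' : C1 = ∅ := Set.not_nonempty_iff_eq_empty.1 hC1e
      subst hC1e'
      refine ⟨∅, ∅, CS.empty, CS.empty, Set.empty_subset _, Set.empty_subset _, Set.notMem_empty _,
        Set.notMem_empty _, Iff.rfl, ?_, ⟨by rw [Set.sdiff_empty], by rw [Set.sdiff_empty]⟩, fun h => absurd h hC1e, hC1O⟩
      rw [Set.sdiff_empty, Set.sdiff_empty]
      exact hne
  · have hDe : ¬ D.Nonempty := fun h => hCe (hne.2 h)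
    have hC' : C = ∅ := Set.not_nonempty_iff_eq_empty.1 hCe
    have hD' : D = ∅ := Set.not_nonempty_iff_eq_empty.1 hDe
    subst hC' hD'
    refine ⟨∅, ∅, CS.empty, CS.empty, Set.empty_subset _, Set.empty_subset _, Set.notMem_empty _,
        Set.notMem_empty _, Iff.rfl, ?_, ⟨by rw [Set.sdiff_empty], by rw [Set.sdiff_empty]⟩,
        fun h => absurd h Set.not_nonempty_empty, fun x y hx => absurd hx (Set.notMem_empty _)⟩
    rw [Set.sdiff_empty]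

end

end Pool.Agent.H273.FAN.PSTEP

namespace Pool.Agent.H273.FAN

open Set Filter Topology Metric PSTEP

theorem t_STEP (h1 : S_PICK) : S_STEP := by
  intro X _ _ t s e F hL hs hd f₁ f₂ hf₁ hf₂ b hb hb1 hb2 P Q hG O hO δ hδ
  choose C1 D1 hC hD hCs hDs hbC hbD hne hne' hsup hlog hsep using
    fun i => choice h1 F hL hs hd hf₁ hf₂ hb hb1 hb2 hG hO hδ i
  refine ⟨spl C1 P, spl D1 Q, fun j => j / 2, ⟨spl_lab hG.labP hCs hC, spl_lab hG.labQ hDs hD, ?_, ?_⟩,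
    fun x _ => spl_div x, fun x _ => spl_div x, ?_, ?_⟩
  · ext j
    rw [mem_im, mem_im]
    rcases Nat.even_or_odd' j with ⟨i, h | h⟩
    · rw [h, spl_even, spl_even]; exact hne' i
    · rw [h, spl_odd hCs, spl_odd hDs]; exact hne i
  · rw [spl_out (hbC _), spl_out (hbD _), hG.base]
  · intro x y hx hy hxy
    have h2 : P x = P y := by
      rw [← spl_div (A := C1) (P := P) x, ← spl_div (A := C1) (P := P) y, hxy]
    apply hsep (P x) x y ⟨rfl, hx⟩ ⟨h2.symm, hy⟩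
    by_cases h3 : x ∈ C1 (P x)
    · refine ⟨fun _ => ?_, fun _ => h3⟩
      by_contra h4
      rw [h2] at h4
      rw [spl_in h3, spl_out h4] at hxy
      omega
    · refine ⟨fun h => absurd h h3, fun h4 => ?_⟩
      exfalso
      rw [h2] at h4
      rw [spl_out h3, spl_in h4] at hxy
      omega
  · rintro _ ⟨x, hx, rfl⟩
    beta_reduce
    rw [spl_div]
    by_cases h3 : x ∈ C1 (P x)
    · rw [spl_in h3]
      have e1 : lam t f₁ f₂ (spl C1 P) (spl D1 Q) (2 * P x + 1) =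
          Real.log (sSup (f₂ '' D1 (P x))) - Real.log (sSup (f₁ '' C1 (P x))) := by
        unfold lam
        rw [spl_odd hCs, spl_odd hDs]
      rw [e1]
      exact hlog _ ⟨x, h3⟩
    · rw [spl_out h3]
      have e1 : lam t f₁ f₂ (spl C1 P) (spl D1 Q) (2 * P x) = lam t f₁ f₂ P Q (P x) := by
        unfold lam
        rw [spl_even, spl_even, (hsup _).1, (hsup _).2]
      rw [e1, sub_self, abs_zero]
      exact hδ

end Pool.Agent.H273.FAN
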