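import Pool.Agent.H273.FAN.Stm2

/-! SUB: subsequences for further points of the leg. -/

set_option autoImplicit false

namespace Pool.Agent.H273.FAN

open Set Filter Topology Metric

theorem t_SUB (h1 : S_HCJ) : S_SUB := by
  intro X _ _ t s e F hN hL p w x h hHC hx
  obtain ⟨y, φ, hφ, hy⟩ := sub_conv (fun n => h n x)
  obtain ⟨ψ, u, hψ, -, -, hu⟩ := h1 X t s e F hN hL (fun n => h (φ n) x) y hy
  have hχ : StrictMono fun n => φ (ψ n) := hφ.comp hψ
  refine ⟨fun n => φ (ψ n), u, hχ, ?_, ?_⟩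
  · rw [← (F.closed w).closure_eq, Metric.mem_closure_iff]
    intro ε hε
    have e1 := hu (ε / 2) (half_pos hε)
    have e2 := hχ.tendsto_atTop.eventually (hHC (ε / 2) (half_pos hε))
    obtain ⟨n, hn1, hn2⟩ := (e1.and e2).exists
    obtain ⟨v, hv, hd⟩ := Metric.mem_thickening_iff.1 (hn1.2 (F.memx u))
    have hv2 : v ∈ h (φ (ψ n)) '' J t p := by
      rw [img _ (F.fix _)]
      exact F.toDen.trans hv ((mem_img _ (F.fix _)).2 hx)
    obtain ⟨z, hz, hd2⟩ := Metric.mem_thickening_iff.1 (hn2.1 hv2)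
    exact ⟨z, hz, by linarith [dist_triangle u v z]⟩
  · have : (fun n => h (φ (ψ n)) '' J t x) = fun n => J t (h (φ (ψ n)) x) :=
      funext fun n => img _ (F.fix _) x
    rw [this]
    exact hu

end Pool.Agent.H273.FAN
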