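import Pool.Agent.H273.FAN.Stm1
import Pool.Agent.H273.FAN.Api

/-!
Two points above a common point different from the top are comparable.
-/

set_option autoImplicit false

namespace Pool.Agent.H273.FAN

open Set Filter Topology Metric

namespace PTRI

variable {X : Type} [MetricSpace X]

/-- a piece of a parametrised arc -/
def pth (a : ℝ → X) (c d : ℝ) : unitInterval → X := fun u => a (c + (u : ℝ) * (d - c))

theorem mem_seg {S c d : ℝ} (hc : c ∈ Icc 0 S) (hd : d ∈ Icc 0 S) (u : unitInterval) :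
    c + (u : ℝ) * (d - c) ∈ Icc 0 S := by
  have h0 := u.2.1
  have h1 := u.2.2
  have e : c + (u : ℝ) * (d - c) = (1 - (u : ℝ)) * c + (u : ℝ) * d := by ring
  rw [e]
  constructor
  · have := mul_nonneg (sub_nonneg.2 h1) hc.1
    have := mul_nonneg h0 hd.1
    linarith
  · have := mul_le_mul_of_nonneg_left hc.2 (sub_nonneg.2 h1)
    have := mul_le_mul_of_nonneg_left hd.2 h0
    nlinarith

theorem pth_ok {s : X → ℝ} {a : ℝ → X} {S c d : ℝ} (ac : Continuous a)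
    (hs : ∀ r ∈ Icc 0 S, s (a r) = r) (hc : c ∈ Icc 0 S) (hd : d ∈ Icc 0 S) (hne : c ≠ d) :
    Continuous (pth a c d) ∧ Function.Injective (pth a c d) ∧ pth a c d 0 = a c := by
  refine ⟨?_, ?_, ?_⟩
  · unfold pth
    exact ac.comp (by fun_prop)
  · intro u v huv
    have h1 := congrArg s huv
    unfold pth at h1
    rw [hs _ (mem_seg hc hd u), hs _ (mem_seg hc hd v)] at h1
    have h2 : (u : ℝ) * (d - c) = (v : ℝ) * (d - c) := by linarith
    exact Subtype.ext (mul_right_cancel₀ (sub_ne_zero.2 (Ne.symm hne)) h2)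
  · show a (c + ((0 : unitInterval) : ℝ) * (d - c)) = a c
    have h0 : ((0 : unitInterval) : ℝ) = 0 := rfl
    rw [h0, zero_mul, add_zero]

omit [MetricSpace X] in
theorem inter_eq {A B : Set X} {b : X} (hA : b ∈ A) (hB : b ∈ B)
    (h : ∀ z ∈ A, z ∈ B → z = b) : A ∩ B = {b} := by
  ext z
  constructor
  · rintro ⟨h1, h2⟩
    exact h z h1 h2
  · rintro rfl
    exact ⟨hA, hB⟩

end PTRI

open PTRI in
theorem t_TRI : S_TRI := by
  intro X _ _ t s D hV x y y' hx h1 h2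
  by_contra hcon
  push Not at hcon
  obtain ⟨hy, hy'⟩ := hcon
  obtain ⟨a, ac, ha, -, aS⟩ := D.arc y
  obtain ⟨a', ac', ha', -, aS'⟩ := D.arc y'
  obtain ⟨R, hR⟩ : ∃ R : Set ℝ, R = Icc 0 (min (s y) (s y')) ∩ {r | a r = a' r} := ⟨_, rfl⟩
  have hRc : IsCompact R := by
    rw [hR]
    exact isCompact_Icc.inter_right (isClosed_eq ac ac')
  have hsx : s x ∈ R := by
    have q1 : s x ∈ Icc 0 (s y) := ⟨D.s_nonneg x, D.s_mono h1⟩
    have q2 : s x ∈ Icc 0 (s y') := ⟨D.s_nonneg x, D.s_mono h2⟩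
    have e1 : a (s x) = x := D.s_inj (ha _ q1).1 h1 (ha _ q1).2
    have e2 : a' (s x) = x := D.s_inj (ha' _ q2).1 h2 (ha' _ q2).2
    rw [hR]
    refine ⟨⟨D.s_nonneg x, le_min q1.2 q2.2⟩, ?_⟩
    show a (s x) = a' (s x)
    rw [e1, e2]
  obtain ⟨ρ, hρ⟩ : ∃ ρ : ℝ, ρ = sSup R := ⟨_, rfl⟩
  have hρR : ρ ∈ R := by
    rw [hρ]
    exact hRc.sSup_mem ⟨_, hsx⟩
  have hle : ∀ r ∈ R, r ≤ ρ := fun r hr => by
    rw [hρ]
    exact le_csSup hRc.bddAbove hr
  have hρ0 : 0 < ρ := (D.s_pos hx).trans_le (hle _ hsx)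
  rw [hR] at hρR hle
  obtain ⟨⟨-, hρm⟩, hab⟩ := hρR
  have hab' : a ρ = a' ρ := hab
  have hρy : ρ ≤ s y := hρm.trans (min_le_left _ _)
  have hρy' : ρ ≤ s y' := hρm.trans (min_le_right _ _)
  have i1 : ρ ∈ Icc 0 (s y) := ⟨hρ0.le, hρy⟩
  have i2 : ρ ∈ Icc 0 (s y') := ⟨hρ0.le, hρy'⟩
  have l1 : ρ < s y := by
    refine lt_of_le_of_ne hρy fun h => hy ?_
    have h3 := (ha' ρ i2).1
    rw [← hab', h, aS] at h3
    exact h3
  have l2 : ρ < s y' := by
    refine lt_of_le_of_ne hρy' fun h => hy' ?_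
    have h3 := (ha ρ i1).1
    rw [hab', h, aS'] at h3
    exact h3
  have z1 : (0 : ℝ) ∈ Icc 0 (s y) := ⟨le_rfl, D.s_nonneg y⟩
  have z2 : s y ∈ Icc 0 (s y) := ⟨D.s_nonneg y, le_rfl⟩
  have z3 : s y' ∈ Icc 0 (s y') := ⟨D.s_nonneg y', le_rfl⟩
  have hsa : ∀ r ∈ Icc 0 (s y), s (a r) = r := fun r hr => (ha r hr).2
  have hsa' : ∀ r ∈ Icc 0 (s y'), s (a' r) = r := fun r hr => (ha' r hr).2
  have p0 := pth_ok ac hsa i1 z1 hρ0.ne'
  have p1 := pth_ok ac hsa i1 z2 l1.ne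
  have p2 := pth_ok ac' hsa' i2 z3 l2.ne
  rw [← hab'] at p2
  -- the intersections
  have k01 : range (pth a ρ 0) ∩ range (pth a ρ (s y)) = {a ρ} := by
    refine inter_eq ⟨0, p0.2.2⟩ ⟨0, p1.2.2⟩ ?_
    rintro z ⟨u, rfl⟩ ⟨v, hv⟩
    have h3 := congrArg s hv
    unfold pth at h3 ⊢
    rw [hsa _ (mem_seg i1 z2 v), hsa _ (mem_seg i1 z1 u)] at h3
    have hu := u.2.1
    have hv0 := v.2.1
    have h4 : 0 ≤ (v : ℝ) * (s y - ρ) := mul_nonneg hv0 (by linarith)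
    have h5 : 0 ≤ (u : ℝ) * ρ := mul_nonneg hu hρ0.le
    have h6 : (u : ℝ) * (0 - ρ) = 0 := by linarith
    rw [h6, add_zero]
  have k02 : range (pth a ρ 0) ∩ range (pth a' ρ (s y')) = {a ρ} := by
    refine inter_eq ⟨0, p0.2.2⟩ ⟨0, p2.2.2⟩ ?_
    rintro z ⟨u, rfl⟩ ⟨v, hv⟩
    have h3 := congrArg s hv
    unfold pth at h3 ⊢
    rw [hsa' _ (mem_seg i2 z3 v), hsa _ (mem_seg i1 z1 u)] at h3
    have hu := u.2.1
    have hv0 := v.2.1
    have h4 : 0 ≤ (v : ℝ) * (s y' - ρ) := mul_nonneg hv0 (by linarith)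
    have h5 : 0 ≤ (u : ℝ) * ρ := mul_nonneg hu hρ0.le
    have h6 : (u : ℝ) * (0 - ρ) = 0 := by linarith
    rw [h6, add_zero]
  have k12 : range (pth a ρ (s y)) ∩ range (pth a' ρ (s y')) = {a ρ} := by
    refine inter_eq ⟨0, p1.2.2⟩ ⟨0, p2.2.2⟩ ?_
    rintro z ⟨u, rfl⟩ ⟨v, hv⟩
    have h3 := congrArg s hv
    unfold pth at h3 hv ⊢
    rw [hsa' _ (mem_seg i2 z3 v), hsa _ (mem_seg i1 z2 u)] at h3
    rw [h3] at hv
    have hu := u.2.1
    have m1 := mem_seg i1 z2 u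
    have m2 := mem_seg i2 z3 v
    rw [h3] at m2
    have h4 : 0 ≤ (u : ℝ) * (s y - ρ) := mul_nonneg hu (by linarith)
    have h5 := hle (ρ + (u : ℝ) * (s y - ρ)) ⟨⟨m1.1, le_min m1.2 m2.2⟩, hv.symm⟩
    have h6 : (u : ℝ) * (s y - ρ) = 0 := by linarith
    rw [h6, add_zero]
  have hb : a ρ = t := by
    refine hV _ ⟨![pth a ρ 0, pth a ρ (s y), pth a' ρ (s y')], ?_, ?_⟩
    · intro i
      fin_cases i
      · exact p0
      · exact p1
      · exact p2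
    · intro i j hij
      fin_cases i <;> fin_cases j
      · exact absurd rfl hij
      · exact k01
      · exact k02
      · rw [inter_comm]
        exact k01
      · exact absurd rfl hij
      · exact k12
      · rw [inter_comm]
        exact k02
      · rw [inter_comm]
        exact k12
      · exact absurd rfl hij
  have h3 := (ha ρ i1).2
  rw [hb, D.s_t] at h3
  exact hρ0.ne h3

end Pool.Agent.H273.FAN
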