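import Pool.Agent.H273.FAN.Stm2

/-! `t_ZZ`: the discrete case is impossible. -/

set_option autoImplicit false

namespace Pool.Agent.H273.FAN.PZZ

open Set Filter Topology Metric
open Pool.Agent.H273.FAN

section hc
variable {X : Type} [MetricSpace X] [CompactSpace X]

theorem HC_sub {K : ℕ → Set X} {L : Set X} (h : HC K L) {φ : ℕ → ℕ} (hφ : StrictMono φ) :
    HC (fun n => K (φ n)) L := fun ε hε =>
  hφ.tendsto_atTop.eventually (h ε hε)

theorem HC_img (g : X ≃ₜ X) {K : ℕ → Set X} {L : Set X} (h : HC K L) :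
    HC (fun n => g '' K n) (g '' L) := by
  intro ε hε
  have hu : UniformContinuous g := CompactSpace.uniformContinuous_of_continuous g.continuous
  obtain ⟨δ, hδ, hδ2⟩ := Metric.uniformContinuous_iff.1 hu ε hε
  filter_upwards [h δ hδ] with n hn
  constructor
  · rintro _ ⟨x, hx, rfl⟩
    obtain ⟨y, hy, hxy⟩ := Metric.mem_thickening_iff.1 (hn.1 hx)
    exact Metric.mem_thickening_iff.2 ⟨g y, ⟨y, hy, rfl⟩, hδ2 hxy⟩
  · rintro _ ⟨x, hx, rfl⟩
    obtain ⟨y, hy, hxy⟩ := Metric.mem_thickening_iff.1 (hn.2 hx)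
    exact Metric.mem_thickening_iff.2 ⟨g y, ⟨y, hy, rfl⟩, hδ2 hxy⟩

theorem HC_trans (g : X ≃ₜ X) {t : X} (hg : g t = t) {h : ℕ → X ≃ₜ X} {x u : X}
    (H : HC (fun n => h n '' J t x) (J t u)) :
    HC (fun n => ((h n).trans g) '' J t x) (J t (g u)) := by
  have h1 := HC_img g H
  rw [img g hg] at h1
  have h2 : (fun n => ((h n).trans g) '' J t x) = fun n => g '' (h n '' J t x) := by
    funext n
    rw [Set.image_image]
    rfl
  rw [h2]
  exact h1

end hc

section leg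
variable {X : Type} [MetricSpace X] [CompactSpace X] {t : X} {s : X → ℝ} {e : X → X}
  {A B : Set X}

theorem e_leg (F : Fan X t s e) {p x : X} (hp : p ∈ Ends t e) (hx : x ∈ J t p) (hxt : x ≠ t) :
    e x = p := by
  rw [F.e_mem hx hxt, hp.2]

theorem cls (S : Setup X t s e A B) {p x : X} (hp : p ∈ Ends t e) (hx : x ∈ J t p) (hxt : x ≠ t)
    (hxp : x ≠ p) : x ∈ A ∨ x ∈ B := by
  have h1 : x ∈ Int t e := ⟨hxt, by rw [e_leg S.toFan hp hx hxt]; exact hxp.symm⟩
  rw [← S.cover] at h1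
  exact h1

theorem fixp (F : Fan X t s e) {p x y : X} (hp : p ∈ Ends t e) (hx : x ∈ J t p) (hxt : x ≠ t)
    (hy : y ∈ J t p) (hyt : y ≠ t) (g : X ≃ₜ X) (hg : g x = y) : g p = p := by
  have h1 := F.e_homeo g x
  rw [e_leg F hp hx hxt, hg, e_leg F hp hy hyt] at h1
  exact h1

theorem memA (S : Setup X t s e A B) {a : X} (ha : a ∈ A) : a ≠ t ∧ e a ≠ a := by
  have h1 : a ∈ Int t e := by rw [← S.cover]; exact Or.inl ha
  exact h1

theorem A_ne_p (S : Setup X t s e A B) {p a : X} (hp : p ∈ Ends t e) (ha : a ∈ A) : a ≠ p := by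
  rintro rfl
  exact (memA S ha).2 hp.2

theorem A_lt (S : Setup X t s e A B) {p a : X} (hp : p ∈ Ends t e) (ha : a ∈ A)
    (hap : a ∈ J t p) : s a < s p := S.s_lt hap (A_ne_p S hp ha)

theorem exq (S : Setup X t s e A B) {p : X} (hp : p ∈ Ends t e) : ∃ q ∈ A, q ∈ J t p := by
  obtain ⟨a, ha⟩ := S.Ane
  obtain ⟨h, hh⟩ := S.Eorb a p (memA S ha).1 hp.1
  refine ⟨h a, S.Ainv h a ha, ?_⟩
  have h1 : h a ∈ J t (h (e a)) := (mem_img h (S.fix h)).2 (S.le_e a)
  rwa [hh, hp.2] at h1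

/-- points of `A` high in the leg -/
theorem high (h1 : S_UNB) (S : Setup X t s e A B) {p : X} (hp : p ∈ Ends t e) {r : ℝ}
    (hr : r < s p) : ∃ a ∈ A, a ∈ J t p ∧ r < s a := by
  obtain ⟨q, hq, hqp⟩ := exq S hp
  have hsp : 0 < s p := S.s_pos hp.1
  obtain ⟨y, hy, hys⟩ := S.level p (r := (max r 0 + s p) / 2) (by
      have := le_max_right r 0
      linarith) (by
      have : max r 0 < s p := max_lt hr hsp
      linarith)
  have h2 : max r 0 < s p := max_lt hr hsp
  have h3 := le_max_left r 0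
  have h4 := le_max_right r 0
  have hyt : y ≠ t := by
    rintro rfl
    rw [S.s_t] at hys
    linarith
  have hyp : y ≠ p := by
    rintro rfl
    linarith
  obtain ⟨⟨g, hg, hgy⟩, -⟩ := h1 X t s e A B S p hp q y hqp (memA S hq).1 (A_ne_p S hp hq) hy hyt hyp
  refine ⟨g q, S.Ainv g q hq, ?_, ?_⟩
  · have h5 : g q ∈ J t (g p) := (mem_img g (S.fix g)).2 hqp
    rwa [hg p rfl] at h5
  · have h5 := S.s_mono hgy
    linarith

/-- the final contradiction -/
theorem fin (h1 : S_UNB) (S : Setup X t s e A B) {p : X} (hp : p ∈ Ends t e) (hZ : ZT t p A)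
    {z w' y' : X} (hz : z ≠ t) (hw : w' ∈ J t p) (hwp : w' ≠ p)
    (hy : y' ∈ J t p) (hyp : y' ≠ p) (γ : ℕ → X ≃ₜ X) (hγ : ∀ k, γ k ∈ Stab ({p} : Set X))
    (hlim : Tendsto (fun k => γ k w') atTop (𝓝 p)) (hle : ∀ k, γ k z ∈ J t y') : False := by
  have hfin := hZ z w' hw hwp hz
  -- infinitely many points of `A` above `y'`
  have hinf : {a | a ∈ A ∧ a ∈ J t p ∧ s y' < s a}.Infinite := by
    intro hf
    have hne : {a | a ∈ A ∧ a ∈ J t p ∧ s y' < s a}.Nonempty := by
      obtain ⟨a, ha, hap, has⟩ := high h1 S hp (S.s_lt hy hyp)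
      exact ⟨a, ha, hap, has⟩
    obtain ⟨b, hb, hmax⟩ := Set.exists_max_image _ s hf hne
    obtain ⟨a, ha, hap, has⟩ := high h1 S hp (A_lt S hp hb.1 hb.2.1)
    have := hmax a ⟨ha, hap, hb.2.2.trans has⟩
    linarith
  obtain ⟨T, hT, hTc⟩ := hinf.exists_subset_card_eq ((A ∩ Ic t z w').ncard + 1)
  -- all points of `T` are below `γ k w'` for large `k`
  have hmem : ∀ k, γ k w' ∈ J t p := by
    intro k
    have h5 : γ k w' ∈ J t (γ k p) := (mem_img (γ k) (S.fix (γ k))).2 hw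
    rwa [hγ k p rfl] at h5
  have hs : Tendsto (fun k => s (γ k w')) atTop (𝓝 (s p)) := by
    have h6 := (S.s_cont p).continuousWithinAt (S.memx p)
    exact h6.tendsto.comp (tendsto_nhdsWithin_iff.2 ⟨hlim, Eventually.of_forall hmem⟩)
  have hev : ∀ᶠ k in atTop, ∀ a ∈ T, s a < s (γ k w') := by
    rw [Filter.eventually_all_finset]
    intro a ha
    have h7 := hT ha
    exact hs.eventually (lt_mem_nhds (A_lt S hp h7.1 h7.2.1))
  obtain ⟨k, hk⟩ := hev.exists
  have hsub : (γ k).symm '' (T : Set X) ⊆ A ∩ Ic t z w' := by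
    rintro _ ⟨a, ha, rfl⟩
    have h8 := hT ha
    refine ⟨S.Ainv _ _ h8.1, ?_, ?_⟩
    · have h9 : γ k z ∈ J t a := by
        refine S.trans (hle k) ?_
        exact (S.s_le p y' a hy h8.2.1).2 h8.2.2.le
      have h10 := (mem_img (γ k).symm (S.fix' (γ k))).2 h9
      rwa [Homeomorph.symm_apply_apply] at h10
    · have h9 : a ∈ J t (γ k w') := (S.s_le p a _ h8.2.1 (hmem k)).2 (hk a ha).le
      have h10 := (mem_img (γ k).symm (S.fix' (γ k))).2 h9
      rwa [Homeomorph.symm_apply_apply] at h10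
  have hcard := Set.ncard_le_ncard hsub hfin
  rw [Set.ncard_image_of_injective _ (γ k).symm.injective, Set.ncard_coe_finset, hTc] at hcard
  omega

/-- an isolating interval of heights around `q` -/
theorem isol (S : Setup X t s e A B) {p q : X} (hp : p ∈ Ends t e) (hZ : ZT t p A) (hq : q ∈ A)
    (hqp : q ∈ J t p) : ∃ δ > 0, δ ≤ s q / 2 ∧ δ ≤ (s p - s q) / 2 ∧
      ∀ a ∈ A, a ∈ J t p → |s a - s q| < δ → a = q := by
  have hq0 : 0 < s q := S.s_pos (memA S hq).1
  have hq1 : s q < s p := A_lt S hp hq hqp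
  obtain ⟨x, hx, hxs⟩ := S.level p (r := s q / 2) (by linarith) (by linarith)
  obtain ⟨y, hy, hys⟩ := S.level p (r := (s q + s p) / 2) (by linarith) (by linarith)
  have hxt : x ≠ t := by
    rintro rfl
    rw [S.s_t] at hxs
    linarith
  have hyp : y ≠ p := by
    rintro rfl
    linarith
  have hf := hZ x y hy hyp hxt
  -- the finite set of heights
  have hf2 : (s '' ((A ∩ Ic t x y) \ {q})).Finite := (hf.subset diff_subset).image s
  have hnot : s q ∉ s '' ((A ∩ Ic t x y) \ {q}) := by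
    rintro ⟨a, ⟨ha, haq⟩, has⟩
    exact haq (S.s_inj (S.trans ha.2.2 hy) hqp has)
  have hopen : (s '' ((A ∩ Ic t x y) \ {q}))ᶜ ∈ 𝓝 (s q) := hf2.isClosed.isOpen_compl.mem_nhds hnot
  obtain ⟨ε, hε, hε2⟩ := Metric.mem_nhds_iff.1 hopen
  refine ⟨min ε (min (s q / 2) ((s p - s q) / 2)), ?_, ?_, ?_, ?_⟩
  · exact lt_min hε (lt_min (by linarith) (by linarith))
  · exact (min_le_right _ _).trans (min_le_left _ _)
  · exact (min_le_right _ _).trans (min_le_right _ _)
  · intro a ha hap has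
    by_contra hne
    have h1 : |s a - s q| < ε := has.trans_le (min_le_left _ _)
    have h2 : |s a - s q| < s q / 2 := has.trans_le ((min_le_right _ _).trans (min_le_left _ _))
    have h3 : |s a - s q| < (s p - s q) / 2 :=
      has.trans_le ((min_le_right _ _).trans (min_le_right _ _))
    have h4 := abs_lt.1 h2
    have h5 := abs_lt.1 h3
    have h6 : s a ∈ ball (s q) ε := by
      rw [Metric.mem_ball, Real.dist_eq]; exact h1
    apply hε2 h6
    refine ⟨a, ⟨⟨ha, ?_, ?_⟩, hne⟩, rfl⟩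
    · exact (S.s_le p x a hx hap).2 (by linarith)
    · exact (S.s_le p a y hap hy).2 (by linarith)

end leg

end Pool.Agent.H273.FAN.PZZ

namespace Pool.Agent.H273.FAN

open Set Filter Topology Metric

theorem t_ZZ (h1 : S_UNB) (h2 : S_NID) (h3 : S_SUB) (h4 : S_NSM) (h5 : S_LX) : S_ZZ := by
  intro X _ _ t s e A B Ba hC1 p hp hZ
  have S := Ba.toSetup
  obtain ⟨q, hq, hqp⟩ := PZZ.exq S hp
  obtain ⟨δ, hδ, hδ1, hδ2, hiso⟩ := PZZ.isol S hp hZ hq hqp
  have hq0 : 0 < s q := S.s_pos (PZZ.memA S hq).1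
  have hq1 : s q < s p := PZZ.A_lt S hp hq hqp
  obtain ⟨x₁, hx₁, hx₁s⟩ := S.level p (r := s q - δ / 2) (by linarith) (by linarith)
  obtain ⟨x₂, hx₂, hx₂s⟩ := S.level p (r := s q + δ / 2) (by linarith) (by linarith)
  obtain ⟨ε, hε, hεH⟩ := h4 X t s S.toDen (δ / 4) (by linarith)
  obtain ⟨h, w, hnear, hw, hwt, hwp, hHC⟩ := h2 X t s e A B Ba hC1 p hp ε hε
  obtain ⟨φ₁, u₁, hφ₁, hu₁, hH₁⟩ := h3 X t s e S.toFan Ba.ntriv Ba.usc p w x₁ h hHC hx₁
  have hHC₁ := PZZ.HC_sub hHC hφ₁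
  obtain ⟨φ₂, v, hφ₂, hv, hH₂⟩ := h3 X t s e S.toFan Ba.ntriv Ba.usc p w q
    (fun n => h (φ₁ n)) hHC₁ hqp
  have hHC₂ := PZZ.HC_sub hHC₁ hφ₂
  have hH₁₂ := PZZ.HC_sub hH₁ hφ₂
  obtain ⟨φ₃, u₂, hφ₃, hu₂, hH₃⟩ := h3 X t s e S.toFan Ba.ntriv Ba.usc p w x₂
    (fun n => h (φ₁ (φ₂ n))) hHC₂ hx₂
  have hHC₃ := PZZ.HC_sub hHC₂ hφ₃
  have hH₁₃ := PZZ.HC_sub hH₁₂ hφ₃
  have hH₂₃ := PZZ.HC_sub hH₂ hφ₃
  -- the final sequence
  obtain ⟨H, hHdef⟩ : ∃ H : ℕ → X ≃ₜ X, H = fun n => h (φ₁ (φ₂ (φ₃ n))) := ⟨_, rfl⟩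
  have hHn : ∀ n, near (H n) ε := by intro n; rw [hHdef]; exact hnear _
  have HCp : HC (fun n => H n '' J t p) (J t w) := by rw [hHdef]; exact hHC₃
  have HC1 : HC (fun n => H n '' J t x₁) (J t u₁) := by rw [hHdef]; exact hH₁₃
  have HCq : HC (fun n => H n '' J t q) (J t v) := by rw [hHdef]; exact hH₂₃
  have HC2 : HC (fun n => H n '' J t x₂) (J t u₂) := by rw [hHdef]; exact hH₃
  have hs1 := abs_lt.1 (hεH H hHn x₁ u₁ HC1)
  have hs2 := abs_lt.1 (hεH H hHn x₂ u₂ HC2)
  have hu₁p : u₁ ∈ J t p := S.trans hu₁ hw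
  have hu₂p : u₂ ∈ J t p := S.trans hu₂ hw
  have hvp : v ∈ J t p := S.trans hv hw
  -- points with height near `s x₁`, `s x₂` are in `B`
  have hB : ∀ u ∈ J t p, |s u - s q| < δ → s u ≠ s q → u ∈ B := by
    intro u hu hus hune
    have h6 := abs_lt.1 hus
    have hut : u ≠ t := by
      rintro rfl
      rw [S.s_t] at h6
      linarith
    have hup : u ≠ p := by
      rintro rfl
      linarith
    rcases PZZ.cls S hp hu hut hup with h7 | h7
    · exact absurd (congrArg s (hiso u h7 hu hus)) hune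
    · exact h7
  have hne_t : ∀ u ∈ B, u ≠ t := by
    intro u hu
    have h6 : u ∈ Int t e := by rw [← S.cover]; exact Or.inr hu
    exact h6.1
  -- points of `A` in the leg
  have hAup : ∀ a ∈ A, a ∈ J t p → s q - δ < s a → s q ≤ s a := by
    intro a ha hap has
    by_contra hcon
    push Not at hcon
    have := hiso a ha hap (by rw [abs_lt]; constructor <;> linarith)
    rw [this] at hcon
    exact lt_irrefl _ hcon
  have hAdn : ∀ a ∈ A, a ∈ J t p → s a < s q + δ → s a ≤ s q := by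
    intro a ha hap has
    by_contra hcon
    push Not at hcon
    have := hiso a ha hap (by rw [abs_lt]; constructor <;> linarith)
    rw [this] at hcon
    exact lt_irrefl _ hcon
  have hlegimg : ∀ (g : X ≃ₜ X), g p = p → ∀ x ∈ J t p, g x ∈ J t p := by
    intro g hg x hx
    have h6 : g x ∈ J t (g p) := (mem_img g (S.fix g)).2 hx
    rwa [hg] at h6
  have hsymm : ∀ (g : X ≃ₜ X), g p = p → g.symm p = p := by
    intro g hg
    rw [Homeomorph.symm_apply_eq, hg]
  rcases S.total hqp hvp with hqv | hvq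
  · -- case `q ≤ v`
    have hu₁B : u₁ ∈ B := hB u₁ hu₁p (by rw [abs_lt]; constructor <;> linarith) (by
      intro h6; linarith)
    have hx₁B : x₁ ∈ B := hB x₁ hx₁ (by rw [abs_lt]; constructor <;> linarith) (by
      intro h6; linarith)
    obtain ⟨g, hg⟩ := S.Borb u₁ hu₁B x₁ hx₁B
    have hgp : g p = p := PZZ.fixp S.toFan hp hu₁p (hne_t _ hu₁B) hx₁ (hne_t _ hx₁B) g hg
    have hgq : g q = q := by
      have h6 : u₁ ∈ J t q := (S.s_le p u₁ q hu₁p hqp).2 (by linarith)
      have h7 : x₁ ∈ J t q := (S.s_le p x₁ q hx₁ hqp).2 (by linarith)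
      have h8 : x₁ ∈ J t (g q) := by
        have := (mem_img g (S.fix g)).2 h6
        rwa [hg] at this
      have h9 : u₁ ∈ J t (g.symm q) := by
        have := (mem_img g.symm (S.fix' g)).2 h7
        rwa [← hg, Homeomorph.symm_apply_apply] at this
      have h10 : s q ≤ s (g q) := hAup _ (S.Ainv g q hq) (hlegimg g hgp q hqp) (by
        have := S.s_mono h8
        linarith)
      have h11 : s q ≤ s (g.symm q) := hAup _ (S.Ainv g.symm q hq)
        (hlegimg g.symm (hsymm g hgp) q hqp) (by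
        have := S.s_mono h9
        linarith)
      have h12 : q ∈ J t (g q) := (S.s_le p q _ hqp (hlegimg g hgp q hqp)).2 h10
      have h13 : q ∈ J t (g.symm q) :=
        (S.s_le p q _ hqp (hlegimg g.symm (hsymm g hgp) q hqp)).2 h11
      have h14 : g q ∈ J t q := by
        have := (mem_img g (S.fix g)).2 h13
        rwa [Homeomorph.apply_symm_apply] at this
      exact S.anti _ _ h14 h12
    have hE : Expand t p (fun n => (H n).trans g) (g w) x₁ q x₁ (g v) := by
      refine ⟨hlegimg g hgp w hw, ?_, S.homeo_ne g hwt, hqp, ?_, ?_, S.memx _, ?_, ?_, ?_, ?_⟩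
      · intro h6
        apply hwp
        apply g.injective
        rw [h6, hgp]
      · exact (S.s_le p x₁ q hx₁ hqp).2 (by linarith)
      · intro h6
        rw [h6] at hx₁s
        linarith
      · have := (mem_img g (S.fix g)).2 hqv
        rwa [hgq] at this
      · exact PZZ.HC_trans g (S.fix g) HCp
      · have := PZZ.HC_trans g (S.fix g) HC1
        rwa [hg] at this
      · exact PZZ.HC_trans g (S.fix g) HCq
    obtain ⟨γ, y', hγ, hlim, hy', hy'p, hle⟩ := h5 X t s e A B Ba p hp _ _ _ _ _ _ hE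
    exact PZZ.fin h1 S hp hZ (hne_t _ hx₁B) hE.w_mem hE.w_ne hy' hy'p γ hγ hlim hle
  · -- case `v ≤ q`
    have hu₂B : u₂ ∈ B := hB u₂ hu₂p (by rw [abs_lt]; constructor <;> linarith) (by
      intro h6; linarith)
    have hx₂B : x₂ ∈ B := hB x₂ hx₂ (by rw [abs_lt]; constructor <;> linarith) (by
      intro h6; linarith)
    obtain ⟨g, hg⟩ := S.Borb u₂ hu₂B x₂ hx₂B
    have hgp : g p = p := PZZ.fixp S.toFan hp hu₂p (hne_t _ hu₂B) hx₂ (hne_t _ hx₂B) g hg
    have hgq : g q = q := by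
      have h6 : q ∈ J t u₂ := (S.s_le p q u₂ hqp hu₂p).2 (by linarith)
      have h7 : q ∈ J t x₂ := (S.s_le p q x₂ hqp hx₂).2 (by linarith)
      have h8 : g q ∈ J t x₂ := by
        have := (mem_img g (S.fix g)).2 h6
        rwa [hg] at this
      have h9 : g.symm q ∈ J t u₂ := by
        have := (mem_img g.symm (S.fix' g)).2 h7
        rwa [← hg, Homeomorph.symm_apply_apply] at this
      have h10 : s (g q) ≤ s q := hAdn _ (S.Ainv g q hq) (hlegimg g hgp q hqp) (by
        have := S.s_mono h8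
        linarith)
      have h11 : s (g.symm q) ≤ s q := hAdn _ (S.Ainv g.symm q hq)
        (hlegimg g.symm (hsymm g hgp) q hqp) (by
        have := S.s_mono h9
        linarith)
      have h12 : g q ∈ J t q := (S.s_le p _ q (hlegimg g hgp q hqp) hqp).2 h10
      have h13 : g.symm q ∈ J t q :=
        (S.s_le p _ q (hlegimg g.symm (hsymm g hgp) q hqp) hqp).2 h11
      have h14 : q ∈ J t (g q) := by
        have := (mem_img g (S.fix g)).2 h13
        rwa [Homeomorph.apply_symm_apply] at this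
      exact S.anti _ _ h12 h14
    have hE : Expand t p (fun n => (H n).trans g) (g w) q x₂ (g v) x₂ := by
      refine ⟨hlegimg g hgp w hw, ?_, S.homeo_ne g hwt, hx₂, ?_, ?_, ?_, S.memx _, ?_, ?_, ?_⟩
      · intro h6
        apply hwp
        apply g.injective
        rw [h6, hgp]
      · exact (S.s_le p q x₂ hqp hx₂).2 (by linarith)
      · intro h6
        rw [← h6] at hx₂s
        linarith
      · have := (mem_img g (S.fix g)).2 hvq
        rwa [hgq] at this
      · exact PZZ.HC_trans g (S.fix g) HCp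
      · exact PZZ.HC_trans g (S.fix g) HCq
      · have := PZZ.HC_trans g (S.fix g) HC2
        rwa [hg] at this
    obtain ⟨γ, y', hγ, hlim, hy', hy'p, hle⟩ := h5 X t s e A B Ba p hp _ _ _ _ _ _ hE
    exact PZZ.fin h1 S hp hZ (PZZ.memA S hq).1 hE.w_mem hE.w_ne hy' hy'p γ hγ hlim hle

end Pool.Agent.H273.FAN
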