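import Pool.Agent.H273.FAN.P_WH
import Pool.Agent.H273.FAN.P_JC
import Pool.Agent.H273.FAN.P_ANTI
import Pool.Agent.H273.FAN.P_PC
import Pool.Agent.H273.FAN.P_LAST
import Pool.Agent.H273.FAN.P_ARC
import Pool.Agent.H273.FAN.P_DEN
import Pool.Agent.H273.FAN.P_TRI
import Pool.Agent.H273.FAN.P_END
import Pool.Agent.H273.FAN.P_FAN
import Pool.Agent.H273.FAN.P_EFF1
import Pool.Agent.H273.FAN.P_EFF2
import Pool.Agent.H273.FAN.P_HOLD
import Pool.Agent.H273.FAN.P_ORB
import Pool.Agent.H273.FAN.P_UNB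
import Pool.Agent.H273.FAN.P_OSC
import Pool.Agent.H273.FAN.P_N2
import Pool.Agent.H273.FAN.P_N3
import Pool.Agent.H273.FAN.P_N4
import Pool.Agent.H273.FAN.P_MEA
import Pool.Agent.H273.FAN.P_CLE
import Pool.Agent.H273.FAN.P_CAT
import Pool.Agent.H273.FAN.P_C1A
import Pool.Agent.H273.FAN.P_C1B
import Pool.Agent.H273.FAN.P_HCJ
import Pool.Agent.H273.FAN.P_NID
import Pool.Agent.H273.FAN.P_SUB
import Pool.Agent.H273.FAN.P_NSM
import Pool.Agent.H273.FAN.P_LXA
import Pool.Agent.H273.FAN.P_LXB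
import Pool.Agent.H273.FAN.P_CLS
import Pool.Agent.H273.FAN.P_ZZ
import Pool.Agent.H273.FAN.P_NZ
import Pool.Agent.H273.FAN.P_NMON
import Pool.Agent.H273.FAN.P_NS
import Pool.Agent.H273.FAN.P_MT
import Pool.Agent.H273.FAN.P_FREE
import Pool.Agent.H273.FAN.P_FH
import Pool.Agent.H273.FAN.P_SMC
import Pool.Agent.H273.FAN.P_DNE
import Pool.Agent.H273.FAN.P_SEP1
import Pool.Agent.H273.FAN.P_SEP
import Pool.Agent.H273.FAN.P_PICK
import Pool.Agent.H273.FAN.P_STEP
import Pool.Agent.H273.FAN.P_SEQ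
import Pool.Agent.H273.FAN.P_LIM
import Pool.Agent.H273.FAN.P_LEL

/-! # No fan has exactly four homeomorphism orbits: assembly -/

set_option autoImplicit false

namespace Pool.Agent.H273.FAN

open Set Filter Topology Metric

theorem Setup.symm {X : Type} [MetricSpace X] [CompactSpace X] {t : X} {s : X → ℝ} {e : X → X}
    {A B : Set X} (S : Setup X t s e A B) : Setup X t s e B A :=
  { S.toFan with
    Eorb := S.Eorb
    Ane := S.Bne
    Bne := S.Ane
    cover := by rw [union_comm]; exact S.cover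
    disj := S.disj.symm
    Aorb := S.Borb
    Borb := S.Aorb
    Ainv := S.Binv
    Binv := S.Ainv }

theorem Basic.symm {X : Type} [MetricSpace X] [CompactSpace X] {t : X} {s : X → ℝ} {e : X → X}
    {A B : Set X} (S : Basic X t s e A B) : Basic X t s e B A :=
  { S.toSetup.symm with
    ntriv := S.ntriv
    usc := S.usc
    nend := S.nend
    effE := S.effE }

theorem DD.symm {X : Type} [MetricSpace X] {t p : X} {A B : Set X} (h : DD t p A B) :
    DD t p B A := fun x y h1 h2 h3 => (h x y h1 h2 h3).symm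

/-- `A` meets every leg in an interior point -/
theorem Setup.meet {X : Type} [MetricSpace X] [CompactSpace X] {t : X} {s : X → ℝ} {e : X → X}
    {A B : Set X} (S : Setup X t s e A B) {p : X} (hp : p ∈ Ends t e) :
    ∃ a ∈ A, a ∈ J t p ∧ a ≠ t ∧ a ≠ p ∧ e a ≠ a ∧ e a = p := by
  obtain ⟨a, ha⟩ := S.Ane
  have haI : a ∈ Int t e := S.cover ▸ Or.inl ha
  obtain ⟨h, hh⟩ := S.Eorb a p haI.1 hp.1
  have hb : h a ∈ A := S.Ainv h a ha
  have hbI : h a ∈ Int t e := S.cover ▸ Or.inl hb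
  have heb : e (h a) = p := by rw [← S.toFan.e_homeo, hh, hp.2]
  refine ⟨h a, hb, ?_, hbI.1, ?_, hbI.2, heb⟩
  · rw [← heb]; exact S.le_e _
  · intro h1
    apply hbI.2
    rw [heb, h1]

theorem t_UNB' : S_UNB := t_UNB
theorem t_N2' : S_N2 := t_N2 t_OSC t_UNB
theorem t_N4' : S_N4 := t_N4 t_UNB
theorem t_EFF1' : S_EFF1 := t_EFF1
theorem t_EFF2' : S_EFF2 := t_EFF2
theorem t_CAT' : S_CAT := t_CAT t_EFF1' t_EFF2' t_MEA (t_CLE t_UNB)

theorem t_BASIC {X : Type} [MetricSpace X] [CompactSpace X] {t : X} {s : X → ℝ} {e : X → X}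
    {A B : Set X} (S : Setup X t s e A B) : Basic X t s e A B :=
  { S with
    ntriv := t_N2' X t s e A B S
    usc := t_N3 X t s e S.toFan (t_N2' X t s e A B S)
    nend := t_N4' X t s e A B S (t_N2' X t s e A B S)
    effE := t_CAT' X t s e A B S }

theorem t_LX : S_LX := by
  intro X _ _ t s e A B S p hp h w x₁ x₂ y₁ y₂ hE
  obtain ⟨H, q, y, ρ, hq, hy, hρ, h1, h2, h3⟩ :=
    t_LXA X t s e S.toFan S.usc p hp h w x₁ x₂ y₁ y₂ hE
  exact t_LXB X t s e A B S p hp w x₁ hE.w_mem (S.toDen.trans hE.x₁_le hE.x₂_mem) H q y ρ hq hy hρ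
    h1 h2 h3

theorem t_DEN' : S_DEN := t_DEN t_WH t_JC (t_ANTI t_JC) (t_ARC t_JC (t_ANTI t_JC) (t_PC t_JC)
  (t_LAST t_JC))
theorem t_FAN' : S_FAN := t_FAN t_DEN' t_TRI t_END
theorem t_NID' : S_NID := t_NID t_UNB t_HCJ
theorem t_SUB' : S_SUB := t_SUB t_HCJ
theorem t_ZZ' : S_ZZ := t_ZZ t_UNB t_NID' t_SUB' t_NSM t_LX
theorem t_NS' : S_NS := t_NS t_NZ t_NMON t_LX
theorem t_MT' : S_MT := t_MT t_EFF1' t_EFF2'
theorem t_FREE' : S_FREE := t_FREE t_NID' t_SUB' t_NSM
theorem t_FH' : S_FH := t_FH t_HOLD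
theorem t_LEL' : S_LEL := t_LEL (t_SEQ (t_SEP t_SEP1) (t_STEP (t_PICK t_SEP1))) t_LIM

theorem no_setup {X : Type} [MetricSpace X] [CompactSpace X] {t : X} {s : X → ℝ} {e : X → X}
    {A B : Set X} (S0 : Setup X t s e A B) : False := by
  have S : Basic X t s e A B := t_BASIC S0
  obtain ⟨x0, hx0⟩ := S.exists_ne
  have hends : ∃ p, p ∈ Ends t e := ⟨e x0, S.toFan.e_ne hx0, S.toFan.e_e x0⟩
  have hcontra : ∀ a ∈ A, ∀ b ∈ B, (∃ h : X ≃ₜ X, h a = b) → False := by
    rintro a ha b hb ⟨h, rfl⟩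
    exact (Set.disjoint_left.1 S.disj) (S.Ainv h a ha) hb
  by_cases hC : Case1 t e
  · obtain ⟨p, hp⟩ := hends
    obtain ⟨h1, h2⟩ := t_C1A X t s e A B S hC
    obtain ⟨a, ha, -, hat, -, hae, hap⟩ := S0.meet hp
    obtain ⟨b, hb, -, hbt, -, hbe, hbp⟩ := S0.symm.meet hp
    exact hcontra a ha b hb
      (t_C1B X t s e S.toFan S.usc h1 h2 a b hat hbt hae hbe (hap.trans hbp.symm))
  have hDD : ∀ p ∈ Ends t e, DD t p A B := by
    intro p hp
    rcases t_CLS t_UNB X t s e A B S0 p hp with h | h | h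
    · exact h
    · exact (t_ZZ' X t s e A B S hC p hp h).elim
    · exact (t_ZZ' X t s e B A S.symm hC p hp h).elim
  by_cases hsm : ∀ x, N t x = J t x
  · have hs : Continuous s := t_SMC X t s S.toDen hsm
    have hd := t_DNE X t s e A B S0 hC hDD
    obtain ⟨b, hb, hall⟩ := t_LEL' X t s e S.toFan S.usc hs hd
    obtain ⟨x, hx, hxb, hxt, hxb', -, -⟩ := S0.meet hb
    obtain ⟨y, hy, hyb, hyt, hyb', -, -⟩ := S0.symm.meet hb
    exact hcontra x hx y hy (hall x hxb y hyb hxt hxb' hyt hyb')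
  · push Not at hsm
    obtain ⟨p, hp⟩ := hends
    have hne := t_NS' X t s e A B S p hp (hDD p hp) hsm
    rcases t_MT' X t s e A B S0 p hp with hE | hE
    · exact t_FH' X t s e A B S0 p hp (hDD p hp)
        (t_FREE' X t s e A B S hC p hp (hDD p hp) hne hE)
    · exact t_FH' X t s e B A S0.symm p hp (hDD p hp).symm
        (t_FREE' X t s e B A S.symm hC p hp (hDD p hp).symm hne hE)

/-- **No fan has exactly four homeomorphism orbits.** -/
theorem no_four_orbits (X : Type) [TopologicalSpace X] [TopologicalSpace.MetrizableSpace X]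
    [CompactSpace X] [PathConnectedSpace X]
    (hHU : ∀ A B : Set X, IsClosed A → IsConnected A → IsClosed B → IsConnected B →
      IsPreconnected (A ∩ B))
    (ht : ∃! t : X, ∃ γ : Fin 3 → unitInterval → X,
      (∀ i, Continuous (γ i) ∧ Function.Injective (γ i) ∧ γ i 0 = t) ∧
        ∀ i j, i ≠ j → Set.range (γ i) ∩ Set.range (γ j) = {t})
    (ha : ∃ a : Fin 4 → X, (∀ i j, (∃ h : X ≃ₜ X, h (a i) = a j) → i = j) ∧
      ∀ x : X, ∃ i, ∃ h : X ≃ₜ X, h (a i) = x) : False := by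
  let _ : MetricSpace X := TopologicalSpace.metrizableSpaceMetric X
  obtain ⟨t, htv, htu⟩ := ht
  obtain ⟨s, e, F⟩ := t_FAN' X hHU t htv htu
  obtain ⟨A, B, S⟩ := t_ORB X t s e F ha
  exact no_setup S

end Pool.Agent.H273.FAN
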