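import Pool.Agent.H273.FAN.Stm2

set_option autoImplicit false

/-!
# LXB: correction by the Effros property
-/

namespace Pool.Agent.H273.FAN

open Set Filter Topology Metric

namespace PLXB

/-- a point of the limit set is a limit of points -/
theorem HC_pt {X : Type} [MetricSpace X] {K : ℕ → Set X} {L : Set X} (h : HC K L)
    (hc : ∀ n, IsCompact (K n)) (hne : ∀ n, (K n).Nonempty) {q : X} (hq : q ∈ L) :
    ∃ w : ℕ → X, (∀ n, w n ∈ K n) ∧ Tendsto w atTop (𝓝 q) := by
  have hex : ∀ n, ∃ u ∈ K n, infDist q (K n) = dist q u := fun n =>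
    (hc n).exists_infDist_eq_dist (hne n) q
  choose w hw hwd using hex
  refine ⟨w, hw, ?_⟩
  rw [Metric.tendsto_atTop]
  intro ε hε
  obtain ⟨N₀, hN⟩ := eventually_atTop.mp (h ε hε)
  refine ⟨N₀, fun n hn => ?_⟩
  have h1 := (hN n hn).2 hq
  rw [Metric.mem_thickening_iff_infDist_lt (hne n), hwd] at h1
  rwa [dist_comm]

end PLXB

open PLXB in
theorem t_LXB : S_LXB := by
  intro X _ _ t s e A B hB p hp w x₁ hw hx₁ H q y ρ hq hy hρ hHp hHw hfar
  have F : Fan X t s e := hB.toSetup.toFan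
  have D : Den X t s := F.toDen
  -- step 1
  obtain ⟨w1, hw1, hw1'⟩ := HC_pt hHp (fun n => (D.compact p).image (H n).continuous)
    (fun n => (D.conn p).nonempty.image _) (D.memx q)
  have hHq : Tendsto (fun k => H k p) atTop (𝓝 q) := by
    refine tendsto_of_sub fun φ y' hφ hy' => ?_
    refine hB.nend q hq y' ?_
    rw [D.mem_N_iff]
    refine ⟨fun n => H (φ n) p, fun n => w1 (φ n), fun n => ?_, hy', hw1'.comp hφ.tendsto_atTop⟩
    have := hw1 (φ n)
    rwa [img (H (φ n)) (F.fix _)] at this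
  -- the homeomorphism
  obtain ⟨hi, hhi⟩ := hB.Eorb p q hp.1 hq.1
  rw [hp.2, hq.2] at hhi
  -- step 2
  have hstep2 : ∀ n : ℕ, ∃ k : ℕ, n ≤ k ∧ ∃ g : X ≃ₜ X, g q = H k p ∧ near g (1 / ((n : ℝ) + 1)) := by
    intro n
    obtain ⟨δ, hδ, h1⟩ := hB.effE q hq (1 / ((n : ℝ) + 1)) (by positivity)
    obtain ⟨N₀, hN⟩ := (Metric.tendsto_atTop.mp hHq) δ hδ
    have h2 := hN (max N₀ n) (le_max_left _ _)
    have h3 : H (max N₀ n) p ∈ Orb (∅ : Set X) q := by
      refine ⟨hi.symm.trans (H (max N₀ n)), fun z hz => absurd hz (notMem_empty z), ?_⟩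
      show H (max N₀ n) (hi.symm q) = _
      rw [← hhi, Homeomorph.symm_apply_apply]
    obtain ⟨g, -, hg1, hg2⟩ := h1 _ h3 h2
    exact ⟨max N₀ n, le_max_right _ _, g, hg1, hg2⟩
  choose κ hκ g hg1 hg2 using hstep2
  have hκt : Tendsto κ atTop atTop := tendsto_atTop_mono hκ tendsto_id
  have h0 : Tendsto (fun n : ℕ => 1 / ((n : ℝ) + 1)) atTop (𝓝 0) :=
    tendsto_one_div_add_atTop_nhds_zero_nat
  -- the sequence
  let γ : ℕ → X ≃ₜ X := fun n => (H (κ n)).trans ((g n).symm.trans hi.symm)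
  have hγ : ∀ n x, γ n x = hi.symm ((g n).symm (H (κ n) x)) := fun n x => rfl
  have hγp : ∀ n, γ n p = p := by
    intro n
    rw [hγ, ← hg1, Homeomorph.symm_apply_apply, ← hhi, Homeomorph.symm_apply_apply]
  have hγmem : ∀ n x, x ∈ J t p → γ n x ∈ J t p := by
    intro n x hx
    have := (mem_img (γ n) (F.fix _)).2 hx
    rwa [hγp] at this
  -- step 3
  obtain ⟨v, hv, hv'⟩ := HC_pt hHw (fun n => (D.compact w).image (H n).continuous)
    (fun n => (D.conn w).nonempty.image _) (D.memx q)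
  have hu : Tendsto (fun n => hi.symm ((g n).symm (v (κ n)))) atTop (𝓝 p) := by
    have h1 : Tendsto (fun n => (g n).symm (v (κ n))) atTop (𝓝 q) := by
      have h2 := hv'.comp hκt
      refine tendsto_iff_dist_tendsto_zero.mpr ?_
      have h3 := tendsto_iff_dist_tendsto_zero.mp h2
      have h4 := h0.add h3
      rw [add_zero] at h4
      refine squeeze_zero (fun _ => dist_nonneg) (fun n => ?_) h4
      have h5 := (hg2 n (v (κ n))).2
      have h6 := dist_triangle ((g n).symm (v (κ n))) (v (κ n)) q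
      simp only [Function.comp]
      linarith
    have h2 := (hi.symm.continuous.tendsto q).comp h1
    have h3 : hi.symm q = p := by rw [← hhi, Homeomorph.symm_apply_apply]
    rw [h3] at h2
    exact h2
  have humem : ∀ n, hi.symm ((g n).symm (v (κ n))) ∈ J t (γ n w) := by
    intro n
    rw [← img (γ n) (F.fix _)]
    obtain ⟨b, hb, hb'⟩ := hv (κ n)
    refine ⟨b, hb, ?_⟩
    rw [hγ, hb']
  have hγw : Tendsto (fun n => γ n w) atTop (𝓝 p) := by
    refine tendsto_of_sub fun φ y' hφ hy' => ?_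
    refine hB.nend p hp y' ?_
    rw [D.mem_N_iff]
    exact ⟨fun n => γ (φ n) w, fun n => hi.symm ((g (φ n)).symm (v (κ (φ n)))),
      fun n => humem (φ n), hy', hu.comp hφ.tendsto_atTop⟩
  -- step 4
  have hz : hi.symm y ∈ J t p := by
    have h1 : hi (hi.symm y) ∈ J t (hi p) := by
      rw [Homeomorph.apply_symm_apply, hhi]; exact hy
    exact (mem_img hi (F.fix _)).1 h1
  have hclaim : ∃ c : ℝ, c < s p ∧ ∃ K : ℕ, ∀ n, K ≤ n → s (γ n x₁) ≤ c := by
    by_contra hcon
    push Not at hcon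
    have h1 : ∀ j : ℕ, ∃ n, j ≤ n ∧ s p - 1 / ((j : ℝ) + 1) < s (γ n x₁) := fun j =>
      hcon (s p - 1 / ((j : ℝ) + 1)) (by
        have : 0 < 1 / ((j : ℝ) + 1) := by positivity
        linarith) j
    choose ψ hψ1 hψ2 using h1
    obtain ⟨p', φ, hφ, hφ'⟩ := sub_conv (fun j => γ (ψ j) x₁)
    have hp'J : p' ∈ J t p := (D.closed p).mem_of_tendsto hφ'
      (Eventually.of_forall fun j => hγmem _ _ hx₁)
    have hs1 : Tendsto (fun j => s (γ (ψ (φ j)) x₁)) atTop (𝓝 (s p')) := by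
      have h2 := D.s_cont p p' hp'J
      refine h2.tendsto.comp (tendsto_nhdsWithin_iff.mpr ⟨hφ', ?_⟩)
      exact Eventually.of_forall fun j => hγmem _ _ hx₁
    have hs2 : Tendsto (fun j => s (γ (ψ (φ j)) x₁)) atTop (𝓝 (s p)) := by
      have h3 : Tendsto (fun j : ℕ => s p - 1 / (((φ j : ℕ) : ℝ) + 1)) atTop (𝓝 (s p)) := by
        have := (h0.comp hφ.tendsto_atTop).const_sub (s p)
        rw [sub_zero] at this
        exact this
      refine tendsto_of_tendsto_of_tendsto_of_le_of_le h3 tendsto_const_nhds ?_ ?_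
      · intro j; exact (hψ2 (φ j)).le
      · intro j; exact D.s_mono (hγmem _ _ hx₁)
    have hp'p : p' = p := D.s_inj hp'J (D.memx p) (tendsto_nhds_unique hs1 hs2)
    rw [hp'p] at hφ'
    obtain ⟨z, hz1, hz2⟩ := D.lsc hφ' hz
    -- pull back
    have h4 : ∀ j, ∃ b ∈ J t x₁, γ (ψ (φ j)) b = z j := by
      intro j
      have h5 := hz1 j
      rw [← img (γ (ψ (φ j))) (F.fix _)] at h5
      obtain ⟨b, hb, hb'⟩ := h5
      exact ⟨b, hb, hb'⟩
    choose b hb1 hb2 using h4
    have h5 : ∀ j, H (κ (ψ (φ j))) (b j) = g (ψ (φ j)) (hi (z j)) := by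
      intro j
      rw [← hb2 j, hγ, Homeomorph.apply_symm_apply, Homeomorph.apply_symm_apply]
    have h6 : Tendsto (fun j => hi (z j)) atTop (𝓝 y) := by
      have := (hi.continuous.tendsto (hi.symm y)).comp hz2
      rw [Homeomorph.apply_symm_apply] at this
      exact this
    have hidx : Tendsto (fun j => ψ (φ j)) atTop atTop :=
      tendsto_atTop_mono (fun j => hψ1 (φ j)) hφ.tendsto_atTop
    have h7 : Tendsto (fun j => g (ψ (φ j)) (hi (z j))) atTop (𝓝 y) := by
      refine tendsto_iff_dist_tendsto_zero.mpr ?_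
      have h8 := tendsto_iff_dist_tendsto_zero.mp h6
      have h9 := (h0.comp hidx).add h8
      rw [add_zero] at h9
      refine squeeze_zero (fun _ => dist_nonneg) (fun j => ?_) h9
      have h10 := (hg2 (ψ (φ j)) (hi (z j))).1
      have h11 := dist_triangle (g (ψ (φ j)) (hi (z j))) (hi (z j)) y
      simp only [Function.comp]
      linarith
    obtain ⟨N₀, hN⟩ := (Metric.tendsto_atTop.mp h7) ρ hρ
    have h12 := hN N₀ le_rfl
    have h13 := hfar (κ (ψ (φ N₀))) (H (κ (ψ (φ N₀))) (b N₀)) ⟨b N₀, hb1 N₀, rfl⟩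
    rw [h5] at h13
    linarith
  obtain ⟨c, hc, K, hK⟩ := hclaim
  have hsp : 0 < s p := D.s_pos hp.1
  obtain ⟨y', hy'1, hy'2⟩ := D.level p (r := max c 0) (le_max_right _ _) (max_le hc.le hsp.le)
  refine ⟨fun n => γ (n + K), y', ?_, hγw.comp (tendsto_add_atTop_nat K), hy'1, ?_, ?_⟩
  · intro n z hz
    rw [mem_singleton_iff] at hz
    rw [hz]
    exact hγp _
  · intro h
    rw [h] at hy'2
    have : max c 0 < s p := max_lt hc hsp
    linarith
  · intro n
    rw [D.s_le p _ _ (hγmem _ _ hx₁) hy'1, hy'2]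
    exact (hK _ (Nat.le_add_left K n)).trans (le_max_left _ _)

end Pool.Agent.H273.FAN
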