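import Pool.Agent.H273.FAN.Api3

/-! SEQ: the back-and-forth sequence (dependent choice). -/

set_option autoImplicit false

namespace Pool.Agent.H273.FAN

open Set Filter Topology Metric

namespace PSEQ

section
variable {X : Type} [MetricSpace X] [CompactSpace X] {t : X} {s : X → ℝ} {e : X → X}

/-- one double step -/
structure DS (t : X) (f₁ f₂ : X → ℝ) (O : Set X) (n : ℕ) (P Q P'' Q'' : X → ℕ) (π : ℕ → ℕ) :
    Prop where
  compP : ∀ x, x ≠ t → π (P'' x) = P x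
  compQ : ∀ x, x ≠ t → π (Q'' x) = Q x
  sepP : ∀ x y, x ≠ t → y ≠ t → P'' x = P'' y → (x ∈ O ↔ y ∈ O)
  sepQ : ∀ x y, x ≠ t → y ≠ t → Q'' x = Q'' y → (x ∈ O ↔ y ∈ O)
  ratio : ∀ i ∈ P'' '' {t}ᶜ, |lam t f₁ f₂ P'' Q'' i - lam t f₁ f₂ P Q (π i)| ≤ (1/2:ℝ)^n

theorem dstep (h2 : S_STEP) (F : Fan X t s e) (hU : LegUsc t e) (hs : Continuous s)
    (hE : closure (Ends t e) = Set.univ) {f₁ f₂ : X → ℝ} (hf₁ : Ht t f₁) (hf₂ : Ht t f₂) {b : X}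
    (hb : b ∈ Ends t e) (hb₁ : ∀ x, f₁ x ≤ f₁ b) (hb₂ : ∀ x, f₂ x ≤ f₂ b) {P Q : X → ℕ}
    (hG : Good t b P Q) {O : Set X} (hO : CS t O) (n : ℕ) :
    ∃ (P'' Q'' : X → ℕ) (π : ℕ → ℕ), Good t b P'' Q'' ∧ DS t f₁ f₂ O n P Q P'' Q'' π := by
  have hδ : (0:ℝ) < (1/2)^(n+1) := by positivity
  obtain ⟨P', Q', π', hG', hP', hQ', hsep', hr'⟩ :=
    h2 X t s e F hU hs hE f₁ f₂ hf₁ hf₂ b hb hb₁ hb₂ P Q hG O hO _ hδ
  obtain ⟨Q'', P'', π'', hG'', hQ'', hP'', hsep'', hr''⟩ :=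
    h2 X t s e F hU hs hE f₂ f₁ hf₂ hf₁ b hb hb₂ hb₁ Q' P' hG'.symm O hO _ hδ
  refine ⟨P'', Q'', fun i => π' (π'' i), hG''.symm, ?_, ?_, ?_, ?_, ?_⟩
  · intro x hx
    simp only [hP'' x hx, hP' x hx]
  · intro x hx
    simp only [hQ'' x hx, hQ' x hx]
  · intro x y hx hy hxy
    apply hsep' x y hx hy
    rw [← hP'' x hx, ← hP'' y hy, hxy]
  · intro x y hx hy hxy
    exact hsep'' x y hx hy hxy
  · intro i hi
    have hi' : i ∈ Q'' '' {t}ᶜ := by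
      rw [hG''.rng]
      exact hi
    have h3 := hr'' i hi'
    have h4 : π'' i ∈ P' '' {t}ᶜ := by
      obtain ⟨x, hx, rfl⟩ := hi
      exact ⟨x, hx, (hP'' x hx).symm⟩
    have h5 := hr' _ h4
    rw [lam_symm f₁ f₂ P'' Q'' i, lam_symm f₁ f₂ P' Q' (π'' i)] at h3
    have h6 : |lam t f₁ f₂ P'' Q'' i - lam t f₁ f₂ P' Q' (π'' i)| < (1/2:ℝ)^(n+1) := by
      have h7 : -lam t f₁ f₂ P'' Q'' i - -lam t f₁ f₂ P' Q' (π'' i) =
        -(lam t f₁ f₂ P'' Q'' i - lam t f₁ f₂ P' Q' (π'' i)) := by ring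
      rwa [h7, abs_neg] at h3
    have h8 := abs_sub_le (lam t f₁ f₂ P'' Q'' i) (lam t f₁ f₂ P' Q' (π'' i))
      (lam t f₁ f₂ P Q (π' (π'' i)))
    have h9 : (1/2:ℝ)^n = (1/2:ℝ)^(n+1) + (1/2:ℝ)^(n+1) := by
      rw [pow_succ]
      ring
    rw [h9]
    linarith

theorem good_zero {b : X} : Good t b (fun _ : X => 0) (fun _ : X => 0) := by
  have hL : Lab t (fun _ : X => 0) := by
    constructor
    · intro i
      by_cases hi : i = 0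
      · have : (fun _ : X => 0) ⁻¹' {i} \ {t} = {t}ᶜ := by
          ext x
          simp [hi]
        rw [this]
        exact CS.whole
      · have : (fun _ : X => 0) ⁻¹' {i} \ {t} = ∅ := by
          ext x
          simp [Ne.symm hi]
        rw [this]
        exact CS.empty
    · exact (Set.finite_singleton 0).subset (by rintro _ ⟨x, -, rfl⟩; rfl)
  exact ⟨hL, hL, rfl, rfl⟩

end

end PSEQ

open PSEQ in
theorem t_SEQ (h1 : S_SEP) (h2 : S_STEP) : S_SEQ := by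
  intro X _ _ t s e F hU hs hE f₁ f₂ hf₁ hf₂ b hb hb₁ hb₂
  obtain ⟨O, hO, hsep⟩ := h1 X t s e F hU hs
  have step : ∀ (n : ℕ) (σ : {pq : (X → ℕ) × (X → ℕ) // Good t b pq.1 pq.2}),
      ∃ (τ : {pq : (X → ℕ) × (X → ℕ) // Good t b pq.1 pq.2}) (π : ℕ → ℕ),
        DS t f₁ f₂ (O n) n σ.1.1 σ.1.2 τ.1.1 τ.1.2 π := by
    intro n σ
    obtain ⟨P'', Q'', π, hG, hD⟩ :=
      dstep h2 F hU hs hE hf₁ hf₂ hb hb₁ hb₂ σ.2 (hO n) n
    exact ⟨⟨(P'', Q''), hG⟩, π, hD⟩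
  choose τ π hτ using step
  let σ : ℕ → {pq : (X → ℕ) × (X → ℕ) // Good t b pq.1 pq.2} :=
    fun n => Nat.rec ⟨(fun _ => 0, fun _ => 0), good_zero⟩ (fun n σ => τ n σ) n
  have hσ : ∀ n, σ (n + 1) = τ n (σ n) := fun n => rfl
  refine ⟨fun n => (σ n).1.1, fun n => (σ n).1.2, fun n => π n (σ n), ?_, ?_, ?_, ?_, ?_, ?_⟩
  · exact fun n => (σ n).2
  · intro n x hx
    simp only [hσ]
    exact (hτ n (σ n)).compP x hx
  · intro n x hx
    simp only [hσ]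
    exact (hτ n (σ n)).compQ x hx
  · intro x y hx hy hxy
    obtain ⟨n, hn, hn'⟩ := hsep x y hx hy hxy
    refine ⟨n + 1, fun h => hn' ?_⟩
    simp only [hσ] at h
    exact ((hτ n (σ n)).sepP x y hx hy h).1 hn
  · intro x y hx hy hxy
    obtain ⟨n, hn, hn'⟩ := hsep x y hx hy hxy
    refine ⟨n + 1, fun h => hn' ?_⟩
    simp only [hσ] at h
    exact ((hτ n (σ n)).sepQ x y hx hy h).1 hn
  · intro n
    simp only [hσ]
    exact (hτ n (σ n)).ratio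

end Pool.Agent.H273.FAN
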