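import Pool.Agent.H273.FAN.Stm2

/-! # Orbits on a leg are unbounded (subtask FAN-UNB of MP_64e39e_gt, by helper94) -/

set_option autoImplicit false

namespace Pool.Agent.H273.FAN

open Set Filter Topology Metric

namespace PUNB

variable {X : Type} [MetricSpace X] [CompactSpace X] {t : X} {s : X → ℝ} {e : X → X} {A B : Set X}

theorem stab_iff {p : X} {g : X ≃ₜ X} : g ∈ Stab ({p} : Set X) ↔ g p = p := by
  constructor
  · intro h; exact h p rfl
  · rintro h _ rfl; exact h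

theorem stab_symm {p : X} {g : X ≃ₜ X} (h : g ∈ Stab ({p} : Set X)) :
    g.symm ∈ Stab ({p} : Set X) := by
  rw [stab_iff] at h ⊢
  rw [Homeomorph.symm_apply_eq, h]

theorem stab_trans {p : X} {g h : X ≃ₜ X} (hg : g ∈ Stab ({p} : Set X))
    (hh : h ∈ Stab ({p} : Set X)) : g.trans h ∈ Stab ({p} : Set X) := by
  rw [stab_iff] at hg hh ⊢
  rw [Homeomorph.trans_apply, hg, hh]

theorem stab_refl {p : X} : Homeomorph.refl X ∈ Stab ({p} : Set X) := stab_iff.2 rfl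

section fan
variable (F : Fan X t s e)
include F

theorem leg {p : X} {g : X ≃ₜ X} (hg : g ∈ Stab ({p} : Set X)) {v : X} (hv : v ∈ J t p) :
    g v ∈ J t p := by
  have := (mem_img g (F.fix g)).2 hv
  rwa [stab_iff.1 hg] at this

theorem e_leg {p : X} (hp : p ∈ Ends t e) {v : X} (hv : v ∈ J t p) (hvt : v ≠ t) : e v = p := by
  rw [F.e_mem hv hvt, hp.2]

end fan

section setup
variable (S : Setup X t s e A B)
include S

theorem mem_AB {p : X} (hp : p ∈ Ends t e) {v : X} (hv : v ∈ J t p) (hvt : v ≠ t) (hvp : v ≠ p) :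
    v ∈ A ∨ v ∈ B := by
  have h1 : v ∈ Int t e := ⟨hvt, by rw [e_leg S.toFan hp hv hvt]; exact hvp.symm⟩
  rw [← S.cover] at h1
  exact h1

theorem same {p : X} (hp : p ∈ Ends t e) {v w : X} (hv : v ∈ J t p) (hvt : v ≠ t)
    (hw : w ∈ J t p) (hwt : w ≠ t) (h : (v ∈ A ∧ w ∈ A) ∨ (v ∈ B ∧ w ∈ B)) :
    ∃ g ∈ Stab ({p} : Set X), g v = w := by
  have key : ∃ g : X ≃ₜ X, g v = w := by
    rcases h with ⟨h1, h2⟩ | ⟨h1, h2⟩
    · exact S.Aorb v h1 w h2
    · exact S.Borb v h1 w h2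
  obtain ⟨g, hg⟩ := key
  refine ⟨g, stab_iff.2 ?_, hg⟩
  rw [← e_leg S.toFan hp hv hvt, S.toFan.e_homeo, hg, e_leg S.toFan hp hw hwt,
    e_leg S.toFan hp hv hvt]

/-- an interior point of the leg is moved by the stabiliser of the end -/
theorem moved {p : X} (hp : p ∈ Ends t e) {q : X} (hq : q ∈ J t p) (hqt : q ≠ t) (hqp : q ≠ p)
    (hfix : ∀ g ∈ Stab ({p} : Set X), g q = q) : False := by
  have D := S.toDen
  have h0 : 0 < s q := D.s_pos hqt
  have h1 : s q < s p := D.s_lt hq hqp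
  obtain ⟨u, hu, hus⟩ := D.level p (r := s q / 2) (by linarith) (by linarith)
  obtain ⟨v, hv, hvs⟩ := D.level p (r := (s q + s p) / 2) (by linarith) (by linarith)
  have hut : u ≠ t := by
    rintro rfl; rw [D.s_t] at hus; linarith
  have hup : u ≠ p := by
    rintro rfl; linarith
  have hvt : v ≠ t := by
    rintro rfl; rw [D.s_t] at hvs; linarith
  have hvp : v ≠ p := by
    rintro rfl; linarith
  have hUQ : ¬ ((u ∈ A ∧ q ∈ A) ∨ (u ∈ B ∧ q ∈ B)) := by
    intro h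
    obtain ⟨g, hg, hgu⟩ := same S hp hu hut hq hqt h
    have h2 : u = q := g.injective (by rw [hgu, hfix g hg])
    rw [h2] at hus
    linarith
  have hQV : ¬ ((q ∈ A ∧ v ∈ A) ∨ (q ∈ B ∧ v ∈ B)) := by
    intro h
    obtain ⟨g, hg, hgu⟩ := same S hp hq hqt hv hvt h
    rw [hfix g hg] at hgu
    rw [← hgu] at hvs
    linarith
  have hUV : ¬ ((u ∈ A ∧ v ∈ A) ∨ (u ∈ B ∧ v ∈ B)) := by
    intro h
    obtain ⟨g, hg, hgu⟩ := same S hp hu hut hv hvt h
    have h2 : u ∈ J t q := (D.s_le p u q hu hq).2 (by linarith)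
    have h3 := (mem_img g (S.fix g)).2 h2
    rw [hgu, hfix g hg] at h3
    have h4 := D.s_mono h3
    linarith
  rcases mem_AB S hp hu hut hup with hu' | hu' <;> rcases mem_AB S hp hq hqt hqp with hq' | hq' <;>
    rcases mem_AB S hp hv hvt hvp with hv' | hv'
  · exact hUQ (Or.inl ⟨hu', hq'⟩)
  · exact hUQ (Or.inl ⟨hu', hq'⟩)
  · exact hUV (Or.inl ⟨hu', hv'⟩)
  · exact hQV (Or.inr ⟨hq', hv'⟩)
  · exact hQV (Or.inl ⟨hq', hv'⟩)
  · exact hUV (Or.inr ⟨hu', hv'⟩)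
  · exact hUQ (Or.inr ⟨hu', hq'⟩)
  · exact hUQ (Or.inr ⟨hu', hq'⟩)

theorem upward {p : X} (hp : p ∈ Ends t e) {x y : X} (hx : x ∈ J t p) (hxt : x ≠ t)
    (hy : y ∈ J t p) (hyp : y ≠ p) : ∃ g ∈ Stab ({p} : Set X), y ∈ J t (g x) := by
  have D := S.toDen
  by_contra hcon
  push Not at hcon
  have hle : ∀ g ∈ Stab ({p} : Set X), s (g x) ≤ s y := by
    intro g hg
    rcases D.total (leg S.toFan hg hx) hy with h | h
    · exact D.s_mono h
    · exact absurd h (hcon g hg)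
  let O : Set ℝ := {r | ∃ g ∈ Stab ({p} : Set X), s (g x) = r}
  have hbdd : BddAbove O := ⟨s y, by rintro _ ⟨g, hg, rfl⟩; exact hle g hg⟩
  have hxO : s x ∈ O := ⟨Homeomorph.refl X, stab_refl, rfl⟩
  have hm1 : s x ≤ sSup O := le_csSup hbdd hxO
  have hm2 : sSup O ≤ s y := csSup_le ⟨_, hxO⟩ (by rintro _ ⟨g, hg, rfl⟩; exact hle g hg)
  have hyp' : s y < s p := D.s_lt hy hyp
  have hx0 : 0 < s x := D.s_pos hxt
  obtain ⟨q, hq, hqs⟩ := D.level p (r := sSup O) (by linarith) (by linarith)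
  have hqt : q ≠ t := by
    rintro rfl; rw [D.s_t] at hqs; linarith
  have hqp : q ≠ p := by
    rintro rfl; linarith
  have hkq : ∀ k ∈ Stab ({p} : Set X), k x ∈ J t q := by
    intro k hk
    refine (D.s_le p _ _ (leg S.toFan hk hx) hq).2 ?_
    rw [hqs]
    exact le_csSup hbdd ⟨k, hk, rfl⟩
  have hge : ∀ g ∈ Stab ({p} : Set X), q ∈ J t (g q) := by
    intro g hg
    refine (D.s_le p _ _ hq (leg S.toFan hg hq)).2 ?_
    rw [hqs]
    refine csSup_le ⟨_, hxO⟩ ?_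
    rintro _ ⟨k, hk, rfl⟩
    have h1 := (mem_img g (S.fix g)).2 (hkq _ (stab_trans hk (stab_symm hg)))
    rw [Homeomorph.trans_apply, Homeomorph.apply_symm_apply] at h1
    exact D.s_mono h1
  refine moved S hp hq hqt hqp fun g hg => ?_
  have h1 := (mem_img g (S.fix g)).2 (hge _ (stab_symm hg))
  rw [Homeomorph.apply_symm_apply] at h1
  exact D.anti _ _ h1 (hge g hg)

theorem downward {p : X} (hp : p ∈ Ends t e) {x y : X} (hx : x ∈ J t p)
    (hxp : x ≠ p) (hy : y ∈ J t p) (hyt : y ≠ t) : ∃ g ∈ Stab ({p} : Set X), g x ∈ J t y := by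
  have D := S.toDen
  by_contra hcon
  push Not at hcon
  have hle : ∀ g ∈ Stab ({p} : Set X), s y ≤ s (g x) := by
    intro g hg
    rcases D.total (leg S.toFan hg hx) hy with h | h
    · exact absurd h (hcon g hg)
    · exact D.s_mono h
  let O : Set ℝ := {r | ∃ g ∈ Stab ({p} : Set X), s (g x) = r}
  have hbdd : BddBelow O := ⟨s y, by rintro _ ⟨g, hg, rfl⟩; exact hle g hg⟩
  have hxO : s x ∈ O := ⟨Homeomorph.refl X, stab_refl, rfl⟩
  have hm1 : sInf O ≤ s x := csInf_le hbdd hxO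
  have hm2 : s y ≤ sInf O := le_csInf ⟨_, hxO⟩ (by rintro _ ⟨g, hg, rfl⟩; exact hle g hg)
  have hxp' : s x < s p := D.s_lt hx hxp
  have hy0 : 0 < s y := D.s_pos hyt
  obtain ⟨q, hq, hqs⟩ := D.level p (r := sInf O) (by linarith) (by linarith)
  have hqt : q ≠ t := by
    rintro rfl; rw [D.s_t] at hqs; linarith
  have hqp : q ≠ p := by
    rintro rfl; linarith
  have hkq : ∀ k ∈ Stab ({p} : Set X), q ∈ J t (k x) := by
    intro k hk
    refine (D.s_le p _ _ hq (leg S.toFan hk hx)).2 ?_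
    rw [hqs]
    exact csInf_le hbdd ⟨k, hk, rfl⟩
  have hge : ∀ g ∈ Stab ({p} : Set X), g q ∈ J t q := by
    intro g hg
    refine (D.s_le p _ _ (leg S.toFan hg hq) hq).2 ?_
    rw [hqs]
    refine le_csInf ⟨_, hxO⟩ ?_
    rintro _ ⟨k, hk, rfl⟩
    have h1 := (mem_img g (S.fix g)).2 (hkq _ (stab_trans hk (stab_symm hg)))
    rw [Homeomorph.trans_apply, Homeomorph.apply_symm_apply] at h1
    exact D.s_mono h1
  refine moved S hp hq hqt hqp fun g hg => ?_
  have h1 := (mem_img g (S.fix g)).2 (hge _ (stab_symm hg))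
  rw [Homeomorph.apply_symm_apply] at h1
  exact D.anti _ _ (hge g hg) h1

end setup

end PUNB

theorem t_UNB : S_UNB := by
  intro X _ _ t s e A B S p hp x y hx hxt hxp hy hyt hyp
  exact ⟨PUNB.upward S hp hx hxt hy hyp, PUNB.downward S hp hx hxp hy hyt⟩

end Pool.Agent.H273.FAN
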