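import Pool.Agent.H273.FAN.Stm1

/-!
# Whitney maps exist
-/

set_option autoImplicit false

namespace Pool.Agent.H273.FAN.PWH

open Set Filter Topology Metric

variable {X : Type} [MetricSpace X] [CompactSpace X]

/-- the oscillation of the distance to `p` on `K` -/
noncomputable def osc (p : X) (K : Set X) : ℝ := sSup (dist p '' K) - sInf (dist p '' K)

theorem dist_le_D (p x : X) : dist p x ≤ diam (univ : Set X) :=
  dist_le_diam_of_mem isBounded_of_compactSpace (mem_univ p) (mem_univ x)

theorem bddA (p : X) (K : Set X) : BddAbove (dist p '' K) :=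
  ⟨diam (univ : Set X), by rintro _ ⟨x, _, rfl⟩; exact dist_le_D p x⟩

omit [CompactSpace X] in
theorem bddB (p : X) (K : Set X) : BddBelow (dist p '' K) :=
  ⟨0, by rintro _ ⟨x, _, rfl⟩; exact dist_nonneg⟩

theorem le_sup (p : X) {K : Set X} {x : X} (hx : x ∈ K) : dist p x ≤ sSup (dist p '' K) :=
  le_csSup (bddA p K) (mem_image_of_mem _ hx)

omit [CompactSpace X] in
theorem inf_le (p : X) {K : Set X} {x : X} (hx : x ∈ K) : sInf (dist p '' K) ≤ dist p x :=
  csInf_le (bddB p K) (mem_image_of_mem _ hx)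

theorem osc_nonneg (p : X) {K : Set X} (hK : K.Nonempty) : 0 ≤ osc p K := by
  obtain ⟨x, hx⟩ := hK
  have h1 := le_sup p hx
  have h2 := inf_le p hx
  unfold osc
  linarith

omit [CompactSpace X] in
theorem sup_le (p : X) {K : Set X} (hK : K.Nonempty) {c : ℝ} (h : ∀ x ∈ K, dist p x ≤ c) :
    sSup (dist p '' K) ≤ c :=
  csSup_le (hK.image _) (by rintro _ ⟨x, hx, rfl⟩; exact h x hx)

omit [CompactSpace X] in
theorem le_inf (p : X) {K : Set X} (hK : K.Nonempty) {c : ℝ} (h : ∀ x ∈ K, c ≤ dist p x) :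
    c ≤ sInf (dist p '' K) :=
  le_csInf (hK.image _) (by rintro _ ⟨x, hx, rfl⟩; exact h x hx)

theorem osc_le_D (p : X) {K : Set X} (hK : K.Nonempty) : osc p K ≤ diam (univ : Set X) := by
  have h1 := sup_le p hK (fun x _ => dist_le_D p x)
  have h2 := le_inf p hK (c := 0) (fun x _ => dist_nonneg)
  unfold osc
  linarith

theorem osc_mono (p : X) {K L : Set X} (hK : K.Nonempty) (h : K ⊆ L) : osc p K ≤ osc p L := by
  have h1 := sup_le p hK (fun x hx => le_sup p (h hx))
  have h2 := le_inf p hK (fun x hx => inf_le p (h hx))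
  unfold osc
  linarith

theorem osc_unif (p : X) {K L : Set X} (hK : K.Nonempty) {δ : ℝ} (h : K ⊆ thickening δ L) :
    osc p K ≤ osc p L + 2 * δ := by
  have h1 : sSup (dist p '' K) ≤ sSup (dist p '' L) + δ := by
    refine sup_le p hK (fun x hx => ?_)
    obtain ⟨y, hy, hxy⟩ := mem_thickening_iff.1 (h hx)
    have h3 := le_sup p hy
    have h4 := dist_triangle p y x
    rw [dist_comm y x] at h4
    linarith
  have h2 : sInf (dist p '' L) - δ ≤ sInf (dist p '' K) := by
    refine le_inf p hK (fun x hx => ?_)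
    obtain ⟨y, hy, hxy⟩ := mem_thickening_iff.1 (h hx)
    have h3 := inf_le p hy
    have h4 := dist_triangle p x y
    linarith
  unfold osc
  linarith

theorem summ (p : ℕ → X) {K : Set X} (hK : K.Nonempty) :
    Summable fun n => (1 / 2 : ℝ) ^ n * osc (p n) K := by
  refine Summable.of_nonneg_of_le (fun n => ?_) (fun n => ?_)
    (summable_geometric_two.mul_right (diam (univ : Set X)))
  · exact mul_nonneg (by positivity) (osc_nonneg _ hK)
  · exact mul_le_mul_of_nonneg_left (osc_le_D _ hK) (by positivity)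

/-- the Whitney map -/
noncomputable def mu (p : ℕ → X) (K : Set X) : ℝ := ∑' n, (1 / 2 : ℝ) ^ n * osc (p n) K

theorem mu_strict [Nonempty X] (p : ℕ → X) (hp : DenseRange p) {K L : Set X} (hK : K.Nonempty)
    (hc : IsClosed K) (hKL : K ⊆ L) (hne : K ≠ L) : mu p K < mu p L := by
  have hL : L.Nonempty := hK.mono hKL
  obtain ⟨x, hxL, hxK⟩ : ∃ x, x ∈ L ∧ x ∉ K := by
    by_contra hcon
    push Not at hcon
    exact hne (Subset.antisymm hKL hcon)
  have hr : 0 < infDist x K := (hc.notMem_iff_infDist_pos hK).1 hxK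
  obtain ⟨n, hn⟩ := hp.exists_dist_lt x (by positivity : 0 < infDist x K / 3)
  have h1 : sInf (dist (p n) '' L) < infDist x K / 3 := by
    refine lt_of_le_of_lt (inf_le (p n) hxL) ?_
    rwa [dist_comm]
  have h2 : 2 * (infDist x K / 3) ≤ sInf (dist (p n) '' K) := by
    refine le_inf (p n) hK (fun y hy => ?_)
    have h3 := infDist_le_dist_of_mem (x := x) hy
    have h4 := dist_triangle x (p n) y
    linarith
  have h3 := sup_le (p n) hK (fun x hx => le_sup (p n) (hKL hx))
  have h4 : osc (p n) K < osc (p n) L := by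
    unfold osc
    linarith
  refine Summable.tsum_lt_tsum (i := n) (fun m => ?_) ?_ (summ p hK) (summ p hL)
  · exact mul_le_mul_of_nonneg_left (osc_mono _ hK hKL) (by positivity)
  · exact mul_lt_mul_of_pos_left h4 (by positivity)

end Pool.Agent.H273.FAN.PWH

namespace Pool.Agent.H273.FAN

open Set Filter Topology Metric PWH

theorem t_WH : S_WH := by
  intro X _ _ _
  refine ⟨mu (TopologicalSpace.denseSeq X), ?_, ?_, ?_, ?_⟩
  · intro x
    simp [mu, osc]
  · intro K L hK hKL
    refine Summable.tsum_le_tsum (fun m => ?_) (summ _ hK) (summ _ (hK.mono hKL))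
    exact mul_le_mul_of_nonneg_left (osc_mono _ hK hKL) (by positivity)
  · intro K L hK hc hKL hne
    exact mu_strict _ (TopologicalSpace.denseRange_denseSeq X) hK hc hKL hne
  · intro ε hε
    refine ⟨ε / 4, by positivity, fun K L hK hL hKL => ?_⟩
    have h1 : Summable fun n : ℕ => (1 / 2 : ℝ) ^ n * (2 * (ε / 4)) :=
      summable_geometric_two.mul_right _
    have h2 : ∑' n : ℕ, (1 / 2 : ℝ) ^ n * (2 * (ε / 4)) = ε := by
      rw [tsum_mul_right, tsum_geometric_two]
      ring
    calc mu (TopologicalSpace.denseSeq X) K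
        ≤ ∑' n : ℕ, ((1 / 2 : ℝ) ^ n * osc (TopologicalSpace.denseSeq X n) L +
            (1 / 2 : ℝ) ^ n * (2 * (ε / 4))) := by
          refine Summable.tsum_le_tsum (fun m => ?_) (summ _ hK) ((summ _ hL).add h1)
          rw [← mul_add]
          exact mul_le_mul_of_nonneg_left (osc_unif _ hK hKL) (by positivity)
      _ = mu (TopologicalSpace.denseSeq X) L + ε := by
          rw [Summable.tsum_add (summ _ hL) h1, h2]
          rfl

end Pool.Agent.H273.FAN
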