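import Pool.Agent.H273.FAN.Base

/-!
# MP_64e39e_gt / S13290: no fan has exactly four homeomorphism orbits. Statements, part 1

(the rooted dendroid, the ends of the legs, Effros' theorem, free actions on an interval).
Each `S_...` is a closed statement (a `Prop`); its docstring is a complete paper proof.
-/

set_option autoImplicit false

namespace Pool.Agent.H273.FAN

open Set Filter Topology Metric

/-- Whitney maps -/
structure Whit (X : Type) [MetricSpace X] (μ : Set X → ℝ) : Prop where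
  single : ∀ x, μ {x} = 0
  mono : ∀ K L : Set X, K.Nonempty → K ⊆ L → μ K ≤ μ L
  strict : ∀ K L : Set X, K.Nonempty → IsClosed K → K ⊆ L → K ≠ L → μ K < μ L
  unif : ∀ ε > 0, ∃ δ > 0, ∀ K L : Set X, K.Nonempty → L.Nonempty →
    K ⊆ Metric.thickening δ L → μ K ≤ μ L + ε

/-- WH: Whitney maps exist. Proof: let `p : ℕ → X` be a dense sequence (`TopologicalSpace.denseSeq X`),
`μ K = ∑' n, (1/2)^n * (sSup (dist (p n) '' K) - sInf (dist (p n) '' K))`. All distances are
`≤ diam univ`, so everything is bounded and the series converges (`Summable` by comparison with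
`(1/2)^n * D`); for nonempty `K` each term is `≥ 0`. single: clear. mono: `csSup_le_csSup`,
`csInf_le_csInf`, `tsum_le_tsum`. strict: take `x ∈ L \ K`; `K` closed so
`r = infDist x K > 0`; take `n` with `dist (p n) x < r/3`: on `K` the function `dist (p n)` is
`≥ 2r/3` and at `x ∈ L` it is `< r/3`, so the `n`-th term increases strictly (the sup does not
decrease), all others do not decrease: `Summable.tsum_lt_tsum`. unif: `δ = ε/5`: each point of `K` is
within `δ` of a point of `L`, so `sSup_K ≤ sSup_L + δ`, `sInf_K ≥ sInf_L - δ`, term difference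
`≤ (1/2)^n * 2δ`, sum `≤ 4δ < ε`. -/
def S_WH : Prop :=
  ∀ (X : Type) [MetricSpace X] [CompactSpace X] [Nonempty X], ∃ μ : Set X → ℝ, Whit X μ

/-- JC: in a hereditarily unicoherent compact connected metric space `J t x` is connected.
Proof: let `F = {K | IsClosed K ∧ IsConnected K ∧ t ∈ K ∧ x ∈ K}`; `univ ∈ F`; by `HU` the
intersection of two members is in `F` (it contains `t`, so is nonempty). So `F` is directed
downwards by inclusion. Suppose `⋂₀ F` (nonempty, contains `t`, closed) is not connected: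
`isPreconnected_closed_iff`: disjoint nonempty relatively closed pieces, separate them by disjoint
open sets `U, V` (`normal_separation`); then `⋂₀ F ⊆ U ∪ V` and by compactness
(`exists_subset_nhds_of_isCompact` for the directed family indexed by the subtype `F`) some `K ∈ F`
has `K ⊆ U ∪ V`; `K` is connected and meets both `U` and `V`: contradiction. (Compare
`Pool.Agent.H273.FAN.Ls_conn` in `Api.lean`.) Check Mathlib for
`IsPreconnected.iInter_of_directed`-like lemmas first. -/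
def S_JC : Prop :=
  ∀ (X : Type) [MetricSpace X] [CompactSpace X] [ConnectedSpace X], HU X →
    ∀ t x : X, IsConnected (J t x)

/-- ANTI: if `X` is path connected and hereditarily unicoherent then `J t x` determines `x`.
Proof. Suppose `J t y = J t y' =: K` and `y ≠ y'`. `K` is closed and connected (use `S_JC`), and a closed
connected set through `t` and `y` (or through `t` and `y'`) contains `K` (`J_min`). Let
`σ : [0,1] → X` be a path from `y'` to `t`. Let `T = {τ | K ⊆ J t (σ τ)}`. `0 ∈ T`. `1 ∉ T`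
because `J t t = {t}` and `K` has two points `y ≠ y'`.
(a) `T` is closed: if `τ_n ∈ T`, `τ_n → τ`, then for every `n`, `J t (σ τ) ∪ σ([τ_n,τ])` is closed
connected and contains `t` and `σ τ_n`, so it contains `J t (σ τ_n) ⊇ K`. If `z ∈ K` were not in
`J t (σ τ)`, then for large `n` also `z ∉ σ([τ_n,τ])` unless `z = σ τ ∈ J t (σ τ)` (the sets
`σ([τ_n,τ])` shrink to `σ τ`): contradiction.
(b) `T` is open: let `τ ∈ T`, `v = σ τ`, and `τ'` near `τ`, `C = σ([τ,τ'])` (small, connected,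
contains `v` and `σ τ'`). `J t (σ τ') ∪ C` is closed connected and contains `t, v`, so it contains
`J t v ⊇ K`. Case 1: `v ∈ K`. Then `J t v ⊆ K`, so `J t v = K = J t y = J t y'`. One of `y, y'` is
`≠ v`; call it `y*`; `J t y* = K`. For `C` so small that `y* ∉ C` we get from
`y* ∈ K ⊆ J t (σ τ') ∪ C` that `y* ∈ J t (σ τ')`, hence `K = J t y* ⊆ J t (σ τ')`. Case 2:
`v ∉ K`. For `C` so small that `C` is disjoint from the closed set `K`, `K ⊆ J t (σ τ')`. 
So `T` is clopen in the connected `[0,1]`, contains `0` and not `1`: contradiction.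
(Formally it is enough to do: `T` closed and, for `τ ∈ T`, a neighbourhood of `τ` is in `T`.) -/
def S_ANTI : Prop :=
  ∀ (X : Type) [MetricSpace X] [CompactSpace X] [PathConnectedSpace X], HU X →
    ∀ t x y : X, J t x = J t y → x = y

/-- PC: the height is continuous along paths. `J t (γ τ') ⊆ J t (γ τ) ∪ γ([τ,τ'])` (the right side is
closed, connected, contains `t` and `γ τ'`), and `γ([τ,τ'])` has small diameter and contains
`γ τ ∈ J t (γ τ)`, so `J t (γ τ') ⊆ thickening δ (J t (γ τ))` for `τ'` near `τ`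
(uniform continuity of `γ`), and symmetrically; conclude with `Whit.unif`. (`J t x` is connected by
`S_JC`; closed as an intersection of closed sets.) -/
def S_PC : Prop :=
  ∀ (X : Type) [MetricSpace X] [CompactSpace X] [PathConnectedSpace X], HU X →
    ∀ μ : Set X → ℝ, Whit X μ → ∀ t : X, ∀ γ : ℝ → X, Continuous γ →
      Continuous fun τ => μ (J t (γ τ))

/-- LAST: the last time at a given height. Let `γ : ℝ → X` be continuous, `τ₀ ≤ 1`,
`μ (J t (γ τ₀)) = r > 0` and `μ (J t (γ τ)) > r` for all `τ ∈ (τ₀,1]`. Then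
`J t (γ τ₀) ⊆ J t (γ τ)` for all `τ ∈ [τ₀,1]`.
Proof. Put `c = γ τ₀`, `T = {τ ∈ [τ₀,1] | J t c ⊆ J t (γ τ)}`; `T` is closed (as in `S_ANTI` (a)) and
contains `τ₀`. Let `τ₁ ∈ T`, `τ₁ > τ₀`: then `μ (J t (γ τ₁)) > r`, so `γ τ₁ ∉ J t c` (a point
`v ∈ J t c` has `J t v ⊆ J t c`, `μ (J t v) ≤ r`); for `τ'` near `τ₁` the set
`C = γ([τ₁,τ'])` is disjoint from the closed set `J t c`, and
`J t c ⊆ J t (γ τ₁) ⊆ J t (γ τ') ∪ C` gives `J t c ⊆ J t (γ τ')`: so `T` is a neighbourhood of
each of its points `τ₁ > τ₀` (in `[τ₀,1]`).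
It remains to see that every `τ' ∈ (τ₀,1]` is in `T`. Directly: let `τ' ∈ (τ₀, 1]` and
`C = γ([τ₀,τ'])`. For `τ ∈ (τ₀,τ']` we have `μ (J t (γ τ)) > r`, so `γ τ ∉ J t c`; hence
`C ∩ J t c = {c}`. `J t (γ τ') ∪ C` is closed connected and contains `t` and `c`, so
`J t c ⊆ J t (γ τ') ∪ C`, so `J t c \ {c} ⊆ J t (γ τ')`. `J t c` is connected and is not `{c}`
(as `μ (J t c) = r > 0`), so `c` is in the closure of `J t c \ {c}` (a connected set with at least two
points has no isolated points), and `J t (γ τ')` is closed: `c ∈ J t (γ τ')`. So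
`J t c ⊆ J t (γ τ')`. (This direct argument is the whole proof; the closedness of `T` is not
needed.) -/
def S_LAST : Prop :=
  ∀ (X : Type) [MetricSpace X] [CompactSpace X] [PathConnectedSpace X], HU X →
    ∀ μ : Set X → ℝ, Whit X μ → ∀ t : X, ∀ γ : ℝ → X, Continuous γ → ∀ (τ₀ r : ℝ), τ₀ ≤ 1 →
      0 < r → μ (J t (γ τ₀)) = r → (∀ τ, τ₀ < τ → τ ≤ 1 → r < μ (J t (γ τ))) →
      ∀ τ, τ₀ ≤ τ → τ ≤ 1 → J t (γ τ₀) ⊆ J t (γ τ)

/-- ARC: `J t x` is an arc parametrised by height: there is `a : ℝ → X` with, for `0 ≤ r ≤ S := μ (J t x)`: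
`a r ∈ J t x`, `μ (J t (a r)) = r`, `J t (a r) ⊆ J t (a r')` for `r ≤ r'`, `a` continuous on `[0,S]`,
`a 0 = t`, `a S = x`, and `a` maps `[0,S]` ONTO `J t x`.
Proof. Let `γ : ℝ → X` be continuous with `γ 0 = t`, `γ 1 = x` (a path, extended), and
`f τ = μ (J t (γ τ))`, continuous by `S_PC`, `f 0 = μ {t} = 0`, `f 1 = S`. For `r ∈ [0,S]` let
`T r = sSup {τ ∈ [0,1] | f τ = r}` (nonempty by the intermediate value theorem, closed, so
`f (T r) = r`), the last time at height `r`, and `a r = γ (T r)`. For `r < S`, `τ ∈ (T r,1]` has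
`f τ > r` (otherwise by the intermediate value theorem on `[τ,1]` height `r` is attained later), so by
`S_LAST` (for `r > 0`; for `r = 0`: `μ (J t v) = 0` means `J t v = {t}` by `Whit.strict` applied to
`{t} ⊆ J t v`, so `v = t`) `J t (a r) ⊆ J t (γ τ)` for all `τ ≥ T r`. `T` is strictly increasing
(between `T r` and `1` height `r' > r` is attained), so `J t (a r) ⊆ J t (a r')` for `r ≤ r'`, and
`J t (a r) ⊆ J t (γ 1) = J t x`. `a S`: `T S = 1`, `a S = x`. `a 0 = t`.
Continuity at `r` from the right: `r_n ↓ r`: `T r_n` decreases to some `τ ≥ T r` with `f τ = r`, so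
`τ = T r` (last time). From the left: `r_n ↑ r` (`r_n < r`): `T r_n` increases to some `τ ≤ T r` with
`f τ = r`. Put `y = γ τ`. `J t (a r_n) ⊆ J t y` (as `τ ≥ T r_n`) and `J t (a r_n) ⊆ J t (a r)`. Let
`K = closure (⋃ n, J t (a r_n))`, closed connected (union of connected sets through `t`), contained in
`J t y` and in `J t (a r)`, with `μ K ≥ r_n` for all `n`, so `μ K ≥ r`; by `Whit.strict` and
`μ (J t y) = r = μ (J t (a r))`, `K = J t y = J t (a r)`. By `S_ANTI` `y = a r`, so `a r_n → a r`.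
(To prove `ContinuousOn a (Icc 0 S)` use sequential continuity: every sequence `r_n → r` has a monotone
subsequence; or prove that `Tendsto` holds in `𝓝[<] r` and `𝓝[>] r` using monotonicity of `T`:
`T` is monotone, so it has one-sided limits, `MonotoneOn`/`Monotone.tendsto_nhdsLT`.)
Finally `a '' Icc 0 S` is compact, connected, contains `t = a 0` and `x = a S`, so it contains
`J t x`; and each `a r ∈ J t (a r) ⊆ J t x`. -/
def S_ARC : Prop :=
  ∀ (X : Type) [MetricSpace X] [CompactSpace X] [PathConnectedSpace X], HU X →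
    ∀ μ : Set X → ℝ, Whit X μ → ∀ t x : X, ∃ a : ℝ → X,
      ContinuousOn a (Icc 0 (μ (J t x))) ∧ a '' Icc 0 (μ (J t x)) = J t x ∧
      (∀ r ∈ Icc 0 (μ (J t x)), μ (J t (a r)) = r) ∧
      (∀ r ∈ Icc 0 (μ (J t x)), ∀ r' ∈ Icc 0 (μ (J t x)), r ≤ r' → J t (a r) ⊆ J t (a r'))

/-- DEN: the rooted dendroid structure. `s x = μ (J t x)` with `μ` from `S_WH`. closed: intersection of
closed sets; conn: `S_JC`; memt, memx trivial; anti: `x ∈ J t y` gives `J t x ⊆ J t y` (`J_min`
argument), so equality, `S_ANTI`. s_t: `J t t = {t}`. s_nonneg: `{x} ⊆ J t x`. s_cont: with `a` from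
`S_ARC`: `s ∘ a = id` on `[0,S]`, `a` continuous bijection of the compact `[0,S]` onto `J t x`, so its
inverse `s` is continuous (closed sets: for `F ⊆ [0,S]` closed, `s⁻¹ F ∩ J t x = a '' F` is
compact). s_le: `y = a r, y' = a r'`, `s y = r`, `s y' = r'`: if `r ≤ r'` then
`y ∈ J t y ⊆ J t y'`; if `y ∈ J t y'` then `J t y ⊆ J t y'` so `r ≤ r'` by `Whit.mono`. s_unif:
`Whit.unif`. -/
def S_DEN : Prop :=
  ∀ (X : Type) [MetricSpace X] [CompactSpace X] [PathConnectedSpace X], HU X →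
    ∀ t : X, ∃ s : X → ℝ, Den X t s

/-- TRI: if `t` is the only vertex of a simple triod, then two points above a common point `x ≠ t` are
comparable. Proof. Suppose `x ≠ t`, `x ∈ J t y`, `x ∈ J t y'`, `y ∉ J t y'`, `y' ∉ J t y`. Take the arc
parametrisations `a, a'` of `J t y`, `J t y'` by height (`Den.arc` in `Api.lean`). Let
`m = min (s y) (s y')` and `R = {r ∈ [0,m] | a r = a' r}`: closed, contains `0`, `s x` (both `a (s x)`
and `a' (s x)` equal `x` by `Den.s_inj`); let `ρ = max R ≥ s x > 0`, `b = a ρ = a' ρ`, `b ≠ t`.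
`ρ < s y`: otherwise `b = y ∈ J t y'`; similarly `ρ < s y'`. If `r ∈ R` then
`J t (a r) ⊆ J t y ∩ J t y'`. If `a r = a' r'` then `r = r'` (heights). So the three injective paths
`u ↦ a (ρ (1-u))` (from `b` down to `t`), `u ↦ a (ρ + u (s y - ρ))`, `u ↦ a' (ρ + u (s y' - ρ))`
(`u ∈ [0,1]`) start at `b` and pairwise meet only in `b`: heights on the first are `≤ ρ`, on the others
`≥ ρ`, with equality only at `b`; the last two meet only where `a r = a' r`, `r ≥ ρ`, i.e. `r = ρ`.
So `b` is the vertex of a simple triod, `b = t`: contradiction. -/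
def S_TRI : Prop :=
  ∀ (X : Type) [MetricSpace X] [CompactSpace X] (t : X) (s : X → ℝ), Den X t s →
    (∀ b, Vertex X b → b = t) →
    ∀ x y y', x ≠ t → x ∈ J t y → x ∈ J t y' → y ∈ J t y' ∨ y' ∈ J t y

/-- END: every leg has an end. Let `x ≠ t`, `U = {y | x ∈ J t y}` (totally ordered by `S_TRI`'s
conclusion `comp`), `M = sSup (s '' U)` (`s` is bounded: `J t y ⊆ univ`, use `s_unif` with a large... or
simply: `s y ≤ s_max` from `s_unif` at `ε = 1` and compactness: finitely many `δ`-balls; simplest: a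
bound follows from `s_unif`: cover `X` by finitely many balls `B(z_i,δ/2)`; then
`J t y ⊆ thickening δ (⋃ ...)`. If this is awkward, argue by the same proof below with `M = +∞`
allowed, i.e. choose an increasing sequence `y n ∈ U` that is cofinal: every `y ∈ U` is in some
`J t (y n)`.) If `M` is attained at `y`, then `y` is maximal above `x` (all elements of `U` are
comparable with `y` and `s_lt`). Suppose `U` has no maximal element. Choose `y n ∈ U`, increasing
(`y n ∈ J t (y (n+1))`, `y n ≠ y (n+1)`), cofinal in `U` (every `y ∈ U` is in `J t (y n)` for some `n`).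
Put `R = ⋃ n, J t (y n)`, and for `z ∈ R` let `Tl z = {v ∈ R | z ∈ J t v}` (the tail from `z`), and
`K = closure R`, `Nn = ⋂ n, closure (Tl (y n))`. Facts: each `Tl z` is connected (increasing union of
the intervals `Ic t z (y m)`), `Nn` is closed, nonempty. 
(1) If `q ∈ Nn ∩ R` then `Tl q ⊆ Nn`: for `z ∈ Tl q` and `n` with `z ∈ J t (y n)`: `H = closure (Tl (y n))`
is closed connected and contains `q` and `y n`; `H ∪ J t q` is closed connected, contains `t` and `y n`,
so it contains `J t (y n) ∋ z`; `z ∈ J t q` only if `z = q`; so `z ∈ H`. As this holds for all large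
`n` (the sets `closure (Tl (y n))` decrease), `z ∈ Nn`.
(2) `Nn ⊄ R`. Otherwise take `q ∈ Nn` ; `Tl q ⊆ Nn ⊆ R`; then
`Nn ∩ {v | q ∈ J t v or ...}`: precisely `Q = closure (Tl q) ⊆ Nn ⊆ R` is compact and is the union of the
closed sets `Q ∩ J t (y n)`; by Baire one of them has nonempty interior in `Q`; but for `m > n` large
`Tl (y m)` is dense in `Q` (`Q ⊆ Nn ⊆ closure (Tl (y m))`, `Tl (y m) ⊆ Q` for `y m` above `q`) and
disjoint from `J t (y n)` (for `m > n`): contradiction.
(3) So there is `q ∈ Nn \ R`. Then `J t q ⊆ K` (`K` is closed connected, contains `t` and `q`).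
`J t q ∩ R = {t}`: let `v ∈ J t q ∩ R`, `v ≠ t`, `v ∈ J t (y n)`; for every `m ≥ n`, `v` is below
`q` and `y m`, so by `comp` `q ∈ J t (y m)` (no: `q ∉ R`) or `y m ∈ J t q`; so all `y m ∈ J t q`,
in particular `x ∈ J t q`, `q ∈ U`, by cofinality `q ∈ J t (y k) ⊆ R`: contradiction. Since
`R ∪ Nn = K` (a point of `K \ R` is in every `closure (Tl (y n))` because
`R ⊆ J t (y n) ∪ Tl (y n)` and `J t (y n)` is closed), `J t q \ {t} ⊆ Nn`, and `t` is not isolated in
the connected nondegenerate `J t q`, so `t ∈ Nn`. By (1) with `q := t`: `R ⊆ Nn`, so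
`Nn = K` and every `Tl (y n)` is dense in `K`.
(4) Let `H ⊆ K` be closed, connected, `t ∈ H`, `H ≠ K`. Then `H` has empty interior in `K`: `H` does not
contain all `y n` (else `R ⊆ H`, `K ⊆ H`); if `y n ∉ H` then no point of `Tl (y n)` is in `H`
(`v ∈ H ∩ Tl (y n)` gives `y n ∈ J t v ⊆ H`), and `Tl (y n)` is dense in `K`.
(5) For every `q ∈ K`, `J t q ⊆ K` and `J t q ≠ K` (otherwise all `y n ∈ J t q`, so `q ∈ U` and by
cofinality `q ∈ J t (y k)`, `y (k+1) ∈ J t q ⊆ J t (y k)`: contradiction). Take a countable basis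
of `X`; for each basic open `O` meeting `K`, `t ∉ O`, let `H_O` = the connected component of `t` in `K \ O`
(closed, connected, `≠ K`). For each `q ∈ K` there is a basic `O` meeting `K`, disjoint from `J t q`
(closed, `≠ K`), and then `J t q ⊆ H_O`. So `K` is a countable union of closed sets with empty
interior in `K`: contradiction with Baire (`nonempty_interior_of_iUnion_of_closed` in the compact space
`K`). -/
def S_END : Prop :=
  ∀ (X : Type) [MetricSpace X] [CompactSpace X] (t : X) (s : X → ℝ), Den X t s →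
    (∀ x y y', x ≠ t → x ∈ J t y → x ∈ J t y' → y ∈ J t y' ∨ y' ∈ J t y) →
    ∀ x, x ≠ t → ∃ z, x ∈ J t z ∧ ∀ y, z ∈ J t y → y = z

/-- FAN: assembly. From `S_DEN, S_TRI, S_END`: `e t = t`, `e x` = the end from `S_END` for `x ≠ t`. fix: a
homeomorphism maps vertices of simple triods to such, so `h t` is one, `h t = t`. comp: `S_TRI`.
exists_ne: the triod at `t`: `γ 0 1 ≠ γ 0 0 = t` by injectivity. -/
def S_FAN : Prop :=
  ∀ (X : Type) [MetricSpace X] [CompactSpace X] [PathConnectedSpace X], HU X →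
    ∀ t : X, Vertex X t → (∀ b, Vertex X b → b = t) →
      ∃ (s : X → ℝ) (e : X → X), Fan X t s e

/-- EFF1 (almost openness). Let `Γ = Stab P`, `O = Orb P x` be not meager in itself. Then for all `ε > 0` and
`y ∈ O` there is `δ > 0` such that every `z ∈ O` with `dist z y < δ` is in the closure of
`{g y | g ∈ Γ, near g ε}`. Proof. `Γ` is separable for
`D (g,h) = sup dist (g u) (h u) + sup dist (g⁻¹ u) (h⁻¹ u)`: embed `g ↦ (g, g⁻¹)` in
`C(X,X) × C(X,X)` (second countable metric space since `X` is compact metric), any subset of which has a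
countable dense subset. So there are `g_i ∈ Γ` such that for every `g ∈ Γ` some `g_i` satisfies
`dist (g u) (g_i u) < ε/2`, `dist (g⁻¹ u) (g_i⁻¹ u) < ε/2` for all `u`; then `v = g_i⁻¹ g` satisfies
`near v (ε/2)` (`dist (g_i⁻¹ (g u)) u = dist (g_i⁻¹ w) (g⁻¹ w)` with `w = g u`; similarly for the
inverse). So with `V = {v ∈ Γ | near v (ε/2)}`, `O = ⋃ i, g_i '' (V y)` (`O` is also the orbit of `y`).
As `O` is not meager in itself, some `g_i '' (V y)` is not nowhere dense in `O`; `g_i` restricts to a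
homeomorphism of `O`, so `V y` is not nowhere dense in `O`: there is an open `W ⊆ X` with
`W ∩ O ≠ ∅` and `W ∩ O ⊆ closure (V y)`. `W` meets `V y`, say `v y ∈ W`, `v ∈ V`. Then
`v⁻¹ W` is an open neighbourhood of `y`, and `v⁻¹ W ∩ O ⊆ v⁻¹ (W ∩ O) ⊆ closure (v⁻¹ V y)`, and
`v⁻¹ v' ∈ Γ` is `near ε` for `v, v' ∈ V`. -/
def S_EFF1 : Prop :=
  ∀ (X : Type) [MetricSpace X] [CompactSpace X] (P : Set X) (x : X),
    ¬ IsMeagre (Set.univ : Set (Orb P x)) →
    ∀ ε > 0, ∀ y ∈ Orb P x, ∃ δ > 0, ∀ z ∈ Orb P x, dist z y < δ →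
      ∀ η > 0, ∃ g ∈ Stab P, near g ε ∧ dist (g y) z < η

/-- EFF2 (back and forth). The conclusion of `S_EFF1` implies the Effros property. Proof. Let `O = Orb P x`,
and for `y ∈ O`, `η > 0` let `d (y,η) > 0` be the `δ` of the hypothesis for `ε := η`. Let `ε > 0` and let
`δ = d (x, ε₀)`, with `ε₀ = ε/16`. Let `z ∈ O`, `dist z x < δ`. Construct sequences
`x_0 = x, z_0 = z`, `g_n, f_n ∈ Γ = Stab P`, `x_n = g_n x_{n-1}`, `z_n = f_n z_{n-1}`, and tolerances: `g_n`
is `near ε_n` where `ε_n` is chosen (depending on `G_{n-1} = g_{n-1} ⋯ g_1`) so small that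
`dist (g_n u) u < ε 2^{-n-4}` and `dist (G_{n-1}⁻¹ (g_n⁻¹ u)) (G_{n-1}⁻¹ u) < ε 2^{-n-4}` for all `u`
(uniform continuity of `G_{n-1}⁻¹`), similarly `f_n` and `F_{n-1} = f_{n-1} ⋯ f_1` with tolerance
`ε'_n`; and the points are chosen so that `dist (g_n x_{n-1}) z_{n-1} < min (2^{-n}) (d (z_{n-1}, ε'_n))`
(possible because `dist z_{n-1} x_{n-1} < d (x_{n-1}, ε_n)` by the previous step) and
`dist (f_n z_{n-1}) x_n < min (2^{-n}) (d (x_n, ε_{n+1}))` (possible because
`dist x_n z_{n-1} < d (z_{n-1}, ε'_n)`); here `ε'_n` depends only on `F_{n-1}` and `ε_{n+1}` only on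
`G_n`. Then `G_n` and `G_n⁻¹` converge uniformly, their limits `G, G'` are continuous and inverse to each
other, so `G` is a homeomorphism, in `Stab P` (pointwise limit), `near G (ε/4)`; similarly `F`. And
`G x = lim x_n = lim z_n = F z`. So `g = F⁻¹ G ∈ Stab P` maps `x` to `z` and
`dist (g u) u ≤ dist (F⁻¹ (G u)) (G u) + dist (G u) u < ε`, same for the inverse. (Organise the
recursion with a structure state `(g-part G, f-part F)` plus the invariant
`dist (F z) (G x) < d (G x, ε_(G))`, where `ε_(G)` is the tolerance determined by `G` and `n`, and use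
dependent choice, e.g. `exists_seq_of_forall...`/`Nat.rec` on a subtype.) -/
def S_EFF2 : Prop :=
  ∀ (X : Type) [MetricSpace X] [CompactSpace X] (P : Set X) (x : X),
    (∀ ε > 0, ∀ y ∈ Orb P x, ∃ δ > 0, ∀ z ∈ Orb P x, dist z y < δ →
      ∀ η > 0, ∃ g ∈ Stab P, near g ε ∧ dist (g y) z < η) → Eff P x

/-- HOLD: a group of increasing homeomorphisms of `(0,c)` cannot act freely with exactly two orbits, both
dense. Proof. Write `D = (0,c)`; identify `Γ` with the group of its restrictions to `D`.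
(0) For `g, h ∈ Γ`: if `g x < h x` for one `x ∈ D` then for all `x ∈ D`: `k = g⁻¹ h ∈ Γ` has no fixed point
in `D` (free: otherwise `k = id`), it is continuous and `D` is connected, so `k x > x` everywhere
or nowhere. Write `g < h`. This is a total order on `Γ|D`, invariant under left and right
multiplication. 
(1) Archimedean: if `g > 1` (`g x > x`) then `g^n x → c` for every `x ∈ D` (otherwise the limit is
a fixed point in `D`), and `g^{-n} x → 0`. So for all `g > 1` and `h` there is `n` with `h < g^n`.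
(2) For `a > 1` in `Γ` there is `k ∈ Γ`, `k > 1`, `k k ≤ a`: fix `x_0 ∈ A`; `A = Γ x_0` is dense, so there is
`b ∈ Γ` with `x_0 < b x_0 < a x_0`, i.e. `1 < b < a`; `k = min (b, b⁻¹ a)`: if `b ≤ b⁻¹ a` then
`b b ≤ b b⁻¹ a = a`; if `k = b⁻¹ a ≤ b` then `k k ≤ b k = a`.
(3) `Γ` is commutative: suppose `g h ≠ h g`, wlog `g h > h g`; `a = g h (h g)⁻¹ > 1`; take `k` as in (2);
by (1) there are integers `m, n` with `k^m ≤ g < k^{m+1}`, `k^n ≤ h < k^{n+1}`; then
`g h < k^{m+n+2}`, `h g ≥ k^{m+n}`, so `a = g h (h g)⁻¹ < k^2 ≤ a`: contradiction.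
(4) Fix `x_0 ∈ A`, `y_0 ∈ B`; wlog (replace `x_0` by another point of its dense orbit)
`x_0 < y_0`. Let `S = {h ∈ Γ | h (h x_0) < y_0}` (contains `1`) and `m = sup {h x_0 | h ∈ S}`; `S` is
downward closed. `m ∈ D`: `h > 1`, `h ∈ S` gives `h x_0 < h h x_0 < y_0`, so `m ≤ y_0`, `m ≥ x_0`.
(4A) `m ∈ A`: `m = g x_0`, `g ∈ Γ`. If `g g x_0 < y_0`: `x_0 < g⁻² y_0`; by density there is `a > 1` with
`a x_0 < g⁻² y_0`, take `k > 1`, `k k ≤ a`: `(g k)(g k) x_0 = g² k² x_0 < y_0`, so `g k ∈ S` and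
`g k x_0 > g x_0 = m`: contradiction. If `g g x_0 > y_0`: there is `a > 1` with `g² a⁻¹ x_0 > y_0` (density:
`a⁻¹ x_0 ∈ (g⁻² y_0, x_0)`), `k > 1`, `k k ≤ a`: `(g k⁻¹)² x_0 > y_0`, so every `h ∈ S` is `< g k⁻¹`
(otherwise `h² x_0 ≥ (g k⁻¹)² x_0`), so `m ≤ g k⁻¹ x_0 < g x_0 = m`: contradiction. So `g g x_0 = y_0`:
contradiction with `A ∩ B = ∅`.
(4B) `m ∈ B`: `m = g y_0`, `g ∈ Γ`. For `h ∈ Γ`: `h x_0 ≠ m`; `h x_0 < m → h ∈ S` (some `h' ∈ S` has
`h x_0 < h' x_0`), and `h ∈ S → h x_0 ≤ m`, so `h x_0 < m`. Writing `h = g k`: for all `k ∈ Γ`: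
`k x_0 < y_0 ↔ g² k² x_0 < y_0` (*). Put `C = {k | k x_0 < y_0}`; (*) says `k ∈ C ↔ g² k² ∈ C`. Since
`y_0 ∈ B`, `g⁻² x_0 ≠ y_0`. If `g⁻² x_0 < y_0`: by density there is `u > 1` with `u g⁻² ∈ C`. For
`k ∈ C`, `k ≥ u g⁻²`: `u k ≤ (g² k) k = g² k² ∈ C`, so `u k ∈ C` and `u k ≥ u g⁻²`; iterating from
`k = u g⁻²`: `u^n u g⁻² ∈ C` for all `n`, contradicting (1). If `g⁻² x_0 > y_0`: there is `u > 1` with
`u⁻¹ g⁻² x_0 > y_0`; for `k ∉ C`, `k ≤ u⁻¹ g⁻²`: `g² k² ≤ u⁻¹ k` and `g² k² ∉ C`, so `u⁻¹ k ∉ C`;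
iterating, `u^{-n} u⁻¹ g⁻² ∉ C` for all `n`, i.e. `u^{-n-1} g⁻² x_0 ≥ y_0`, contradicting
`u^{-n} z → 0`. -/
def S_HOLD : Prop :=
  ∀ (c : ℝ), 0 < c → ∀ (Γ : Set (ℝ → ℝ)) (A B : Set ℝ),
    (∀ g ∈ Γ, ContinuousOn g (Ioo 0 c) ∧ StrictMonoOn g (Ioo 0 c) ∧
      MapsTo g (Ioo 0 c) (Ioo 0 c)) →
    (∀ g ∈ Γ, ∀ h ∈ Γ, ∃ k ∈ Γ, ∀ x ∈ Ioo 0 c, k x = g (h x)) →
    (∀ g ∈ Γ, ∃ k ∈ Γ, ∀ x ∈ Ioo 0 c, k (g x) = x ∧ g (k x) = x) →
    (∀ g ∈ Γ, ∀ x ∈ Ioo 0 c, g x = x → ∀ y ∈ Ioo 0 c, g y = y) →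
    A ∪ B = Ioo 0 c → Disjoint A B → A.Nonempty → B.Nonempty →
    (∀ x ∈ A, ∀ y ∈ A, ∃ g ∈ Γ, g x = y) → (∀ x ∈ B, ∀ y ∈ B, ∃ g ∈ Γ, g x = y) →
    (∀ g ∈ Γ, ∀ x ∈ A, g x ∈ A) → (∀ g ∈ Γ, ∀ x ∈ B, g x ∈ B) →
    (Ioo 0 c ⊆ closure A) → (Ioo 0 c ⊆ closure B) → False

end Pool.Agent.H273.FAN
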