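import Pool.Agent.H273.FAN.Stm1
import Pool.Agent.H273.FAN.Api2

/-!
# MP_64e39e_gt / S13290: no fan has exactly four homeomorphism orbits. Statements, part 2

Everything here is for a fan (`Fan X t s e`) or the hypothetical four-orbit fan (`Setup X t s e A B`).
We write `x ≤ y` for `x ∈ J t y`; the leg of `p` is `J t p`, `p` an end (`p ∈ Ends t e`);
`G_p = Stab {p}`.
-/

set_option autoImplicit false

namespace Pool.Agent.H273.FAN

open Set Filter Topology Metric

/-- upper semicontinuity of the legs away from `t` -/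
def LegUsc {X : Type} [MetricSpace X] (t : X) (e : X → X) : Prop :=
  ∀ (x w : ℕ → X) (x0 w0 : X), x0 ≠ t → Tendsto x atTop (𝓝 x0) → Tendsto w atTop (𝓝 w0) →
    (∀ n, w n ∈ J t (e (x n))) → w0 ∈ J t (e x0)

/-- `N(t) = {t}` -/
def NTriv {X : Type} [MetricSpace X] (t : X) : Prop := ∀ w ∈ N t t, w = t

/-- an end `p` is in `N(x)` only for `x = p` -/
def NEnd {X : Type} [MetricSpace X] (t : X) (e : X → X) : Prop :=
  ∀ p ∈ Ends t e, ∀ x, p ∈ N t x → x = p

/-- Effros property of the orbit of ends -/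
def EffE {X : Type} [MetricSpace X] (t : X) (e : X → X) : Prop :=
  ∀ p ∈ Ends t e, Eff (∅ : Set X) p

/-- the ends accumulate only at ends and at `t` -/
def Case1 {X : Type} [MetricSpace X] (t : X) (e : X → X) : Prop :=
  ∀ x ∈ closure (Ends t e), x = t ∨ x ∈ Ends t e

/-- a setup with the basic facts -/
structure Basic (X : Type) [MetricSpace X] [CompactSpace X] (t : X) (s : X → ℝ) (e : X → X)
    (A B : Set X) : Prop extends Setup X t s e A B where
  ntriv : NTriv t
  usc : LegUsc t e
  nend : NEnd t e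
  effE : EffE t e

/-- ORB: from exactly four orbits to the setup. Let `a : Fin 4 → X` represent the four orbits (pairwise not
equivalent under homeomorphisms, every point equivalent to one). `t` is fixed by all homeomorphisms, so
exactly one `a i` is `t`. `Ends` and `Int` are invariant (`Fan.e_homeo`, `Fan.homeo_ne`), and
`X = {t} ∪ Ends ∪ Int`. `Ends` is nonempty (`exists_ne`, `e x`, `Fan.e_e`), and below every end `p` there
are interior points (`Den.level` at `s p / 2`).
(1) Any two ends are equivalent: if `p, q` are inequivalent ends, take interior points `x` of the leg of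
`p`, `y` of the leg of `q`; they are inequivalent (`h x = y` implies `h p = h (e x) = e (h x) = q`);
then `t, p, q, x, y` are five pairwise inequivalent points (ends are not equivalent to interior points
or `t`), contradiction (pigeonhole: map each of the five to its class `i : Fin 4`, injective).
(2) So exactly one `a i` is an end, exactly one is `t`, hence exactly two are interior points (each of the
4 indices is of exactly one type; number of `t`-type indices is 1; of end type exactly 1 by (1) and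
inequivalence). Let `i ≠ j` be the two indices with `a i, a j` interior, `A = {x | ∃ h, h (a i) = x}`,
`B = {x | ∃ h, h (a j) = x}`. All fields follow. -/
def S_ORB : Prop :=
  ∀ (X : Type) [MetricSpace X] [CompactSpace X] (t : X) (s : X → ℝ) (e : X → X), Fan X t s e →
    (∃ a : Fin 4 → X, (∀ i j, (∃ h : X ≃ₜ X, h (a i) = a j) → i = j) ∧
      ∀ x : X, ∃ i, ∃ h : X ≃ₜ X, h (a i) = x) → ∃ A B : Set X, Setup X t s e A B

/-- UNB: the `G_p`-orbit of an interior point of the leg `J t p` is unbounded in both directions.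
Proof. `g ∈ Stab {p}` maps `J t p` onto itself (`img`) and preserves the order (`mem_img`). Suppose no
`g x ≥ y`. Then `g x ≤ y` for all `g` (`Den.total`). `m = sSup {s (g x) | g ∈ Stab {p}} ≤ s y < s p`,
`m ≥ s x > 0`. Let `q ∈ J t p`, `s q = m` (`Den.level`). `q` is fixed by every `g ∈ Stab {p}`: every point
`o` of the orbit of `x` is `≤ q`, so `g⁻¹ o ≤ q`, `o ≤ g q`, hence `m ≤ s (g q)`, i.e. `q ≤ g q`; the
same for `g⁻¹` gives `g q ≤ q`, so `g q = q` (`anti`). Now take `u < q < v` interior points of the leg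
(`Den.level`). The three points `u, q, v` lie in `A ∪ B`, so two of them are in the same class and there is
a homeomorphism `h` mapping one to the other; `h p = h (e ·) = e (h ·) = p`, so `h ∈ Stab {p}`,
`h q = q`. `h u = q` or `h q = v` or `h q = u`, `h v = q` contradict injectivity; `h u = v` contradicts
`h u ≤ h q = q < v`; `h v = u` similarly. The second statement is the same with `sInf`. -/
def S_UNB : Prop :=
  ∀ (X : Type) [MetricSpace X] [CompactSpace X] (t : X) (s : X → ℝ) (e : X → X) (A B : Set X),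
    Setup X t s e A B → ∀ p ∈ Ends t e, ∀ x y, x ∈ J t p → x ≠ t → x ≠ p → y ∈ J t p → y ≠ t →
      y ≠ p → (∃ g ∈ Stab ({p} : Set X), y ∈ J t (g x)) ∧ (∃ g ∈ Stab ({p} : Set X), g x ∈ J t y)

/-- OSC (oscillation count): in every fan some end is not in `N t t`.
Proof. Suppose `e x ∈ N t t` for all `x ≠ t`. Fix an end `p` and the point `x₀` of `J t p` at height
`s p / 2`, and `δ > 0` with `4 δ < dist x₀ t`, `2 δ < dist x₀ p`. Let
`I = {x | ∃ w, x ∈ J t w ∧ 2 δ < dist x w}`, and let `O k` be the set of `x` for which there is a chain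
`c 0 ≤ c 1 ≤ … ≤ c k ≤ x` (`c i ∈ J t (c (i+1))`, `c k ∈ J t x`) with `δ < dist (c i) (c (i+1))` for
`i < k`.
(a) `O k` is open: if `x_n → x ∈ O k`, use `Den.lsc` successively to get `c_n k → c k` in `J t (x_n)`,
`c_n (k-1) → c (k-1)` in `J t (c_n k)`, ...; for large `n` this is a chain. (State as: for every `k`, chain
`c` with top `c k`, and every sequence `y_n → c k`, eventually `y_n` is the top of a chain of length `k`;
induction on `k`.)
(b) every `x` has a `k` with `x ∉ O k`: with `a` the arc parametrisation (`Den.arc`) of `J t x`, uniformly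
continuous on `[0, s x]`, there is `η > 0` such that points of `J t x` with heights at distance `≤ η` are at
distance `≤ δ`; the heights along a chain increase by more than `η` at each step, so `k η < s x`.
(c) STEP: if `x ∈ I ∩ O k` and `3 δ < dist x t` then there are `x' ` arbitrarily close to `x` with
`x' ∈ I ∩ O (k+1)`. Proof: `x ≠ t`; let `w` with `x ≤ w`, `2 δ < dist x w`, `q = e x = e w`. Increase `k` to
the maximal `k` with `x ∈ O k` (exists by (b)), with chain `c 0 … c k ≤ x`. Then `dist (c k) x ≤ δ` (else the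
chain `c 0, …, c k, x` shows `x ∈ O (k+1)`). So `dist (c k) w > δ` and `c 0, …, c k, w` is a chain of
length `k+1` with top `w`. By assumption `q ∈ N t t`: `u_n → t`, `v_n ≤ u_n`, `v_n → q` (`Den.mem_N_iff`).
`Den.lsc` (`w ≤ q`): `w_n ≤ v_n`, `w_n → w`. `Den.btw'` (`x ∈ Ic t t q`): `x_n ∈ Ic t (v_n) (u_n)`,
`x_n → x`. Then `w_n ≤ v_n ≤ x_n ≤ u_n`; `dist x_n u_n → dist x t > 2 δ` so `x_n ∈ I`; by (a) for large `n`
`w_n` is the top of a chain of length `k+1`, and `dist w_n x_n → dist w x > δ`, so `x_n ∈ O (k+2)`.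
(`O` is decreasing in `k`: drop the first elements of the chain.)
(d) Starting from `x₀ ∈ I ∩ O 0`, choose inductively `x_k ∈ I ∩ O k` and radii `ρ_k > 0` with
`closedBall x_k ρ_k ⊆ O k ∩ {dist · t > 3 δ}` and `closedBall x_{k+1} ρ_{k+1} ⊆ closedBall x_k ρ_k`. By
compactness there is a point in all balls, it is in all `O k`: contradiction with (b). -/
def S_OSC : Prop :=
  ∀ (X : Type) [MetricSpace X] [CompactSpace X] (t : X) (s : X → ℝ) (e : X → X), Fan X t s e →
    ∃ x, x ≠ t ∧ e x ∉ N t t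

/-- N2: `N t t = {t}`. Suppose `w ∈ N t t`, `w ≠ t`. If `e w = w`: by `S_OSC` there is `x ≠ t` with
`e x ∉ N t t`, by `Setup.Eorb` a homeomorphism `h` with `h (e w) = e x`, and
`e x = h w ∈ N t (h t) = N t t` (`N_img`, `Fan.fix`): contradiction. If `e w ≠ w`, put `p = e w`. For every
`n` there is (`S_UNB`) `g_n ∈ Stab {p}` with `g_n w ≥ y_n`, `y_n ∈ J t p` of height
`s p (1 - 1/(n+2))`; `g_n w ∈ J t p` and `s (g_n w) → s p`, so `g_n w → p` (arc parametrisation
`Den.arc`), `g_n w ∈ N t t`, closed (`Den.N_closed`), so `p ∈ N t t`, the first case. -/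
def S_N2 : Prop :=
  ∀ (X : Type) [MetricSpace X] [CompactSpace X] (t : X) (s : X → ℝ) (e : X → X) (A B : Set X),
    Setup X t s e A B → NTriv t

/-- N3: `N(t) = {t}` implies upper semicontinuity of legs. Suppose `x_n → x0 ≠ t`, `w_n ∈ J t (e (x_n))`,
`w_n → w0 ∉ J t (e x0)`. Then `w0 ≠ t` and `e w0 ≠ e x0` (`Fan.mem_leg_iff`), so
`J t w0 ∩ J t x0 ⊆ {t}` (`Fan.diff`). `x_n` and `w_n` both lie on `J t (e (x_n))`, so they are comparable
(`Den.total`). If `w_n ≤ x_n` for infinitely many `n`, pass to a subsequence; `Den.btw_t` gives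
`u_n ∈ Ic t (w_n) (x_n)`, `u_n → t`, so `w0 ∈ N t t` (`Den.mem_N_iff`: `w_n ∈ J t (u_n)`), `w0 = t`,
contradiction. Otherwise `x_n ≤ w_n` for infinitely many `n`, the same gives `x0 ∈ N t t`, `x0 = t`. -/
def S_N3 : Prop :=
  ∀ (X : Type) [MetricSpace X] [CompactSpace X] (t : X) (s : X → ℝ) (e : X → X), Fan X t s e →
    NTriv t → LegUsc t e

/-- N4: Suppose `p ∈ Ends`, `p ∈ N t x`, `x ≠ p`. `x = t` is impossible (`NTriv`). If `e x ≠ p`
(`= e p`): `u_n → x`, `v_n ≤ u_n`, `v_n → p` (`Den.mem_N_iff`), `Fan.diff`, `Den.btw_t`: `z_n → t`,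
`v_n ≤ z_n`, so `p ∈ N t t`, contradiction. If `e x = p`, `x` is an interior point of the leg `J t p`:
by `S_UNB` there are `g_n ∈ Stab {p}` with `g_n x ≤ y_n`, `y_n` of height `s p / (n+2)`, so
`s (g_n x) → 0`, `g_n x → t` (arc parametrisation), `p = g_n p ∈ N t (g_n x)` (`N_img`), so `p ∈ N t t`
(`Den.N_lim`), contradiction. -/
def S_N4 : Prop :=
  ∀ (X : Type) [MetricSpace X] [CompactSpace X] (t : X) (s : X → ℝ) (e : X → X) (A B : Set X),
    Setup X t s e A B → NTriv t → NEnd t e

/-- MEA: a set that is nonmeager in `X` is nonmeager in itself. If `univ : Set O` is meager in the subtype,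
it is a countable union of nowhere dense sets of `O`; the image in `X` of a nowhere dense subset `Z` of `O`
is nowhere dense in `X`: if an open `W` is contained in `closure (Z)` (nonempty), then `W` meets `Z ⊆ O`
and `W ∩ O ⊆ closure Z ∩ O` which is the closure of `Z` in `O`: contradiction. (`IsMeagre` is defined by
`sᶜ ∈ residual`; use `isMeagre_iff_countable_union_isNowhereDense`.) -/
def S_MEA : Prop :=
  ∀ (X : Type) [TopologicalSpace X] (O : Set X), IsMeagre (Set.univ : Set O) → IsMeagre O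

/-- CLE: if the orbit `A` has the Effros property then the ends accumulate only at ends and at `t`.
Proof. Write `E = Ends t e`; `closure E` is invariant under homeomorphisms.
(α) No point `w ∈ A` is in `closure E`. Let `q_n ∈ E`, `q_n → w ∈ A`. `A` meets every leg (`Setup.Eorb`,
`Ainv`) and by `S_UNB` there are points `a_n ∈ A ∩ J t (q_n)` with `dist (a_n) (q_n) < 1/(n+1)` (the
orbit of a point of `A` in the leg under `Stab {q_n}` has heights tending to `s (q_n)`). So
`a_n → w`, and by the Effros property at `w` for every `ε > 0` for all large `n`: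
`a_n = g w` with `near g ε`; `q_n = e (a_n) = g (e w)`, so `dist (q_n) (e w) < ε`. So `q_n → e w`, and
`w = e w`: contradiction (`A ⊆ Int`).
(β) Suppose `x ∈ closure E`, `x ≠ t`, `e x ≠ x`. By (α) `x ∈ B`; by homogeneity of `B`,
`B ⊆ closure E`. Let `p = e x` and let `L° ` be the interior of the leg `J t p` (`≠ t, p`). `B ∩ L°` is
closed in `L°` (it is `L° ∩ closure E` by (α)), `A ∩ L°` is open in `L°`, both nonempty. `A ∩ L°` is
dense in `L°`: otherwise some `b' ∈ B ∩ L°` has a neighbourhood in `L°` contained in `B`; since `L°` is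
connected (it is the image of `Ioo 0 (s p)` under the arc parametrisation), the closed set `B ∩ L°` has a
boundary point `b ∈ B ∩ L°`, a limit of points of `A ∩ L°`; a homeomorphism `h` with `h b' = b` fixes `p`
and maps the neighbourhood of `b'` to a neighbourhood of `b` in `L°` contained in `B`: contradiction.
By `Eorb` `A` is dense in the interior of every leg. Now let `q_n ∈ E`, `q_n → x` and pick `a ∈ A` with
`a ≤ x`, `a ≠ x` (density). `Den.lsc`: `y_n ≤ q_n`, `y_n → a`; by density of `A` in the leg of `q_n` pick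
`a_n ∈ A ∩ J t (q_n)` with `dist (a_n) (y_n) < 1/(n+1)` (for large `n` `y_n ≠ t`; a point of the closed leg
is a limit of interior points of the leg), so `a_n → a`; by the Effros property at `a` as in (α)
`q_n → e a = e x ≠ x`: contradiction. -/
def S_CLE : Prop :=
  ∀ (X : Type) [MetricSpace X] [CompactSpace X] (t : X) (s : X → ℝ) (e : X → X) (A B : Set X),
    Setup X t s e A B → (∀ a ∈ A, Eff (∅ : Set X) a) → Case1 t e

/-- CAT: the orbit of ends has the Effros property. Write `E = Ends t e`; for `p ∈ E`,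
`Orb ∅ p = E` (`Eorb`, `e_homeo`), similarly `Orb ∅ a = A` for `a ∈ A`. By `S_EFF1, S_EFF2` it suffices
that `E` is not meager in itself. If `A` is not meager in `X`, it is not meager in itself (`S_MEA`),
so `A` has the Effros property and `Case1` holds by `S_CLE`; the same for `B` (use the symmetric setup,
exchange `A` and `B`). If `Case1` holds: `E = closure E \ {t}` is open in the compact set `closure E`,
so `E` is locally compact Hausdorff (`IsOpen.locallyCompactSpace`-type instance / `IsLocallyClosed`),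
nonempty, so Baire, so `univ : Set E` is not meager. If `A` and `B` are both meager in `X`: `{t}` is closed
with empty interior (`t` is not isolated: points of small height on a leg), so nowhere dense; if `E` were
meager in `X`, then `X = {t} ∪ E ∪ A ∪ B` would be meager, contradicting Baire for the compact
nonempty `X`; so `E` is not meager in `X`, hence not in itself by `S_MEA`. -/
def S_CAT : Prop :=
  ∀ (X : Type) [MetricSpace X] [CompactSpace X] (t : X) (s : X → ℝ) (e : X → X) (A B : Set X),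
    Setup X t s e A B → EffE t e

/-- C1A: in case 1 the height and the end map are continuous. Let `x_n → x ≠ t`. `e (x_n) → e x`: by
`tendsto_of_sub` let `e (x_{φ n}) → v`. `v ∈ closure (Ends)`, so `v = t` or `v ∈ Ends` (`Case1`).
`v = t` would give `x ∈ N t t` (`x_{φ n} ∈ J t (e (x_{φ n}))`), `x = t`. So `v ∈ Ends`, and by `LegUsc`
(`w n = e (x_{φ n})`) `v ∈ J t (e x)`, so `v = e x` (`Fan.eq_of_e_eq_self`). By `EffE` at `e x`: for every
`ε > 0` for all large `n` `e (x_n) = g (e x)` with `near g ε`; put `y = g⁻¹ x_n ∈ J t (e x)`,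
`dist y (x_n) < ε`, `J t (x_n) = g '' J t y`. So `y_n → x` inside the arc `J t (e x)`, where `s` is
continuous: `s (y_n) → s x`; and `|s (x_n) - s (y_n)|` is small by `s_unif` (`J t (x_n)` and `J t (y_n)`
are within `ε` of each other). At `t`: `x_n → t`; `s (x_n) → 0`: by `s_unif` (applied to `x = x_n`,
`y = t`, `J t t = {t}`) it suffices that for every `δ`, `J t (x_n) ⊆ ball t δ` eventually: otherwise
`w_n ≤ x_n` (subsequence) with `dist (w_n) t ≥ δ`, a further subsequence converges to `w ∈ N t t`,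
`w ≠ t`: contradiction. -/
def S_C1A : Prop :=
  ∀ (X : Type) [MetricSpace X] [CompactSpace X] (t : X) (s : X → ℝ) (e : X → X) (A B : Set X),
    Basic X t s e A B → Case1 t e → Continuous s ∧ ∀ x, x ≠ t → ContinuousAt e x

/-- C1B: if the height is continuous and the end map is continuous off `t`, then any two interior points of
the same leg are equivalent. Proof. `σ x = s x / s (e x) ∈ (0,1]` for `x ≠ t`, continuous there,
`σ x < 1` for interior points. For `κ > 0` let `Ψ_κ x` (`x ≠ t`) be the point of `J t (e x)` of height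
`s (e x) * (σ x)^κ` (`Den.level`, unique by `s_inj`), `Ψ_κ t = t`. `Ψ_κ` and `Ψ_{1/κ}` are inverse to
each other (`e (Ψ_κ x) = e x`). Continuity at `x ≠ t`: `x_n → x`, and let `Ψ_κ (x_{φ n}) → y`
(`tendsto_of_sub`); by `LegUsc` `y ∈ J t (e x)`, and `s y = lim s (Ψ_κ (x_{φ n})) =
lim s (e (x_{φ n})) σ^κ = s (Ψ_κ x)`, so `y = Ψ_κ x` (`s_inj`). Continuity at `t`: `x_n → t`,
`Ψ_κ (x_{φ n}) → y`; if `y ≠ t` then by continuity of `Ψ_{1/κ}` at `y`, `x_{φ n} → Ψ_{1/κ} y ≠ t`:
contradiction. Given interior points `x, y` of one leg, `κ = log (σ y) / log (σ x) > 0` gives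
`Ψ_κ x = y`. -/
def S_C1B : Prop :=
  ∀ (X : Type) [MetricSpace X] [CompactSpace X] (t : X) (s : X → ℝ) (e : X → X), Fan X t s e →
    LegUsc t e → Continuous s → (∀ x, x ≠ t → ContinuousAt e x) →
    ∀ x y, x ≠ t → y ≠ t → e x ≠ x → e y ≠ y → e x = e y → ∃ h : X ≃ₜ X, h x = y

/-- HCJ: convergence of arcs. If `u_n → x` then a subsequence of the arcs `J t (u_n)` converges to an arc
`J t w` with `x ≤ w ∈ N t x`. Proof. By compactness of the space of nonempty compact subsets
(`NonemptyCompacts X`, Hausdorff distance) a subsequence of `J t (u_n)` converges to a nonempty compact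
`K`; `HC` follows (Hausdorff distance `< ε`: `hausdorffDist`, both inclusions in thickenings). `K` equals
`Ls` of the subsequence, so it is connected (`Ls_conn` with the constant points `t`), contains `t` and
`x` (`mem_Ls_of_tendsto`), and `K ⊆ N t x`. If `x ≠ t`: by `LegUsc` `K ⊆ J t (e x)`, so `K` is a closed
connected subset of the arc `J t (e x)` containing `t`; with `w ∈ K` of maximal height (`s` is continuous
on `J t (e x)`), `K = J t w`: `J t w ⊆ K` by `J_min`, and `v ∈ K` has `s v ≤ s w`, so `v ≤ w` by `s_le`.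
If `x = t`: `K ⊆ N t t = {t}`, `w = t`. -/
def S_HCJ : Prop :=
  ∀ (X : Type) [MetricSpace X] [CompactSpace X] (t : X) (s : X → ℝ) (e : X → X), Fan X t s e →
    NTriv t → LegUsc t e → ∀ (u : ℕ → X) (x : X), Tendsto u atTop (𝓝 x) →
      ∃ (φ : ℕ → ℕ) (w : X), StrictMono φ ∧ x ∈ J t w ∧ w ∈ N t x ∧
        HC (fun n => J t (u (φ n))) (J t w)

/-- NID: near-identity sequences cutting the leg. Not case 1: there is `x₀ ∈ closure (Ends)`, `x₀ ≠ t`,
`e x₀ ≠ x₀`. Let `h (e x₀) = p` (`Eorb`); `x₁ = h x₀ ∈ closure (Ends)` is an interior point of the leg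
`J t p`. Let `δ` be from the Effros property of `p` for `ε`. By `S_UNB` some `g ∈ Stab {p}` moves `x₁`
to `x = g x₁` with height so close to `s p` that `dist x p < δ` (arc parametrisation). Also
`x ∈ closure (Ends)`: `q_n → x`, `q_n ∈ Ends`, `dist (q_n) p < δ`; so `q_n = h_n p` with `near (h_n) ε`
(`Orb ∅ p = Ends`). `h_n '' J t p = J t (q_n)` (`img`). By `S_HCJ` a subsequence converges to `J t w`,
`x ≤ w ∈ N t x`. `w ≠ t` since `x ≠ t`. `w ∈ J t p` by `LegUsc` (`w` is a limit of points of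
`J t (q_n)`, `e (q_n) = q_n`, `e x = p`). `w ≠ p` by `NEnd` (`x ≠ p`). -/
def S_NID : Prop :=
  ∀ (X : Type) [MetricSpace X] [CompactSpace X] (t : X) (s : X → ℝ) (e : X → X) (A B : Set X),
    Basic X t s e A B → ¬ Case1 t e → ∀ p ∈ Ends t e, ∀ ε > 0, ∃ (h : ℕ → X ≃ₜ X) (w : X),
      (∀ n, near (h n) ε) ∧ w ∈ J t p ∧ w ≠ t ∧ w ≠ p ∧ HC (fun n => h n '' J t p) (J t w)

/-- SUB: subsequences for further points of the leg. If `h_n '' J t p → J t w` and `x ∈ J t p`, then for a
subsequence `h_n '' J t x = J t (h_n x)` converges to some `J t u` with `u ≤ w`: take a subsequence with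
`h_n x` convergent (`sub_conv`), apply `S_HCJ`; `J t (h_n x) ⊆ h_n '' J t p`, so `J t u ⊆ J t w` (closed). -/
def S_SUB : Prop :=
  ∀ (X : Type) [MetricSpace X] [CompactSpace X] (t : X) (s : X → ℝ) (e : X → X), Fan X t s e →
    NTriv t → LegUsc t e → ∀ (p w x : X) (h : ℕ → X ≃ₜ X), HC (fun n => h n '' J t p) (J t w) →
      x ∈ J t p → ∃ (φ : ℕ → ℕ) (u : X), StrictMono φ ∧ u ∈ J t w ∧
        HC (fun n => h (φ n) '' J t x) (J t u)

/-- NSM: near-identity sequences move heights little: for `η > 0` there is `ε > 0` such that if all `h_n` are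
`near ε` and `h_n '' J t x → J t u` then `|s u - s x| < η`. Take `δ` from `s_unif` for `η/2`, `ε = δ/3`:
`J t u ⊆ thickening ε (h_n '' J t x) ⊆ thickening (2 ε) (J t x)` and conversely. -/
def S_NSM : Prop :=
  ∀ (X : Type) [MetricSpace X] [CompactSpace X] (t : X) (s : X → ℝ), Den X t s →
    ∀ η > 0, ∃ ε > 0, ∀ (h : ℕ → X ≃ₜ X), (∀ n, near (h n) ε) → ∀ x u : X,
      HC (fun n => h n '' J t x) (J t u) → |s u - s x| < η

/-- an expansion of the leg of `p` -/
structure Expand {X : Type} [MetricSpace X] (t p : X) (h : ℕ → X ≃ₜ X) (w x₁ x₂ y₁ y₂ : X) :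
    Prop where
  w_mem : w ∈ J t p
  w_ne : w ≠ p
  w_ne' : w ≠ t
  x₂_mem : x₂ ∈ J t p
  x₁_le : x₁ ∈ J t x₂
  x_ne : x₁ ≠ x₂
  y₁_le : y₁ ∈ J t x₁
  y₂_ge : x₂ ∈ J t y₂
  hw : HC (fun n => h n '' J t p) (J t w)
  h₁ : HC (fun n => h n '' J t x₁) (J t y₁)
  h₂ : HC (fun n => h n '' J t x₂) (J t y₂)

/-- LXA (iteration). From an expansion: homeomorphisms `H_k`, an end `q`, a point `y ∈ J t q`, `ρ > 0` with
`H_k '' J t p → J t q`, `H_k '' J t w → J t q`, and all points of `H_k '' J t x₁` at distance `≥ ρ`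
from `y`.
Proof. `ρ₀ = infDist x₂ (J t x₁) > 0` (closed; `x₂ ∉ J t x₁` by `anti`). Construct `H_0 = id`,
`H_{k+1} = H_k ∘ h_{n_k}` (first `h_{n_k}`, then `H_k`), positive numbers `ρ_k, ε_k`. Write
`L_k = H_k '' J t p = J t (H_k p)`, a leg. 
`ρ_k`: by `LegUsc` and compactness there is `ρ_k > 0` such that for all `v ∈ L_k` with
`dist v t ≥ 2^{-k}` and all `x'` with `dist x' v < ρ_k`: `J t (e x') ⊆ thickening (2^{-k}) L_k`. (Otherwise
`v_j ∈ L_k`, `x'_j`, `w_j ∈ J t (e (x'_j))` with `dist (x'_j) (v_j) → 0`,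
`infDist (w_j) L_k ≥ 2^{-k}`; subsequences `v_j → v ∈ L_k`, `v ≠ t`, `x'_j → v`, `w_j → w'`;
`LegUsc`: `w' ∈ J t (e v) = L_k`: contradiction.)
`ε_k = min (2^{-k} ρ₀/16) (min_{j ≤ k} 2^{-k-3} ρ_j)`, so that `r_k := Σ_{j ≥ k} ε_j ≤ ρ_k / 4`,
`r_0 ≤ ρ₀/8`. `n_k`: let `η` be such that `dist a b < η → dist (H_k a) (H_k b) < ε_k`, and choose
`n_k` with the three Hausdorff closenesses `< η` at `n = n_k`. So (all within `ε_k`):
(a) `L_{k+1}` vs `H_k '' J t w`, (b) `H_{k+1} '' J t x₁` vs `H_k '' J t y₁ ⊆ H_k '' J t x₁`,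
(c) `H_{k+1} '' J t x₂` vs `H_k '' J t y₂ ⊇ H_k '' J t x₂`.
Consequences (for `k' ≥ k`): `L_{k'} ⊆ thickening r_k L_k` (as `H_k '' J t w ⊆ L_k`; use closed or
slightly larger thickenings), `H_k '' J t x₁ ⊆ thickening (ρ₀/8) (J t x₁)`, and
`x₂ ∈ thickening (ρ₀/8) (H_k '' J t x₂) ⊆ thickening (ρ₀/8) L_k`. Choose `v_k ∈ L_k` with
`dist (v_k) x₂ < ρ₀/8` and a subsequence `v_{ψ k} → y`; `dist y x₂ ≤ ρ₀/8`, `y ≠ t` since
`dist x₂ t ≥ ρ₀` (`t ∈ J t x₁`). Let `q = e y`, an end.
(1) for all large `k`, `J t q ⊆ thickening (2^{-k}) L_k`: choose `k' = ψ j ≥ k` with `dist (v_{k'}) y`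
`< ρ_k/2`; some `v ∈ L_k` has `dist v (v_{k'}) < ρ_k / 2`; so `dist v y < ρ_k`, and `dist v t ≥ 2^{-k}` for
large `k` (take `ρ_k ≤ 2^{-k}` too). Apply the choice of `ρ_k` with `x' = y`.
(2) for all `ε`, eventually `L_k ⊆ thickening ε (J t q)`: otherwise there are `w_k ∈ L_k` (subsequence) with
`infDist (w_k) (J t q) ≥ ε`, convergent to `w'`; by (1) there are `v'_k ∈ L_k`, `v'_k → y`,
`v'_k ≠ t`, `e (v'_k) = H_k p`, so `w_k ∈ J t (e (v'_k))`, and `LegUsc` gives `w' ∈ J t (e y) = J t q`:
contradiction. So `H_k '' J t p → J t q`, and by (a) `H_k '' J t w → J t q`.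
(3) a point `u ∈ H_k '' J t x₁` has `infDist u (J t x₁) < ρ₀/8`, so
`dist u y ≥ infDist x₂ (J t x₁) - ρ₀/8 - ρ₀/8 = 3ρ₀/4 =: ρ`. And `y ∈ J t q`. -/
def S_LXA : Prop :=
  ∀ (X : Type) [MetricSpace X] [CompactSpace X] (t : X) (s : X → ℝ) (e : X → X), Fan X t s e →
    LegUsc t e → ∀ p ∈ Ends t e, ∀ (h : ℕ → X ≃ₜ X) (w x₁ x₂ y₁ y₂ : X),
      Expand t p h w x₁ x₂ y₁ y₂ → ∃ (H : ℕ → X ≃ₜ X) (q y : X) (ρ : ℝ), q ∈ Ends t e ∧
        y ∈ J t q ∧ 0 < ρ ∧ HC (fun k => H k '' J t p) (J t q) ∧
        HC (fun k => H k '' J t w) (J t q) ∧ ∀ k, ∀ u ∈ H k '' J t x₁, ρ ≤ dist u y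

/-- LXB (correction by the Effros property). From the conclusion of `S_LXA` get elements of `Stab {p}` that
move `w` to `p` in the limit but keep `x₁` below a fixed point.
Proof. `H_k p → q`: by `HC` there are `w_k ∈ J t (H_k p)` with `w_k → q`; `w_k ≠ t` for large `k`,
`e (w_k) = H_k p`; by `tendsto_of_sub`: if `H_{φ k} p → y'` then `q ∈ N t y'`
(`w_{φ k} ∈ J t (H_{φ k} p)`), so `y' = q` by `NEnd`. By `EffE` at `q` (and `Orb ∅ q` contains
`H_k p = (H_k ∘ h_∞⁻¹) q`) there are `g_k` with `g_k q = H_k p` for large `k` and, for every `ε > 0`,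
`near (g_k) ε` for all large `k`. Let `h_∞ p = q` (`Eorb`). `γ_k = h_∞⁻¹ ∘ g_k⁻¹ ∘ H_k` (first `H_k`)
fixes `p`. `J t (γ_k w) = h_∞⁻¹ g_k⁻¹ (H_k '' J t w) → h_∞⁻¹ (J t q) = J t p` (HC is preserved by
near-identity maps and by the uniformly continuous `h_∞⁻¹`), and `γ_k w ∈ J t p`; so there are
`u_k ≤ γ_k w` with `u_k → p`, `s (u_k) → s p` (`s` continuous on `J t p`), so `s (γ_k w) → s p` and
`γ_k w → p` (arc parametrisation). If `s (γ_k x₁)` had a subsequence converging to `s p`, then
`γ_k x₁ → p` along it; let `z = h_∞⁻¹ y ∈ J t p`; `Den.lsc` gives `z_k ≤ γ_k x₁` with `z_k → z`, and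
`g_k (h_∞ z_k) ∈ H_k '' J t x₁` converges to `h_∞ z = y`: contradiction with `ρ ≤ dist`. So there are
`c < s p` and `K` with `s (γ_k x₁) ≤ c` for `k ≥ K`; take `y' ∈ J t p` with `s y' = max c 0` (it is
`≠ p`) and shift the sequence by `K`. -/
def S_LXB : Prop :=
  ∀ (X : Type) [MetricSpace X] [CompactSpace X] (t : X) (s : X → ℝ) (e : X → X) (A B : Set X),
    Basic X t s e A B → ∀ p ∈ Ends t e, ∀ (w x₁ : X), w ∈ J t p → x₁ ∈ J t p →
      ∀ (H : ℕ → X ≃ₜ X) (q y : X) (ρ : ℝ), q ∈ Ends t e →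
        y ∈ J t q → 0 < ρ → HC (fun k => H k '' J t p) (J t q) →
        HC (fun k => H k '' J t w) (J t q) → (∀ k, ∀ u ∈ H k '' J t x₁, ρ ≤ dist u y) →
      ∃ (γ : ℕ → X ≃ₜ X) (y' : X), (∀ k, γ k ∈ Stab ({p} : Set X)) ∧
        Tendsto (fun k => γ k w) atTop (𝓝 p) ∧ y' ∈ J t p ∧ y' ≠ p ∧ ∀ k, γ k x₁ ∈ J t y'

/-- LX = LXA + LXB. -/
def S_LX : Prop :=
  ∀ (X : Type) [MetricSpace X] [CompactSpace X] (t : X) (s : X → ℝ) (e : X → X) (A B : Set X),
    Basic X t s e A B → ∀ p ∈ Ends t e, ∀ (h : ℕ → X ≃ₜ X) (w x₁ x₂ y₁ y₂ : X),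
      Expand t p h w x₁ x₂ y₁ y₂ →
      ∃ (γ : ℕ → X ≃ₜ X) (y' : X), (∀ k, γ k ∈ Stab ({p} : Set X)) ∧
        Tendsto (fun k => γ k w) atTop (𝓝 p) ∧ y' ∈ J t p ∧ y' ≠ p ∧ ∀ k, γ k x₁ ∈ J t y'

/-- both classes are dense in the leg of `p` -/
def DD {X : Type} [MetricSpace X] (t p : X) (A B : Set X) : Prop :=
  ∀ x y, y ∈ J t p → x ∈ J t y → x ≠ y → (A ∩ Ic t x y).Nonempty ∧ (B ∩ Ic t x y).Nonempty

/-- `M` is discrete in the open leg of `p` -/
def ZT {X : Type} [MetricSpace X] (t p : X) (M : Set X) : Prop :=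
  ∀ x y, y ∈ J t p → y ≠ p → x ≠ t → (M ∩ Ic t x y).Finite

/-- CLS (dichotomy). Let `L°` be the open leg (`v ∈ J t p`, `v ≠ t, p`), `A_L = A ∩ L°`, `B_L = B ∩ L°`: they
partition `L°`; each is one orbit of `G_p = Stab {p}` (a homeomorphism mapping one point of `L°` to
another fixes `p`), both nonempty, and both unbounded in both directions (`S_UNB`). `L°` is order
isomorphic and homeomorphic to `Ioo 0 (s p)` by the height. The closure of `A_L` in `L°` is
`G_p`-invariant, so it is `A_L` or `L°`; same for `B_L`. If both closures are `L°`: `DD` (every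
nondegenerate interval `Ic t x y` contains a nondegenerate open interval of `L°`). Otherwise say `A_L` is
closed in `L°`, not everything (the other case is symmetric); `B_L` is open. Claim `ZT t p A`. Pick
`b ∈ B_L`; `a = max {a' ∈ A_L | a' ≤ b}` and `a⁺ = min {a' ∈ A_L | b ≤ a'}` exist (closed, unbounded,
in terms of heights). No point of `A_L` is strictly between `a` and `a⁺`. So `a` is isolated in `A_L`
from above and `a⁺` from below. By homogeneity (elements of `G_p` preserve the order and `A_L`) every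
point of `A_L` is isolated in `A_L` from both sides. So `A_L` is a closed discrete subset of `L°`, and its
intersection with the compact interval `Ic t x y ⊆ L°` (`x ≠ t`, `y ≠ p`, `y ∈ J t p`) is finite (an
infinite subset of a compact set has an accumulation point, which lies in `A_L`, not isolated:
contradiction). -/
def S_CLS : Prop :=
  ∀ (X : Type) [MetricSpace X] [CompactSpace X] (t : X) (s : X → ℝ) (e : X → X) (A B : Set X),
    Setup X t s e A B → ∀ p ∈ Ends t e, DD t p A B ∨ ZT t p A ∨ ZT t p B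

/-- ZZ: the discrete case is impossible (outside case 1). Stated for `ZT t p A`; for `B` use the symmetric
setup. Write `≤` for the order of the leg `J t p`. `A` is unbounded in the open leg (`S_UNB`); fix
`q ∈ A`, `q ∈ J t p`. Since `A ∩ Ic` is finite on compact intervals, there are `x₁, x₂ ∈ J t p`,
`t < x₁ < q < x₂ < p` and `η > 0` such that `q` is the only point of `A` in the leg with height in
`[s x₁ - η, s x₂ + η] ⊆ (0, s p)`; in particular all points of the leg with heights in
`[s x₁ - η, s x₁ + η]` or `[s x₂ - η, s x₂ + η]` (we may take `η` small) are in `B` and `q` is the least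
point of `A` above each of the former and the greatest point of `A` below each of the latter.
Take `ε` from `S_NSM` for `η`, a near-identity sequence `h_n` from `S_NID` with `w`, and pass to
subsequences (`S_SUB` three times) such that `h_n '' J t x₁ → J t u₁`, `h_n '' J t q → J t v`,
`h_n '' J t x₂ → J t u₂`, with `|s u₁ - s x₁| < η`, `|s u₂ - s x₂| < η`, `u₁, v, u₂ ≤ w ≤ p`.
Case `q ≤ v`: `u₁, x₁ ∈ B`, so there is `g` with `g u₁ = x₁`, `g p = p`; `g` preserves order and `A`, so it
maps the least element of `A` above `u₁` to the least element of `A` above `x₁`: `g q = q`. Then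
`(g ∘ h_n, g w, x₁, q, x₁, g v)` is an expansion: `g h_n '' J t x₁ → g '' J t u₁ = J t x₁`,
`g h_n '' J t q → J t (g v)`, `q = g q ≤ g v`, `g h_n '' J t p → J t (g w)`.
Case `v ≤ q`: `g u₂ = x₂`, `g p = p`, `g q = q` (greatest element of `A` below): the expansion
`(g ∘ h_n, g w, q, x₂, g v, x₂)`, `g v ≤ g q = q`.
In both cases `S_LX` gives `γ_k ∈ G_p` with `γ_k w' → p` (`w' = g w`) and `γ_k z ≤ y'` for all `k`, where
`z = x₁` or `q`, `y' ≠ p`. `γ_k` maps `A ∩ Ic t z w'` bijectively onto `A ∩ Ic t (γ_k z) (γ_k w')` (if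
`w' ≤ z` then `γ_k w' ≤ γ_k z ≤ y'`, contradicting `γ_k w' → p`), so the latter has `m` elements for all
`k`, `m` the cardinality of the former (finite by `ZT`, `z ≠ t`, `w' ≠ p`). But there are `m+1` points of
`A` in the leg strictly above `y'` (unboundedness: `S_UNB`), and for large `k` they are all
`≤ γ_k w'` (heights: `s (γ_k w') → s p`) and `≥ y' ≥ γ_k z`: contradiction. (HC under a fixed
homeomorphism `g` is preserved by uniform continuity.) -/
def S_ZZ : Prop :=
  ∀ (X : Type) [MetricSpace X] [CompactSpace X] (t : X) (s : X → ℝ) (e : X → X) (A B : Set X),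
    Basic X t s e A B → ¬ Case1 t e → ∀ p ∈ Ends t e, ZT t p A → False

/-- no expansions -/
def NE {X : Type} [MetricSpace X] (t p : X) : Prop :=
  ∀ (h : ℕ → X ≃ₜ X) (w x₁ x₂ y₁ y₂ : X), ¬ Expand t p h w x₁ x₂ y₁ y₂

/-- NZ: for `x ≠ t`, `N t x = J t z` with `x ≤ z ≤ e x`, and `z ≠ e x` unless `x` is an end.
`N t x` is closed (`Den.N_closed`), contained in `J t (e x)` (`Den.mem_N_iff` and `LegUsc`, with
`v_n ∈ J t (u_n) ⊆ J t (e (u_n))`); let `z ∈ N t x` have maximal height. `J t z ⊆ N t x` by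
`Den.N_down`; if `w ∈ N t x` then `s w ≤ s z`, both in `J t (e x)`, so `w ∈ J t z`. `x ∈ N t x`. If
`z = e x` then `e x ∈ N t x`, so `x = e x` by `NEnd`. -/
def S_NZ : Prop :=
  ∀ (X : Type) [MetricSpace X] [CompactSpace X] (t : X) (s : X → ℝ) (e : X → X) (A B : Set X),
    Basic X t s e A B → ∀ x, x ≠ t → ∃ z, N t x = J t z ∧ x ∈ J t z ∧ z ∈ J t (e x) ∧
      (z = e x → x = e x)

/-- NMON: `N` is monotone: `x ≤ y` implies `N t x ⊆ N t y`. Let `w ∈ N t x`. If `x = t` then `w = t`
(`NTriv`). Otherwise `w ∈ J t (e x)`, `y ∈ J t (e x)` (`e y = e x`), so `w ≤ y` (then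
`w ∈ J t y ⊆ N t y`) or `y ≤ w`; then `y ∈ Ic t x w`; with `u_n → x`, `v_n ≤ u_n`, `v_n → w`
(`Den.mem_N_iff`), `Den.btw'` gives `z_n ∈ Ic t (v_n) (u_n)`, `z_n → y`, so `w ∈ N t y`. -/
def S_NMON : Prop :=
  ∀ (X : Type) [MetricSpace X] [CompactSpace X] (t : X) (s : X → ℝ) (e : X → X) (A B : Set X),
    Basic X t s e A B → ∀ x y, x ∈ J t y → N t x ⊆ N t y

/-- NS: in the dense case, if the fan is not smooth there are no expansions. Let `z(x)` be from `S_NZ`
(unique: `J t z` determines `z` by `anti`). It is equivariant: `z (g x) = g (z x)` (`N_img_iff`, `img`),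
and monotone on the leg (`S_NMON`), and `x ≤ z x < p` for interior points `x` of the leg `J t p`. By
hypothesis `N t x₀ ≠ J t x₀` for some `x₀`; `x₀ ≠ t` (`NTriv`), `x₀` is not an end (`z ≤ e x₀ = x₀`), so
`x₀` is interior and `z x₀ ≠ x₀`; by `Eorb` we may move `x₀` to the leg of `p`.
(1) `z x ≠ x` for all interior `x` of the leg: say `x₀ ∈ M ∈ {A,B}`; then it holds for all points of `M`
(homogeneity), and if `M'` is the other class, `DD` gives `b ∈ M'` strictly between `x₀` and `z x₀` (apply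
`DD` to a smaller closed interval inside), and `z b ≥ z x₀ > b`, so it holds for all of `M'`.
(2) `z^m x → p` for every interior `x` of the leg: otherwise the heights `s (z^m x)` (increasing) converge to
`s y`, `y` interior in the leg. For every `x' < y` there is `m` with `x' ≤ z^m x`, so
`z x' ≤ z^{m+1} x ≤ y`. So `y` has the property Q: `∀ x' < y, z x' ≤ y`; Q is invariant under `G_p`. By
`DD` there is a point `y'` of the class of `y` strictly between `x` and `z x`; `y' = g y`, `g ∈ G_p`, so Q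
holds for `y'`: `x < y'` gives `z x ≤ y' < z x`, contradiction.
(3) Suppose an expansion with `x₁ ≠ t` exists. `x₁` is interior (`x₁ ≤ x₂ ≤ p`, `x₁ ≠ x₂`). `S_LX`:
`γ_k ∈ G_p`, `γ_k w → p`, `γ_k x₁ ≤ y'`, `y' ≠ p`. Let `y''` be an interior point of the leg with
`y' ≤ y''`, and `m` with `w ≤ z^m x₁` (by (2), `w ≠ p`). Then
`γ_k w ≤ γ_k (z^m x₁) = z^m (γ_k x₁) ≤ z^m y''`, an interior point of the leg, for all `k`:
contradiction with `γ_k w → p` (heights: `s` is continuous on `J t p`). -/
def S_NS : Prop :=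
  ∀ (X : Type) [MetricSpace X] [CompactSpace X] (t : X) (s : X → ℝ) (e : X → X) (A B : Set X),
    Basic X t s e A B → ∀ p ∈ Ends t e, DD t p A B → (∃ x, N t x ≠ J t x) →
      ∀ (h : ℕ → X ≃ₜ X) (w x₁ x₂ y₁ y₂ : X), x₁ ≠ t → ¬ Expand t p h w x₁ x₂ y₁ y₂

/-- MT: one of the two classes has the Effros property for `Stab {p}` on the leg `J t p`. `J t p` is compact,
so Baire; it is the union of `{t, p}` (nowhere dense in it), `A ∩ J t p` and `B ∩ J t p`; so one of these,
say `A ∩ J t p`, is not meager in the subspace `J t p`, hence not meager in itself. For `a ∈ A ∩ J t p`,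
`Orb {p} a = A ∩ J t p`. Conclude with `S_EFF1`, `S_EFF2` (and `S_MEA` in the subspace; transfer between
the subspace of a subspace and the subspace by a homeomorphism, or prove directly: if
`univ : Set (Orb {p} a)` is meager, then the image in `J t p` is meager in `J t p`, as in `S_MEA`). -/
def S_MT : Prop :=
  ∀ (X : Type) [MetricSpace X] [CompactSpace X] (t : X) (s : X → ℝ) (e : X → X) (A B : Set X),
    Setup X t s e A B → ∀ p ∈ Ends t e, (∀ a ∈ A, a ∈ J t p → Eff ({p} : Set X) a) ∨
      (∀ b ∈ B, b ∈ J t p → Eff ({p} : Set X) b)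

/-- FREE: no expansions implies that `G_p` acts freely on the open leg. Hypotheses: `DD`, no expansions with
`x₁ ≠ t`, and `A` has the Effros property for `Stab {p}` on the leg (the case of `B` by symmetry).
Order `≤` of the leg. A test sequence of size ε for points z_1, …, z_m of the leg is a sequence `h_n`, all
`near ε`, with `h_n '' J t p → J t w`, `w` interior, and `h_n '' J t (z_i) → J t (u_i)`, `u_i ≤ p`; it
exists by `S_NID` and `S_SUB` for every `ε > 0`, and `|s (u_i) - s (z_i)| < η` for small `ε` (`S_NSM`).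
(i) Let `x₁` be interior, `g₁ ∈ G_p`, `g₁ x₁ = x₁`, and `x₁ < x`, `x` interior, `x < g₁ x` (strictly). Then
there is `ε₀ > 0` such that every test sequence of size `ε₀` for `x₁, x`, with limits `u₁, u`, satisfies
`x₁ < u₁`, i.e. NOT `u₁ ≤ x₁`: if `u₁ ≤ x₁` then `g₁ u₁ ≤ x₁`, and `g₁ u ≥ x` for small `ε₀` (`s u` is close
to `s x`, `g₁` is continuous and increasing on the leg, `g₁ x > x`), so
`(g₁ ∘ h_n, g₁ w, x₁, x, g₁ u₁, g₁ u)` is an expansion, `x₁ ≠ t`: contradiction.
(ii) Let `x₁` be interior, `g₁ ∈ G_p`, `g₁ x₁ = x₁`, `x < x₁`, `x` interior, `g₁ x < x`. Then for small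
`ε₀` every test sequence of size `ε₀` for `x, x₁`, with limits `u, u₁`, satisfies NOT `x₁ ≤ u₁`: else
`(g₁ ∘ h_n, g₁ w, x, x₁, g₁ u, g₁ u₁)` is an expansion.
(iii) If `x₁ ∈ A` is interior in the leg and `g₁ ∈ G_p` fixes `x₁` then `g₁` is the identity on `J t p`:
otherwise `g₁ x ≠ x` for some interior `x ≠ x₁`; if `x₁ < x` replace `g₁` by its inverse if necessary to
have `x < g₁ x`; take `ε₀` from (i), a test sequence of size `≤ ε₀/2` so small that moreover `u₁` is so
close to `x₁` that there is `x'' ∈ A` with `u₁ ≤ x''` within the Effros radius `δ` of `x₁` for `ε₀/2`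
(density of `A`: `DD`); the Effros property gives `k ∈ G_p`, `k x₁ = x''`, `near k (ε₀/2)`; `g = k⁻¹`:
`g u₁ ≤ g x'' = x₁`, and `g ∘ h_n` is a test sequence of size `ε₀` with limits `g u₁ ≤ x₁`:
contradiction with (i). If `x < x₁`: similarly with (ii) and `x'' ≤ u₁`.
(iv) If `b ∈ B` is interior in the leg and `g₁ ∈ G_p` fixes `b` then `g₁` is the identity on `J t p`:
otherwise by (iii) `g₁` has no fixed point in `A`; by `DD` there are `a, a' ∈ A` interior with
`a' < b < a`, and `g₁ a ≠ a`, `g₁ a' ≠ a'`; using `g₁` or `g₁⁻¹` in (i) and in (ii), a sufficiently small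
test sequence for `a', b, a` has limit `u_b` with NOT `u_b ≤ b` and NOT `b ≤ u_b`: contradiction with
`Den.total` (both in `J t p`). -/
def S_FREE : Prop :=
  ∀ (X : Type) [MetricSpace X] [CompactSpace X] (t : X) (s : X → ℝ) (e : X → X) (A B : Set X),
    Basic X t s e A B → ¬ Case1 t e → ∀ p ∈ Ends t e, DD t p A B →
      (∀ (h : ℕ → X ≃ₜ X) (w x₁ x₂ y₁ y₂ : X), x₁ ≠ t → ¬ Expand t p h w x₁ x₂ y₁ y₂) →
      (∀ a ∈ A, a ∈ J t p → Eff ({p} : Set X) a) →
      ∀ g ∈ Stab ({p} : Set X), ∀ x ∈ J t p, x ≠ t → x ≠ p → g x = x → ∀ y ∈ J t p, g y = y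

/-- FH: free action plus two dense orbits is impossible (by `S_HOLD`). `c = s p`, `a` the arc
parametrisation of `J t p` (`Den.arc`); for `g ∈ Stab {p}` let `ĝ r = s (g (a r))`; on `(0,c)` it is
continuous and strictly increasing, maps `(0,c)` to itself (`g` fixes `t, p` and preserves order).
`Γ = {ĝ}`; composition: `s (g (h (a r))) = ĝ (s (h (a r)))` since `a (s v) = v` for `v ∈ J t p`; inverse
from `g.symm`; free by hypothesis; `A' = {s x | x ∈ A ∩ J t p}`, `B'` similarly. -/
def S_FH : Prop :=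
  ∀ (X : Type) [MetricSpace X] [CompactSpace X] (t : X) (s : X → ℝ) (e : X → X) (A B : Set X),
    Setup X t s e A B → ∀ p ∈ Ends t e, DD t p A B →
      (∀ g ∈ Stab ({p} : Set X), ∀ x ∈ J t p, x ≠ t → x ≠ p → g x = x → ∀ y ∈ J t p, g y = y) →
      False

/-- SMC: a smooth fan (`N t x = J t x` for all `x`) has continuous height. `x_n → x`; for every `δ`,
eventually `J t (x_n) ⊆ thickening δ (J t x)` (otherwise a subsequence of points `v_n ≤ x_n` converges to
`v ∈ N t x = J t x` with `infDist v (J t x) ≥ δ`) and `J t x ⊆ thickening δ (J t (x_n))` (otherwise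
points `v_n ∈ J t x`, `v_n → v ∈ J t x` along a subsequence, contradicting `Den.lsc` for `v`); `s_unif`. -/
def S_SMC : Prop :=
  ∀ (X : Type) [MetricSpace X] [CompactSpace X] (t : X) (s : X → ℝ), Den X t s →
    (∀ x, N t x = J t x) → Continuous s

/-- DNE: in the dense case, not case 1, the ends are dense. There is `x₀ ∈ closure Ends`, `x₀ ≠ t`, not an
end. `closure Ends` is invariant. For every end `q` move `x₀` to the leg of `q` (`Eorb`): `x₁`. Say
`x₁ ∈ M ∈ {A,B}`; all of `M ∩ J t q` is in `closure Ends`; `DD` holds for every end `q` (hypothesis for all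
`q`), so `M` is dense in `J t q`, so `J t q ⊆ closure Ends`. Every `x` is in `J t (e x)`. -/
def S_DNE : Prop :=
  ∀ (X : Type) [MetricSpace X] [CompactSpace X] (t : X) (s : X → ℝ) (e : X → X) (A B : Set X),
    Setup X t s e A B → ¬ Case1 t e → (∀ q ∈ Ends t e, DD t q A B) →
      closure (Ends t e) = Set.univ

end Pool.Agent.H273.FAN
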